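import Pool.Agent.ABG.Defs

set_option autoImplicit false

open scoped TensorProduct

namespace Pool.ABG


theorem ab01_add_left {A : Type} [NonUnitalNonAssocRing A] (p p' q r : A) :
    as (p + p') q r = as p q r + as p' q r := by
  unfold as
  rw [add_mul, add_mul, add_mul]
  abel

theorem ab01_add_mid {A : Type} [NonUnitalNonAssocRing A] (p q q' r : A) :
    as p (q + q') r = as p q r + as p q' r := by
  unfold as
  rw [mul_add, add_mul, add_mul, mul_add]
  abel

theorem ab01_add_right {A : Type} [NonUnitalNonAssocRing A] (p q r r' : A) :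
    as p q (r + r') = as p q r + as p q r' := by
  unfold as
  rw [mul_add, mul_add, mul_add]
  abel

theorem ab01_left0 {A : Type} [NonUnitalNonAssocRing A] [IsAlt A] (p r : A) :
    as p p r = 0 := by
  unfold as
  rw [IsAlt.left, sub_self]

theorem ab01_right0 {A : Type} [NonUnitalNonAssocRing A] [IsAlt A] (p r : A) :
    as p r r = 0 := by
  unfold as
  rw [IsAlt.right, sub_self]

theorem ab01_swap_left {A : Type} [NonUnitalNonAssocRing A] [IsAlt A] (p q r : A) :
    as q p r = -as p q r := by
  have h := ab01_left0 (p + q) r
  rw [ab01_add_left, ab01_add_mid, ab01_add_mid, ab01_left0, ab01_left0, zero_add,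
    add_zero] at h
  exact eq_neg_of_add_eq_zero_right h

theorem ab01_swap_right {A : Type} [NonUnitalNonAssocRing A] [IsAlt A] (p q r : A) :
    as p r q = -as p q r := by
  have h := ab01_right0 p (q + r)
  rw [ab01_add_mid, ab01_add_right, ab01_add_right, ab01_right0, ab01_right0, zero_add,
    add_zero] at h
  exact eq_neg_of_add_eq_zero_right h


/-- the associator of an alternative ring is alternating -/
theorem as_facts {A : Type} [NonUnitalNonAssocRing A] [IsAlt A] (p q r : A) :
    as p p r = 0 ∧ as p r r = 0 ∧ as p r p = 0 ∧ as q p r = -as p q r ∧ as p r q = -as p q r ∧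
      as r q p = -as p q r ∧ as q r p = as p q r ∧ as r p q = as p q r := by
  refine ⟨ab01_left0 p r, ab01_right0 p r, ?_, ab01_swap_left p q r, ab01_swap_right p q r,
    ?_, ?_, ?_⟩
  · rw [ab01_swap_left r p p, ab01_right0, neg_zero]
  · rw [ab01_swap_left q r p, ab01_swap_right q p r, ab01_swap_left p q r, neg_neg]
  · rw [ab01_swap_right q p r, ab01_swap_left p q r, neg_neg]
  · rw [ab01_swap_left p r q, ab01_swap_right p q r, neg_neg]


/-- the operator `D` in terms of commutators and the associator -/
theorem D_eq (k : Type) [Field k] {A : Type} [NonUnitalNonAssocRing A] [Module k A]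
    [IsScalarTower k A A] [SMulCommClass k A A] [IsAlt A] (p q r : A) :
    D k p q r = ((p * q - q * p) * r - r * (p * q - q * p)) -
      (as p q r + as p q r + as p q r) := by
  rw [D_apply]
  obtain ⟨-, -, -, h1, h2, h3, h4, h5⟩ := as_facts p q r
  have e1 : p * (q * r) = (p * q) * r - as p q r := by unfold as; abel
  have e2 : q * (p * r) = (q * p) * r + as p q r := by
    rw [← neg_neg (as p q r), ← h1]; unfold as; abel
  have e3 : (r * q) * p = r * (q * p) - as p q r := by
    rw [sub_eq_add_neg, ← h3]; unfold as; abel
  have e4 : (r * p) * q = r * (p * q) + as p q r := by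
    rw [← h5]; unfold as; abel
  have e5 : p * (r * q) - (p * r) * q = as p q r := by
    rw [← neg_neg (as p q r), ← h2]; unfold as; abel
  rw [e5, e1, e2, e3, e4, sub_mul, mul_sub]
  abel

end Pool.ABG
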