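import Pool.Agent.ABG.Defs
import Pool.Agent.ABG.A01

set_option autoImplicit false

open scoped TensorProduct

namespace Pool.ABG


/-- Teichmueller's identity, for an alternating associator -/
theorem ab02_teich {A : Type} [NonUnitalNonAssocRing A] [IsAlt A] (w x y z : A) :
    as (w * x) y z + as (x * y) w z + as (y * z) w x = w * as x y z + as w x y * z := by
  have h1 : as w (x * y) z = -as (x * y) w z := (as_facts (x * y) w z).2.2.2.1
  have h2 : as w x (y * z) = as (y * z) w x := by
    obtain ⟨-, -, -, -, -, -, h, -⟩ := as_facts (y * z) w x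
    exact h
  have h3 : as (w * x) y z - as w (x * y) z + as w x (y * z) = w * as x y z + as w x y * z := by
    simp only [as, mul_sub, sub_mul]
    abel
  rw [h1, h2, sub_neg_eq_add] at h3
  exact h3

theorem ab02_two {A : Type} [NonUnitalNonAssocRing A] [IsAlt A] (p q r s : A) :
    (2 : ℤ) • (as (p * q) r s + as (q * r) p s + as (r * p) q s) =
      (2 : ℤ) • (as p q r * s - s * as p q r) := by
  obtain ⟨-, -, -, -, a2, -, a4, -⟩ := as_facts p q r
  obtain ⟨-, -, -, -, b2, -, b4, b5⟩ := as_facts p q s
  obtain ⟨-, -, -, c1, c2, -, -, c5⟩ := as_facts p r s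
  obtain ⟨-, -, -, d1, d2, d3, d4, d5⟩ := as_facts q r s
  have f : ∀ x y z : A, as x z y = -as x y z := fun x y z => (as_facts x y z).2.2.2.2.1
  have e1 := ab02_teich p q r s
  have e2 := ab02_teich p q s r
  have e3 := ab02_teich p r q s
  have e4 := ab02_teich p r s q
  have e5 := ab02_teich p s q r
  have e6 := ab02_teich p s r q
  have e7 := ab02_teich q r p s
  have e8 := ab02_teich q s p r
  have e9 := ab02_teich s p q r
  simp only [a2, a4, b2, b4, b5, c1, c2, c5, d1, d2, d3, d4, d5,
    f (p * q) r s, f (p * r) q s, f (p * s) q r, f (q * r) p s,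
    mul_neg, neg_mul] at e1 e2 e3 e4 e5 e6 e7 e8 e9 ⊢
  linear_combination (norm := module) (-1 : ℤ) • e1 + (-1 : ℤ) • e2 + (-1 : ℤ) • e3 + (1 : ℤ) • e4 +
    (-1 : ℤ) • e5 + (1 : ℤ) • e6 + (2 : ℤ) • e7 + (2 : ℤ) • e8 + (-2 : ℤ) • e9


/-- the cyclic identity for `D` -/
theorem D_cyc (k : Type) [Field k] {A : Type} [NonUnitalNonAssocRing A] [Module k A]
    [IsScalarTower k A A] [SMulCommClass k A A] [IsAlt A] [CharZero k] (p q r s : A) :
    D k (p * q) r s + D k (q * r) p s + D k (r * p) q s = 0 := by
  have h2 : as (p * q) r s + as (q * r) p s + as (r * p) q s =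
      as p q r * s - s * as p q r := by
    have h := ab02_two p q r s
    have h' : (2 : k) • (as (p * q) r s + as (q * r) p s + as (r * p) q s) =
        (2 : k) • (as p q r * s - s * as p q r) := by
      simpa only [two_smul] using h
    exact smul_right_injective A (two_ne_zero : (2 : k) ≠ 0) h'
  obtain ⟨-, -, -, -, -, -, a4, a5⟩ := as_facts p q r
  have h4 : (p * q * r - r * (p * q)) + (q * r * p - p * (q * r)) + (r * p * q - q * (r * p)) =
      as p q r + as p q r + as p q r := by
    have h5 : (p * q * r - r * (p * q)) + (q * r * p - p * (q * r)) + (r * p * q - q * (r * p)) =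
        as p q r + as q r p + as r p q := by
      simp only [as]
      abel
    rw [h5, a4, a5]
  have h6 : (p * q * r - r * (p * q)) * s + (q * r * p - p * (q * r)) * s +
      (r * p * q - q * (r * p)) * s = as p q r * s + as p q r * s + as p q r * s := by
    rw [← add_mul, ← add_mul, h4, add_mul, add_mul]
  have h7 : s * (p * q * r - r * (p * q)) + s * (q * r * p - p * (q * r)) +
      s * (r * p * q - q * (r * p)) = s * as p q r + s * as p q r + s * as p q r := by
    rw [← mul_add, ← mul_add, h4, mul_add, mul_add]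
  rw [D_eq, D_eq, D_eq]
  linear_combination (norm := module) h6 - h7 - (3 : ℤ) • h2

end Pool.ABG
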