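import Pool.Agent.ABG.Defs
import Pool.Agent.ABG.A01

set_option autoImplicit false


open scoped TensorProduct

namespace Pool.ABG


theorem ab03_T {A : Type} [NonUnitalNonAssocRing A] (w x y z : A) :
    as (w * x) y z - as w (x * y) z + as w x (y * z) - w * as x y z - as w x y * z = 0 := by
  simp only [as, mul_sub, sub_mul]
  abel

theorem ab03_key {A : Type} [NonUnitalNonAssocRing A] [IsAlt A] (p q r s : A) :
    as (p * q) r s - as (q * p) r s + as p q (r * s) - as p q r * s - r * as p q s = 0 := by
  have e1 : as (q * r) p s = -as p (q * r) s := (as_facts p (q * r) s).2.2.2.1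
  have e2 : as q r (p * s) = as (p * s) q r := (as_facts (p * s) q r).2.2.2.2.2.2.1
  have e3 : as r p s = -as p r s := (as_facts p r s).2.2.2.1
  have e4 : as q r p = as p q r := (as_facts p q r).2.2.2.2.2.2.1
  have e5 : as (q * r) s p = as p (q * r) s := (as_facts p (q * r) s).2.2.2.2.2.2.1
  have e6 : as q (r * s) p = as p q (r * s) := (as_facts p q (r * s)).2.2.2.2.2.2.1
  have e7 : as r s p = as p r s := (as_facts p r s).2.2.2.2.2.2.1
  have e8 : as (r * q) s p = as p (r * q) s := (as_facts p (r * q) s).2.2.2.2.2.2.1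
  have e9 : as r (q * s) p = -as p (q * s) r := (as_facts p (q * s) r).2.2.2.2.2.1
  have e10 : as r q (s * p) = -as q r (s * p) := (as_facts q r (s * p)).2.2.2.1
  have e11 : as q s p = as p q s := (as_facts p q s).2.2.2.2.2.2.1
  have e12 : as r q s = -as q r s := (as_facts q r s).2.2.2.1
  have e13 : as (r * p) q s = -as q (r * p) s := (as_facts q (r * p) s).2.2.2.1
  have e14 : as r (p * q) s = -as (p * q) r s := (as_facts (p * q) r s).2.2.2.1
  have e15 : as r p (q * s) = as p (q * s) r := (as_facts p (q * s) r).2.2.2.2.2.2.2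
  have e16 : as r p q = as p q r := (as_facts p q r).2.2.2.2.2.2.2
  have e17 : as (r * q) p s = -as p (r * q) s := (as_facts p (r * q) s).2.2.2.1
  have e18 : as r (q * p) s = -as (q * p) r s := (as_facts (q * p) r s).2.2.2.1
  have e19 : as r q (p * s) = -as (p * s) q r := (as_facts (p * s) q r).2.2.2.2.2.1
  have e20 : as q p s = -as p q s := (as_facts p q s).2.2.2.1
  have e21 : as r q p = -as p q r := (as_facts p q r).2.2.2.2.2.1
  have h : as (p * q) r s - as (q * p) r s + as p q (r * s) - as p q r * s - r * as p q s =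
      -(as (q * r) p s - as q (r * p) s + as q r (p * s) - q * as r p s - as q r p * s)
      - (as (q * r) s p - as q (r * s) p + as q r (s * p) - q * as r s p - as q r s * p)
      - (as (r * q) s p - as r (q * s) p + as r q (s * p) - r * as q s p - as r q s * p)
      + (as (r * p) q s - as r (p * q) s + as r p (q * s) - r * as p q s - as r p q * s)
      - (as (r * q) p s - as r (q * p) s + as r q (p * s) - r * as q p s - as r q p * s) := by
    simp only [e1, e2, e3, e4, e5, e6, e7, e8, e9, e10, e11, e12, e13, e14, e15, e16, e17, e18, e19, e20, e21, mul_neg, neg_mul]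
    abel
  rw [h, ab03_T, ab03_T, ab03_T, ab03_T, ab03_T]
  simp only [neg_zero, sub_zero, add_zero]

theorem ab03_ad {A : Type} [NonUnitalNonAssocRing A] [IsAlt A] (a r s : A) :
    a * (r * s) - (r * s) * a = (a * r - r * a) * s + r * (a * s - s * a) -
      (as a r s + as a r s + as a r s) := by
  have e1 : as r a s = -as a r s := (as_facts a r s).2.2.2.1
  have e2 : as r s a = as a r s := (as_facts a r s).2.2.2.2.2.2.1
  have h : a * (r * s) - (r * s) * a - ((a * r - r * a) * s + r * (a * s - s * a)) =
      -as a r s + as r a s - as r s a := by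
    simp only [as, mul_sub, sub_mul]
    abel
  rw [e1, e2] at h
  rw [sub_eq_iff_eq_add] at h
  rw [h]
  abel

theorem ab03_sub {A : Type} [NonUnitalNonAssocRing A] (a b r s : A) :
    as (a - b) r s = as a r s - as b r s := by
  simp only [as, sub_mul]
  abel

/-- `D_{p,q}` is a derivation -/
theorem D_der (k : Type) [Field k] {A : Type} [NonUnitalNonAssocRing A] [Module k A]
    [IsScalarTower k A A] [SMulCommClass k A A] [IsAlt A] [CharZero k] (p q r s : A) :
    D k p q (r * s) = D k p q r * s + r * D k p q s := by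
  rw [D_eq k p q (r * s), D_eq k p q r, D_eq k p q s, ab03_ad (p * q - q * p) r s, ab03_sub]
  have hk := ab03_key p q r s
  rw [← sub_eq_zero]
  have h1 : ∀ a x1 x2 x3 x4 x5 : A, (a * r - r * a) * s + r * (a * s - s * a) -
      (x1 - x2 + (x1 - x2) + (x1 - x2)) - (x3 + x3 + x3) -
      ((a * r - r * a - (x4 + x4 + x4)) * s + r * (a * s - s * a - (x5 + x5 + x5))) =
      -((x1 - x2 + x3 - x4 * s - r * x5) + (x1 - x2 + x3 - x4 * s - r * x5) +
        (x1 - x2 + x3 - x4 * s - r * x5)) := by
    intro a x1 x2 x3 x4 x5
    simp only [mul_sub, sub_mul, mul_add, add_mul]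
    abel
  rw [h1, hk]
  simp only [add_zero, neg_zero]

end Pool.ABG
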