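import Pool.Agent.ABG.Defs
import Pool.Agent.ABG.A01

set_option autoImplicit false


open scoped TensorProduct

namespace Pool.ABG


/-- basic properties of `w` -/
theorem w_facts (k : Type) [Field k] {A : Type} [NonUnitalNonAssocRing A] [Module k A]
    [IsScalarTower k A A] [SMulCommClass k A A] (p p' q r : A) (c : k) :
    w k (p + p') q = w k p q + w k p' q ∧ w k q (p + p') = w k q p + w k q p' ∧
      w k (c • p) q = c • w k p q ∧ w k p (c • q) = c • w k p q ∧ w k p p = 0 ∧
      w k q p = -w k p q ∧ w k (p * q) r + w k (q * r) p + w k (r * p) q = 0 := by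
  have hadd1 : ∀ x y z : A, w k (x + y) z = w k x z + w k y z := by
    intro x y z
    unfold w
    rw [TensorProduct.add_tmul, Submodule.Quotient.mk_add]
  have hadd2 : ∀ x y z : A, w k x (y + z) = w k x y + w k x z := by
    intro x y z
    unfold w
    rw [TensorProduct.tmul_add, Submodule.Quotient.mk_add]
  have hself : ∀ x : A, w k x x = 0 := by
    intro x
    unfold w
    rw [Submodule.Quotient.mk_eq_zero]
    exact Submodule.subset_span (Or.inl ⟨x, rfl⟩)
  refine ⟨hadd1 _ _ _, hadd2 _ _ _, ?_, ?_, hself p, ?_, ?_⟩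
  · unfold w
    rw [← TensorProduct.smul_tmul', Submodule.Quotient.mk_smul]
  · unfold w
    rw [TensorProduct.tmul_smul, Submodule.Quotient.mk_smul]
  · have h := hself (p + q)
    rw [hadd1, hadd2, hadd2, hself, hself, zero_add, add_zero] at h
    exact (neg_eq_of_add_eq_zero_right h).symm
  · have h : Submodule.Quotient.mk (p := relB k A)
        ((p * q) ⊗ₜ[k] r + (q * r) ⊗ₜ[k] p + (r * p) ⊗ₜ[k] q) = 0 := by
      rw [Submodule.Quotient.mk_eq_zero]
      exact Submodule.subset_span (Or.inr ⟨p, q, r, rfl⟩)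
    rw [Submodule.Quotient.mk_add, Submodule.Quotient.mk_add] at h
    exact h

/-- the alternating sum over the 24 orders of four letters -/
theorem ab04_alt {A M : Type} [AddCommGroup M] (T α V : A → A → A → A → M)
    (hV : ∀ a b c d, V c d a b = -V a b c d)
    (h : ∀ a b c d, α a b c d = T a b c d + T b c d a - V b c d a)
    (h12 : ∀ a b c d, α b a c d = -α a b c d)
    (h23 : ∀ a b c d, α a c b d = -α a b c d) (a b c d : A) :
    (6 : ℤ) • (α a b c d - α a b d c + α a c d b - α b c d a) = 0 := by
  have e1 : ∀ x y z t, α y z x t = α x y z t := by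
    intro x y z t
    rw [h23 y x z t, h12 x y z t, neg_neg]
  have e2 : ∀ x y z t, α z x y t = α x y z t := by
    intro x y z t
    rw [← e1 z x y t]
  have e3 : ∀ x y z t, α z y x t = -α x y z t := by
    intro x y z t
    rw [h12 y z x t, e1]
  have s1 : ∀ x y z t, (6 : ℤ) • α x y z t = α x y z t - α y x z t - α x z y t - α z y x t +
      α y z x t + α z x y t := by
    intro x y z t
    rw [e1 x y z t, e2 x y z t, e3 x y z t, h12 x y z t, h23 x y z t]
    abel
  rw [smul_sub, smul_add, smul_sub, s1 a b c d, s1 a b d c, s1 a c d b, s1 b c d a]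
  simp only [h]
  have v1 := hV a b c d
  have v2 := hV a b d c
  have v3 := hV b a c d
  have v4 := hV b a d c
  have v5 := hV a c b d
  have v6 := hV a c d b
  have v7 := hV c a b d
  have v8 := hV c a d b
  have v9 := hV a d b c
  have v10 := hV a d c b
  have v11 := hV d a b c
  have v12 := hV d a c b
  rw [v1, v2, v3, v4, v5, v6, v7, v8, v9, v10, v11, v12]
  abel

/-- the bracket of `B A` is skew-symmetric -/
theorem B_skew (k : Type) [Field k] {A : Type} [NonUnitalNonAssocRing A] [Module k A]
    [IsScalarTower k A A] [SMulCommClass k A A] [IsAlt A] [CharZero k] (p q r s : A) :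
    (w k (D k p q r) s + w k r (D k p q s)) + (w k (D k r s p) q + w k p (D k r s q)) = 0 := by
  have hadd1 : ∀ x y z : A, w k (x + y) z = w k x z + w k y z := fun x y z =>
    (w_facts k x y z 0 0).1
  have hadd2 : ∀ x y z : A, w k x (y + z) = w k x y + w k x z := fun x y z =>
    (w_facts k y z x 0 0).2.1
  have hanti : ∀ x y : A, w k y x = -w k x y := fun x y =>
    (w_facts k x 0 y 0 0).2.2.2.2.2.1
  have hrel : ∀ x y z : A, w k (x * y) z + w k (y * z) x + w k (z * x) y = 0 := fun x y z =>
    (w_facts k x 0 y z 0).2.2.2.2.2.2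
  have hz1 : ∀ z : A, w k 0 z = 0 := by
    intro z
    have := hadd1 0 0 z
    rw [add_zero] at this
    exact left_eq_add.mp this
  have hneg1 : ∀ x z : A, w k (-x) z = -w k x z := by
    intro x z
    have := hadd1 x (-x) z
    rw [add_neg_cancel, hz1] at this
    exact (neg_eq_of_add_eq_zero_right this.symm).symm
  have hneg2 : ∀ x z : A, w k x (-z) = -w k x z := by
    intro x z
    rw [hanti (-z) x, hneg1, hanti x z, neg_neg]
  have hsub1 : ∀ x y z : A, w k (x - y) z = w k x z - w k y z := by
    intro x y z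
    rw [sub_eq_add_neg, hadd1, hneg1, sub_eq_add_neg]
  have hsub2 : ∀ x y z : A, w k x (y - z) = w k x y - w k x z := by
    intro x y z
    rw [sub_eq_add_neg, hadd2, hneg2, sub_eq_add_neg]
  -- the commutator part
  have hcomm : ∀ c r s : A, w k (c * r - r * c) s + w k r (c * s - s * c) =
      w k c (r * s - s * r) := by
    intro c r s
    have h1 := hrel c r s
    have h2 := hrel r c s
    rw [hsub1, hsub2, hsub2, hanti (c * s) r, hanti (s * c) r, hanti (r * s) c,
      hanti (s * r) c]
    have h3 : w k (c * r) s = -(w k (r * s) c + w k (s * c) r) := by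
      rw [add_assoc] at h1
      exact eq_neg_of_add_eq_zero_left h1
    have h4 : w k (r * c) s = -(w k (c * s) r + w k (s * r) c) := by
      rw [add_assoc] at h2
      exact eq_neg_of_add_eq_zero_left h2
    rw [h3, h4]
    abel
  -- the associator part
  have halt := ab04_alt (fun a b c d : A => w k ((a * b) * c) d)
    (fun a b c d : A => w k (as a b c) d) (fun a b c d : A => w k (a * b) (c * d))
    (fun a b c d => hanti _ _)
    (by
      intro a b c d
      have h := hrel (b * c) d a
      have h' : w k (b * c * d) a = -(w k (d * a) (b * c) + w k (a * (b * c)) d) := by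
        rw [add_assoc] at h
        exact eq_neg_of_add_eq_zero_left h
      show w k (as a b c) d = w k (a * b * c) d + w k (b * c * d) a - w k (b * c) (d * a)
      rw [as, hsub1, h', hanti (d * a) (b * c)]
      abel)
    (fun a b c d => by
      show w k (as b a c) d = -w k (as a b c) d
      rw [(as_facts a b c).2.2.2.1, hneg1])
    (fun a b c d => by
      show w k (as a c b) d = -w k (as a b c) d
      rw [(as_facts a b c).2.2.2.2.1, hneg1]) p q r s
  have halt' : w k (as p q r) s - w k (as p q s) r + w k (as p r s) q - w k (as q r s) p = 0 := by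
    have h6 : (6 : k) • (w k (as p q r) s - w k (as p q s) r + w k (as p r s) q -
        w k (as q r s) p) = 0 := by
      rw [← halt]
      rw [← Int.cast_smul_eq_zsmul k]
      norm_num
    rcases smul_eq_zero.mp h6 with h | h
    · exact absurd h (by norm_num)
    · exact h
  rw [D_eq, D_eq, D_eq, D_eq, hsub1 ((p * q - q * p) * r - r * (p * q - q * p)) _ s,
    hsub1 ((r * s - s * r) * p - p * (r * s - s * r)) _ q,
    hsub2 r ((p * q - q * p) * s - s * (p * q - q * p)) _,
    hsub2 p ((r * s - s * r) * q - q * (r * s - s * r)) _]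
  have c1 := hcomm (p * q - q * p) r s
  have c2 := hcomm (r * s - s * r) p q
  have c3 := hanti (p * q - q * p) (r * s - s * r)
  have a1 : as r s p = as p r s := (as_facts p r s).2.2.2.2.2.2.1
  have a2 : as r s q = as q r s := (as_facts q r s).2.2.2.2.2.2.1
  rw [a1, a2]
  have t1 : w k (as p q r + as p q r + as p q r) s =
      w k (as p q r) s + w k (as p q r) s + w k (as p q r) s := by
    rw [hadd1, hadd1]
  have t2 : w k r (as p q s + as p q s + as p q s) =
      -(w k (as p q s) r + w k (as p q s) r + w k (as p q s) r) := by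
    rw [hadd2, hadd2, hanti (as p q s) r]
    abel
  have t3 : w k (as p r s + as p r s + as p r s) q =
      w k (as p r s) q + w k (as p r s) q + w k (as p r s) q := by
    rw [hadd1, hadd1]
  have t4 : w k p (as q r s + as q r s + as q r s) =
      -(w k (as q r s) p + w k (as q r s) p + w k (as q r s) p) := by
    rw [hadd2, hadd2, hanti (as q r s) p]
    abel
  rw [t1, t2, t3, t4]
  have g : ∀ X1 X2 X3 X4 Y1 Y2 Y3 Y4 Z : B k A, X1 + X2 = Z → X3 + X4 = -Z →
      Y1 - Y2 + Y3 - Y4 = 0 →
      (X1 - (Y1 + Y1 + Y1) + (X2 - -(Y2 + Y2 + Y2))) +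
        (X3 - (Y3 + Y3 + Y3) + (X4 - -(Y4 + Y4 + Y4))) = 0 := by
    intro X1 X2 X3 X4 Y1 Y2 Y3 Y4 Z h1 h2 h3
    have e : (X1 - (Y1 + Y1 + Y1) + (X2 - -(Y2 + Y2 + Y2))) +
        (X3 - (Y3 + Y3 + Y3) + (X4 - -(Y4 + Y4 + Y4))) =
        (X1 + X2) + (X3 + X4) - (Y1 - Y2 + Y3 - Y4) - (Y1 - Y2 + Y3 - Y4) -
          (Y1 - Y2 + Y3 - Y4) := by
      abel
    rw [e, h1, h2, h3]
    abel
  exact g _ _ _ _ _ _ _ _ _ c1 (c2.trans c3) halt'

end Pool.ABG
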