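import Pool.Agent.ABG.Defs
import Pool.Agent.ABG.A04

set_option autoImplicit false

/-!
Jacobi identity, B component
-/

open scoped TensorProduct

namespace Pool.ABG


/-- `w` as an additive map in the first variable -/
noncomputable def ab05_wl (k : Type) [Field k] {A : Type} [NonUnitalNonAssocRing A] [Module k A]
    [IsScalarTower k A A] [SMulCommClass k A A] (q : A) : A →+ B k A where
  toFun p := w k p q
  map_zero' := by
    have h := (w_facts k (0 : A) 0 q 0 0).2.2.1
    simpa using h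
  map_add' p p' := (w_facts k p p' q 0 0).1

/-- `w` as an additive map in the second variable -/
noncomputable def ab05_wr (k : Type) [Field k] {A : Type} [NonUnitalNonAssocRing A] [Module k A]
    [IsScalarTower k A A] [SMulCommClass k A A] (q : A) : A →+ B k A where
  toFun p := w k q p
  map_zero' := by
    have h := (w_facts k q 0 0 0 0).2.2.2.1
    simpa using h
  map_add' p p' := (w_facts k p p' q 0 0).2.1

/-- the triple sum -/
noncomputable def ab05_S (k : Type) [Field k] {A : Type} [NonUnitalNonAssocRing A] [Module k A]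
    [IsScalarTower k A A] [SMulCommClass k A A] (P Q R : Matrix (Fin 3) (Fin 3) A) : B k A :=
  ∑ i, ∑ j, ∑ l, w k (P i l * Q l j) (R j i)

theorem ab05_cyc (k : Type) [Field k] {A : Type} [NonUnitalNonAssocRing A] [Module k A]
    [IsScalarTower k A A] [SMulCommClass k A A] (P Q R : Matrix (Fin 3) (Fin 3) A) :
    ab05_S k P Q R + ab05_S k Q R P + ab05_S k R P Q = 0 := by
  have h2 : ab05_S k Q R P = ∑ i, ∑ j, ∑ l, w k (Q l j * R j i) (P i l) := by
    unfold ab05_S
    calc ∑ i, ∑ j, ∑ l, w k (Q i l * R l j) (P j i)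
        = ∑ j, ∑ i, ∑ l, w k (Q i l * R l j) (P j i) := Finset.sum_comm
      _ = ∑ j, ∑ l, ∑ i, w k (Q i l * R l j) (P j i) :=
          Finset.sum_congr rfl fun j _ => Finset.sum_comm
      _ = ∑ i, ∑ j, ∑ l, w k (Q l j * R j i) (P i l) := rfl
  have h3 : ab05_S k R P Q = ∑ i, ∑ j, ∑ l, w k (R j i * P i l) (Q l j) := by
    unfold ab05_S
    calc ∑ i, ∑ j, ∑ l, w k (R i l * P l j) (Q j i)
        = ∑ i, ∑ l, ∑ j, w k (R i l * P l j) (Q j i) :=
          Finset.sum_congr rfl fun i _ => Finset.sum_comm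
      _ = ∑ l, ∑ i, ∑ j, w k (R i l * P l j) (Q j i) := Finset.sum_comm
      _ = ∑ i, ∑ j, ∑ l, w k (R j i * P i l) (Q l j) := rfl
  rw [h2, h3]
  unfold ab05_S
  rw [← Finset.sum_add_distrib, ← Finset.sum_add_distrib]
  refine Finset.sum_eq_zero fun i _ => ?_
  rw [← Finset.sum_add_distrib, ← Finset.sum_add_distrib]
  refine Finset.sum_eq_zero fun j _ => ?_
  rw [← Finset.sum_add_distrib, ← Finset.sum_add_distrib]
  refine Finset.sum_eq_zero fun l _ => ?_
  exact (w_facts k (P i l) 0 (Q l j) (R j i) 0).2.2.2.2.2.2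

theorem ab05_mul (k : Type) [Field k] {A : Type} [NonUnitalNonAssocRing A] [Module k A]
    [IsScalarTower k A A] [SMulCommClass k A A] (P Q R : Matrix (Fin 3) (Fin 3) A) :
    ∑ i, ∑ j, w k ((P * Q) i j) (R j i) = ab05_S k P Q R := by
  unfold ab05_S
  refine Finset.sum_congr rfl fun i _ => Finset.sum_congr rfl fun j _ => ?_
  rw [Matrix.mul_apply]
  exact map_sum (ab05_wl k (R j i)) _ _

theorem ab05_diag (k : Type) [Field k] {A : Type} [NonUnitalNonAssocRing A] [Module k A]
    [IsScalarTower k A A] [SMulCommClass k A A] (t : A) (R : Matrix (Fin 3) (Fin 3) A)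
    (hR : R.trace = 0) :
    ∑ i, ∑ j, w k ((Matrix.diagonal (fun _ => t) : Matrix (Fin 3) (Fin 3) A) i j) (R j i) = 0 := by
  have h1 : ∀ i : Fin 3, ∑ j, w k ((Matrix.diagonal (fun _ => t) : Matrix (Fin 3) (Fin 3) A) i j)
      (R j i) = w k t (R i i) := by
    intro i
    rw [Finset.sum_eq_single i]
    · rw [Matrix.diagonal_apply_eq]
    · intro j _ hj
      rw [Matrix.diagonal_apply_ne _ (Ne.symm hj)]
      exact map_zero (ab05_wl k (R j i))
    · intro h
      exact absurd (Finset.mem_univ i) h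
  rw [Finset.sum_congr rfl fun i _ => h1 i]
  have h2 : ∑ i, w k t (R i i) = ab05_wr k t (∑ i, R i i) :=
    (map_sum (ab05_wr k t) (fun i => R i i) Finset.univ).symm
  rw [h2]
  have h3 : ∑ i, R i i = 0 := hR
  rw [h3, map_zero]

theorem ab05_pair (k : Type) [Field k] {A : Type} [NonUnitalNonAssocRing A] [Module k A]
    [IsScalarTower k A A] [SMulCommClass k A A] (P Q R : Matrix (Fin 3) (Fin 3) A)
    (hR : R.trace = 0) :
    pair k (comm0 k P Q) R = (3⁻¹ : k) • (ab05_S k P Q R - ab05_S k Q P R) := by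
  unfold pair comm0
  have h : ∀ (i j : Fin 3), w k ((P * Q - Q * P - (Matrix.diagonal
      (fun _ => (3⁻¹ : k) • (P * Q - Q * P).trace) : Matrix (Fin 3) (Fin 3) A)) i j) (R j i) =
      w k ((P * Q) i j) (R j i) - w k ((Q * P) i j) (R j i) -
        w k ((Matrix.diagonal (fun _ => (3⁻¹ : k) • (P * Q - Q * P).trace) :
          Matrix (Fin 3) (Fin 3) A) i j) (R j i) := by
    intro i j
    rw [Matrix.sub_apply, Matrix.sub_apply]
    have h1 := map_sub (ab05_wl k (R j i)) ((P * Q) i j - (Q * P) i j)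
      ((Matrix.diagonal (fun _ => (3⁻¹ : k) • (P * Q - Q * P).trace) :
          Matrix (Fin 3) (Fin 3) A) i j)
    have h2 := map_sub (ab05_wl k (R j i)) ((P * Q) i j) ((Q * P) i j)
    rw [h2] at h1
    exact h1
  rw [Finset.sum_congr rfl fun i _ => Finset.sum_congr rfl fun j _ => h i j]
  simp only [Finset.sum_sub_distrib]
  rw [ab05_mul, ab05_mul, ab05_diag k _ R hR, sub_zero]


/-- the component in `B A` of the Jacobi identity for three matrices -/
theorem pair_jacobi (k : Type) [Field k] {A : Type} [NonUnitalNonAssocRing A] [Module k A]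
    [IsScalarTower k A A] [SMulCommClass k A A] [CharZero k] (P Q R : Matrix (Fin 3) (Fin 3) A)
    (hP : P.trace = 0) (hQ : Q.trace = 0) (hR : R.trace = 0) :
    pair k (comm0 k P Q) R + pair k (comm0 k Q R) P + pair k (comm0 k R P) Q = 0 := by
  rw [ab05_pair k P Q R hR, ab05_pair k Q R P hP, ab05_pair k R P Q hQ, ← smul_add, ← smul_add]
  have h1 := ab05_cyc k P Q R
  have h2 := ab05_cyc k Q P R
  have h3 : (ab05_S k P Q R - ab05_S k Q P R) + (ab05_S k Q R P - ab05_S k R Q P) +
      (ab05_S k R P Q - ab05_S k P R Q) =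
      (ab05_S k P Q R + ab05_S k Q R P + ab05_S k R P Q) -
        (ab05_S k Q P R + ab05_S k P R Q + ab05_S k R Q P) := by abel
  rw [h3, h1, h2, sub_zero, smul_zero]

end Pool.ABG
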