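import Pool.Agent.ABG.Defs
import Pool.Agent.ABG.A01

set_option autoImplicit false

open scoped TensorProduct

namespace Pool.ABG


/-- the sum over the paths and the trace terms -/
def ab06_S {A : Type} [AddCommGroup A] (φ : A → A → A → A) (P Q R : Matrix (Fin 3) (Fin 3) A)
    (k l : Fin 3) : A :=
  (∑ i, ∑ j, (φ (P k i) (Q i j) (R j l) + φ (P j l) (Q k i) (R i j) + φ (P i j) (Q j l) (R k i) +
    φ (P i j) (Q k i) (R j l) + φ (P j l) (Q i j) (R k i) + φ (P k i) (Q j l) (R i j))) -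
  ∑ i, ∑ j, (φ (P i j) (Q j i) (R k l) + φ (P k l) (Q i j) (R j i) + φ (P j i) (Q k l) (R i j))

/-- polarised Cayley-Hamilton -/
theorem ab06_CH {A : Type} [AddCommGroup A] (φ : A → A → A → A)
    (s1 : ∀ x x' y z, φ (x - x') y z = φ x y z - φ x' y z)
    (s2 : ∀ x y y' z, φ x (y - y') z = φ x y z - φ x y' z)
    (s3 : ∀ x y z z', φ x y (z - z') = φ x y z - φ x y z')
    (n1 : ∀ x y z, φ (-x) y z = -φ x y z)
    (n2 : ∀ x y z, φ x (-y) z = -φ x y z)
    (n3 : ∀ x y z, φ x y (-z) = -φ x y z)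
    (P Q R : Matrix (Fin 3) (Fin 3) A)
    (hP : P 2 2 = -P 0 0 - P 1 1) (hQ : Q 2 2 = -Q 0 0 - Q 1 1) (hR : R 2 2 = -R 0 0 - R 1 1) :
    ∀ k l, ab06_S φ P Q R k l = if k = l then ab06_S φ P Q R 0 0 else 0 := by
  intro k l
  fin_cases k <;> fin_cases l <;>
    simp only [ab06_S, Fin.sum_univ_three, Fin.isValue, Fin.zero_eta, Fin.mk_one, Fin.reduceFinMk,
      if_true, if_false, Fin.reduceEq, hP, hQ, hR, s1, s2, s3, n1, n2, n3] <;>
    abel

section ab06

variable {A : Type} [NonUnitalNonAssocRing A]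

theorem ab06_s1 (x x' y z : A) : as (x - x') y z = as x y z - as x' y z := by
  simp only [as, sub_mul]; abel

theorem ab06_s2 (x y y' z : A) : as x (y - y') z = as x y z - as x y' z := by
  simp only [as, sub_mul, mul_sub]; abel

theorem ab06_s3 (x y z z' : A) : as x y (z - z') = as x y z - as x y z' := by
  simp only [as, mul_sub]; abel

theorem ab06_n1 (x y z : A) : as (-x) y z = -as x y z := by
  simp only [as, neg_mul]; abel

theorem ab06_n2 (x y z : A) : as x (-y) z = -as x y z := by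
  simp only [as, neg_mul, mul_neg]; abel

theorem ab06_n3 (x y z : A) : as x y (-z) = -as x y z := by
  simp only [as, mul_neg]; abel

theorem ab06_sum3 {ι : Type} (t : Finset ι) (x y : A) (f : ι → A) :
    as x y (∑ i ∈ t, f i) = ∑ i ∈ t, as x y (f i) := by
  simp only [as, Finset.mul_sum, Finset.sum_sub_distrib]

/-- the associator of matrices -/
theorem ab06_assoc (X Y Z : Matrix (Fin 3) (Fin 3) A) (k l : Fin 3) :
    (X * Y * Z - X * (Y * Z)) k l = ∑ i, ∑ j, as (X k i) (Y i j) (Z j l) := by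
  simp only [Matrix.sub_apply, Matrix.mul_apply, as, Finset.sum_mul, Finset.mul_sum,
    Finset.sum_sub_distrib]
  congr 1
  exact Finset.sum_comm

/-- the six associators -/
theorem ab06_cyc (P Q R : Matrix (Fin 3) (Fin 3) A) :
    ((P * Q - Q * P) * R - R * (P * Q - Q * P)) + ((Q * R - R * Q) * P - P * (Q * R - R * Q)) +
      ((R * P - P * R) * Q - Q * (R * P - P * R)) =
    (P * Q * R - P * (Q * R)) + (Q * R * P - Q * (R * P)) + (R * P * Q - R * (P * Q)) -
      (Q * P * R - Q * (P * R)) - (R * Q * P - R * (Q * P)) - (P * R * Q - P * (R * Q)) := by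
  simp only [sub_mul, mul_sub]
  abel

/-- the matrix of the trace terms -/
def ab06_U (P Q R : Matrix (Fin 3) (Fin 3) A) : Matrix (Fin 3) (Fin 3) A :=
  fun k l => ∑ i, ∑ j, as (P i j) (Q j i) (R k l)

theorem ab06_traceU (P Q R : Matrix (Fin 3) (Fin 3) A) (hR : R.trace = 0) :
    (ab06_U P Q R).trace = 0 := by
  have h : (ab06_U P Q R).trace = ∑ i, ∑ j, as (P i j) (Q j i) R.trace := by
    simp only [Matrix.trace, Matrix.diag_apply, ab06_U, ab06_sum3]
    rw [Finset.sum_comm]
    refine Finset.sum_congr rfl fun i _ => ?_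
    rw [Finset.sum_comm]
  rw [h, hR]
  simp [as]

/-- `N` -/
theorem ab06_N [IsAlt A] (P Q R : Matrix (Fin 3) (Fin 3) A) (k l : Fin 3) :
    ((((P * Q - Q * P) * R - R * (P * Q - Q * P)) + ((Q * R - R * Q) * P - P * (Q * R - R * Q)) +
      ((R * P - P * R) * Q - Q * (R * P - P * R))) -
      (ab06_U P Q R + ab06_U Q R P + ab06_U R P Q)) k l = ab06_S as P Q R k l := by
  rw [ab06_cyc]
  have e1 : ∀ p q r : A, as q r p = as p q r := fun p q r => (as_facts p q r).2.2.2.2.2.2.1
  have e2 : ∀ p q r : A, as r p q = as p q r := fun p q r => (as_facts p q r).2.2.2.2.2.2.2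
  have e3 : ∀ p q r : A, as q p r = -as p q r := fun p q r => (as_facts p q r).2.2.2.1
  have e4 : ∀ p q r : A, as r q p = -as p q r := fun p q r => (as_facts p q r).2.2.2.2.2.1
  have e5 : ∀ p q r : A, as p r q = -as p q r := fun p q r => (as_facts p q r).2.2.2.2.1
  have h : ((P * Q * R - P * (Q * R)) + (Q * R * P - Q * (R * P)) + (R * P * Q - R * (P * Q)) -
      (Q * P * R - Q * (P * R)) - (R * Q * P - R * (Q * P)) - (P * R * Q - P * (R * Q)) -
      (ab06_U P Q R + ab06_U Q R P + ab06_U R P Q)) k l =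
      (P * Q * R - P * (Q * R)) k l + (Q * R * P - Q * (R * P)) k l +
      (R * P * Q - R * (P * Q)) k l -
      (Q * P * R - Q * (P * R)) k l - (R * Q * P - R * (Q * P)) k l -
      (P * R * Q - P * (R * Q)) k l -
      (ab06_U P Q R k l + ab06_U Q R P k l + ab06_U R P Q k l) := rfl
  rw [h]
  simp only [ab06_assoc, ab06_U, ab06_S, ← Finset.sum_add_distrib, ← Finset.sum_sub_distrib]
  refine Finset.sum_congr rfl fun i _ => Finset.sum_congr rfl fun j _ => ?_
  rw [e1 (P j l) (Q k i) (R i j), e2 (P i j) (Q j l) (R k i), e3 (P i j) (Q k i) (R j l),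
    e4 (P j l) (Q i j) (R k i), e5 (P k i) (Q j l) (R i j), e1 (P k l) (Q i j) (R j i),
    e2 (P j i) (Q k l) (R i j)]
  abel

end ab06

section ab06k

variable (k : Type) [Field k] {A : Type} [NonUnitalNonAssocRing A] [Module k A]
  [IsScalarTower k A A] [SMulCommClass k A A]

theorem ab06_term [IsAlt A] [CharZero k] (P Q R : Matrix (Fin 3) (Fin 3) A) (hR : R.trace = 0) :
    comm0 k (comm0 k P Q) R + (3⁻¹ : k) • ∑ i, ∑ j, R.map (D k (P i j) (Q j i)) =
      ((P * Q - Q * P) * R - R * (P * Q - Q * P)) - ab06_U P Q R -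
      Matrix.diagonal (fun _ => (3⁻¹ : k) •
        ((P * Q - Q * P) * R - R * (P * Q - Q * P)).trace) := by
  set C : Matrix (Fin 3) (Fin 3) A := P * Q - Q * P with hC
  set s : A := (3⁻¹ : k) • C.trace with hs
  have h0 : comm0 k P Q = C - Matrix.diagonal (fun _ => s) := rfl
  have h1 : (C - Matrix.diagonal (fun _ => s)) * R - R * (C - Matrix.diagonal (fun _ => s)) =
      (C * R - R * C) - (Matrix.diagonal (fun _ => s) * R - R * Matrix.diagonal (fun _ => s)) := by
    rw [sub_mul, mul_sub]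
    abel
  have h2 : (Matrix.diagonal (fun _ => s) * R - R * Matrix.diagonal (fun _ => s)).trace = 0 := by
    rw [Matrix.trace_sub]
    have e1 : (Matrix.diagonal (fun _ => s) * R).trace = s * R.trace := by
      simp only [Matrix.trace, Matrix.diag_apply, Matrix.diagonal_mul, Finset.mul_sum]
    have e2 : (R * Matrix.diagonal (fun _ => s)).trace = R.trace * s := by
      simp only [Matrix.trace, Matrix.diag_apply, Matrix.mul_diagonal, Finset.sum_mul]
    rw [e1, e2, hR, mul_zero, zero_mul, sub_zero]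
  have h3 : (3⁻¹ : k) • ∑ i, ∑ j, R.map (D k (P i j) (Q j i)) =
      (Matrix.diagonal (fun _ => s) * R - R * Matrix.diagonal (fun _ => s)) - ab06_U P Q R := by
    ext a b
    have ht : C.trace = ∑ i, ∑ j, (P i j * Q j i - Q j i * P i j) := by
      rw [hC, Matrix.trace_sub]
      simp only [Matrix.trace, Matrix.diag_apply, Matrix.mul_apply, Finset.sum_sub_distrib]
      congr 1
      exact Finset.sum_comm
    simp only [Matrix.smul_apply, Matrix.sum_apply, Matrix.map_apply, D_eq, Matrix.sub_apply,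
      Matrix.diagonal_mul, Matrix.mul_diagonal, ab06_U]
    rw [hs, ht]
    have h3x : ∀ x : A, x + x + x = (3 : k) • x := by
      intro x
      rw [show (3 : k) = 1 + 1 + 1 by norm_num, add_smul, add_smul, one_smul]
    have h3k : (3⁻¹ : k) * 3 = 1 := inv_mul_cancel₀ (by norm_num)
    have hF : ∀ F : Fin 3 → Fin 3 → A, (∀ i j, F i j = P i j * Q j i - Q j i * P i j) →
        (3⁻¹ : k) • ∑ i, ∑ j, (F i j * R a b - R a b * F i j -
          (as (P i j) (Q j i) (R a b) + as (P i j) (Q j i) (R a b) +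
            as (P i j) (Q j i) (R a b))) =
        ((3⁻¹ : k) • ∑ i, ∑ j, F i j) * R a b - R a b * ((3⁻¹ : k) • ∑ i, ∑ j, F i j) -
          ∑ i, ∑ j, as (P i j) (Q j i) (R a b) := by
      intro F _
      simp only [h3x, Finset.smul_sum, smul_sub, smul_smul, h3k, one_smul, Finset.sum_mul,
        Finset.mul_sum, smul_mul_assoc, mul_smul_comm, Finset.sum_sub_distrib]
    exact hF (fun i j => P i j * Q j i - Q j i * P i j) (fun _ _ => rfl)
  have h4 : comm0 k (comm0 k P Q) R =
      ((C - Matrix.diagonal (fun _ => s)) * R - R * (C - Matrix.diagonal (fun _ => s))) -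
      Matrix.diagonal (fun _ => (3⁻¹ : k) •
        ((C - Matrix.diagonal (fun _ => s)) * R -
          R * (C - Matrix.diagonal (fun _ => s))).trace) := rfl
  rw [h4, h3, h1, Matrix.trace_sub, h2, sub_zero]
  abel

theorem ab06_trace2 (P : Matrix (Fin 3) (Fin 3) A) (hP : P.trace = 0) :
    P 2 2 = -P 0 0 - P 1 1 := by
  have h : P 0 0 + P 1 1 + P 2 2 = 0 := by
    rw [← hP]
    simp only [Matrix.trace, Matrix.diag_apply, Fin.sum_univ_three]
  have h' : P 2 2 = (P 0 0 + P 1 1 + P 2 2) - P 0 0 - P 1 1 := by abel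
  rw [h', h]
  abel

end ab06k


/-- the matrix component of the Jacobi identity for three matrices -/
theorem mat_jacobi (k : Type) [Field k] {A : Type} [NonUnitalNonAssocRing A] [Module k A]
    [IsScalarTower k A A] [SMulCommClass k A A] [IsAlt A] [CharZero k]
    (P Q R : Matrix (Fin 3) (Fin 3) A)
    (hP : P.trace = 0) (hQ : Q.trace = 0) (hR : R.trace = 0) :
    (comm0 k (comm0 k P Q) R + (3⁻¹ : k) • ∑ i, ∑ j, R.map (D k (P i j) (Q j i))) +
    (comm0 k (comm0 k Q R) P + (3⁻¹ : k) • ∑ i, ∑ j, P.map (D k (Q i j) (R j i))) +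
    (comm0 k (comm0 k R P) Q + (3⁻¹ : k) • ∑ i, ∑ j, Q.map (D k (R i j) (P j i))) = 0 := by
  rw [ab06_term k P Q R hR, ab06_term k Q R P hP, ab06_term k R P Q hQ]
  set X1 := (P * Q - Q * P) * R - R * (P * Q - Q * P) with hX1
  set X2 := (Q * R - R * Q) * P - P * (Q * R - R * Q) with hX2
  set X3 := (R * P - P * R) * Q - Q * (R * P - P * R) with hX3
  have hN : ∀ a b, ((X1 + X2 + X3) - (ab06_U P Q R + ab06_U Q R P + ab06_U R P Q)) a b =
      if a = b then ab06_S as P Q R 0 0 else 0 := by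
    intro a b
    rw [← ab06_CH as ab06_s1 ab06_s2 ab06_s3 ab06_n1 ab06_n2 ab06_n3 P Q R
      (ab06_trace2 P hP) (ab06_trace2 Q hQ) (ab06_trace2 R hR) a b]
    exact ab06_N P Q R a b
  have hT : (X1 + X2 + X3).trace = (3 : k) • ab06_S as P Q R 0 0 := by
    have h1 : (X1 + X2 + X3).trace =
        ((X1 + X2 + X3) - (ab06_U P Q R + ab06_U Q R P + ab06_U R P Q)).trace := by
      rw [Matrix.trace_sub, Matrix.trace_add (ab06_U P Q R + ab06_U Q R P),
        Matrix.trace_add (ab06_U P Q R), ab06_traceU P Q R hR, ab06_traceU Q R P hP,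
        ab06_traceU R P Q hQ, add_zero, add_zero, sub_zero]
    rw [h1]
    simp only [Matrix.trace, Matrix.diag_apply, hN, if_true, Fin.sum_univ_three]
    rw [show (3 : k) = 1 + 1 + 1 by norm_num, add_smul, add_smul, one_smul]
  have hD : Matrix.diagonal (fun _ : Fin 3 => (3⁻¹ : k) • X1.trace) +
      Matrix.diagonal (fun _ : Fin 3 => (3⁻¹ : k) • X2.trace) +
      Matrix.diagonal (fun _ : Fin 3 => (3⁻¹ : k) • X3.trace) =
      Matrix.diagonal (fun _ : Fin 3 => ab06_S as P Q R 0 0) := by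
    rw [Matrix.diagonal_add, Matrix.diagonal_add]
    congr 1
    funext _
    rw [← smul_add, ← smul_add, ← Matrix.trace_add, ← Matrix.trace_add, hT, smul_smul,
      inv_mul_cancel₀ (by norm_num), one_smul]
  have hF : X1 - ab06_U P Q R - Matrix.diagonal (fun _ : Fin 3 => (3⁻¹ : k) • X1.trace) +
      (X2 - ab06_U Q R P - Matrix.diagonal (fun _ : Fin 3 => (3⁻¹ : k) • X2.trace)) +
      (X3 - ab06_U R P Q - Matrix.diagonal (fun _ : Fin 3 => (3⁻¹ : k) • X3.trace)) =
      ((X1 + X2 + X3) - (ab06_U P Q R + ab06_U Q R P + ab06_U R P Q)) -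
      (Matrix.diagonal (fun _ : Fin 3 => (3⁻¹ : k) • X1.trace) +
      Matrix.diagonal (fun _ : Fin 3 => (3⁻¹ : k) • X2.trace) +
      Matrix.diagonal (fun _ : Fin 3 => (3⁻¹ : k) • X3.trace)) := by abel
  rw [hF, hD]
  ext a b
  rw [Matrix.sub_apply, hN, Matrix.diagonal_apply]
  split_ifs <;> simp

end Pool.ABG
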