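import Pool.Agent.ABG.Defs
import Pool.Agent.ABG.A04

set_option autoImplicit false

/-!
Derivations of the algebra and scalar matrices act on the matrices.
-/

open scoped TensorProduct

namespace Pool.ABG


theorem ab07_mul_map (k : Type) [Field k] {A : Type} [NonUnitalNonAssocRing A] [Module k A]
    (f : A →ₗ[k] A)
    (hf : ∀ p q : A, f (p * q) = f p * q + p * f q) (P Q : Matrix (Fin 3) (Fin 3) A) :
    (P * Q).map f = P.map f * Q + P * Q.map f := by
  ext i j
  simp only [Matrix.map_apply, Matrix.add_apply, Matrix.mul_apply, map_sum, hf,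
    Finset.sum_add_distrib]

theorem ab07_diag_map (k : Type) [Field k] {A : Type} [NonUnitalNonAssocRing A] [Module k A]
    (f : A →ₗ[k] A) (t : A) :
    (Matrix.diagonal (fun _ : Fin 3 => t)).map f = Matrix.diagonal (fun _ => f t) := by
  rw [Matrix.diagonal_map (map_zero f)]

theorem ab07_trace_map (k : Type) [Field k] {A : Type} [NonUnitalNonAssocRing A] [Module k A]
    (f : A →ₗ[k] A) (P : Matrix (Fin 3) (Fin 3) A) : (P.map f).trace = f P.trace := by
  simp only [Matrix.trace, Matrix.diag_apply, Matrix.map_apply, map_sum]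

theorem ab07_diag_add {A : Type} [AddCommGroup A] (s t : A) :
    Matrix.diagonal (fun _ : Fin 3 => s + t) =
      Matrix.diagonal (fun _ => s) + Matrix.diagonal (fun _ => t) := by
  rw [Matrix.diagonal_add]

theorem ab07_sact_mul {k : Type} [Field k] {A : Type} [NonUnitalNonAssocRing A] [Module k A]
    [IsScalarTower k A A] [SMulCommClass k A A] (X : Matrix (Fin 3) (Fin 3) k)
    (P Q : Matrix (Fin 3) (Fin 3) A) :
    sact X (P * Q) = sact X P * Q + P * sact X Q := by
  ext i j
  simp only [sact, Matrix.add_apply, Matrix.mul_apply, Fin.sum_univ_three, add_mul, mul_add,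
    sub_mul, mul_sub, smul_mul_assoc, mul_smul_comm]
  module

theorem ab07_sact_sub {k : Type} [Field k] {A : Type} [AddCommGroup A] [Module k A]
    (X : Matrix (Fin 3) (Fin 3) k) (P Q : Matrix (Fin 3) (Fin 3) A) :
    sact X (P - Q) = sact X P - sact X Q := by
  ext i j
  simp only [sact, Matrix.sub_apply, Fin.sum_univ_three]
  module

theorem ab07_sact_diag {k : Type} [Field k] {A : Type} [AddCommGroup A] [Module k A]
    (X : Matrix (Fin 3) (Fin 3) k) (t : A) :
    sact X (Matrix.diagonal (fun _ : Fin 3 => t)) = 0 := by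
  ext i j
  simp only [sact, Matrix.diagonal_apply, Matrix.zero_apply, Finset.sum_sub_distrib, smul_ite,
    smul_zero]
  rw [Finset.sum_ite_eq' Finset.univ j, Finset.sum_ite_eq Finset.univ i]
  simp

theorem ab07_sact_trace {k : Type} [Field k] {A : Type} [AddCommGroup A] [Module k A]
    (X : Matrix (Fin 3) (Fin 3) k) (P : Matrix (Fin 3) (Fin 3) A) : (sact X P).trace = 0 := by
  simp only [Matrix.trace, Matrix.diag_apply, sact, Finset.sum_sub_distrib]
  rw [sub_eq_zero, Finset.sum_comm]


/-- derivations of `A` and the commutator of matrices -/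
theorem comm0_der (k : Type) [Field k] {A : Type} [NonUnitalNonAssocRing A] [Module k A]
    [IsScalarTower k A A] [SMulCommClass k A A] (f : A →ₗ[k] A)
    (hf : ∀ p q : A, f (p * q) = f p * q + p * f q) (P Q : Matrix (Fin 3) (Fin 3) A) :
    (comm0 k P Q).map f = comm0 k (P.map f) Q + comm0 k P (Q.map f) := by
  have hsub : ∀ M N : Matrix (Fin 3) (Fin 3) A, (M - N).map f = M.map f - N.map f := by
    intro M N
    ext i j
    simp only [Matrix.map_apply, Matrix.sub_apply, map_sub]
  have h1 : (P * Q - Q * P).map f =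
      (P.map f * Q - Q * P.map f) + (P * Q.map f - Q.map f * P) := by
    rw [hsub, ab07_mul_map k f hf, ab07_mul_map k f hf]
    abel
  unfold comm0
  rw [hsub, ab07_diag_map, map_smul, ← ab07_trace_map, h1, Matrix.trace_add, smul_add,
    ab07_diag_add]
  abel

/-- the scalar matrices act by derivations -/
theorem sact_comm0 (k : Type) [Field k] {A : Type} [NonUnitalNonAssocRing A] [Module k A]
    [IsScalarTower k A A] [SMulCommClass k A A] (X : Matrix (Fin 3) (Fin 3) k)
    (P Q : Matrix (Fin 3) (Fin 3) A) :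
    sact X (comm0 k P Q) = comm0 k (sact X P) Q + comm0 k P (sact X Q) := by
  have h1 : sact X (P * Q - Q * P) =
      (sact X P * Q - Q * sact X P) + (P * sact X Q - sact X Q * P) := by
    rw [ab07_sact_sub, ab07_sact_mul, ab07_sact_mul]
    abel
  have h2 : (sact X P * Q - Q * sact X P).trace + (P * sact X Q - sact X Q * P).trace = 0 := by
    rw [← Matrix.trace_add, ← h1, ab07_sact_trace]
  unfold comm0
  rw [ab07_sact_sub, ab07_sact_diag, sub_zero, h1]
  have h3 : Matrix.diagonal (fun _ : Fin 3 => (3⁻¹ : k) • (sact X P * Q - Q * sact X P).trace) +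
      Matrix.diagonal (fun _ : Fin 3 => (3⁻¹ : k) • (P * sact X Q - sact X Q * P).trace) = 0 := by
    rw [← ab07_diag_add, ← smul_add, h2, smul_zero]
    exact Matrix.diagonal_zero
  have h4 : ∀ a b d d' : Matrix (Fin 3) (Fin 3) A, d + d' = 0 → a + b = a - d + (b - d') := by
    intro a b d d' h
    have h5 : a - d + (b - d') = a + b - (d + d') := by abel
    rw [h5, h, sub_zero]
  exact h4 _ _ _ _ h3

/-- the scalar matrices preserve the pairing -/
theorem sact_pair (k : Type) [Field k] {A : Type} [NonUnitalNonAssocRing A] [Module k A]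
    [IsScalarTower k A A] [SMulCommClass k A A] (X : Matrix (Fin 3) (Fin 3) k)
    (P Q : Matrix (Fin 3) (Fin 3) A) :
    pair k (sact X P) Q + pair k P (sact X Q) = 0 := by
  have a1 : ∀ p p' q : A, w k (p + p') q = w k p q + w k p' q := fun p p' q =>
    (w_facts k p p' q 0 0).1
  have a2 : ∀ p p' q : A, w k q (p + p') = w k q p + w k q p' := fun p p' q =>
    (w_facts k p p' q 0 0).2.1
  have s1 : ∀ (c : k) (p q : A), w k (c • p) q = c • w k p q := fun c p q =>
    (w_facts k p 0 q 0 c).2.2.1
  have s2 : ∀ (c : k) (p q : A), w k p (c • q) = c • w k p q := fun c p q =>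
    (w_facts k p 0 q 0 c).2.2.2.1
  have b1 : ∀ p p' q : A, w k (p - p') q = w k p q - w k p' q := by
    intro p p' q
    have h := a1 (p - p') p' q
    rw [sub_add_cancel] at h
    rw [h]; abel
  have b2 : ∀ p p' q : A, w k q (p - p') = w k q p - w k q p' := by
    intro p p' q
    have h := a2 (p - p') p' q
    rw [sub_add_cancel] at h
    rw [h]; abel
  unfold pair
  rw [← smul_add]
  have h : ∑ i, ∑ j, w k (sact X P i j) (Q j i) + ∑ i, ∑ j, w k (P i j) (sact X Q j i) = 0 := by
    simp only [sact, Fin.sum_univ_three, a1, a2, b1, b2, s1, s2]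
    module
  rw [h, smul_zero]

/-- the action is an action of the Lie algebra of matrices -/
theorem sact_lie {k : Type} [Field k] {A : Type} [AddCommGroup A] [Module k A]
    (X Y : Matrix (Fin 3) (Fin 3) k) (P : Matrix (Fin 3) (Fin 3) A) :
    sact X (sact Y P) - sact Y (sact X P) = sact (X * Y - Y * X) P ∧ (sact X P).trace = 0 ∧
      sact (1 : Matrix (Fin 3) (Fin 3) k) P = 0 := by
  refine ⟨?_, ab07_sact_trace X P, ?_⟩
  · ext i j
    simp only [sact, Matrix.sub_apply, Matrix.mul_apply, Fin.sum_univ_three]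
    module
  · ext i j
    simp only [sact, Matrix.one_apply, Matrix.zero_apply, Finset.sum_sub_distrib, ite_smul,
      one_smul, zero_smul]
    rw [Finset.sum_ite_eq Finset.univ i, Finset.sum_ite_eq' Finset.univ j]
    simp

end Pool.ABG
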