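import Pool.Agent.ABG.Rep

set_option autoImplicit false


open Module

namespace Pool.ABG

 


theorem ab08_comm {k : Type} [Field k] {M : Type} [AddCommGroup M] [Module k M]
    (E : Fin 3 → Fin 3 → Module.End k M) (hE : IsGl E) (i j : Fin 3) :
    Commute (E i i) (E j j) := by
  have h := hE i i j j
  have h2 : E i i * E j j - E j j * E i i = 0 := by
    rw [h]
    by_cases hij : i = j
    · subst hij; simp
    · rw [if_neg hij, if_neg (Ne.symm hij)]; simp
  exact sub_eq_zero.mp h2

theorem ab08_map {k : Type} [Field k] {M : Type} [AddCommGroup M] [Module k M]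
    (E : Fin 3 → Fin 3 → Module.End k M) (hE : IsGl E) (a b : Fin 3) (mu : Fin 3 → ℤ) (v : M)
    (hv : v ∈ wsp E mu) : E a b v ∈ wsp E (mu + ep a - ep b) := by
  intro i
  have h := LinearMap.congr_fun (hE i i a b) v
  have hvi : E i i v = ((mu i : ℤ) : k) • v := hv i
  simp only [LinearMap.sub_apply, Module.End.mul_apply] at h
  rw [hvi, map_smul, sub_eq_iff_eq_add] at h
  rw [h]
  by_cases hia : i = a
  · subst hia
    by_cases hib : b = i
    · subst hib
      simp [ep]
    · have h2 : i ≠ b := fun h => hib h.symm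
      simp only [if_true, if_neg hib, sub_zero, Pi.sub_apply, Pi.add_apply, ep, Pi.single_eq_same,
        Pi.single_eq_of_ne h2]
      push_cast
      rw [add_smul, one_smul, add_comm, LinearMap.zero_apply, sub_zero]
  · by_cases hib : b = i
    · subst hib
      simp only [if_neg hia, if_true, Pi.sub_apply, Pi.add_apply, ep, Pi.single_eq_same,
        Pi.single_eq_of_ne hia]
      push_cast
      rw [add_zero, sub_smul, one_smul, LinearMap.zero_apply]
      abel
    · have h2 : i ≠ b := fun h => hib h.symm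
      simp only [if_neg hia, if_neg hib, sub_zero, Pi.sub_apply, Pi.add_apply, ep,
        Pi.single_eq_of_ne hia, Pi.single_eq_of_ne h2, add_zero, LinearMap.zero_apply, zero_add]

theorem ab08_indep {k : Type} [Field k] [CharZero k] {M : Type} [AddCommGroup M] [Module k M]
    (E : Fin 3 → Fin 3 → Module.End k M) (hE : IsGl E) : iSupIndep (wsp E) := by
  have h1 := Module.End.independent_iInf_maxGenEigenspace_of_forall_mapsTo (fun i : Fin 3 => E i i)
    (fun i j φ => Module.End.mapsTo_maxGenEigenspace_of_comm (ab08_comm E hE j i) φ)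
  have hinj : Function.Injective (fun (mu : Fin 3 → ℤ) (i : Fin 3) => ((mu i : ℤ) : k)) := by
    intro mu nu h
    ext i
    have h3 := congrFun h i
    simp only at h3
    exact_mod_cast h3
  have h2 := h1.comp hinj
  refine h2.mono ?_
  intro mu v hv
  simp only [Function.comp_apply, Submodule.mem_iInf]
  intro i
  rw [Module.End.mem_maxGenEigenspace]
  refine ⟨1, ?_⟩
  have hvi : E i i v = ((mu i : ℤ) : k) • v := hv i
  simp [hvi]

theorem ab08_compl {k : Type} [Field k] [CharZero k] {M : Type} [AddCommGroup M] [Module k M]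
    (E : Fin 3 → Fin 3 → Module.End k M) (hE : IsGl E) (hM : ⨆ mu, wsp E mu = ⊤)
    (mu : Fin 3 → ℤ) : IsCompl (wsp E mu) (⨆ (nu) (_ : nu ≠ mu), wsp E nu) := by
  refine ⟨ab08_indep E hE mu, ?_⟩
  rw [codisjoint_iff, eq_top_iff, ← hM]
  apply iSup_le
  intro nu
  by_cases h : nu = mu
  · subst h; exact le_sup_left
  · exact le_trans (le_iSup₂_of_le nu h le_rfl) le_sup_right

theorem ab08_ext {k : Type} [Field k] {M : Type} [AddCommGroup M] [Module k M]
    (E : Fin 3 → Fin 3 → Module.End k M) (hM : ⨆ mu, wsp E mu = ⊤) (f g : Module.End k M)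
    (h : ∀ mu, ∀ v ∈ wsp E mu, f v = g v) : f = g := by
  have h1 : (⊤ : Submodule k M) ≤ LinearMap.eqLocus f g := by
    rw [← hM]
    apply iSup_le
    intro mu v hv
    exact h mu v hv
  ext v
  exact h1 (Submodule.mem_top)

/-- projections onto the weight spaces -/
theorem proj_exists {k : Type} [Field k] [CharZero k] {M : Type} [AddCommGroup M] [Module k M]
    [FiniteDimensional k M] (E : Fin 3 → Fin 3 → Module.End k M) (hE : IsGl E)
    (hM : ⨆ mu, wsp E mu = ⊤) :
    ∃ P : (Fin 3 → ℤ) → Module.End k M,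
      (∀ mu a, E a a * P mu = ((mu a : ℤ) : k) • P mu) ∧
      (∀ mu a b, E a b * P mu = P (mu + ep a - ep b) * E a b) ∧
      (∀ Z : Module.End k M, (∀ a, Z * E a a = E a a * Z) → ∀ mu, Z * P mu = P mu * Z) ∧
      (∀ mu, LinearMap.trace k M (P mu) = (finrank k (wsp E mu) : k)) := by
  have hc := ab08_compl E hE hM
  have hP1 : ∀ mu, ∀ v ∈ wsp E mu, Submodule.projection _ _ (hc mu) v = v := fun mu v hv =>
    Submodule.projection_apply_of_mem_left (hc mu) hv
  have hP0 : ∀ mu nu, nu ≠ mu → ∀ v ∈ wsp E nu, Submodule.projection _ _ (hc mu) v = 0 := by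
    intro mu nu hne v hv
    apply Submodule.projection_apply_of_mem_right (hc mu)
    exact (le_iSup₂_of_le (f := fun nu (_ : nu ≠ mu) => wsp E nu) nu hne le_rfl) hv
  have hPm : ∀ mu v, Submodule.projection _ _ (hc mu) v ∈ wsp E mu := fun mu v =>
    Submodule.projection_apply_mem (hc mu) v
  refine ⟨fun mu => Submodule.projection _ _ (hc mu), ?_, ?_, ?_, ?_⟩
  · intro mu a
    ext v
    exact hPm mu v a
  · intro mu a b
    apply ab08_ext E hM
    intro nu v hv
    simp only [Module.End.mul_apply]
    by_cases h : nu = mu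
    · subst h
      rw [hP1 nu v hv, hP1 _ _ (ab08_map E hE a b nu v hv)]
    · have h2 : nu + ep a - ep b ≠ mu + ep a - ep b := by
        intro h3
        apply h
        exact add_right_cancel (sub_left_injective h3)
      rw [hP0 mu nu h v hv, map_zero, hP0 _ _ h2 _ (ab08_map E hE a b nu v hv)]
  · intro Z hZ mu
    have hZm : ∀ nu, ∀ v ∈ wsp E nu, Z v ∈ wsp E nu := by
      intro nu v hv i
      have h1 := LinearMap.congr_fun (hZ i) v
      simp only [Module.End.mul_apply] at h1
      have hvi : E i i v = ((nu i : ℤ) : k) • v := hv i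
      rw [← h1, hvi, map_smul]
    apply ab08_ext E hM
    intro nu v hv
    simp only [Module.End.mul_apply]
    by_cases h : nu = mu
    · subst h
      rw [hP1 nu v hv, hP1 _ _ (hZm nu v hv)]
    · rw [hP0 mu nu h v hv, map_zero, hP0 mu nu h _ (hZm nu v hv)]
  · intro mu
    have hproj : LinearMap.IsProj (wsp E mu) (Submodule.projection _ _ (hc mu)) :=
      ⟨hPm mu, hP1 mu⟩
    exact hproj.trace

end Pool.ABG
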