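import Pool.Agent.ABG.Rep

set_option autoImplicit false


open Module

namespace Pool.ABG

 


/-- `P mu * Z` is an eigenvector for right multiplication by the diagonal elements -/
theorem ab09_X {k : Type} [Field k] {M : Type} [AddCommGroup M] [Module k M]
    (E : Fin 3 → Fin 3 → Module.End k M) (P : (Fin 3 → ℤ) → Module.End k M)
    (h1 : ∀ mu a, E a a * P mu = ((mu a : ℤ) : k) • P mu)
    (h2 : ∀ mu a b, E a b * P mu = P (mu + ep a - ep b) * E a b)
    (Z : Module.End k M) (hZ : ∀ a b, Z * E a b = E a b * Z) (mu : Fin 3 → ℤ) (a : Fin 3) :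
    P mu * Z * E a a = ((mu a : ℤ) : k) • (P mu * Z) := by
  have h3 : E a a * P mu = P mu * E a a := by
    have := h2 mu a a
    rwa [add_sub_cancel_right] at this
  rw [mul_assoc, hZ, ← mul_assoc, ← h3, h1, smul_mul_assoc]

/-- the difference equation -/
theorem ab09_s {k : Type} [Field k] {M : Type} [AddCommGroup M] [Module k M]
    [FiniteDimensional k M] (E : Fin 3 → Fin 3 → Module.End k M) (hE : IsGl E)
    (P : (Fin 3 → ℤ) → Module.End k M)
    (h1 : ∀ mu a, E a a * P mu = ((mu a : ℤ) : k) • P mu)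
    (h2 : ∀ mu a b, E a b * P mu = P (mu + ep a - ep b) * E a b)
    (Z : Module.End k M) (hZ : ∀ a b, Z * E a b = E a b * Z)
    (a b : Fin 3) (mu nu : Fin 3 → ℤ) (hnu : mu + ep a - ep b = nu) :
    LinearMap.trace k M (P mu * Z * (E b a * E a b)) =
      LinearMap.trace k M (P nu * Z * (E b a * E a b)) +
        (((nu a : ℤ) : k) - ((nu b : ℤ) : k)) * LinearMap.trace k M (P nu * Z) := by
  have e1 : P mu * Z * (E b a * E a b) = (P mu * Z * E b a) * E a b := by
    simp only [mul_assoc]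
  have e2 : E a b * (P mu * Z * E b a) = P nu * Z * (E a b * E b a) := by
    have h := h2 mu a b
    rw [hnu] at h
    calc E a b * (P mu * Z * E b a) = (E a b * P mu) * Z * E b a := by simp only [mul_assoc]
      _ = P nu * E a b * Z * E b a := by rw [h]
      _ = P nu * (E a b * Z) * E b a := by simp only [mul_assoc]
      _ = P nu * (Z * E a b) * E b a := by rw [hZ]
      _ = P nu * Z * (E a b * E b a) := by simp only [mul_assoc]
  have e3 : E a b * E b a = E b a * E a b + E a a - E b b := by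
    have h := hE a b b a
    rw [if_pos rfl, if_pos rfl] at h
    rw [sub_eq_iff_eq_add] at h
    rw [h]
    abel
  rw [e1, LinearMap.trace_mul_comm, e2, e3, mul_sub, mul_add,
    ab09_X E P h1 h2 Z hZ, ab09_X E P h1 h2 Z hZ, map_sub, map_add, map_smul, map_smul,
    smul_eq_mul, smul_eq_mul]
  ring

/-- the trace of the Casimir operator -/
theorem ab09_T {k : Type} [Field k] {M : Type} [AddCommGroup M] [Module k M]
    [FiniteDimensional k M] (E : Fin 3 → Fin 3 → Module.End k M) (hE : IsGl E)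
    (P : (Fin 3 → ℤ) → Module.End k M)
    (h1 : ∀ mu a, E a a * P mu = ((mu a : ℤ) : k) • P mu)
    (h2 : ∀ mu a b, E a b * P mu = P (mu + ep a - ep b) * E a b)
    (Z : Module.End k M) (hZ : ∀ a b, Z * E a b = E a b * Z)
    (q : k) (mu : Fin 3 → ℤ) :
    LinearMap.trace k M (P mu * Z * (cas E - algebraMap k (Module.End k M) q)) =
      (((qf mu : ℤ) : k) - q) * LinearMap.trace k M (P mu * Z) +
        2 * (LinearMap.trace k M (P mu * Z * (E 1 0 * E 0 1)) +
          LinearMap.trace k M (P mu * Z * (E 2 1 * E 1 2)) +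
          LinearMap.trace k M (P mu * Z * (E 2 0 * E 0 2))) := by
  have hX := fun a => ab09_X E P h1 h2 Z hZ mu a
  have hc : ∀ a b, E a b * E b a = E b a * E a b + E a a - E b b := by
    intro a b
    have h := hE a b b a
    rw [if_pos rfl, if_pos rfl] at h
    rw [sub_eq_iff_eq_add] at h
    rw [h]
    abel
  set X := P mu * Z with hXdef
  have hd : ∀ a, LinearMap.trace k M (X * (E a a * E a a)) =
      ((mu a : ℤ) : k) ^ 2 * LinearMap.trace k M X := by
    intro a
    rw [← mul_assoc, hX, smul_mul_assoc, hX, map_smul, map_smul, smul_eq_mul, smul_eq_mul]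
    ring
  have ho : ∀ a b, LinearMap.trace k M (X * (E a b * E b a)) =
      LinearMap.trace k M (X * (E b a * E a b)) +
        (((mu a : ℤ) : k) - ((mu b : ℤ) : k)) * LinearMap.trace k M X := by
    intro a b
    rw [hc a b, mul_sub, mul_add, hX, hX, map_sub, map_add, map_smul, map_smul,
      smul_eq_mul, smul_eq_mul]
    ring
  have hq : LinearMap.trace k M (X * algebraMap k (Module.End k M) q) =
      q * LinearMap.trace k M X := by
    rw [← Algebra.commutes, ← Algebra.smul_def, map_smul, smul_eq_mul]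
  have hcas : LinearMap.trace k M (X * cas E) =
      LinearMap.trace k M (X * (E 0 0 * E 0 0)) + LinearMap.trace k M (X * (E 0 1 * E 1 0)) +
      LinearMap.trace k M (X * (E 0 2 * E 2 0)) +
      (LinearMap.trace k M (X * (E 1 0 * E 0 1)) + LinearMap.trace k M (X * (E 1 1 * E 1 1)) +
      LinearMap.trace k M (X * (E 1 2 * E 2 1))) +
      (LinearMap.trace k M (X * (E 2 0 * E 0 2)) + LinearMap.trace k M (X * (E 2 1 * E 1 2)) +
      LinearMap.trace k M (X * (E 2 2 * E 2 2))) := by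
    simp only [cas, Fin.sum_univ_three, mul_add, map_add]
  rw [mul_sub, map_sub, hq, hcas, hd, hd, hd, ho 0 1, ho 0 2, ho 1 2]
  simp only [qf]
  push_cast
  ring

theorem ab09_v0 (lam y : Fin 3 → ℤ) (a b : Fin 3) (h : ep a - ep b = y) :
    lam + ep a - ep b = lam + y := by
  rw [← h]; abel

theorem ab09_v (lam x y : Fin 3 → ℤ) (a b : Fin 3) (h : x + ep a - ep b = y) :
    lam + x + ep a - ep b = lam + y := by
  rw [← h]; abel


/-- the trace identity of Freudenthal and Weyl -/
theorem fw_trace {k : Type} [Field k] [CharZero k] {M : Type} [AddCommGroup M] [Module k M]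
    [FiniteDimensional k M] (E : Fin 3 → Fin 3 → Module.End k M) (hE : IsGl E)
    (P : (Fin 3 → ℤ) → Module.End k M)
    (h1 : ∀ mu a, E a a * P mu = ((mu a : ℤ) : k) • P mu)
    (h2 : ∀ mu a b, E a b * P mu = P (mu + ep a - ep b) * E a b)
    (Z : Module.End k M) (hZ : ∀ a b, Z * E a b = E a b * Z) (hZP : ∀ mu, Z * P mu = P mu * Z)
    (lam : Fin 3 → ℤ) :
    wal (fun mu => LinearMap.trace k M
      (P mu * Z * (cas E - algebraMap k (Module.End k M) ((qf lam : ℤ) : k)))) lam = 0 := by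
  have hs := fun a b mu nu hnu => ab09_s E hE P h1 h2 Z hZ a b mu nu hnu
  -- the differences for the root `(1, -1, 0)`
  have a1 := hs 0 1 lam (lam + ![1, -1, 0]) (ab09_v0 _ _ _ _ (by decide))
  have a2 := hs 0 1 (lam + ![0, 1, -1]) (lam + ![1, 0, -1])
    (ab09_v _ _ _ _ _ (by decide))
  have a3 := hs 0 1 (lam + ![1, 0, -1]) (lam + ![2, -1, -1])
    (ab09_v _ _ _ _ _ (by decide))
  have a4 := hs 0 1 (lam + ![1, 1, -2]) (lam + ![2, 0, -2])
    (ab09_v _ _ _ _ _ (by decide))
  -- the differences for the root `(0, 1, -1)`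
  have b1 := hs 1 2 lam (lam + ![0, 1, -1]) (ab09_v0 _ _ _ _ (by decide))
  have b2 := hs 1 2 (lam + ![1, -1, 0]) (lam + ![1, 0, -1])
    (ab09_v _ _ _ _ _ (by decide))
  have b3 := hs 1 2 (lam + ![1, 0, -1]) (lam + ![1, 1, -2])
    (ab09_v _ _ _ _ _ (by decide))
  have b4 := hs 1 2 (lam + ![2, -1, -1]) (lam + ![2, 0, -2])
    (ab09_v _ _ _ _ _ (by decide))
  -- the differences for the root `(1, 0, -1)`
  have c1 := hs 0 2 lam (lam + ![1, 0, -1]) (ab09_v0 _ _ _ _ (by decide))
  have c2 := hs 0 2 (lam + ![1, -1, 0]) (lam + ![2, -1, -1])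
    (ab09_v _ _ _ _ _ (by decide))
  have c3 := hs 0 2 (lam + ![0, 1, -1]) (lam + ![1, 1, -2])
    (ab09_v _ _ _ _ _ (by decide))
  have c4 := hs 0 2 (lam + ![1, 0, -1]) (lam + ![2, 0, -2])
    (ab09_v _ _ _ _ _ (by decide))
  unfold wal
  simp only [ab09_T E hE P h1 h2 Z hZ]
  have w0 : ∀ x y z : ℤ, (![x, y, z] : Fin 3 → ℤ) 0 = x := fun _ _ _ => rfl
  have w1 : ∀ x y z : ℤ, (![x, y, z] : Fin 3 → ℤ) 1 = y := fun _ _ _ => rfl
  have w2 : ∀ x y z : ℤ, (![x, y, z] : Fin 3 → ℤ) 2 = z := fun _ _ _ => rfl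
  simp only [qf, Pi.add_apply, w0, w1, w2] at a1 a2 a3 a4 b1 b2 b3 b4 c1 c2 c3 c4 ⊢
  push_cast at a1 a2 a3 a4 b1 b2 b3 b4 c1 c2 c3 c4 ⊢
  linear_combination 2 * (a1 - a2 - a3 + a4) + 2 * (b1 - b2 - b3 + b4) + 2 * (c1 - c2 - c3 + c4)

end Pool.ABG
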