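import Pool.Agent.ABG.Rep
import Pool.Agent.ABG.A08
import Pool.Agent.ABG.A09

set_option autoImplicit false


open Module

namespace Pool.ABG

 

theorem ab10_cas_comm {k : Type} [Field k] {M : Type} [AddCommGroup M] [Module k M]
    (E : Fin 3 → Fin 3 → Module.End k M) (hE : IsGl E) (a b : Fin 3) :
    cas E * E a b = E a b * cas E := by
  have hterm : ∀ p q : Fin 3, E p q * E q p * E a b - E a b * (E p q * E q p) =
      E p q * ((if p = a then E q b else 0) - (if b = q then E a p else 0)) +
        ((if q = a then E p b else 0) - (if b = p then E a q else 0)) * E q p := by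
    intro p q
    rw [← hE q p a b, ← hE p q a b]
    noncomm_ring
  rw [← sub_eq_zero]
  unfold cas
  rw [Finset.sum_mul, Finset.mul_sum, ← Finset.sum_sub_distrib]
  have h1 : ∀ p : Fin 3, (∑ q, E p q * E q p) * E a b - E a b * ∑ q, E p q * E q p =
      ∑ q, (E p q * ((if p = a then E q b else 0) - (if b = q then E a p else 0)) +
        ((if q = a then E p b else 0) - (if b = p then E a q else 0)) * E q p) := by
    intro p
    rw [Finset.sum_mul, Finset.mul_sum, ← Finset.sum_sub_distrib]
    exact Finset.sum_congr rfl fun q _ => hterm p q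
  rw [Finset.sum_congr rfl fun p _ => h1 p]
  simp only [mul_sub, sub_mul, mul_ite, ite_mul, mul_zero, zero_mul, Finset.sum_add_distrib,
    Finset.sum_sub_distrib, Finset.sum_ite_eq, Finset.sum_ite_eq', Finset.mem_univ, if_true]
  have h2 : ∑ x : Fin 3, ∑ y : Fin 3, (if x = a then E x y * E y b else 0) =
      ∑ y, E a y * E y b := by
    rw [Finset.sum_comm]
    simp
  have h3 : ∑ x : Fin 3, ∑ y : Fin 3, (if b = x then E a y * E y x else 0) =
      ∑ y, E a y * E y b := by
    rw [Finset.sum_comm]
    simp
  rw [h2, h3]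
  abel


/-- a module on which the Casimir operator has not the eigenvalue of the weight `lam` -/
theorem fw_inj {k : Type} [Field k] [CharZero k] {M : Type} [AddCommGroup M] [Module k M]
    [FiniteDimensional k M] (E : Fin 3 → Fin 3 → Module.End k M) (hE : IsGl E)
    (hM : ⨆ mu, wsp E mu = ⊤) (lam : Fin 3 → ℤ)
    (hinj : ∀ v : M, cas E v = ((qf lam : ℤ) : k) • v → v = 0) :
    wal (fun mu => (finrank k (wsp E mu) : ℤ)) lam = 0 := by
  obtain ⟨P, h1, h2, h3, h4⟩ := proj_exists E hE hM
  set T : Module.End k M := cas E - algebraMap k (Module.End k M) ((qf lam : ℤ) : k) with hT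
  have hker : LinearMap.ker T = ⊥ := by
    rw [LinearMap.ker_eq_bot']
    intro v hv
    apply hinj
    rw [hT, LinearMap.sub_apply, Module.algebraMap_end_apply, sub_eq_zero] at hv
    exact hv
  have hunit : IsUnit T := (LinearMap.isUnit_iff_ker_eq_bot T).2 hker
  obtain ⟨u, hu⟩ := hunit
  have hTE : ∀ a b, Commute (u : Module.End k M) (E a b) := by
    intro a b
    rw [hu, hT]
    have c1 : Commute (cas E) (E a b) := ab10_cas_comm E hE a b
    have c2 : Commute (algebraMap k (Module.End k M) ((qf lam : ℤ) : k)) (E a b) :=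
      Algebra.commutes _ _
    exact c1.sub_left c2
  have hZ : ∀ a b, ((u⁻¹ : (Module.End k M)ˣ) : Module.End k M) * E a b =
      E a b * ((u⁻¹ : (Module.End k M)ˣ) : Module.End k M) :=
    fun a b => (hTE a b).units_inv_left
  have hZP := h3 ((u⁻¹ : (Module.End k M)ˣ) : Module.End k M) (fun a => hZ a a)
  have hf := fw_trace E hE P h1 h2 ((u⁻¹ : (Module.End k M)ˣ) : Module.End k M) hZ hZP lam
  have hm : ∀ mu, P mu * ((u⁻¹ : (Module.End k M)ˣ) : Module.End k M) *
      (cas E - algebraMap k (Module.End k M) ((qf lam : ℤ) : k)) = P mu := by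
    intro mu
    rw [← hT, ← hu, mul_assoc, Units.inv_mul, mul_one]
  simp only [hm, h4] at hf
  have hcast : ((wal (fun mu => (finrank k (wsp E mu) : ℤ)) lam : ℤ) : k) = 0 := by
    rw [← hf]
    unfold wal
    push_cast
    rfl
  exact_mod_cast hcast

end Pool.ABG
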