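import Pool.Agent.ABG.Rep

set_option autoImplicit false

/-!
AB-11 (MP_894cc0_al): kernel of the Casimir operator (helper29).
-/

open Module

namespace Pool.ABG

 


/-- the Casimir operator commutes with the elementary matrices -/
theorem ab11_comm {k : Type} [Field k] {M : Type} [AddCommGroup M] [Module k M]
    (E : Fin 3 → Fin 3 → Module.End k M) (hE : IsGl E) (c d : Fin 3) :
    cas E * E c d = E c d * cas E := by
  have h1 : cas E * E c d - E c d * cas E =
      ∑ a, ∑ b, (E a b * (E b a * E c d - E c d * E b a) +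
        (E a b * E c d - E c d * E a b) * E b a) := by
    unfold cas
    rw [Finset.sum_mul, Finset.mul_sum, ← Finset.sum_sub_distrib]
    refine Finset.sum_congr rfl fun a _ => ?_
    rw [Finset.sum_mul, Finset.mul_sum, ← Finset.sum_sub_distrib]
    refine Finset.sum_congr rfl fun b _ => ?_
    noncomm_ring
  have h2 : (∑ a, ∑ b, (E a b * (E b a * E c d - E c d * E b a) +
        (E a b * E c d - E c d * E a b) * E b a)) = 0 := by
    have h3 : ∀ a b : Fin 3, (E a b * (E b a * E c d - E c d * E b a) +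
        (E a b * E c d - E c d * E a b) * E b a) =
        (((if a = c then E a b * E b d else 0) - (if d = b then E a b * E c a else 0)) +
        ((if b = c then E a d * E b a else 0) - (if d = a then E c b * E b a else 0))) := by
      intro a b
      rw [hE b a c d, hE a b c d]
      split_ifs <;> simp [mul_sub, sub_mul]
    simp only [h3, Finset.sum_add_distrib, Finset.sum_sub_distrib]
    have e1 : (∑ a : Fin 3, ∑ b : Fin 3, if a = c then E a b * E b d else 0) =
        ∑ b : Fin 3, E c b * E b d := by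
      rw [Finset.sum_comm]
      refine Finset.sum_congr rfl fun b _ => ?_
      rw [Finset.sum_ite_eq' Finset.univ c]; simp
    have e2 : (∑ a : Fin 3, ∑ b : Fin 3, if d = b then E a b * E c a else 0) =
        ∑ a : Fin 3, E a d * E c a := by
      refine Finset.sum_congr rfl fun a _ => ?_
      rw [Finset.sum_ite_eq Finset.univ d]; simp
    have e3 : (∑ a : Fin 3, ∑ b : Fin 3, if b = c then E a d * E b a else 0) =
        ∑ a : Fin 3, E a d * E c a := by
      refine Finset.sum_congr rfl fun a _ => ?_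
      rw [Finset.sum_ite_eq' Finset.univ c]; simp
    have e4 : (∑ a : Fin 3, ∑ b : Fin 3, if d = a then E c b * E b a else 0) =
        ∑ b : Fin 3, E c b * E b d := by
      rw [Finset.sum_comm]
      refine Finset.sum_congr rfl fun b _ => ?_
      rw [Finset.sum_ite_eq Finset.univ d]; simp
    rw [e1, e2, e3, e4]
    abel
  rw [h2] at h1
  exact sub_eq_zero.1 h1

theorem ab11_comm_apply {k : Type} [Field k] {M : Type} [AddCommGroup M] [Module k M]
    (E : Fin 3 → Fin 3 → Module.End k M) (hE : IsGl E) (c d : Fin 3) (u : M) (hu : cas E u = 0) :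
    cas E (E c d u) = 0 := by
  have h := congrArg (fun T : Module.End k M => T u) (ab11_comm E hE c d)
  simp only [Module.End.mul_apply] at h
  rw [h, hu, map_zero]

theorem ab11_rel {k : Type} [Field k] {M : Type} [AddCommGroup M] [Module k M]
    (E : Fin 3 → Fin 3 → Module.End k M) (hE : IsGl E) (a b c d : Fin 3) (u : M) :
    E a b (E c d u) = E c d (E a b u) + ((if b = c then E a d u else 0) -
      (if d = a then E c b u else 0)) := by
  have h := congrArg (fun T : Module.End k M => T u) (hE a b c d)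
  simp only [Module.End.mul_apply, LinearMap.sub_apply] at h
  rw [sub_eq_iff_eq_add] at h
  rw [h, add_comm]
  congr 2 <;> split_ifs <;> simp

/-- elementary matrices shift weights -/
theorem ab11_shift {k : Type} [Field k] {M : Type} [AddCommGroup M] [Module k M]
    (E : Fin 3 → Fin 3 → Module.End k M) (hE : IsGl E) (a b : Fin 3) (mu : Fin 3 → ℤ) (u : M)
    (hu : u ∈ wsp E mu) :
    E a b u ∈ wsp E (fun i => mu i + (if i = a then 1 else 0) - (if i = b then 1 else 0)) := by
  intro i
  have h0 : E i i u = ((mu i : ℤ) : k) • u := hu i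
  rw [ab11_rel E hE i i a b u, h0, map_smul]
  by_cases h1 : i = a
  · subst h1
    by_cases h2 : i = b
    · subst h2
      simp
    · have h2' : ¬ b = i := fun h => h2 h.symm
      simp only [h2, h2', if_true, if_false, sub_zero]
      push_cast
      rw [add_smul, one_smul]
  · by_cases h2 : i = b
    · subst h2
      simp only [h1, if_true, if_false, add_zero, zero_sub]
      push_cast
      rw [sub_smul, one_smul, sub_eq_add_neg]
    · have h2' : ¬ b = i := fun h => h2 h.symm
      simp only [h1, h2, h2', if_false, sub_zero, add_zero]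

/-- components of a member of a stable subspace -/
theorem ab11_comp {k : Type} [Field k] [CharZero k] {M : Type} [AddCommGroup M] [Module k M]
    (E : Fin 3 → Fin 3 → Module.End k M) (N : Submodule k M)
    (hN : ∀ i, ∀ u ∈ N, E i i u ∈ N) (S : Finset (Fin 3 → ℤ)) :
    ∀ v : (Fin 3 → ℤ) → M, (∀ mu ∈ S, v mu ∈ wsp E mu) → (∑ mu ∈ S, v mu) ∈ N →
      ∀ mu ∈ S, v mu ∈ N := by
  classical
  induction S using Finset.induction_on with
  | empty => intro v _ _ mu hmu; simp at hmu
  | insert nu S hnu ih =>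
    intro v hv hs
    have hS : ∀ mu ∈ S, v mu ∈ N := by
      intro mu hmu
      have hne : mu ≠ nu := fun h => hnu (h ▸ hmu)
      obtain ⟨i, hi⟩ : ∃ i, mu i ≠ nu i := by
        by_contra hcon
        push Not at hcon
        exact hne (funext hcon)
      have h1 : (E i i (∑ m ∈ insert nu S, v m) - ((nu i : ℤ) : k) • ∑ m ∈ insert nu S, v m) ∈ N :=
        N.sub_mem (hN i _ hs) (N.smul_mem _ hs)
      have h2 : (E i i (∑ m ∈ insert nu S, v m) - ((nu i : ℤ) : k) • ∑ m ∈ insert nu S, v m) =
          ∑ m ∈ S, (((m i : ℤ) : k) - ((nu i : ℤ) : k)) • v m := by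
        rw [map_sum, Finset.smul_sum, ← Finset.sum_sub_distrib, Finset.sum_insert hnu]
        have h3 : E i i (v nu) = ((nu i : ℤ) : k) • v nu := hv nu (Finset.mem_insert_self _ _) i
        rw [h3, sub_self, zero_add]
        refine Finset.sum_congr rfl fun m hm => ?_
        have h4 : E i i (v m) = ((m i : ℤ) : k) • v m := hv m (Finset.mem_insert_of_mem hm) i
        rw [h4, sub_smul]
      rw [h2] at h1
      have h5 := ih (fun m => (((m i : ℤ) : k) - ((nu i : ℤ) : k)) • v m)
        (fun m hm => (wsp E m).smul_mem _ (hv m (Finset.mem_insert_of_mem hm))) h1 mu hmu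
      have h6 : (((mu i : ℤ) : k) - ((nu i : ℤ) : k)) ≠ 0 := by
        rw [sub_ne_zero]
        exact fun h => hi (by exact_mod_cast h)
      have h7 := N.smul_mem ((((mu i : ℤ) : k) - ((nu i : ℤ) : k))⁻¹) h5
      simp only [smul_smul, inv_mul_cancel₀ h6, one_smul] at h7
      exact h7
    intro mu hmu
    rcases Finset.mem_insert.1 hmu with h | h
    · subst h
      rw [Finset.sum_insert hnu] at hs
      have h1 : (∑ m ∈ S, v m) ∈ N := N.sum_mem hS
      have h2 := N.sub_mem hs h1
      rwa [add_sub_cancel_right] at h2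
    · exact hS mu h

/-- the kernel of the Casimir operator consists of invariants -/
theorem triv_of_ker {k : Type} [Field k] [CharZero k] {M : Type} [AddCommGroup M] [Module k M]
    [FiniteDimensional k M] (E : Fin 3 → Fin 3 → Module.End k M) (hE : IsGl E)
    (hM : ⨆ mu, wsp E mu = ⊤) (v : M) (hv : v ≠ 0) (hc : cas E v = 0) :
    ∃ u : M, u ≠ 0 ∧ ∀ a b, E a b u = 0 := by
  classical
  -- the differences of the weights of the kernel
  set D : Set ℤ := {d | ∃ (mu : Fin 3 → ℤ) (u : M), u ≠ 0 ∧ cas E u = 0 ∧ u ∈ wsp E mu ∧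
    mu 0 - mu 2 = d} with hD
  have hDfin : D.Finite := by
    have h1 : (Set.Finite {x : k | (E 0 0 - E 2 2).HasEigenvalue x}) :=
      Module.End.finite_hasEigenvalue _
    refine Set.Finite.subset (h1.preimage (f := fun d : ℤ => (d : k))
      (Int.cast_injective.injOn)) ?_
    rintro d ⟨mu, u, hu, _, hw, rfl⟩
    change (E 0 0 - E 2 2).HasEigenvalue (((mu 0 - mu 2 : ℤ)) : k)
    refine Module.End.hasEigenvalue_of_hasEigenvector (x := u) ⟨?_, hu⟩
    rw [Module.End.mem_eigenspace_iff]
    have e0 : E 0 0 u = ((mu 0 : ℤ) : k) • u := hw 0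
    have e2 : E 2 2 u = ((mu 2 : ℤ) : k) • u := hw 2
    rw [LinearMap.sub_apply, e0, e2, ← sub_smul]
    push_cast
    rfl
  have hDne : D.Nonempty := by
    have hv1 : v ∈ ⨆ mu, wsp E mu := by rw [hM]; exact Submodule.mem_top
    rw [Submodule.mem_iSup_iff_exists_finsupp] at hv1
    obtain ⟨f, hf, hsum⟩ := hv1
    have h1 : ∀ mu ∈ f.support, f mu ∈ LinearMap.ker (cas E) := by
      refine ab11_comp E (LinearMap.ker (cas E)) ?_ f.support (fun mu => f mu)
        (fun mu _ => hf mu) ?_
      · intro i u hu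
        rw [LinearMap.mem_ker] at hu ⊢
        exact ab11_comm_apply E hE i i u hu
      · rw [LinearMap.mem_ker]
        have : (∑ mu ∈ f.support, f mu) = v := hsum
        rw [this, hc]
    obtain ⟨mu, hmu⟩ : f.support.Nonempty := by
      rw [Finset.nonempty_iff_ne_empty]
      intro h0
      apply hv
      rw [← hsum, Finsupp.sum, h0, Finset.sum_empty]
    exact ⟨mu 0 - mu 2, mu, f mu, Finsupp.mem_support_iff.1 hmu, h1 mu hmu, hf mu, rfl⟩
  obtain ⟨d1, hd1, hmax⟩ := D.exists_max_image id hDfin hDne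
  obtain ⟨d2, hd2, hmin⟩ := D.exists_min_image id hDfin hDne
  simp only [id] at hmax hmin
  have hmaxD := hmax
  have hminD := hmin
  obtain ⟨mu, u, hu0, hu1, hu2, hu3⟩ := hd1
  obtain ⟨nu, w, hw0, hw1, hw2, hw3⟩ := hd2
  have hshiftD : ∀ (a b : Fin 3) (m : Fin 3 → ℤ) (x : M), cas E x = 0 → x ∈ wsp E m →
      E a b x ≠ 0 → ((m 0 + (if (0 : Fin 3) = a then 1 else 0) - (if (0 : Fin 3) = b then 1 else 0)) -
        (m 2 + (if (2 : Fin 3) = a then 1 else 0) - (if (2 : Fin 3) = b then 1 else 0))) ∈ D := by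
    intro a b m x hx hxm hne
    exact ⟨_, E a b x, hne, ab11_comm_apply E hE a b x hx, ab11_shift E hE a b m x hxm, rfl⟩
  have k01 : E 0 1 u = 0 := by
    by_contra hne
    have := hmax _ (hshiftD 0 1 mu u hu1 hu2 hne)
    simp at this
    omega
  have k12 : E 1 2 u = 0 := by
    by_contra hne
    have := hmax _ (hshiftD 1 2 mu u hu1 hu2 hne)
    simp at this
    omega
  have k02 : E 0 2 u = 0 := by
    by_contra hne
    have := hmax _ (hshiftD 0 2 mu u hu1 hu2 hne)
    simp at this
    omega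
  have l10 : E 1 0 w = 0 := by
    by_contra hne
    have := hmin _ (hshiftD 1 0 nu w hw1 hw2 hne)
    simp at this
    omega
  have l21 : E 2 1 w = 0 := by
    by_contra hne
    have := hmin _ (hshiftD 2 1 nu w hw1 hw2 hne)
    simp at this
    omega
  have l20 : E 2 0 w = 0 := by
    by_contra hne
    have := hmin _ (hshiftD 2 0 nu w hw1 hw2 hne)
    simp at this
    omega
  have hqu : mu 0 ^ 2 + mu 1 ^ 2 + mu 2 ^ 2 + 2 * (mu 0 - mu 2) = 0 := by
    have g0 : E 0 0 u = ((mu 0 : ℤ) : k) • u := hu2 0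
    have g1 : E 1 1 u = ((mu 1 : ℤ) : k) • u := hu2 1
    have g2 : E 2 2 u = ((mu 2 : ℤ) : k) • u := hu2 2
    have r1 := ab11_rel E hE 0 1 1 0 u
    have r2 := ab11_rel E hE 0 2 2 0 u
    have r3 := ab11_rel E hE 1 2 2 1 u
    simp [k01, k02, k12, g0, g1, g2] at r1 r2 r3
    have hcas : cas E u = ((((mu 0 ^ 2 + mu 1 ^ 2 + mu 2 ^ 2 + 2 * (mu 0 - mu 2)) : ℤ)) : k) • u := by
      unfold cas
      simp only [Fin.sum_univ_three, LinearMap.add_apply, Module.End.mul_apply, g0, g1, g2, k01,
        k02, k12, map_zero, map_smul, r1, r2, r3]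
      push_cast
      module
    rw [hu1] at hcas
    have h0 := (smul_eq_zero.1 hcas.symm).resolve_right hu0
    exact_mod_cast h0
  have hqw : nu 0 ^ 2 + nu 1 ^ 2 + nu 2 ^ 2 - 2 * (nu 0 - nu 2) = 0 := by
    have g0 : E 0 0 w = ((nu 0 : ℤ) : k) • w := hw2 0
    have g1 : E 1 1 w = ((nu 1 : ℤ) : k) • w := hw2 1
    have g2 : E 2 2 w = ((nu 2 : ℤ) : k) • w := hw2 2
    have r1 := ab11_rel E hE 1 0 0 1 w
    have r2 := ab11_rel E hE 2 0 0 2 w
    have r3 := ab11_rel E hE 2 1 1 2 w
    simp [l10, l20, l21, g0, g1, g2] at r1 r2 r3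
    have hcas : cas E w = ((((nu 0 ^ 2 + nu 1 ^ 2 + nu 2 ^ 2 - 2 * (nu 0 - nu 2)) : ℤ)) : k) • w := by
      unfold cas
      simp only [Fin.sum_univ_three, LinearMap.add_apply, Module.End.mul_apply, g0, g1, g2, l10,
        l20, l21, map_zero, map_smul, r1, r2, r3]
      push_cast
      module
    rw [hw1] at hcas
    have h0 := (smul_eq_zero.1 hcas.symm).resolve_right hw0
    exact_mod_cast h0
  have h12 : d2 ≤ d1 := hmin d1 ⟨mu, u, hu0, hu1, hu2, hu3⟩
  have hd10 : mu 0 - mu 2 = 0 := by
    nlinarith [sq_nonneg (mu 0), sq_nonneg (mu 1), sq_nonneg (mu 2), sq_nonneg (nu 0),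
      sq_nonneg (nu 1), sq_nonneg (nu 2)]
  have hd20 : 0 ≤ nu 0 - nu 2 := by
    nlinarith [sq_nonneg (nu 0), sq_nonneg (nu 1), sq_nonneg (nu 2)]
  have m0 : mu 0 = 0 := by
    have : mu 0 ^ 2 = 0 := by nlinarith [sq_nonneg (mu 0), sq_nonneg (mu 1), sq_nonneg (mu 2)]
    exact pow_eq_zero_iff (two_ne_zero) |>.1 this
  have m1 : mu 1 = 0 := by
    have : mu 1 ^ 2 = 0 := by nlinarith [sq_nonneg (mu 0), sq_nonneg (mu 1), sq_nonneg (mu 2)]
    exact pow_eq_zero_iff (two_ne_zero) |>.1 this
  have m2 : mu 2 = 0 := by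
    have : mu 2 ^ 2 = 0 := by nlinarith [sq_nonneg (mu 0), sq_nonneg (mu 1), sq_nonneg (mu 2)]
    exact pow_eq_zero_iff (two_ne_zero) |>.1 this
  refine ⟨u, hu0, ?_⟩
  have g0 : E 0 0 u = ((mu 0 : ℤ) : k) • u := hu2 0
  have g1 : E 1 1 u = ((mu 1 : ℤ) : k) • u := hu2 1
  have g2 : E 2 2 u = ((mu 2 : ℤ) : k) • u := hu2 2
  rw [m0, Int.cast_zero, zero_smul] at g0
  rw [m1, Int.cast_zero, zero_smul] at g1
  rw [m2, Int.cast_zero, zero_smul] at g2
  have k10 : E 1 0 u = 0 := by
    by_contra hne
    have := hmin _ (hshiftD 1 0 mu u hu1 hu2 hne)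
    simp at this
    omega
  have k21 : E 2 1 u = 0 := by
    by_contra hne
    have := hmin _ (hshiftD 2 1 mu u hu1 hu2 hne)
    simp at this
    omega
  have k20 : E 2 0 u = 0 := by
    by_contra hne
    have := hmin _ (hshiftD 2 0 mu u hu1 hu2 hne)
    simp at this
    omega
  intro a b
  fin_cases a <;> fin_cases b <;> assumption

end Pool.ABG
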