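import Pool.Agent.ABG.Rep

set_option autoImplicit false

/-!
The weights of the eigenspace of the Casimir operator with the eigenvalue six.
-/

open Module

namespace Pool.ABG

/- elementary facts -/

theorem ab12_shift {k : Type} [Field k] {M : Type} [AddCommGroup M] [Module k M]
    (E : Fin 3 → Fin 3 → Module.End k M) (hE : IsGl E) (c d : Fin 3) (mu : Fin 3 → ℤ) (v : M)
    (hv : v ∈ wsp E mu) : E c d v ∈ wsp E (mu + ep c - ep d) := by
  intro i
  have h := hE i i c d
  have h1 : E i i (E c d v) - E c d (E i i v) =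
      ((if i = c then E i d else 0) - (if d = i then E c i else 0) : Module.End k M) v := by
    rw [← h]; rfl
  rw [hv i, map_smul, sub_eq_iff_eq_add] at h1
  rw [h1]
  have h2 : ((if i = c then E i d else 0) - (if d = i then E c i else 0) : Module.End k M) v =
      (((if i = c then 1 else 0) - (if d = i then 1 else 0) : ℤ) : k) • E c d v := by
    by_cases h3 : i = c <;> by_cases h4 : d = i
    · subst h3; subst h4; simp
    · subst h3; simp [h4]
    · subst h4; simp [h3]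
    · simp [h3, h4]
  rw [h2, ← add_smul]
  congr 1
  have h5 : (mu + ep c - ep d) i = mu i + (if i = c then 1 else 0) - (if d = i then 1 else 0) := by
    simp only [Pi.sub_apply, Pi.add_apply, ep, Pi.single_apply]
    by_cases h4 : i = d
    · simp [h4]
    · simp [h4, Ne.symm h4]
  rw [h5]
  push_cast
  ring

theorem ab12_finite {k : Type} [Field k] [CharZero k] {M : Type} [AddCommGroup M] [Module k M]
    [FiniteDimensional k M] (E : Fin 3 → Fin 3 → Module.End k M) :
    {mu : Fin 3 → ℤ | wsp E mu ≠ ⊥}.Finite := by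
  have h1 : (Set.pi Set.univ (fun i : Fin 3 => {x : k | (E i i).HasEigenvalue x})).Finite :=
    Set.Finite.pi' (fun i => Module.End.finite_hasEigenvalue (E i i)) |>.subset (by
      intro f hf; exact fun i => hf i (Set.mem_univ i))
  have h2 : Set.InjOn (fun (mu : Fin 3 → ℤ) (i : Fin 3) => ((mu i : ℤ) : k))
      ((fun (mu : Fin 3 → ℤ) (i : Fin 3) => ((mu i : ℤ) : k)) ⁻¹'
        (Set.pi Set.univ (fun i : Fin 3 => {x : k | (E i i).HasEigenvalue x}))) := by
    intro a _ b _ hab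
    funext i
    have := congrFun hab i
    exact Int.cast_injective this
  refine (Set.Finite.preimage h2 h1).subset ?_
  intro mu hmu
  obtain ⟨v, hv, hv0⟩ := (Submodule.ne_bot_iff _).1 hmu
  intro i _
  exact Module.End.hasEigenvalue_of_hasEigenvector
    (Module.End.hasEigenvector_iff.2 ⟨Module.End.mem_eigenspace_iff.2 (hv i), hv0⟩)

theorem ab12_comm {k : Type} [Field k] {M : Type} [AddCommGroup M] [Module k M]
    (E : Fin 3 → Fin 3 → Module.End k M) (hE : IsGl E) (a b : Fin 3)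
    (mu : Fin 3 → ℤ) (v : M) (hv : v ∈ wsp E mu) (h0 : E a b v = 0) :
    E a b (E b a v) = ((mu a - mu b : ℤ) : k) • v ∧ E b a (E a b v) = 0 := by
  refine ⟨?_, by rw [h0, map_zero]⟩
  have h := hE a b b a
  have h1 : E a b (E b a v) - E b a (E a b v) =
      ((if b = b then E a a else 0) - (if a = a then E b b else 0) : Module.End k M) v := by
    rw [← h]; rfl
  rw [h0, map_zero, sub_zero] at h1
  rw [h1]
  simp only [if_true, LinearMap.sub_apply, hv a, hv b]
  rw [Int.cast_sub, sub_smul]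

theorem ab12_cas {k : Type} [Field k] {M : Type} [AddCommGroup M] [Module k M]
    (E : Fin 3 → Fin 3 → Module.End k M) (hE : IsGl E) (i j l : Fin 3)
    (hij : i ≠ j) (hil : i ≠ l) (hlj : l ≠ j)
    (mu : Fin 3 → ℤ) (v : M) (hv : v ∈ wsp E mu) (h1 : E i l v = 0) (h2 : E l j v = 0)
    (h3 : E i j v = 0) :
    cas E v = ((mu 0 ^ 2 + mu 1 ^ 2 + mu 2 ^ 2 + 2 * (mu i - mu j) : ℤ) : k) • v := by
  obtain ⟨a1, b1⟩ := ab12_comm E hE i l mu v hv h1
  obtain ⟨a2, b2⟩ := ab12_comm E hE l j mu v hv h2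
  obtain ⟨a3, b3⟩ := ab12_comm E hE i j mu v hv h3
  have hd : ∀ a, E a a (E a a v) = ((mu a ^ 2 : ℤ) : k) • v := by
    intro a
    rw [hv a, map_smul, hv a, smul_smul]
    congr 1
    push_cast
    ring
  have hc : cas E v = ∑ a, ∑ b, E a b (E b a v) := by
    simp [cas, LinearMap.sum_apply]
  rw [hc]
  simp only [Fin.sum_univ_three]
  rw [hd 0, hd 1, hd 2]
  fin_cases i <;> fin_cases j <;> fin_cases l <;>
    first
    | exact absurd rfl hij
    | exact absurd rfl hil
    | exact absurd rfl hlj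
    | (simp only [Fin.zero_eta, Fin.mk_one, Fin.reduceFinMk, Fin.isValue] at a1 b1 a2 b2 a3 b3 ⊢
       rw [a1, b1, a2, b2, a3, b3]
       simp only [add_zero, zero_add, ← add_smul]
       congr 1
       push_cast
       ring)

theorem ab12_sum {k : Type} [Field k] [CharZero k] {M : Type} [AddCommGroup M] [Module k M]
    (E : Fin 3 → Fin 3 → Module.End k M)
    (h0 : E 0 0 + E 1 1 + E 2 2 = 0) (mu : Fin 3 → ℤ) (h : wsp E mu ≠ ⊥) :
    mu 0 + mu 1 + mu 2 = 0 := by
  obtain ⟨v, hv, hv0⟩ := (Submodule.ne_bot_iff _).1 h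
  have h1 : (E 0 0 + E 1 1 + E 2 2) v = 0 := by rw [h0]; rfl
  rw [LinearMap.add_apply, LinearMap.add_apply, hv 0, hv 1, hv 2, ← add_smul, ← add_smul] at h1
  have h2 := (smul_eq_zero.1 h1).resolve_right hv0
  exact_mod_cast h2

theorem ab12_top {k : Type} [Field k] [CharZero k] {M : Type} [AddCommGroup M] [Module k M]
    [FiniteDimensional k M] (E : Fin 3 → Fin 3 → Module.End k M) (hE : IsGl E)
    (h0 : E 0 0 + E 1 1 + E 2 2 = 0)
    (hc : ∀ v, cas E v = (6 : k) • v) (i j l : Fin 3)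
    (hij : i ≠ j) (hil : i ≠ l) (hlj : l ≠ j) (nu : Fin 3 → ℤ) (hnu : wsp E nu ≠ ⊥) :
    ∃ mu, ∃ v ∈ wsp E mu, v ≠ 0 ∧ E i l v = 0 ∧ E l j v = 0 ∧ E i j v = 0 ∧
      wsp E mu ≠ ⊥ ∧ mu 0 ^ 2 + mu 1 ^ 2 + mu 2 ^ 2 + 2 * (mu i - mu j) = 6 ∧
      nu i - nu j ≤ mu i - mu j := by
  obtain ⟨mu, hmu, hmax⟩ := Set.exists_max_image {mu : Fin 3 → ℤ | wsp E mu ≠ ⊥}
    (fun mu => mu i - mu j) (ab12_finite E) ⟨nu, hnu⟩
  obtain ⟨v, hv, hv0⟩ := (Submodule.ne_bot_iff _).1 hmu
  have key : ∀ c d : Fin 3, mu i - mu j < (mu + ep c - ep d) i - (mu + ep c - ep d) j →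
      E c d v = 0 := by
    intro c d hcd
    by_contra hne
    have h1 : wsp E (mu + ep c - ep d) ≠ ⊥ :=
      (Submodule.ne_bot_iff _).2 ⟨E c d v, ab12_shift E hE c d mu v hv, hne⟩
    have h2 : (mu + ep c - ep d) i - (mu + ep c - ep d) j ≤ mu i - mu j := hmax _ h1
    exact absurd h2 (not_le.2 hcd)
  have e1 : E i l v = 0 := by
    apply key
    simp only [Pi.sub_apply, Pi.add_apply, ep, Pi.single_apply]
    simp [hij, hil, hlj.symm, hij.symm]
  have e2 : E l j v = 0 := by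
    apply key
    simp only [Pi.sub_apply, Pi.add_apply, ep, Pi.single_apply]
    simp [hij, hil, hlj.symm, hij.symm]
  have e3 : E i j v = 0 := by
    apply key
    simp only [Pi.sub_apply, Pi.add_apply, ep, Pi.single_apply]
    simp [hij, hil, hlj.symm, hij.symm]
    try omega
  refine ⟨mu, v, hv, hv0, e1, e2, e3, hmu, ?_, hmax nu hnu⟩
  have h4 := ab12_cas E hE i j l hij hil hlj mu v hv e1 e2 e3
  rw [hc v] at h4
  have h5 : ((6 : k) - ((mu 0 ^ 2 + mu 1 ^ 2 + mu 2 ^ 2 + 2 * (mu i - mu j) : ℤ) : k)) • v = 0 := by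
    rw [sub_smul, ← h4, sub_self]
  have h6 := (smul_eq_zero.1 h5).resolve_right hv0
  have h7 : ((mu 0 ^ 2 + mu 1 ^ 2 + mu 2 ^ 2 + 2 * (mu i - mu j) : ℤ) : k) = ((6 : ℤ) : k) := by
    push_cast at h6 ⊢
    linear_combination -h6
  exact Int.cast_injective h7

/-- the weights of the eigenspace of the Casimir operator for the adjoint representation -/
theorem adj_weights {k : Type} [Field k] [CharZero k] {M : Type} [AddCommGroup M] [Module k M]
    [FiniteDimensional k M] (E : Fin 3 → Fin 3 → Module.End k M) (hE : IsGl E)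
    (h0 : E 0 0 + E 1 1 + E 2 2 = 0)
    (hM : ⨆ mu, wsp E mu = ⊤) (hc : ∀ v, cas E v = (6 : k) • v) :
    (∀ mu, wsp E mu ≠ ⊥ → mu 0 + mu 1 + mu 2 = 0 ∧ ∀ i j, mu i - mu j ≤ 2) ∧
    ((∃ v : M, v ≠ 0) →
      ∃ v ∈ wsp E theta, v ≠ 0 ∧ E 0 1 v = 0 ∧ E 1 2 v = 0 ∧ E 0 2 v = 0) := by
  have main : ∀ mu, wsp E mu ≠ ⊥ → mu 0 + mu 1 + mu 2 = 0 ∧ ∀ i j, mu i - mu j ≤ 2 := by
    intro nu hnu
    refine ⟨ab12_sum E h0 nu hnu, ?_⟩
    intro i j
    by_cases hij : i = j
    · subst hij; omega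
    · have hl : ∃ l : Fin 3, i ≠ l ∧ l ≠ j := by
        fin_cases i <;> fin_cases j <;> first | exact absurd rfl hij | decide
      obtain ⟨l, hil, hlj⟩ := hl
      obtain ⟨mu, v, hv, hv0, e1, e2, e3, hmu, hq, hle⟩ :=
        ab12_top E hE h0 hc i j l hij hil hlj nu hnu
      have hs := ab12_sum E h0 mu hmu
      have hsq : (mu i - mu j) ^ 2 ≤ 2 * (mu 0 ^ 2 + mu 1 ^ 2 + mu 2 ^ 2) := by
        fin_cases i <;> fin_cases j <;>
          simp only [Fin.zero_eta, Fin.mk_one, Fin.reduceFinMk, Fin.isValue] <;>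
          nlinarith [sq_nonneg (mu 0 + mu 1), sq_nonneg (mu 0 + mu 2), sq_nonneg (mu 1 + mu 2),
            sq_nonneg (mu 0), sq_nonneg (mu 1), sq_nonneg (mu 2)]
      by_contra hgt
      have h3 : 3 ≤ mu i - mu j := by omega
      nlinarith
  refine ⟨main, ?_⟩
  rintro ⟨w, hw⟩
  have hex : ∃ nu, wsp E nu ≠ ⊥ := by
    by_contra hne
    push Not at hne
    have h1 : (⨆ mu, wsp E mu) = ⊥ := by
      rw [iSup_eq_bot]
      exact hne
    rw [h1] at hM
    have h2 : w ∈ (⊥ : Submodule k M) := by rw [hM]; exact Submodule.mem_top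
    exact hw ((Submodule.mem_bot k).1 h2)
  obtain ⟨nu, hnu⟩ := hex
  obtain ⟨mu, v, hv, hv0, e1, e2, e3, hmu, hq, hle⟩ :=
    ab12_top E hE h0 hc 0 2 1 (by decide) (by decide) (by decide) nu hnu
  obtain ⟨hs, hb⟩ := main mu hmu
  have b01 := hb 0 1
  have b10 := hb 1 0
  have b02 := hb 0 2
  have b20 := hb 2 0
  have b12 := hb 1 2
  have b21 := hb 2 1
  have hth : mu = theta := by
    have h0l : -1 ≤ mu 0 := by omega
    have h0u : mu 0 ≤ 1 := by omega
    have h1l : -1 ≤ mu 1 := by omega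
    have h1u : mu 1 ≤ 1 := by omega
    have h2l : -1 ≤ mu 2 := by omega
    have h2u : mu 2 ≤ 1 := by omega
    funext t
    have hth0 : theta 0 = 1 := rfl
    have hth1 : theta 1 = 0 := rfl
    have hth2 : theta 2 = -1 := rfl
    generalize hx : mu 0 = x at *
    generalize hy : mu 1 = y at *
    generalize hz : mu 2 = z at *
    have hh : x = 1 ∧ y = 0 ∧ z = -1 := by
      interval_cases x <;> interval_cases y <;> interval_cases z <;> simp_all
    obtain ⟨h1, h2, h3⟩ := hh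
    fin_cases t
    · show mu 0 = theta 0
      rw [hx, h1, hth0]
    · show mu 1 = theta 1
      rw [hy, h2, hth1]
    · show mu 2 = theta 2
      rw [hz, h3, hth2]
  subst hth
  exact ⟨v, hv, hv0, e1, e2, e3⟩

end Pool.ABG
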