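import Pool.Agent.ABG.Rep

set_option autoImplicit false


open Module

namespace Pool.ABG

 


/-- weights move -/
theorem ab13_wt {k : Type} [Field k] {M : Type} [AddCommGroup M] [Module k M]
    (E : Fin 3 → Fin 3 → Module.End k M) (hE : IsGl E) {mu : Fin 3 → ℤ} {x : M}
    (hx : x ∈ wsp E mu) (a b : Fin 3) : E a b x ∈ wsp E (mu + ep a - ep b) := by
  intro i
  have h1 : E i i x = ((mu i : ℤ) : k) • x := hx i
  have h2 := congrArg (fun T : Module.End k M => T x) (hE i i a b)
  simp only [LinearMap.sub_apply, Module.End.mul_apply] at h2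
  rw [h1, map_smul] at h2
  have h3 : E i i (E a b x) = ((mu i : ℤ) : k) • E a b x +
      ((if i = a then E i b else 0) x - (if b = i then E a i else 0) x) := by
    rw [← h2]; abel
  rw [h3]
  simp only [Pi.add_apply, Pi.sub_apply, ep, Pi.single_apply]
  by_cases hia : i = a
  · by_cases hib : b = i
    · subst hia; subst hib
      simp
    · subst hia
      have hib' : ¬ i = b := fun h => hib h.symm
      simp [hib, hib', add_smul]
  · by_cases hib : b = i
    · subst hib
      simp only [if_neg hia, LinearMap.zero_apply, if_true, zero_sub, add_zero, Int.cast_sub,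
        Int.cast_one, sub_smul, one_smul]
      abel
    · have hib' : ¬ i = b := fun h => hib h.symm
      simp [hia, hib, hib']

/-- bad weights do not occur -/
theorem ab13_zero {k : Type} [Field k] {M : Type} [AddCommGroup M] [Module k M]
    (E : Fin 3 → Fin 3 → Module.End k M)
    (hw : ∀ mu, wsp E mu ≠ ⊥ → mu 0 + mu 1 + mu 2 = 0 ∧ ∀ i j, mu i - mu j ≤ 2)
    {mu : Fin 3 → ℤ} {x : M} (hx : x ∈ wsp E mu) (i j : Fin 3) (hij : 2 < mu i - mu j) :
    x = 0 := by
  by_contra hne
  have h1 : wsp E mu ≠ ⊥ := by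
    intro h
    rw [h] at hx
    exact hne ((Submodule.mem_bot k).1 hx)
  have := (hw mu h1).2 i j
  omega

/-- the assembly -/
theorem ab13_asm {k : Type} [Field k] {M : Type} [AddCommGroup M] [Module k M]
    (E : Fin 3 → Fin 3 → Module.End k M) (c : Fin 3 → Fin 3 → M)
    (key : ∀ a b i j, E a b (c i j) = (if b = i then c a j else 0) - (if j = a then c i b else 0)) :
    ∃ phi : Matrix (Fin 3) (Fin 3) k →ₗ[k] M, (∀ a b Y, E a b (phi Y) =
      phi (Matrix.single a b 1 * Y - Y * Matrix.single a b 1)) ∧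
      ∀ i j, phi (Matrix.single i j 1) = c i j := by
  refine ⟨{ toFun := fun Y => ∑ i, ∑ j, Y i j • c i j
            map_add' := fun X Y => by
              simp only [Matrix.add_apply, add_smul, Finset.sum_add_distrib]
            map_smul' := fun r Y => by
              simp only [Matrix.smul_apply, smul_eq_mul, mul_smul, Finset.smul_sum,
                RingHom.id_apply] }, ?_, ?_⟩
  · intro a b (Y : Matrix (Fin 3) (Fin 3) k)
    simp only [LinearMap.coe_mk, AddHom.coe_mk]
    have hL : E a b (∑ i, ∑ j, Y i j • c i j) = ∑ j, Y b j • c a j - ∑ i, Y i a • c i b := by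
      rw [map_sum]
      simp only [map_sum, map_smul, key, smul_sub, Finset.sum_sub_distrib, smul_ite, smul_zero]
      congr 1
      · rw [Finset.sum_comm]
        simp
      · simp
    rw [hL]
    have h1 : ∀ i j, (Matrix.single a b (1 : k) * Y - Y * Matrix.single a b 1 :
        Matrix (Fin 3) (Fin 3) k) i j =
        (if i = a then Y b j else 0) - (if j = b then Y i a else 0) := by
      intro i j
      rw [Matrix.sub_apply]
      congr 1
      · by_cases h : i = a
        · subst h; simp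
        · rw [if_neg h, Matrix.single_mul_apply_of_ne _ _ _ _ _ h]
      · by_cases h : j = b
        · subst h; simp
        · rw [if_neg h, Matrix.mul_single_apply_of_ne _ _ _ _ _ h]
    simp only [h1, sub_smul, Finset.sum_sub_distrib, ite_smul, zero_smul]
    congr 1
    · rw [Finset.sum_comm]
      simp
    · simp
  · intro i j
    simp only [LinearMap.coe_mk, AddHom.coe_mk]
    rw [Finset.sum_eq_single i, Finset.sum_eq_single j]
    · simp
    · intro b _ hb
      rw [Matrix.single_apply_of_col_ne _ _ hb.symm, zero_smul]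
    · simp
    · intro b _ hb
      apply Finset.sum_eq_zero
      intro d _
      rw [Matrix.single_apply_of_row_ne hb.symm, zero_smul]
    · simp

/-- a highest weight vector generates the adjoint representation -/
theorem adj_gen {k : Type} [Field k] [CharZero k] {M : Type} [AddCommGroup M] [Module k M]
    [FiniteDimensional k M] (E : Fin 3 → Fin 3 → Module.End k M) (hE : IsGl E)
    (h0 : E 0 0 + E 1 1 + E 2 2 = 0)
    (hw : ∀ mu, wsp E mu ≠ ⊥ → mu 0 + mu 1 + mu 2 = 0 ∧ ∀ i j, mu i - mu j ≤ 2)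
    (v : M) (hv : v ∈ wsp E theta) (h01 : E 0 1 v = 0) (h12 : E 1 2 v = 0) (h02 : E 0 2 v = 0) :
    ∃ phi : Matrix (Fin 3) (Fin 3) k →ₗ[k] M, (∀ a b Y, E a b (phi Y) =
      phi (Matrix.single a b 1 * Y - Y * Matrix.single a b 1)) ∧ phi (Matrix.single 0 2 1) = v := by
  have comm : ∀ (a b c d : Fin 3) (x : M), E a b (E c d x) = E c d (E a b x) +
      (if b = c then E a d x else 0) - (if d = a then E c b x else 0) := by
    intro a b c d x
    have h2 := congrArg (fun T : Module.End k M => T x) (hE a b c d)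
    simp only [LinearMap.sub_apply, Module.End.mul_apply] at h2
    have h3 : (if b = c then E a d else 0) x = (if b = c then E a d x else 0) := by
      split_ifs <;> rfl
    have h4 : (if d = a then E c b else 0) x = (if d = a then E c b x else 0) := by
      split_ifs <;> rfl
    rw [h3, h4] at h2
    rw [add_sub_assoc, ← h2]
    abel
  have hv' : v ∈ wsp E ![1, 0, -1] := hv
  obtain ⟨p, hp⟩ : ∃ p, p = E 2 1 v := ⟨_, rfl⟩
  obtain ⟨q, hq⟩ : ∃ q, q = E 1 0 v := ⟨_, rfl⟩
  obtain ⟨a1, ha1⟩ : ∃ a1, a1 = E 1 0 p := ⟨_, rfl⟩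
  obtain ⟨g2, hg2⟩ : ∃ g2, g2 = E 2 1 q := ⟨_, rfl⟩
  obtain ⟨r, hr⟩ : ∃ r, r = E 1 0 a1 := ⟨_, rfl⟩
  obtain ⟨s, hs⟩ : ∃ s, s = E 2 1 g2 := ⟨_, rfl⟩
  obtain ⟨t, ht⟩ : ∃ t, t = E 2 1 r := ⟨_, rfl⟩
  have wt : ∀ (mu nu : Fin 3 → ℤ) (x : M) (a b : Fin 3), x ∈ wsp E mu → mu + ep a - ep b = nu →
      E a b x ∈ wsp E nu := by
    intro mu nu x a b hx he
    rw [← he]
    exact ab13_wt E hE hx a b
  have wp : p ∈ wsp E ![1, -1, 0] := by rw [hp]; exact wt _ _ _ _ _ hv' (by decide)
  have wq : q ∈ wsp E ![0, 1, -1] := by rw [hq]; exact wt _ _ _ _ _ hv' (by decide)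
  have wa : a1 ∈ wsp E ![0, 0, 0] := by rw [ha1]; exact wt _ _ _ _ _ wp (by decide)
  have wg : g2 ∈ wsp E ![0, 0, 0] := by rw [hg2]; exact wt _ _ _ _ _ wq (by decide)
  have wr : r ∈ wsp E ![-1, 1, 0] := by rw [hr]; exact wt _ _ _ _ _ wa (by decide)
  have ws : s ∈ wsp E ![0, -1, 1] := by rw [hs]; exact wt _ _ _ _ _ wg (by decide)
  have wtt : t ∈ wsp E ![-1, 0, 1] := by rw [ht]; exact wt _ _ _ _ _ wr (by decide)
  have F1 : E 1 0 q = 0 := ab13_zero E hw (wt _ ![-1, 2, -1] _ _ _ wq (by decide)) 1 0 (by decide)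
  have F2 : E 2 1 p = 0 := ab13_zero E hw (wt _ ![1, -2, 1] _ _ _ wp (by decide)) 0 1 (by decide)
  have F3 : E 1 0 r = 0 := ab13_zero E hw (wt _ ![-2, 2, 0] _ _ _ wr (by decide)) 1 0 (by decide)
  have F4 : E 2 1 s = 0 := ab13_zero E hw (wt _ ![0, -2, 2] _ _ _ ws (by decide)) 2 1 (by decide)
  have F5 : E 1 0 t = 0 := ab13_zero E hw (wt _ ![-2, 1, 1] _ _ _ wtt (by decide)) 1 0 (by decide)
  have F6 : E 2 1 t = 0 := ab13_zero E hw (wt _ ![-1, -1, 2] _ _ _ wtt (by decide)) 2 1 (by decide)
  -- diagonal actions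
  have v0 : E 0 0 v = v := by have := hv' 0; simpa using this
  have v1 : E 1 1 v = 0 := by have := hv' 1; simpa using this
  have v2 : E 2 2 v = -v := by have := hv' 2; simpa using this
  have p0 : E 0 0 p = p := by have := wp 0; simpa using this
  have p1 : E 1 1 p = -p := by have := wp 1; simpa using this
  have p2 : E 2 2 p = 0 := by have := wp 2; simpa using this
  have q0 : E 0 0 q = 0 := by have := wq 0; simpa using this
  have q1 : E 1 1 q = q := by have := wq 1; simpa using this
  have q2 : E 2 2 q = -q := by have := wq 2; simpa using this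
  have a0 : E 0 0 a1 = 0 := by have := wa 0; simpa using this
  have a11 : E 1 1 a1 = 0 := by have := wa 1; simpa using this
  have a2 : E 2 2 a1 = 0 := by have := wa 2; simpa using this
  have g0 : E 0 0 g2 = 0 := by have := wg 0; simpa using this
  have g1 : E 1 1 g2 = 0 := by have := wg 1; simpa using this
  have g22 : E 2 2 g2 = 0 := by have := wg 2; simpa using this
  have r0 : E 0 0 r = -r := by have := wr 0; simpa using this
  have r1 : E 1 1 r = r := by have := wr 1; simpa using this
  have r2 : E 2 2 r = 0 := by have := wr 2; simpa using this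
  have s0 : E 0 0 s = 0 := by have := ws 0; simpa using this
  have s1 : E 1 1 s = -s := by have := ws 1; simpa using this
  have s2 : E 2 2 s = s := by have := ws 2; simpa using this
  have t0 : E 0 0 t = -t := by have := wtt 0; simpa using this
  have t1 : E 1 1 t = 0 := by have := wtt 1; simpa using this
  have t2 : E 2 2 t = t := by have := wtt 2; simpa using this
  -- raising
  have e1p : E 0 1 p = 0 := by
    rw [hp, comm]; simp [h01]
  have e2p : E 1 2 p = v := by
    rw [hp, comm]; simp [h12, v1, v2]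
  have e1q : E 0 1 q = v := by
    rw [hq, comm]; simp [h01, v0, v1]
  have e2q : E 1 2 q = 0 := by
    rw [hq, comm]; simp [h12]
  have e1a : E 0 1 a1 = (2 : k) • p := by
    rw [ha1, comm]; simp [e1p, p0, p1, two_smul]
  have e2a : E 1 2 a1 = q := by
    rw [ha1, comm]; simp [e2p, hq]
  have e1g : E 0 1 g2 = p := by
    rw [hg2, comm]; simp [e1q, hp]
  have e2g : E 1 2 g2 = (2 : k) • q := by
    rw [hg2, comm]; simp [e2q, q1, q2, two_smul]
  have e1r : E 0 1 r = (2 : k) • a1 := by
    rw [hr, comm]; simp [e1a, a0, a11, ← ha1]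
  have e2r : E 1 2 r = 0 := by
    rw [hr, comm]; simp [e2a, F1]
  have e1s : E 0 1 s = 0 := by
    rw [hs, comm]; simp [e1g, F2]
  have e2s : E 1 2 s = (2 : k) • g2 := by
    rw [hs, comm]; simp [e2g, g1, g22, ← hg2]
  -- Serre
  have S1 : E 2 1 a1 = E 2 0 p := by
    rw [ha1, comm]; simp [F2]
  have S2 : g2 = a1 + E 2 0 v := by
    rw [hg2, hq, comm]; simp [← hp, ← ha1]
  have S3 : s = (2 : k) • E 2 1 a1 := by
    have h3 : E 2 1 (E 2 0 v) = E 2 0 p := by rw [comm]; simp [← hp]
    rw [hs, S2, map_add, h3, ← S1, two_smul]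
  have S4 : E 1 0 g2 = -E 2 0 q := by
    rw [hg2, comm]; simp [F1]
  have S5 : r = (2 : k) • E 1 0 g2 := by
    have h3 : E 1 0 (E 2 0 v) = E 2 0 q := by rw [comm]; simp [← hq]
    have h4 : E 1 0 g2 = r + E 2 0 q := by
      conv_lhs => rw [S2]
      rw [map_add, h3, ← hr]
    have h5 : r = E 1 0 g2 + E 1 0 g2 := by
      rw [h4] at S4 ⊢
      have : r = - E 2 0 q - E 2 0 q := by rw [← S4]; abel
      rw [S4]
      nth_rewrite 1 [this]
      abel
    rw [two_smul]; exact h5
  have f2a : E 2 1 a1 = (1 / 2 : k) • s := by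
    rw [S3, smul_smul]; norm_num
  have f1g : E 1 0 g2 = (1 / 2 : k) • r := by
    rw [S5, smul_smul]; norm_num
  have e1t : E 0 1 t = s := by
    rw [ht, comm]; simp [e1r, S3]
  have e2t : E 1 2 t = r := by
    rw [ht, comm]; simp [e2r, r1, r2]
  have f1s : E 1 0 s = t := by
    obtain ⟨w, hw0⟩ : ∃ w, w = E 1 0 s - t := ⟨_, rfl⟩
    have hws : E 1 0 s ∈ wsp E ![-1, 0, 1] := wt _ _ _ _ _ ws (by decide)
    have hww : w ∈ wsp E ![-1, 0, 1] := by
      rw [hw0]; exact Submodule.sub_mem _ hws wtt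
    have k1 : E 1 0 w = 0 :=
      ab13_zero E hw (wt _ ![-2, 1, 1] _ _ _ hww (by decide)) 1 0 (by decide)
    have k2 : E 0 1 w = 0 := by
      rw [hw0, map_sub, comm]; simp [e1s, s0, s1, e1t]
    have k3 : E 0 0 w = -w := by have := hww 0; simpa using this
    have k4 : E 1 1 w = 0 := by have := hww 1; simpa using this
    have k5 := comm 0 1 1 0 w
    simp only [k1, k2, k3, k4, map_zero, if_true, zero_add, sub_zero] at k5
    have k6 : w = 0 := by
      have := k5.symm
      simpa using this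
    rw [hw0] at k6
    exact sub_eq_zero.1 k6
  obtain ⟨c, hc⟩ : ∃ c : Fin 3 → Fin 3 → M, c = ![![(1 / 3 : k) • ((2 : k) • a1 - g2), -p, v],
      ![(1 / 2 : k) • r, (1 / 3 : k) • (-g2 - a1), q],
      ![(1 / 2 : k) • t, -((1 / 2 : k) • s), (1 / 3 : k) • ((2 : k) • g2 - a1)]] := ⟨_, rfl⟩
  have c00 : c 0 0 = (1 / 3 : k) • ((2 : k) • a1 - g2) := by rw [hc]; rfl
  have c01 : c 0 1 = -p := by rw [hc]; rfl
  have c02 : c 0 2 = v := by rw [hc]; rfl
  have c10 : c 1 0 = (1 / 2 : k) • r := by rw [hc]; rfl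
  have c11 : c 1 1 = (1 / 3 : k) • (-g2 - a1) := by rw [hc]; rfl
  have c12 : c 1 2 = q := by rw [hc]; rfl
  have c20 : c 2 0 = (1 / 2 : k) • t := by rw [hc]; rfl
  have c21 : c 2 1 = -((1 / 2 : k) • s) := by rw [hc]; rfl
  have c22 : c 2 2 = (1 / 3 : k) • ((2 : k) • g2 - a1) := by rw [hc]; rfl
  have T01 : ∀ i j, E 0 1 (c i j) = (if (1 : Fin 3) = i then c 0 j else 0) -
      (if j = 0 then c i 1 else 0) := by
    intro i j
    fin_cases i <;> fin_cases j <;>
      simp [c00, c01, c02, c10, c11, c12, c20, c21, c22, e1p, e1q, h01, e1a, e1g, e1r, e1s, e1t]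
        <;> module
  have T12 : ∀ i j, E 1 2 (c i j) = (if (2 : Fin 3) = i then c 1 j else 0) -
      (if j = 1 then c i 2 else 0) := by
    intro i j
    fin_cases i <;> fin_cases j <;>
      simp [c00, c01, c02, c10, c11, c12, c20, c21, c22, e2p, e2q, h12, e2a, e2g, e2r, e2s, e2t]
        <;> module
  have T10 : ∀ i j, E 1 0 (c i j) = (if (0 : Fin 3) = i then c 1 j else 0) -
      (if j = 1 then c i 0 else 0) := by
    intro i j
    fin_cases i <;> fin_cases j <;>
      simp [c00, c01, c02, c10, c11, c12, c20, c21, c22, ← ha1, F1, ← hq, ← hr, f1g, F3, f1s, F5]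
        <;> module
  have T21 : ∀ i j, E 2 1 (c i j) = (if (1 : Fin 3) = i then c 2 j else 0) -
      (if j = 2 then c i 1 else 0) := by
    intro i j
    fin_cases i <;> fin_cases j <;>
      simp [c00, c01, c02, c10, c11, c12, c20, c21, c22, F2, ← hg2, ← hp, f2a, ← hs, ← ht, F4, F6]
        <;> module
  have T00 : ∀ i j, E 0 0 (c i j) = (if (0 : Fin 3) = i then c 0 j else 0) -
      (if j = 0 then c i 0 else 0) := by
    intro i j
    fin_cases i <;> fin_cases j <;>
      simp [c00, c01, c02, c10, c11, c12, c20, c21, c22, v0, p0, q0, a0, g0, r0, s0, t0]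
  have T11 : ∀ i j, E 1 1 (c i j) = (if (1 : Fin 3) = i then c 1 j else 0) -
      (if j = 1 then c i 1 else 0) := by
    intro i j
    fin_cases i <;> fin_cases j <;>
      simp [c00, c01, c02, c10, c11, c12, c20, c21, c22, v1, p1, q1, a11, g1, r1, s1, t1]
  have T22 : ∀ i j, E 2 2 (c i j) = (if (2 : Fin 3) = i then c 2 j else 0) -
      (if j = 2 then c i 2 else 0) := by
    intro i j
    fin_cases i <;> fin_cases j <;>
      simp [c00, c01, c02, c10, c11, c12, c20, c21, c22, v2, p2, q2, a2, g22, r2, s2, t2]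
  have T02 : ∀ i j, E 0 2 (c i j) = (if (2 : Fin 3) = i then c 0 j else 0) -
      (if j = 0 then c i 2 else 0) := by
    intro i j
    have e : E 0 2 (c i j) = E 0 1 (E 1 2 (c i j)) - E 1 2 (E 0 1 (c i j)) := by
      have := comm 0 1 1 2 (c i j)
      simp at this
      rw [this]; abel
    rw [e, T12, T01]
    fin_cases i <;> fin_cases j <;> simp [T01, T12]
  have T20 : ∀ i j, E 2 0 (c i j) = (if (0 : Fin 3) = i then c 2 j else 0) -
      (if j = 2 then c i 0 else 0) := by
    intro i j
    have e : E 2 0 (c i j) = E 2 1 (E 1 0 (c i j)) - E 1 0 (E 2 1 (c i j)) := by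
      have := comm 2 1 1 0 (c i j)
      simp at this
      rw [this]; abel
    rw [e, T10, T21]
    fin_cases i <;> fin_cases j <;> simp [T10, T21]
  have key : ∀ a b i j, E a b (c i j) = (if b = i then c a j else 0) -
      (if j = a then c i b else 0) := by
    intro a b
    fin_cases a <;> fin_cases b
    · exact T00
    · exact T01
    · exact T02
    · exact T10
    · exact T11
    · exact T12
    · exact T20
    · exact T21
    · exact T22
  obtain ⟨phi, h1, h2⟩ := ab13_asm E c key
  exact ⟨phi, h1, by rw [h2, c02]⟩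

end Pool.ABG
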