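import Pool.Agent.ABG.Rep
import Pool.Agent.ABG.A12
import Pool.Agent.ABG.A13

set_option autoImplicit false


open Module

namespace Pool.ABG

 

/- HELPERS ab14_ -/

/-- the Casimir operator commutes with the nine operators -/
theorem ab14_comm {k : Type} [Field k] {M : Type} [AddCommGroup M] [Module k M]
    (E : Fin 3 → Fin 3 → Module.End k M) (hE : IsGl E) (a b : Fin 3) :
    cas E * E a b = E a b * cas E := by
  have h1 : ∀ c d, E c d * E d c * E a b - E a b * (E c d * E d c) =
      E c d * ((if c = a then E d b else 0) - (if b = d then E a c else 0)) +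
      ((if d = a then E c b else 0) - (if b = c then E a d else 0)) * E d c := by
    intro c d
    rw [← hE d c a b, ← hE c d a b]
    noncomm_ring
  have h2 : cas E * E a b - E a b * cas E = ∑ c, ∑ d,
      (E c d * ((if c = a then E d b else 0) - (if b = d then E a c else 0)) +
      ((if d = a then E c b else 0) - (if b = c then E a d else 0)) * E d c) := by
    unfold cas
    rw [Finset.sum_mul, Finset.mul_sum, ← Finset.sum_sub_distrib]
    refine Finset.sum_congr rfl fun c _ => ?_
    rw [Finset.sum_mul, Finset.mul_sum, ← Finset.sum_sub_distrib]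
    exact Finset.sum_congr rfl fun d _ => h1 c d
  have h3 : ∑ c, ∑ d,
      (E c d * ((if c = a then E d b else 0) - (if b = d then E a c else 0)) +
      ((if d = a then E c b else 0) - (if b = c then E a d else 0)) * E d c) = 0 := by
    simp only [mul_sub, sub_mul, mul_ite, ite_mul, mul_zero, zero_mul, Finset.sum_add_distrib,
      Finset.sum_sub_distrib, Finset.sum_ite_eq, Finset.sum_ite_eq', Finset.mem_univ, if_true]
    have e1 : (∑ c : Fin 3, ∑ d : Fin 3, (if c = a then E c d * E d b else 0)) =
        ∑ d : Fin 3, E a d * E d b := by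
      rw [Finset.sum_comm]
      simp
    have e2 : (∑ c : Fin 3, ∑ d : Fin 3, (if b = c then E a d * E d c else 0)) =
        ∑ d : Fin 3, E a d * E d b := by
      rw [Finset.sum_comm]
      simp
    rw [e1, e2]
    abel
  rw [h3] at h2
  exact sub_eq_zero.mp h2

/-- weight spaces are independent -/
theorem ab14_indep {k : Type} [Field k] [CharZero k] {M : Type} [AddCommGroup M] [Module k M]
    (E : Fin 3 → Fin 3 → Module.End k M) (hE : IsGl E) : iSupIndep (wsp E) := by
  have hc : ∀ i j, Commute (E i i) (E j j) := by
    intro i j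
    have h := hE i i j j
    have h2 : (if i = j then E i j else 0) - (if j = i then E j i else 0) = (0 : Module.End k M) := by
      rcases eq_or_ne i j with h3 | h3
      · subst h3; simp
      · rw [if_neg h3, if_neg (Ne.symm h3), sub_zero]
    rw [h2] at h
    exact sub_eq_zero.mp h
  have h1 := Module.End.independent_iInf_maxGenEigenspace_of_forall_mapsTo (fun i => E i i)
    (fun i j φ => Module.End.mapsTo_maxGenEigenspace_of_comm (hc j i) φ)
  have h2 : Function.Injective (fun (mu : Fin 3 → ℤ) (i : Fin 3) => ((mu i : ℤ) : k)) := by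
    intro mu nu h
    funext i
    have h3 := congrFun h i
    simpa using h3
  have h3 := h1.comp h2
  refine h3.mono fun mu => ?_
  intro v hv
  simp only [Function.comp, Submodule.mem_iInf]
  intro i
  rw [Module.End.mem_maxGenEigenspace]
  refine ⟨1, ?_⟩
  have h4 : E i i v = ((mu i : ℤ) : k) • v := hv i
  simp [h4]


/-- the eigenvalue of the adjoint representation -/
theorem adj_of_ker {k : Type} [Field k] [CharZero k] {M : Type} [AddCommGroup M] [Module k M]
    [FiniteDimensional k M] (E : Fin 3 → Fin 3 → Module.End k M) (hE : IsGl E)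
    (h0 : E 0 0 + E 1 1 + E 2 2 = 0)
    (hM : ⨆ mu, wsp E mu = ⊤) (v : M) (hv : v ≠ 0) (hc : cas E v = (6 : k) • v) :
    ∃ phi : Matrix (Fin 3) (Fin 3) k →ₗ[k] M, (∀ a b Y, E a b (phi Y) =
      phi (Matrix.single a b 1 * Y - Y * Matrix.single a b 1)) ∧
      phi (Matrix.single 0 2 1) ≠ 0 := by
  classical
  set N : Submodule k M := LinearMap.ker (cas E - (6 : k) • (1 : Module.End k M)) with hN
  have memN : ∀ x, x ∈ N ↔ cas E x = (6 : k) • x := by
    intro x
    rw [hN, LinearMap.mem_ker]
    simp [sub_eq_zero]
  have hst : ∀ a b, ∀ x ∈ N, E a b x ∈ N := by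
    intro a b x hx
    rw [memN] at hx ⊢
    have h := congrArg (fun f : Module.End k M => f x) (ab14_comm E hE a b)
    simp only [Module.End.mul_apply] at h
    rw [h, hx, map_smul]
  set E' : Fin 3 → Fin 3 → Module.End k N := fun a b => (E a b).restrict (hst a b) with hE'
  have coeE' : ∀ a b (x : N), ((E' a b x : N) : M) = E a b x := fun a b x => rfl
  have hE'gl : IsGl E' := by
    intro a b c d
    ext x
    have h := congrArg (fun f : Module.End k M => f x) (hE a b c d)
    have l1 : (((E' a b * E' c d - E' c d * E' a b) x : N) : M) =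
        (E a b * E c d - E c d * E a b) (x : M) := rfl
    have l2 : ((((if b = c then E' a d else 0) - (if d = a then E' c b else 0) : Module.End k N) x
        : N) : M) =
        ((if b = c then E a d else 0) - (if d = a then E c b else 0) : Module.End k M) (x : M) := by
      by_cases h1 : b = c <;> by_cases h2 : d = a <;> simp [h1, h2, coeE']
    rw [l1, l2]
    exact h
  have h0' : E' 0 0 + E' 1 1 + E' 2 2 = 0 := by
    ext x
    have h := congrArg (fun f : Module.End k M => f x) h0
    exact h
  have memw : ∀ mu (x : N), x ∈ wsp E' mu ↔ (x : M) ∈ wsp E mu := by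
    intro mu x
    constructor
    · intro hx i
      have h := congrArg (fun y : N => (y : M)) (hx i)
      exact h
    · intro hx i
      apply Subtype.ext
      exact hx i
  have hM' : ⨆ mu, wsp E' mu = ⊤ := by
    rw [eq_top_iff]
    rintro ⟨x, hx⟩ -
    have hx1 : x ∈ ⨆ mu, wsp E mu := by rw [hM]; trivial
    obtain ⟨f, hf, hfx⟩ := (Submodule.mem_iSup_iff_exists_finsupp _ _).mp hx1
    set T : Module.End k M := cas E - (6 : k) • (1 : Module.End k M) with hT
    have hTw : ∀ mu, ∀ y ∈ wsp E mu, T y ∈ wsp E mu := by
      intro mu y hy i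
      have h := congrArg (fun g : Module.End k M => g y) (ab14_comm E hE i i)
      simp only [Module.End.mul_apply] at h
      have hyi : E i i y = ((mu i : ℤ) : k) • y := hy i
      have e1 : T y = cas E y - (6 : k) • y := by simp [hT]
      rw [e1, map_sub, map_smul, ← h, hyi, map_smul, smul_sub, smul_comm]
    have hTf : ∀ mu ∈ f.support, T (f mu) = 0 := by
      refine (iSupIndep_iff_finsetSum_eq_zero_imp_eq_zero _).mp (ab14_indep E hE) f.support
        (fun mu => T (f mu)) (fun mu _ => hTw mu _ (hf mu)) ?_
      rw [← map_sum]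
      have : ∑ mu ∈ f.support, f mu = x := hfx
      rw [this]
      exact hx
    have hfN : ∀ mu, f mu ∈ N := by
      intro mu
      by_cases hmu : mu ∈ f.support
      · exact hTf mu hmu
      · rw [Finsupp.notMem_support_iff.mp hmu]; exact N.zero_mem
    have hxs : (⟨x, hx⟩ : N) = ∑ mu ∈ f.support, (⟨f mu, hfN mu⟩ : N) := by
      apply Subtype.ext
      rw [AddSubmonoidClass.coe_finsetSum]
      exact hfx.symm
    rw [hxs]
    refine Submodule.sum_mem _ fun mu _ => ?_
    exact Submodule.mem_iSup_of_mem mu ((memw mu _).mpr (hf mu))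
  have hcN : ∀ x : N, cas E' x = (6 : k) • x := by
    intro x
    apply Subtype.ext
    have h1 : ((cas E' x : N) : M) = cas E (x : M) := by
      unfold cas
      simp only [LinearMap.sum_apply, AddSubmonoidClass.coe_finsetSum, Module.End.mul_apply]
      rfl
    rw [h1]
    exact (memN x).mp x.2
  obtain ⟨hw, hhw⟩ := adj_weights E' hE'gl h0' hM' hcN
  obtain ⟨u, hu, hu0, h01, h12, h02⟩ := hhw ⟨⟨v, (memN v).mpr hc⟩, fun h => hv (by
    simpa using congrArg (fun y : N => (y : M)) h)⟩
  obtain ⟨phi, hphi, hphi2⟩ := adj_gen E' hE'gl h0' hw u hu h01 h12 h02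
  refine ⟨N.subtype.comp phi, fun a b Y => ?_, ?_⟩
  · have h := congrArg (fun y : N => (y : M)) (hphi a b Y)
    exact h
  · rw [LinearMap.comp_apply, hphi2]
    intro h
    exact hu0 (Subtype.ext h)

end Pool.ABG

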