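import Pool.Agent.ABG.Rep
import Pool.Agent.ABG.A10
import Pool.Agent.ABG.A11
import Pool.Agent.ABG.A14

set_option autoImplicit false


open Module

namespace Pool.ABG

 


theorem ab15_mem_wsp {k : Type} [Field k] {M : Type} [AddCommGroup M] [Module k M]
    (E : Fin 3 → Fin 3 → Module.End k M) (mu : Fin 3 → ℤ) (v : M) :
    v ∈ wsp E mu ↔ ∀ i, E i i v = ((mu i : ℤ) : k) • v := Iff.rfl

/-- components of an element of a stable subspace -/
theorem ab15_sep {k : Type} [Field k] [CharZero k] {M : Type} [AddCommGroup M] [Module k M]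
    (E : Fin 3 → Fin 3 → Module.End k M) (Z : Submodule k M)
    (hZ : ∀ i, ∀ v ∈ Z, E i i v ∈ Z) (S : Finset (Fin 3 → ℤ)) :
    ∀ f : (Fin 3 → ℤ) → M, (∀ mu ∈ S, f mu ∈ wsp E mu) → ∑ mu ∈ S, f mu ∈ Z →
      ∀ mu ∈ S, f mu ∈ Z := by
  classical
  induction S using Finset.induction_on with
  | empty => intro f _ _ mu hmu; simp at hmu
  | insert nu S hnu ih =>
    intro f hf hs
    have key : ∀ mu ∈ S, f mu ∈ Z := by
      intro mu hmu
      have hne : mu ≠ nu := fun h => hnu (h ▸ hmu)
      obtain ⟨i, hi⟩ := Function.ne_iff.mp hne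
      have h1 : E i i (∑ mu ∈ insert nu S, f mu) - ((nu i : ℤ) : k) • ∑ mu ∈ insert nu S, f mu =
          ∑ mu ∈ S, (((mu i : ℤ) : k) - ((nu i : ℤ) : k)) • f mu := by
        rw [map_sum, Finset.smul_sum, ← Finset.sum_sub_distrib, Finset.sum_insert hnu,
          hf nu (Finset.mem_insert_self _ _) i, sub_self, zero_add]
        apply Finset.sum_congr rfl
        intro x hx
        rw [hf x (Finset.mem_insert_of_mem hx) i, sub_smul]
      have h2 : ∑ mu ∈ S, (((mu i : ℤ) : k) - ((nu i : ℤ) : k)) • f mu ∈ Z := by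
        rw [← h1]
        exact Z.sub_mem (hZ i _ hs) (Z.smul_mem _ hs)
      have h3 := ih (fun mu => (((mu i : ℤ) : k) - ((nu i : ℤ) : k)) • f mu)
        (fun x hx => (wsp E x).smul_mem _ (hf x (Finset.mem_insert_of_mem hx))) h2 mu hmu
      have h4 : (((mu i : ℤ) : k) - ((nu i : ℤ) : k)) ≠ 0 := by
        rw [sub_ne_zero]
        exact fun h => hi (Int.cast_injective h)
      have h5 : f mu = (((mu i : ℤ) : k) - ((nu i : ℤ) : k))⁻¹ •
          ((((mu i : ℤ) : k) - ((nu i : ℤ) : k)) • f mu) := by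
        rw [smul_smul, inv_mul_cancel₀ h4, one_smul]
      rw [h5]
      exact Z.smul_mem _ h3
    intro mu hmu
    rcases Finset.mem_insert.mp hmu with h | h
    · subst h
      rw [Finset.sum_insert hnu] at hs
      have h6 : ∑ x ∈ S, f x ∈ Z := Z.sum_mem key
      have h7 := Z.sub_mem hs h6
      rwa [add_sub_cancel_right] at h7
    · exact key mu h

/-- decomposition of an element of a stable subspace into weight vectors -/
theorem ab15_dec {k : Type} [Field k] [CharZero k] {M : Type} [AddCommGroup M] [Module k M]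
    (E : Fin 3 → Fin 3 → Module.End k M) (hM : ⨆ mu, wsp E mu = ⊤) (Z : Submodule k M)
    (hZ : ∀ i, ∀ v ∈ Z, E i i v ∈ Z) (z : M) (hz : z ∈ Z) :
    ∃ (S : Finset (Fin 3 → ℤ)) (f : (Fin 3 → ℤ) → M), (∀ mu, f mu ∈ wsp E mu) ∧
      (∀ mu, f mu ∈ Z) ∧ (∀ mu, mu ∉ S → f mu = 0) ∧ ∑ mu ∈ S, f mu = z := by
  classical
  have h : z ∈ ⨆ mu, wsp E mu := by rw [hM]; trivial
  rw [Submodule.mem_iSup_iff_exists_finsupp] at h
  obtain ⟨f, hf, hs⟩ := h
  have hs' : ∑ mu ∈ f.support, f mu = z := hs
  have h1 := ab15_sep E Z hZ f.support (fun mu => f mu) (fun mu _ => hf mu)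
    (by rw [hs']; exact hz)
  refine ⟨f.support, fun mu => f mu, hf, ?_, fun mu hmu => Finsupp.notMem_support_iff.mp hmu, hs'⟩
  intro mu
  by_cases hmu : mu ∈ f.support
  · exact h1 mu hmu
  · have h2 : f mu = 0 := Finsupp.notMem_support_iff.mp hmu
    show f mu ∈ Z
    rw [h2]; exact Z.zero_mem

/-- cycles and boundaries when the homology has no trivial and no adjoint component -/
theorem homology_wal {k : Type} [Field k] [CharZero k] {M : Type} [AddCommGroup M] [Module k M]
    [FiniteDimensional k M] (E : Fin 3 → Fin 3 → Module.End k M) (hE : IsGl E)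
    (h0 : E 0 0 + E 1 1 + E 2 2 = 0) (hM : ⨆ mu, wsp E mu = ⊤) (Zc Bd : Submodule k M)
    (hZ : ∀ a b, ∀ v ∈ Zc, E a b v ∈ Zc) (hB : ∀ a b, ∀ v ∈ Bd, E a b v ∈ Bd) (hBZ : Bd ≤ Zc)
    (hT : ∀ z ∈ Zc, (∀ a b, E a b z ∈ Bd) → z ∈ Bd)
    (hA : ∀ phi : Matrix (Fin 3) (Fin 3) k →ₗ[k] M, (∀ Y, phi Y ∈ Zc) →
      (∀ a b Y, E a b (phi Y) - phi (Matrix.single a b 1 * Y - Y * Matrix.single a b 1) ∈ Bd) →
      phi (Matrix.single 0 2 1) ∈ Bd)
    (lam : Fin 3 → ℤ) (hlam : lam = 0 ∨ lam = theta) :
    wal (fun mu => (finrank k (Zc ⊓ wsp E mu : Submodule k M) : ℤ)) lam =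
      wal (fun mu => (finrank k (Bd ⊓ wsp E mu : Submodule k M) : ℤ)) lam := by
  have hZd : ∀ i, ∀ v ∈ Zc, E i i v ∈ Zc := fun i => hZ i i
  -- the quotient
  let B' : Submodule k Zc := Bd.comap Zc.subtype
  have hst : ∀ a b, B' ≤ B'.comap ((E a b).restrict (hZ a b)) := by
    intro a b v hv
    exact hB a b _ hv
  let E' : Fin 3 → Fin 3 → Module.End k (Zc ⧸ B') := fun a b =>
    B'.mapQ B' ((E a b).restrict (hZ a b)) (hst a b)
  have hE'mk : ∀ a b (z : Zc), E' a b (B'.mkQ z) = B'.mkQ ⟨E a b z, hZ a b z z.2⟩ := by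
    intro a b z
    rfl
  have hmk0 : ∀ z : Zc, B'.mkQ z = 0 ↔ (z : M) ∈ Bd := by
    intro z
    rw [Submodule.mkQ_apply, Submodule.Quotient.mk_eq_zero]
    rfl
  have hsurj : Function.Surjective B'.mkQ := Submodule.mkQ_surjective _
  have hE' : IsGl E' := by
    intro a b c d
    apply LinearMap.ext
    intro x
    obtain ⟨z, rfl⟩ := hsurj x
    have h1 : (E' a b * E' c d - E' c d * E' a b) (B'.mkQ z) =
        B'.mkQ ⟨(E a b * E c d - E c d * E a b) z, by
          simp only [LinearMap.sub_apply, Module.End.mul_apply]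
          exact Zc.sub_mem (hZ _ _ _ (hZ _ _ _ z.2)) (hZ _ _ _ (hZ _ _ _ z.2))⟩ := by
      rw [LinearMap.sub_apply, Module.End.mul_apply, Module.End.mul_apply, hE'mk, hE'mk, hE'mk,
        hE'mk, ← map_sub]
      rfl
    rw [h1]
    have h2 : (E a b * E c d - E c d * E a b) (z : M) =
        ((if b = c then E a d else 0) - (if d = a then E c b else 0) : Module.End k M) z := by
      rw [hE a b c d]
    have h3 : ∀ w : Zc, (w : M) = ((if b = c then E a d else 0) - (if d = a then E c b else 0) :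
        Module.End k M) z → B'.mkQ w = ((if b = c then E' a d else 0) -
          (if d = a then E' c b else 0) : Module.End k (Zc ⧸ B')) (B'.mkQ z) := by
      intro w hw
      by_cases hbc : b = c <;> by_cases hda : d = a
      · rw [if_pos hbc, if_pos hda] at hw ⊢
        rw [LinearMap.sub_apply, hE'mk, hE'mk, ← map_sub]
        congr 1
        exact Subtype.ext hw
      · rw [if_pos hbc, if_neg hda] at hw ⊢
        rw [LinearMap.sub_apply, hE'mk, LinearMap.zero_apply, sub_zero]
        rw [LinearMap.sub_apply, LinearMap.zero_apply, sub_zero] at hw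
        congr 1
        exact Subtype.ext hw
      · rw [if_neg hbc, if_pos hda] at hw ⊢
        rw [LinearMap.sub_apply, hE'mk, LinearMap.zero_apply, zero_sub, ← map_neg]
        rw [LinearMap.sub_apply, LinearMap.zero_apply, zero_sub] at hw
        congr 1
        exact Subtype.ext hw
      · rw [if_neg hbc, if_neg hda] at hw ⊢
        rw [sub_zero, LinearMap.zero_apply] at hw
        rw [sub_zero, LinearMap.zero_apply, hmk0, hw]
        exact Bd.zero_mem
    exact h3 _ h2
  have h0' : E' 0 0 + E' 1 1 + E' 2 2 = 0 := by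
    apply LinearMap.ext
    intro x
    obtain ⟨z, rfl⟩ := hsurj x
    rw [LinearMap.add_apply, LinearMap.add_apply, hE'mk, hE'mk, hE'mk, ← map_add, ← map_add,
      LinearMap.zero_apply, hmk0]
    have h2 := congrArg (fun f : Module.End k M => f z) h0
    simp only [LinearMap.add_apply, LinearMap.zero_apply] at h2
    show E 0 0 z + E 1 1 z + E 2 2 z ∈ Bd
    rw [h2]
    exact Bd.zero_mem
  have hwsp : ∀ mu (z : Zc), (z : M) ∈ wsp E mu → B'.mkQ z ∈ wsp E' mu := by
    intro mu z hz i
    rw [hE'mk, ← map_smul]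
    congr 1
    exact Subtype.ext (hz i)
  -- decomposition in the quotient
  have hdec : ∀ x : Zc ⧸ B', ∃ (S : Finset (Fin 3 → ℤ)) (f : (Fin 3 → ℤ) → Zc),
      (∀ mu, (f mu : M) ∈ wsp E mu) ∧ (∀ mu, mu ∉ S → f mu = 0) ∧
      ∑ mu ∈ S, B'.mkQ (f mu) = x := by
    intro x
    obtain ⟨z, rfl⟩ := hsurj x
    obtain ⟨S, f, h1, h2, h3, h4⟩ := ab15_dec E hM Zc hZd z z.2
    refine ⟨S, fun mu => ⟨f mu, h2 mu⟩, h1, fun mu hmu => Subtype.ext (h3 mu hmu), ?_⟩
    rw [← map_sum]
    congr 1
    apply Subtype.ext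
    rw [← h4]
    simp
  have hM' : ⨆ mu, wsp E' mu = ⊤ := by
    rw [eq_top_iff]
    intro x _
    obtain ⟨S, f, h1, _, h2⟩ := hdec x
    rw [← h2]
    exact Submodule.sum_mem _ fun mu _ =>
      Submodule.mem_iSup_of_mem mu (hwsp mu (f mu) (h1 mu))
  -- dimensions
  have hfin : ∀ mu, (finrank k (wsp E' mu) : ℤ) =
      (finrank k (Zc ⊓ wsp E mu : Submodule k M) : ℤ) -
        (finrank k (Bd ⊓ wsp E mu : Submodule k M) : ℤ) := by
    intro mu
    let g : (Zc ⊓ wsp E mu : Submodule k M) →ₗ[k] (Zc ⧸ B') :=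
      B'.mkQ.comp (Submodule.inclusion inf_le_left)
    have hr : LinearMap.range g = wsp E' mu := by
      apply le_antisymm
      · rintro _ ⟨v, rfl⟩
        exact hwsp mu _ v.2.2
      · intro x hx
        obtain ⟨S, f, h1, h2, h3⟩ := hdec x
        classical
        have h4 : ∑ nu ∈ insert mu S, (B'.mkQ (f nu) - if nu = mu then x else 0) = 0 := by
          rw [Finset.sum_sub_distrib, Finset.sum_ite_eq' (insert mu S) mu (fun _ => x),
            if_pos (Finset.mem_insert_self _ _)]
          have h5 : ∑ nu ∈ insert mu S, B'.mkQ (f nu) = ∑ nu ∈ S, B'.mkQ (f nu) := by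
            symm
            apply Finset.sum_subset (Finset.subset_insert _ _)
            intro y _ hy
            rw [h2 y hy, map_zero]
          rw [h5, h3, sub_self]
        have h6 := ab15_sep E' ⊥ (fun i v hv => by
          rw [Submodule.mem_bot] at hv ⊢
          rw [hv, map_zero]) (insert mu S) (fun nu => B'.mkQ (f nu) - if nu = mu then x else 0)
          (fun nu _ => by
            by_cases hn : nu = mu
            · subst hn
              simp only [if_true]
              exact (wsp E' nu).sub_mem (hwsp nu (f nu) (h1 nu)) hx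
            · simp only [if_neg hn, sub_zero]
              exact hwsp nu (f nu) (h1 nu))
          (by rw [h4]; exact Submodule.zero_mem _) mu (Finset.mem_insert_self _ _)
        simp only [if_true, Submodule.mem_bot] at h6
        refine ⟨⟨f mu, (f mu).2, h1 mu⟩, ?_⟩
        rw [sub_eq_zero] at h6
        exact h6
    have hk : (LinearMap.ker g).map (Zc ⊓ wsp E mu : Submodule k M).subtype =
        Bd ⊓ wsp E mu := by
      ext v
      constructor
      · rintro ⟨w, hw, rfl⟩
        have h1 : B'.mkQ (Submodule.inclusion inf_le_left w) = 0 := hw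
        rw [hmk0] at h1
        exact ⟨h1, w.2.2⟩
      · rintro ⟨hv1, hv2⟩
        refine ⟨⟨v, hBZ hv1, hv2⟩, ?_, rfl⟩
        show B'.mkQ (Submodule.inclusion inf_le_left _) = 0
        rw [hmk0]
        exact hv1
    have h7 := LinearMap.finrank_range_add_finrank_ker g
    have h8 : finrank k (Bd ⊓ wsp E mu : Submodule k M) = finrank k (LinearMap.ker g) := by
      rw [← hk]
      exact (Submodule.finrank_map_subtype_eq _ _)
    rw [hr] at h7
    rw [h8]
    omega
  have hinj : ∀ v : Zc ⧸ B', cas E' v = ((qf lam : ℤ) : k) • v → v = 0 := by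
    intro v hv
    by_contra hne
    rcases hlam with h | h
    · subst h
      have hq : qf 0 = 0 := by simp [qf]
      rw [hq] at hv
      simp only [Int.cast_zero, zero_smul] at hv
      obtain ⟨u, hu, hu2⟩ := triv_of_ker E' hE' hM' v hne hv
      obtain ⟨z, rfl⟩ := hsurj u
      apply hu
      rw [hmk0]
      apply hT z z.2
      intro a b
      have := hu2 a b
      rw [hE'mk, hmk0] at this
      exact this
    · subst h
      have hq : qf theta = 6 := by simp [qf, theta]
      rw [hq] at hv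
      have hv' : cas E' v = (6 : k) • v := by
        rw [hv]
        norm_num
      obtain ⟨phi', hp1, hp2⟩ := adj_of_ker E' hE' h0' hM' v hne hv'
      obtain ⟨phi, hphi⟩ := Module.projective_lifting_property B'.mkQ phi' hsurj
      have hphi' : ∀ Y, B'.mkQ (phi Y) = phi' Y := fun Y => by
        rw [← hphi]; rfl
      apply hp2
      rw [← hphi', hmk0]
      have := hA (Zc.subtype.comp phi) (fun Y => (phi Y).2) (fun a b Y => by
        have h1 : B'.mkQ (⟨E a b (phi Y), hZ a b _ (phi Y).2⟩ -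
            phi (Matrix.single a b 1 * Y - Y * Matrix.single a b 1)) = 0 := by
          rw [map_sub, ← hE'mk, hphi', hphi', hp1 a b Y, sub_self]
        rw [hmk0] at h1
        exact h1)
      exact this
  have hfw := fw_inj E' hE' hM' lam hinj
  unfold wal at hfw ⊢
  simp only [hfin] at hfw
  linarith

end Pool.ABG
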