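import Pool.Agent.ABG.Rep
import Pool.Agent.ABG.A15

set_option autoImplicit false

/-! Euler characteristic (job AB-16) -/

open Module

namespace Pool.ABG

 

/- helpers -/

section ab16

variable {k : Type} [Field k]

theorem ab16_comm {M : Type} [AddCommGroup M] [Module k M]
    (E : Fin 3 → Fin 3 → Module.End k M) (hE : IsGl E) (i j : Fin 3) :
    Commute (E i i) (E j j) := by
  have h := hE i i j j
  rcases eq_or_ne i j with rfl | hij
  · exact Commute.refl _
  · rw [if_neg hij, if_neg (Ne.symm hij), sub_zero] at h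
    exact sub_eq_zero.mp h

variable [CharZero k]

theorem ab16_indep {M : Type} [AddCommGroup M] [Module k M]
    (E : Fin 3 → Fin 3 → Module.End k M) (hE : IsGl E) :
    iSupIndep (fun mu : Fin 3 → ℤ => wsp E mu) := by
  have h1 := Module.End.independent_iInf_maxGenEigenspace_of_forall_mapsTo
    (fun i : Fin 3 => E i i)
    (fun i j φ => Module.End.mapsTo_maxGenEigenspace_of_comm (ab16_comm E hE j i) φ)
  have h2 : Function.Injective (fun (mu : Fin 3 → ℤ) (i : Fin 3) => ((mu i : ℤ) : k)) := by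
    intro a b h
    ext i
    exact Int.cast_injective (congrFun h i)
  refine (h1.comp h2).mono ?_
  intro mu v hv
  simp only [Function.comp, Submodule.mem_iInf]
  intro i
  have h3 : v ∈ (E i i).eigenspace ((mu i : ℤ) : k) := Module.End.mem_eigenspace_iff.2 (hv i)
  exact ((E i i).genEigenspace_le_maximal ((mu i : ℤ) : k) 1) h3

/-- weight components of a preimage -/
theorem ab16_range {U V : Type} [AddCommGroup U] [Module k U] [AddCommGroup V] [Module k V]
    (E : Fin 3 → Fin 3 → Module.End k U) (F : Fin 3 → Fin 3 → Module.End k V) (hF : IsGl F)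
    (hU : ⨆ mu, wsp E mu = ⊤) (f : U →ₗ[k] V) (hf : ∀ a b v, f (E a b v) = F a b (f v))
    (mu : Fin 3 → ℤ) : (wsp E mu).map f = LinearMap.range f ⊓ wsp F mu := by
  have hle : ∀ nu, (wsp E nu).map f ≤ wsp F nu := by
    rintro nu _ ⟨v, hv, rfl⟩ i
    rw [← hf, hv i, map_smul]
  apply le_antisymm
  · rintro _ ⟨v, hv, rfl⟩
    exact ⟨⟨v, rfl⟩, hle mu ⟨v, hv, rfl⟩⟩
  · rintro y ⟨⟨u, rfl⟩, hy⟩
    have hu : u ∈ wsp E mu ⊔ ⨆ (nu) (_ : nu ≠ mu), wsp E nu := by
      have h1 : (⨆ nu, wsp E nu) ≤ wsp E mu ⊔ ⨆ (nu) (_ : nu ≠ mu), wsp E nu := by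
        refine iSup_le fun nu => ?_
        rcases eq_or_ne nu mu with rfl | h
        · exact le_sup_left
        · exact le_trans (le_iSup₂_of_le nu h le_rfl) le_sup_right
      rw [hU] at h1
      exact h1 trivial
    obtain ⟨u1, hu1, u2, hu2, rfl⟩ := Submodule.mem_sup.1 hu
    have h2 : f u2 ∈ ⨆ (nu) (_ : nu ≠ mu), wsp F nu := by
      have h3 : f u2 ∈ (⨆ (nu) (_ : nu ≠ mu), wsp E nu).map f := ⟨u2, hu2, rfl⟩
      rw [Submodule.map_iSup] at h3
      have h7 : (⨆ nu, Submodule.map f (⨆ (_ : nu ≠ mu), wsp E nu)) ≤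
          ⨆ (nu) (_ : nu ≠ mu), wsp F nu := by
        refine iSup_mono fun nu => ?_
        rw [Submodule.map_iSup]
        exact iSup_mono fun _ => hle nu
      exact h7 h3
    have h4 : f u2 ∈ wsp F mu := by
      have h5 : f u2 = f (u1 + u2) - f u1 := by rw [map_add]; abel
      rw [h5]
      exact Submodule.sub_mem _ hy (hle mu ⟨u1, hu1, rfl⟩)
    have h6 : f u2 = 0 := (Submodule.disjoint_def.1 (ab16_indep F hF mu)) _ h4 h2
    exact ⟨u1, hu1, by rw [map_add, h6, add_zero]⟩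

theorem ab16_dim {U V : Type} [AddCommGroup U] [Module k U] [FiniteDimensional k U]
    [AddCommGroup V] [Module k V]
    (E : Fin 3 → Fin 3 → Module.End k U) (F : Fin 3 → Fin 3 → Module.End k V) (hF : IsGl F)
    (hU : ⨆ mu, wsp E mu = ⊤) (f : U →ₗ[k] V) (hf : ∀ a b v, f (E a b v) = F a b (f v))
    (mu : Fin 3 → ℤ) :
    finrank k (wsp E mu) = finrank k (LinearMap.ker f ⊓ wsp E mu : Submodule k U) +
      finrank k (LinearMap.range f ⊓ wsp F mu : Submodule k V) := by
  have h1 := LinearMap.finrank_range_add_finrank_ker (f.domRestrict (wsp E mu))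
  have h2 : LinearMap.range (f.domRestrict (wsp E mu)) = LinearMap.range f ⊓ wsp F mu := by
    rw [← ab16_range E F hF hU f hf mu]
    ext y
    constructor
    · rintro ⟨⟨v, hv⟩, rfl⟩
      exact ⟨v, hv, rfl⟩
    · rintro ⟨v, hv, rfl⟩
      exact ⟨⟨v, hv⟩, rfl⟩
  have h3 : finrank k (LinearMap.ker (f.domRestrict (wsp E mu))) =
      finrank k (LinearMap.ker f ⊓ wsp E mu : Submodule k U) := by
    have h4 : (LinearMap.ker (f.domRestrict (wsp E mu))).map (wsp E mu).subtype =
        LinearMap.ker f ⊓ wsp E mu := by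
      ext y
      constructor
      · rintro ⟨⟨v, hv⟩, hk, rfl⟩
        exact ⟨hk, hv⟩
      · rintro ⟨hk, hv⟩
        exact ⟨⟨y, hv⟩, hk, rfl⟩
    rw [← h4]
    exact (Submodule.finrank_map_subtype_eq _ _).symm
  rw [h2, h3] at h1
  omega

theorem ab16_wal_add (m m' : (Fin 3 → ℤ) → ℤ) (lam : Fin 3 → ℤ) :
    wal (fun mu => m mu + m' mu) lam = wal m lam + wal m' lam := by
  unfold wal
  ring

end ab16


/-- the Euler characteristic of a complex of finite dimensional modules whose homology has no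
trivial and no adjoint component -/
theorem euler_zero {k : Type} [Field k] [CharZero k] (N : ℕ) (U : ℕ → Type)
    [∀ r, AddCommGroup (U r)] [∀ r, Module k (U r)] [∀ r, FiniteDimensional k (U r)]
    (d : ∀ r, U (r + 1) →ₗ[k] U r) (E : ∀ r, Fin 3 → Fin 3 → Module.End k (U r))
    (hE : ∀ r, IsGl (E r)) (h0 : ∀ r, E r 0 0 + E r 1 1 + E r 2 2 = 0)
    (hM : ∀ r, ⨆ mu, wsp (E r) mu = ⊤)
    (hdd : ∀ r v, d r (d (r + 1) v) = 0)
    (hdE : ∀ r a b v, d r (E (r + 1) a b v) = E r a b (d r v))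
    (hN : ∀ r, N < r → ∀ v : U r, v = 0)
    (H0 : ∀ v : U 0, ∃ u, d 0 u = v) (H1 : ∀ v : U 1, d 0 v = 0 → ∃ u, d 1 u = v)
    (hT : ∀ r, ∀ z : U (r + 2), d (r + 1) z = 0 → (∀ a b, ∃ u, d (r + 2) u = E (r + 2) a b z) →
      ∃ u, d (r + 2) u = z)
    (hA : ∀ r, ∀ phi : Matrix (Fin 3) (Fin 3) k →ₗ[k] U (r + 2), (∀ Y, d (r + 1) (phi Y) = 0) →
      (∀ a b Y, ∃ u, d (r + 2) u = E (r + 2) a b (phi Y) -
        phi (Matrix.single a b 1 * Y - Y * Matrix.single a b 1)) →
      ∃ u, d (r + 2) u = phi (Matrix.single 0 2 1))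
    (lam : Fin 3 → ℤ) (hlam : lam = 0 ∨ lam = theta) :
    ∑ r ∈ Finset.range (N + 1), (-1 : ℤ) ^ r *
      wal (fun mu => (finrank k (wsp (E r) mu) : ℤ)) lam = 0 := by
  classical
  set z : ℕ → (Fin 3 → ℤ) → ℤ := fun r mu =>
    (finrank k (LinearMap.ker (d r) ⊓ wsp (E (r + 1)) mu : Submodule k (U (r + 1))) : ℤ) with hz
  set b : ℕ → (Fin 3 → ℤ) → ℤ := fun r mu =>
    (finrank k (LinearMap.range (d r) ⊓ wsp (E r) mu : Submodule k (U r)) : ℤ) with hb
  have hD : ∀ r mu, (finrank k (wsp (E (r + 1)) mu) : ℤ) = z r mu + b r mu := by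
    intro r mu
    have := ab16_dim (E (r + 1)) (E r) (hE r) (hM (r + 1)) (d r) (hdE r) mu
    simp only [hz, hb]
    rw [this]
    push_cast
    ring
  have hD0 : ∀ mu, (finrank k (wsp (E 0) mu) : ℤ) = b 0 mu := by
    intro mu
    have h1 : LinearMap.range (d 0) = ⊤ := by
      rw [LinearMap.range_eq_top]
      exact H0
    simp only [hb]
    rw [h1, top_inf_eq]
  have hz0 : z 0 = b 1 := by
    have h1 : LinearMap.ker (d 0) = LinearMap.range (d 1) := by
      ext v
      constructor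
      · intro hv
        exact H1 v hv
      · rintro ⟨u, rfl⟩
        exact hdd 0 u
    funext mu
    simp only [hz, hb]
    rw [h1]
  have hzr : ∀ r, wal (z (r + 1)) lam = wal (b (r + 2)) lam := by
    intro r
    refine homology_wal (E (r + 2)) (hE (r + 2)) (h0 (r + 2)) (hM (r + 2))
      (LinearMap.ker (d (r + 1))) (LinearMap.range (d (r + 2))) ?_ ?_ ?_ ?_ ?_ lam hlam
    · intro a b v hv
      rw [LinearMap.mem_ker] at hv ⊢
      rw [hdE, hv, map_zero]
    · rintro a b _ ⟨u, rfl⟩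
      exact ⟨E (r + 3) a b u, hdE (r + 2) a b u⟩
    · rintro _ ⟨u, rfl⟩
      exact hdd (r + 1) u
    · intro v hv hv2
      exact hT r v hv hv2
    · intro phi h1 h2
      exact hA r phi h1 h2
  have hzb : ∀ r, wal (z r) lam = wal (b (r + 1)) lam := by
    intro r
    rcases r with _ | r
    · rw [hz0]
    · exact hzr r
  have hW0 : wal (fun mu => (finrank k (wsp (E 0) mu) : ℤ)) lam = wal (b 0) lam := by
    have : (fun mu => (finrank k (wsp (E 0) mu) : ℤ)) = b 0 := funext hD0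
    rw [this]
  have hWr : ∀ r, wal (fun mu => (finrank k (wsp (E (r + 1)) mu) : ℤ)) lam =
      wal (b (r + 1)) lam + wal (b r) lam := by
    intro r
    have h1 : (fun mu => (finrank k (wsp (E (r + 1)) mu) : ℤ)) = fun mu => z r mu + b r mu :=
      funext (hD r)
    rw [h1, ab16_wal_add, hzb]
  have htel : ∀ n, ∑ r ∈ Finset.range (n + 1), (-1 : ℤ) ^ r *
      wal (fun mu => (finrank k (wsp (E r) mu) : ℤ)) lam = (-1 : ℤ) ^ n * wal (b n) lam := by
    intro n
    induction n with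
    | zero => simp [hW0]
    | succ n ih =>
      rw [Finset.sum_range_succ, ih, hWr, pow_succ]
      ring
  rw [htel]
  have hbN : b N = fun _ => 0 := by
    funext mu
    have h1 : LinearMap.range (d N) = ⊥ := by
      rw [eq_bot_iff]
      rintro _ ⟨u, rfl⟩
      rw [hN (N + 1) (Nat.lt_succ_self N) u, map_zero]
      exact Submodule.zero_mem _
    simp only [hb]
    rw [h1, bot_inf_eq]
    simp
  rw [hbN]
  unfold wal
  simp

end Pool.ABG
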