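import Pool.Agent.ABG.Rep

set_option autoImplicit false


open Module

namespace Pool.ABG

 


theorem ab17_mem {k : Type} [Field k] {M : Type} [AddCommGroup M] [Module k M]
    (E : Fin 3 → Fin 3 → Module.End k M) (mu : Fin 3 → ℤ) (v : M) :
    v ∈ wsp E mu ↔ ∀ i, E i i v = ((mu i : ℤ) : k) • v := Iff.rfl

theorem ab17_repr {k : Type} [Field k] {M : Type} [AddCommGroup M] [Module k M]
    {I : Type} [Fintype I] (b : Basis I k M) (E : Fin 3 → Fin 3 → Module.End k M)
    (wt : I → Fin 3 → ℤ) (h : ∀ i a, E a a (b i) = ((wt i a : ℤ) : k) • b i) (v : M) (a : Fin 3)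
    (i : I) : b.repr (E a a v) i = ((wt i a : ℤ) : k) * b.repr v i := by
  have h1 : E a a v = ∑ j, (b.repr v j * ((wt j a : ℤ) : k)) • b j := by
    conv_lhs => rw [← b.sum_repr v]
    rw [map_sum]
    refine Finset.sum_congr rfl fun j _ => ?_
    rw [map_smul, h j a, smul_smul]
  rw [h1, b.repr_sum_self, mul_comm]

theorem ab17_span {k : Type} [Field k] [CharZero k] {M : Type} [AddCommGroup M] [Module k M]
    {I : Type} [Fintype I] (b : Basis I k M) (E : Fin 3 → Fin 3 → Module.End k M)
    (wt : I → Fin 3 → ℤ) (h : ∀ i a, E a a (b i) = ((wt i a : ℤ) : k) • b i) (mu : Fin 3 → ℤ) :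
    wsp E mu = Submodule.span k (Set.range fun i : {i // wt i = mu} => b i) := by
  apply le_antisymm
  · intro v hv
    have h2 : (Set.range fun i : {i // wt i = mu} => b i) = b '' {i | wt i = mu} :=
      (Set.image_eq_range _ _).symm
    rw [h2, Basis.mem_span_image]
    intro i hi
    have hi' : b.repr v i ≠ 0 := by
      rwa [Finset.mem_coe, Finsupp.mem_support_iff] at hi
    show wt i = mu
    funext a
    have h3 := ab17_repr b E wt h v a i
    rw [(ab17_mem E mu v).1 hv a, map_smul, Finsupp.smul_apply, smul_eq_mul] at h3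
    exact (Int.cast_injective (mul_right_cancel₀ hi' h3)).symm
  · rw [Submodule.span_le]
    rintro _ ⟨i, rfl⟩
    intro a
    show E a a (b i) = ((mu a : ℤ) : k) • b i
    rw [h i a, i.2]

/-- simultaneous diagonalisation: a basis of eigenvectors -/
theorem wsp_basis {k : Type} [Field k] [CharZero k] {M : Type} [AddCommGroup M] [Module k M]
    {I : Type} [Fintype I] (b : Basis I k M) (E : Fin 3 → Fin 3 → Module.End k M)
    (wt : I → Fin 3 → ℤ) (h : ∀ i a, E a a (b i) = ((wt i a : ℤ) : k) • b i) :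
    ⨆ mu, wsp E mu = ⊤ ∧ ∀ mu, finrank k (wsp E mu) = Nat.card {i // wt i = mu} := by
  classical
  constructor
  · rw [eq_top_iff, ← b.span_eq, Submodule.span_le]
    rintro _ ⟨i, rfl⟩
    have h1 : b i ∈ wsp E (wt i) := fun a => h i a
    exact (le_iSup (wsp E) (wt i)) h1
  · intro mu
    rw [ab17_span b E wt h mu, Nat.card_eq_fintype_card]
    exact finrank_span_eq_card (b.linearIndependent.comp _ Subtype.val_injective)

end Pool.ABG
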