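import Pool.Agent.ABG.LieDef

set_option autoImplicit false


open scoped TensorProduct

namespace Pool.ABG


section
variable (k : Type) [Field k] {A : Type} [NonUnitalNonAssocRing A] [Module k A]
  [IsScalarTower k A A] [SMulCommClass k A A]

/-- the traceless part of a matrix -/
def ab18_T (M : Matrix (Fin 3) (Fin 3) A) : Matrix (Fin 3) (Fin 3) A :=
  M - Matrix.diagonal (fun _ => (3⁻¹ : k) • M.trace)

theorem ab18_comm0 (P Q : Matrix (Fin 3) (Fin 3) A) :
    comm0 k P Q = ab18_T k (P * Q - Q * P) := rfl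

theorem ab18_T_add (M N : Matrix (Fin 3) (Fin 3) A) :
    ab18_T k (M + N) = ab18_T k M + ab18_T k N := by
  unfold ab18_T
  rw [Matrix.trace_add, smul_add, ← Matrix.diagonal_add]
  abel

theorem ab18_T_smul (c : k) (M : Matrix (Fin 3) (Fin 3) A) :
    ab18_T k (c • M) = c • ab18_T k M := by
  unfold ab18_T
  rw [Matrix.trace_smul, smul_sub, smul_comm (3⁻¹ : k) c]
  congr 1
  ext i j
  rw [Matrix.smul_apply]
  by_cases h : i = j
  · subst h
    rw [Matrix.diagonal_apply_eq, Matrix.diagonal_apply_eq]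
  · rw [Matrix.diagonal_apply_ne _ h, Matrix.diagonal_apply_ne _ h, smul_zero]

theorem ab18_T_zero : ab18_T k (0 : Matrix (Fin 3) (Fin 3) A) = 0 := by
  have h := ab18_T_smul k (0 : k) (0 : Matrix (Fin 3) (Fin 3) A)
  rw [zero_smul, zero_smul] at h
  exact h

theorem ab18_comm0_add_left (P P' Q : Matrix (Fin 3) (Fin 3) A) :
    comm0 k (P + P') Q = comm0 k P Q + comm0 k P' Q := by
  rw [ab18_comm0, ab18_comm0, ab18_comm0, ← ab18_T_add, Matrix.add_mul, Matrix.mul_add]
  congr 1
  abel

theorem ab18_comm0_add_right (P Q Q' : Matrix (Fin 3) (Fin 3) A) :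
    comm0 k P (Q + Q') = comm0 k P Q + comm0 k P Q' := by
  rw [ab18_comm0, ab18_comm0, ab18_comm0, ← ab18_T_add, Matrix.add_mul, Matrix.mul_add]
  congr 1
  abel

theorem ab18_comm0_smul_left (c : k) (P Q : Matrix (Fin 3) (Fin 3) A) :
    comm0 k (c • P) Q = c • comm0 k P Q := by
  rw [ab18_comm0, ab18_comm0, ← ab18_T_smul, Matrix.smul_mul, Matrix.mul_smul, smul_sub]

theorem ab18_comm0_smul_right (c : k) (P Q : Matrix (Fin 3) (Fin 3) A) :
    comm0 k P (c • Q) = c • comm0 k P Q := by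
  rw [ab18_comm0, ab18_comm0, ← ab18_T_smul, Matrix.smul_mul, Matrix.mul_smul, smul_sub]

theorem ab18_comm0_self (P : Matrix (Fin 3) (Fin 3) A) : comm0 k P P = 0 := by
  rw [ab18_comm0, sub_self, ab18_T_zero]

theorem ab18_trace_T [CharZero k] (M : Matrix (Fin 3) (Fin 3) A) : (ab18_T k M).trace = 0 := by
  unfold ab18_T
  rw [Matrix.trace_sub, Matrix.trace_diagonal, Finset.sum_const, Finset.card_univ,
    Fintype.card_fin, ← Nat.cast_smul_eq_nsmul k, smul_smul]
  have h3 : ((3 : ℕ) : k) * 3⁻¹ = 1 := by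
    rw [Nat.cast_ofNat]
    exact mul_inv_cancel₀ (OfNat.ofNat_ne_zero 3)
  rw [h3, one_smul, sub_self]

theorem ab18_pair_add_left (P P' Q : Matrix (Fin 3) (Fin 3) A) :
    pair k (P + P') Q = pair k P Q + pair k P' Q := by
  unfold pair
  rw [← smul_add, ← Finset.sum_add_distrib]
  congr 1
  refine Finset.sum_congr rfl fun i _ => ?_
  rw [← Finset.sum_add_distrib]
  refine Finset.sum_congr rfl fun j _ => ?_
  rw [Matrix.add_apply]
  exact (w_facts k _ _ _ 0 0).1

theorem ab18_pair_add_right (P Q Q' : Matrix (Fin 3) (Fin 3) A) :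
    pair k P (Q + Q') = pair k P Q + pair k P Q' := by
  unfold pair
  rw [← smul_add, ← Finset.sum_add_distrib]
  congr 1
  refine Finset.sum_congr rfl fun i _ => ?_
  rw [← Finset.sum_add_distrib]
  refine Finset.sum_congr rfl fun j _ => ?_
  rw [Matrix.add_apply]
  exact (w_facts k _ _ _ 0 0).2.1

theorem ab18_pair_smul_left (c : k) (P Q : Matrix (Fin 3) (Fin 3) A) :
    pair k (c • P) Q = c • pair k P Q := by
  have h : ∑ i, ∑ j, w k ((c • P) i j) (Q j i) = c • ∑ i, ∑ j, w k (P i j) (Q j i) := by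
    rw [Finset.smul_sum]
    refine Finset.sum_congr rfl fun i _ => ?_
    rw [Finset.smul_sum]
    refine Finset.sum_congr rfl fun j _ => ?_
    rw [Matrix.smul_apply]
    exact (w_facts k _ 0 _ 0 c).2.2.1
  unfold pair
  rw [h, smul_comm]

theorem ab18_pair_smul_right (c : k) (P Q : Matrix (Fin 3) (Fin 3) A) :
    pair k P (c • Q) = c • pair k P Q := by
  have h : ∑ i, ∑ j, w k (P i j) ((c • Q) j i) = c • ∑ i, ∑ j, w k (P i j) (Q j i) := by
    rw [Finset.smul_sum]
    refine Finset.sum_congr rfl fun i _ => ?_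
    rw [Finset.smul_sum]
    refine Finset.sum_congr rfl fun j _ => ?_
    rw [Matrix.smul_apply]
    exact (w_facts k _ 0 _ 0 c).2.2.2.1
  unfold pair
  rw [h, smul_comm]

/-- char 0: `x = -x` forces `x = 0` -/
theorem ab18_zero [CharZero k] {M : Type} [AddCommGroup M] [Module k M] (x : M) (h : x + x = 0) :
    x = 0 := by
  have h2 : (2 : k) • x = 0 := by rw [two_smul, h]
  exact (smul_eq_zero.1 h2).resolve_left two_ne_zero

theorem ab18_pair_self [CharZero k] (P : Matrix (Fin 3) (Fin 3) A) : pair k P P = 0 := by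
  apply ab18_zero k
  unfold pair
  rw [← smul_add]
  have h : ∑ i, ∑ j, w k (P i j) (P j i) = - ∑ i, ∑ j, w k (P i j) (P j i) := by
    conv_lhs => rw [Finset.sum_comm]
    rw [← Finset.sum_neg_distrib]
    refine Finset.sum_congr rfl fun i _ => ?_
    rw [← Finset.sum_neg_distrib]
    refine Finset.sum_congr rfl fun j _ => ?_
    exact (w_facts k (P i j) 0 (P j i) 0 0).2.2.2.2.2.1
  nth_rewrite 1 [h]
  rw [neg_add_cancel, smul_zero]

variable [IsAlt A] [CharZero k]

theorem ab18_BB_skew (b c : B k A) : BB k b c + BB k c b = 0 := by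
  induction b using B_ind with
  | hw p q =>
    induction c using B_ind with
    | hw r s => rw [BB_w, BB_w, DB_w, DB_w]; exact B_skew k p q r s
    | hadd c d hc hd =>
      rw [map_add, map_add, LinearMap.add_apply, add_add_add_comm, hc, hd, add_zero]
  | hadd b d hb hd =>
    rw [map_add, map_add, LinearMap.add_apply, add_add_add_comm, hb, hd, add_zero]

theorem ab18_map_add_mat (f : A →ₗ[k] A) (P Q : Matrix (Fin 3) (Fin 3) A) :
    (P + Q).map f = P.map f + Q.map f := by
  ext i j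
  rw [Matrix.map_apply, Matrix.add_apply, Matrix.add_apply, Matrix.map_apply, Matrix.map_apply,
    map_add]

theorem ab18_map_smul_mat (f : A →ₗ[k] A) (c : k) (P : Matrix (Fin 3) (Fin 3) A) :
    (c • P).map f = c • P.map f := by
  ext i j
  rw [Matrix.map_apply, Matrix.smul_apply, Matrix.smul_apply, Matrix.map_apply, map_smul]

theorem ab18_map_add_fun (f g : A →ₗ[k] A) (P : Matrix (Fin 3) (Fin 3) A) :
    P.map (f + g : A →ₗ[k] A) = P.map f + P.map g := by
  ext i j
  rw [Matrix.map_apply, Matrix.add_apply, Matrix.map_apply, Matrix.map_apply,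
    LinearMap.add_apply]

theorem ab18_map_smul_fun (c : k) (f : A →ₗ[k] A) (P : Matrix (Fin 3) (Fin 3) A) :
    P.map (c • f : A →ₗ[k] A) = c • P.map f := by
  ext i j
  rw [Matrix.map_apply, Matrix.smul_apply, Matrix.map_apply, LinearMap.smul_apply]

theorem ab18_trace_map (f : A →ₗ[k] A) (P : Matrix (Fin 3) (Fin 3) A) (h : P.trace = 0) :
    (P.map f).trace = 0 := by
  have h1 : (P.map f).trace = f P.trace := by
    simp only [Matrix.trace, Matrix.diag_apply, Matrix.map_apply, map_sum]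
  rw [h1, h, map_zero]

end


/-- bilinearity of the bracket -/
theorem br_bil (k : Type) [Field k] {A : Type} [NonUnitalNonAssocRing A] [Module k A]
    [IsScalarTower k A A] [SMulCommClass k A A] [IsAlt A] [CharZero k]
    (x y z : Matrix (Fin 3) (Fin 3) A × B k A) (c : k) :
    br k (x + y) z = br k x z + br k y z ∧ br k z (x + y) = br k z x + br k z y ∧
      br k (c • x) z = c • br k x z ∧ br k z (c • x) = c • br k z x := by
  refine ⟨Prod.ext ?_ ?_, Prod.ext ?_ ?_, Prod.ext ?_ ?_, Prod.ext ?_ ?_⟩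
  · change comm0 k (x.1 + y.1) z.1 + z.1.map (DB k (x.2 + y.2)) - (x.1 + y.1).map (DB k z.2) =
      (comm0 k x.1 z.1 + z.1.map (DB k x.2) - x.1.map (DB k z.2)) +
        (comm0 k y.1 z.1 + z.1.map (DB k y.2) - y.1.map (DB k z.2))
    rw [ab18_comm0_add_left, map_add, ab18_map_add_fun, ab18_map_add_mat]
    abel
  · change pair k (x.1 + y.1) z.1 + BB k (x.2 + y.2) z.2 =
      (pair k x.1 z.1 + BB k x.2 z.2) + (pair k y.1 z.1 + BB k y.2 z.2)
    rw [ab18_pair_add_left, map_add, LinearMap.add_apply]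
    abel
  · change comm0 k z.1 (x.1 + y.1) + (x.1 + y.1).map (DB k z.2) - z.1.map (DB k (x.2 + y.2)) =
      (comm0 k z.1 x.1 + x.1.map (DB k z.2) - z.1.map (DB k x.2)) +
        (comm0 k z.1 y.1 + y.1.map (DB k z.2) - z.1.map (DB k y.2))
    rw [ab18_comm0_add_right, map_add, ab18_map_add_fun, ab18_map_add_mat]
    abel
  · change pair k z.1 (x.1 + y.1) + BB k z.2 (x.2 + y.2) =
      (pair k z.1 x.1 + BB k z.2 x.2) + (pair k z.1 y.1 + BB k z.2 y.2)
    rw [ab18_pair_add_right, map_add]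
    abel
  · change comm0 k (c • x.1) z.1 + z.1.map (DB k (c • x.2)) - (c • x.1).map (DB k z.2) =
      c • (comm0 k x.1 z.1 + z.1.map (DB k x.2) - x.1.map (DB k z.2))
    rw [ab18_comm0_smul_left, map_smul, ab18_map_smul_fun, ab18_map_smul_mat, smul_sub, smul_add]
  · change pair k (c • x.1) z.1 + BB k (c • x.2) z.2 = c • (pair k x.1 z.1 + BB k x.2 z.2)
    rw [ab18_pair_smul_left, map_smul, LinearMap.smul_apply, smul_add]
  · change comm0 k z.1 (c • x.1) + (c • x.1).map (DB k z.2) - z.1.map (DB k (c • x.2)) =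
      c • (comm0 k z.1 x.1 + x.1.map (DB k z.2) - z.1.map (DB k x.2))
    rw [ab18_comm0_smul_right, map_smul, ab18_map_smul_fun, ab18_map_smul_mat, smul_sub, smul_add]
  · change pair k z.1 (c • x.1) + BB k z.2 (c • x.2) = c • (pair k z.1 x.1 + BB k z.2 x.2)
    rw [ab18_pair_smul_right, map_smul, smul_add]


/-- the bracket is alternating and preserves the matrices of trace zero -/
theorem br_self_mem (k : Type) [Field k] {A : Type} [NonUnitalNonAssocRing A] [Module k A]
    [IsScalarTower k A A] [SMulCommClass k A A] [IsAlt A] [CharZero k]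
    (x y : Matrix (Fin 3) (Fin 3) A × B k A) :
    br k x x = 0 ∧ (x ∈ abgSub k A → y ∈ abgSub k A → br k x y ∈ abgSub k A) := by
  refine ⟨Prod.ext ?_ ?_, fun hx hy => ?_⟩
  · change comm0 k x.1 x.1 + x.1.map (DB k x.2) - x.1.map (DB k x.2) = 0
    rw [ab18_comm0_self, zero_add, sub_self]
  · change pair k x.1 x.1 + BB k x.2 x.2 = 0
    rw [ab18_pair_self, zero_add]
    exact ab18_zero k _ (ab18_BB_skew k x.2 x.2)
  · have hx' : x.1.trace = 0 := hx
    have hy' : y.1.trace = 0 := hy
    change (comm0 k x.1 y.1 + y.1.map (DB k x.2) - x.1.map (DB k y.2)).trace = 0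
    rw [Matrix.trace_sub, Matrix.trace_add, ab18_comm0, ab18_trace_T,
      ab18_trace_map k _ _ hy', ab18_trace_map k _ _ hx', add_zero, sub_zero]

end Pool.ABG
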