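import Pool.Agent.ABG.LieDef

set_option autoImplicit false

open scoped TensorProduct

namespace Pool.ABG

theorem ab19_w_add1 (k : Type) [Field k] {A : Type} [NonUnitalNonAssocRing A] [Module k A]
    [IsScalarTower k A A] [SMulCommClass k A A] (x y z : A) :
    w k (x + y) z = w k x z + w k y z := (w_facts k x y z 0 0).1

theorem ab19_w_add2 (k : Type) [Field k] {A : Type} [NonUnitalNonAssocRing A] [Module k A]
    [IsScalarTower k A A] [SMulCommClass k A A] (x y z : A) :
    w k x (y + z) = w k x y + w k x z := (w_facts k y z x 0 0).2.1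

theorem ab19_w_sub1 (k : Type) [Field k] {A : Type} [NonUnitalNonAssocRing A] [Module k A]
    [IsScalarTower k A A] [SMulCommClass k A A] (x y z : A) :
    w k (x - y) z = w k x z - w k y z := by
  rw [eq_sub_iff_add_eq, ← ab19_w_add1, sub_add_cancel]

theorem ab19_w_sub2 (k : Type) [Field k] {A : Type} [NonUnitalNonAssocRing A] [Module k A]
    [IsScalarTower k A A] [SMulCommClass k A A] (x y z : A) :
    w k x (y - z) = w k x y - w k x z := by
  rw [eq_sub_iff_add_eq, ← ab19_w_add2, sub_add_cancel]

theorem ab19_skew (k : Type) [Field k] {A : Type} [NonUnitalNonAssocRing A] [Module k A]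
    [IsScalarTower k A A] [SMulCommClass k A A] [IsAlt A] [CharZero k] (b c : B k A) :
    BB k b c + BB k c b = 0 := by
  induction b using B_ind with
  | hw p q =>
    induction c using B_ind with
    | hw r s =>
      rw [BB_w, BB_w]
      exact B_skew k p q r s
    | hadd c d hc hd =>
      rw [map_add, map_add, LinearMap.add_apply]
      have e : BB k (w k p q) c + BB k (w k p q) d + (BB k c (w k p q) + BB k d (w k p q)) =
          (BB k (w k p q) c + BB k c (w k p q)) + (BB k (w k p q) d + BB k d (w k p q)) := by abel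
      rw [e, hc, hd, add_zero]
  | hadd b d hb hd =>
    rw [map_add, map_add, LinearMap.add_apply]
    have e : BB k b c + BB k d c + (BB k c b + BB k c d) =
        (BB k b c + BB k c b) + (BB k d c + BB k c d) := by abel
    rw [e, hb, hd, add_zero]

theorem ab19_DBB (k : Type) [Field k] {A : Type} [NonUnitalNonAssocRing A] [Module k A]
    [IsScalarTower k A A] [SMulCommClass k A A] [IsAlt A] [CharZero k] (b c : B k A) (r : A) :
    DB k (BB k b c) r = DB k b (DB k c r) - DB k c (DB k b r) := by
  induction c using B_ind with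
  | hw p q =>
    rw [BB_w, map_add, LinearMap.add_apply, DB_w, DB_w, DB_w, D_apply, D_apply, D_apply, D_apply]
    simp only [map_add, map_sub, DB_der, mul_add, add_mul]
    abel
  | hadd c d hc hd =>
    rw [map_add, map_add, LinearMap.add_apply, hc, hd, map_add, LinearMap.add_apply,
      LinearMap.add_apply, map_add]
    abel

theorem ab19_act (k : Type) [Field k] {A : Type} [NonUnitalNonAssocRing A] [Module k A]
    [IsScalarTower k A A] [SMulCommClass k A A] [IsAlt A] [CharZero k] (b c e : B k A) :
    BB k (BB k b c) e = BB k b (BB k c e) - BB k c (BB k b e) := by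
  induction e using B_ind with
  | hw p q =>
    rw [BB_w, BB_w, BB_w, map_add, map_add, BB_w, BB_w, BB_w, BB_w, ab19_DBB, ab19_DBB,
      ab19_w_sub1, ab19_w_sub2]
    abel
  | hadd d e hd he =>
    rw [map_add, hd, he, map_add, map_add, map_add, map_add]
    abel


/-- the identities of the bracket of `B A` -/
theorem BB_facts (k : Type) [Field k] {A : Type} [NonUnitalNonAssocRing A] [Module k A]
    [IsScalarTower k A A] [SMulCommClass k A A] [IsAlt A] [CharZero k]
    (b c d : B k A) (P Q : Matrix (Fin 3) (Fin 3) A) :
    BB k b c + BB k c b = 0 ∧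
      (∀ r : A, DB k (BB k b c) r = DB k b (DB k c r) - DB k c (DB k b r)) ∧
      BB k (BB k b c) d + BB k (BB k c d) b + BB k (BB k d b) c = 0 ∧
      BB k b (pair k P Q) = pair k (P.map (DB k b)) Q + pair k P (Q.map (DB k b)) ∧
      (∀ r : A, DB k (pair k P Q) r = (3⁻¹ : k) • ∑ i, ∑ j, D k (P i j) (Q j i) r) := by
  refine ⟨ab19_skew k b c, ab19_DBB k b c, ?_, ?_, ?_⟩
  · have h1 := ab19_act k b c d
    have h2 := ab19_skew k (BB k c d) b
    have h3 := ab19_skew k (BB k d b) c
    have h4 := ab19_skew k d b
    have h5 : BB k c (BB k d b) = -BB k c (BB k b d) := by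
      rw [← map_neg, eq_neg_of_add_eq_zero_left h4]
    rw [h1, eq_neg_of_add_eq_zero_left h2, eq_neg_of_add_eq_zero_left h3, h5]
    simp only [sub_eq_add_neg, neg_neg]
    abel
  · unfold pair
    rw [map_smul, map_sum, ← smul_add, ← Finset.sum_add_distrib]
    refine congrArg _ ?_
    refine Finset.sum_congr rfl fun i _ => ?_
    rw [map_sum, ← Finset.sum_add_distrib]
    refine Finset.sum_congr rfl fun j _ => ?_
    rw [BB_w]
    rfl
  · intro r
    unfold pair
    rw [map_smul, map_sum, LinearMap.smul_apply, LinearMap.sum_apply]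
    refine congrArg _ ?_
    refine Finset.sum_congr rfl fun i _ => ?_
    rw [map_sum, LinearMap.sum_apply]
    refine Finset.sum_congr rfl fun j _ => ?_
    rw [DB_w]

end Pool.ABG
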