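import Pool.Agent.ABG.LieDef
import Pool.Agent.ABG.A05
import Pool.Agent.ABG.A06
import Pool.Agent.ABG.A07
import Pool.Agent.ABG.A18
import Pool.Agent.ABG.A19

set_option autoImplicit false

/-!
# The Allison-Benkart-Gao Lie algebra: the Jacobi identity
-/

open scoped TensorProduct

namespace Pool.ABG


/- HELPERS -/

theorem ab20_diag {A : Type} [NonUnitalNonAssocRing A] (a b : A) :
    Matrix.diagonal (fun _ : Fin 3 => a + b) =
      Matrix.diagonal (fun _ : Fin 3 => a) + Matrix.diagonal (fun _ : Fin 3 => b) := by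
  rw [Matrix.diagonal_add]

theorem ab20_comm0_neg (k : Type) [Field k] {A : Type} [NonUnitalNonAssocRing A] [Module k A]
    (P Q : Matrix (Fin 3) (Fin 3) A) : comm0 k P Q = - comm0 k Q P := by
  have h : P * Q - Q * P = -(Q * P - P * Q) := by rw [neg_sub]
  rw [comm0, comm0, h, Matrix.trace_neg, smul_neg]
  have h2 : Matrix.diagonal (fun _ : Fin 3 => -((3⁻¹ : k) • (Q * P - P * Q).trace)) =
      - Matrix.diagonal (fun _ : Fin 3 => ((3⁻¹ : k) • (Q * P - P * Q).trace)) := by
    rw [Matrix.diagonal_neg]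
  rw [h2]
  abel

theorem ab20_comm0_add (k : Type) [Field k] {A : Type} [NonUnitalNonAssocRing A] [Module k A]
    (P P' Q : Matrix (Fin 3) (Fin 3) A) :
    comm0 k (P + P') Q = comm0 k P Q + comm0 k P' Q := by
  have h : (P + P') * Q - Q * (P + P') = (P * Q - Q * P) + (P' * Q - Q * P') := by
    rw [add_mul, mul_add]; abel
  rw [comm0, comm0, comm0, h, Matrix.trace_add, smul_add, ab20_diag]
  abel

theorem ab20_comm0_negl (k : Type) [Field k] {A : Type} [NonUnitalNonAssocRing A] [Module k A]
    (P Q : Matrix (Fin 3) (Fin 3) A) :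
    comm0 k (-P) Q = - comm0 k P Q := by
  have h0 : comm0 k (0 : Matrix (Fin 3) (Fin 3) A) Q = 0 := by
    have := ab20_comm0_add k 0 0 Q
    rw [add_zero] at this
    exact left_eq_add.1 this
  have h := ab20_comm0_add k (-P) P Q
  rw [neg_add_cancel, h0] at h
  exact eq_neg_of_add_eq_zero_left h.symm

theorem ab20_pair_add (k : Type) [Field k] {A : Type} [NonUnitalNonAssocRing A] [Module k A]
    [IsScalarTower k A A] [SMulCommClass k A A]
    (P P' Q : Matrix (Fin 3) (Fin 3) A) :
    pair k (P + P') Q = pair k P Q + pair k P' Q := by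
  simp only [pair, Matrix.add_apply]
  rw [← smul_add, ← Finset.sum_add_distrib]
  congr 1
  refine Finset.sum_congr rfl fun i _ => ?_
  rw [← Finset.sum_add_distrib]
  exact Finset.sum_congr rfl fun j _ => (w_facts k _ _ _ 0 0).1

theorem ab20_pair_negl (k : Type) [Field k] {A : Type} [NonUnitalNonAssocRing A] [Module k A]
    [IsScalarTower k A A] [SMulCommClass k A A]
    (P Q : Matrix (Fin 3) (Fin 3) A) :
    pair k (-P) Q = - pair k P Q := by
  have h0 : pair k (0 : Matrix (Fin 3) (Fin 3) A) Q = 0 := by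
    have := ab20_pair_add k 0 0 Q
    rw [add_zero] at this
    exact left_eq_add.1 this
  have h := ab20_pair_add k (-P) P Q
  rw [neg_add_cancel, h0] at h
  exact eq_neg_of_add_eq_zero_left h.symm

theorem ab20_pair_neg (k : Type) [Field k] {A : Type} [NonUnitalNonAssocRing A] [Module k A]
    [IsScalarTower k A A] [SMulCommClass k A A]
    (P Q : Matrix (Fin 3) (Fin 3) A) :
    pair k P Q = - pair k Q P := by
  rw [pair, pair, ← smul_neg, ← Finset.sum_neg_distrib, Finset.sum_comm]
  congr 1
  refine Finset.sum_congr rfl fun i _ => ?_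
  rw [← Finset.sum_neg_distrib]
  exact Finset.sum_congr rfl fun j _ => (w_facts k _ 0 _ 0 0).2.2.2.2.2.1

/-- the first component of the double bracket -/
theorem ab20_fst (k : Type) [Field k] {A : Type} [NonUnitalNonAssocRing A] [Module k A]
    [IsScalarTower k A A] [SMulCommClass k A A] [IsAlt A] [CharZero k]
    (P Q R : Matrix (Fin 3) (Fin 3) A) (b c d : B k A) :
    (br k (br k (P, b) (Q, c)) (R, d)).1 =
      (comm0 k (comm0 k P Q) R + (3⁻¹ : k) • ∑ i, ∑ j, R.map (D k (P i j) (Q j i))) +
      (comm0 k (Q.map (DB k b)) R - comm0 k (P.map (DB k c)) R - comm0 k (P.map (DB k d)) Q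
        + comm0 k (Q.map (DB k d)) P) +
      ((R.map (DB k c)).map (DB k b) - (R.map (DB k b)).map (DB k c)
        - (Q.map (DB k b)).map (DB k d) + (P.map (DB k c)).map (DB k d)) := by
  have e1 : R.map (DB k (pair k P Q + BB k b c)) =
      (3⁻¹ : k) • ∑ i, ∑ j, R.map (D k (P i j) (Q j i)) +
        ((R.map (DB k c)).map (DB k b) - (R.map (DB k b)).map (DB k c)) := by
    ext s t
    simp only [Matrix.map_apply, Matrix.add_apply, Matrix.sub_apply, Matrix.smul_apply,
      Matrix.sum_apply, map_add, LinearMap.add_apply]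
    rw [(BB_facts k b c d P Q).2.2.2.2, (BB_facts k b c d P Q).2.1]
  have e2 : (comm0 k P Q + Q.map (DB k b) - P.map (DB k c)).map (DB k d) =
      comm0 k (P.map (DB k d)) Q - comm0 k (Q.map (DB k d)) P +
        (Q.map (DB k b)).map (DB k d) - (P.map (DB k c)).map (DB k d) := by
    have h := comm0_der k (DB k d) (DB_der k d) P Q
    rw [ab20_comm0_neg k P (Q.map (DB k d)), ← sub_eq_add_neg] at h
    rw [← h]
    ext s t
    simp only [Matrix.map_apply, Matrix.add_apply, Matrix.sub_apply, map_add, map_sub]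
  change comm0 k (comm0 k P Q + Q.map (DB k b) - P.map (DB k c)) R +
    R.map (DB k (pair k P Q + BB k b c)) -
    (comm0 k P Q + Q.map (DB k b) - P.map (DB k c)).map (DB k d) = _
  rw [e1, e2, sub_eq_add_neg (comm0 k P Q + Q.map (DB k b)), ab20_comm0_add, ab20_comm0_add,
    ab20_comm0_negl]
  abel

/-- the second component of the double bracket -/
theorem ab20_snd (k : Type) [Field k] {A : Type} [NonUnitalNonAssocRing A] [Module k A]
    [IsScalarTower k A A] [SMulCommClass k A A] [IsAlt A] [CharZero k]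
    (P Q R : Matrix (Fin 3) (Fin 3) A) (b c d : B k A) :
    (br k (br k (P, b) (Q, c)) (R, d)).2 =
      pair k (comm0 k P Q) R +
      (pair k (Q.map (DB k b)) R - pair k (P.map (DB k c)) R - pair k (P.map (DB k d)) Q
        + pair k (Q.map (DB k d)) P) + BB k (BB k b c) d := by
  have e1 : BB k (pair k P Q + BB k b c) d =
      - pair k (P.map (DB k d)) Q + pair k (Q.map (DB k d)) P + BB k (BB k b c) d := by
    have h1 := (BB_facts k d (pair k P Q) 0 P Q).1
    have h2 := (BB_facts k d 0 0 P Q).2.2.2.1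
    rw [ab20_pair_neg k P (Q.map (DB k d))] at h2
    rw [h2] at h1
    rw [map_add, LinearMap.add_apply, eq_neg_of_add_eq_zero_right h1]
    abel
  change pair k (comm0 k P Q + Q.map (DB k b) - P.map (DB k c)) R +
    BB k (pair k P Q + BB k b c) d = _
  rw [e1, sub_eq_add_neg (comm0 k P Q + Q.map (DB k b)), ab20_pair_add, ab20_pair_add,
    ab20_pair_negl]
  abel


/-- the Jacobi identity -/
theorem br_jacobi (k : Type) [Field k] {A : Type} [NonUnitalNonAssocRing A] [Module k A]
    [IsScalarTower k A A] [SMulCommClass k A A] [IsAlt A] [CharZero k]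
    (x y z : Matrix (Fin 3) (Fin 3) A × B k A) (hx : x ∈ abgSub k A) (hy : y ∈ abgSub k A)
    (hz : z ∈ abgSub k A) :
    br k (br k x y) z + br k (br k y z) x + br k (br k z x) y = 0 := by
  obtain ⟨P, b⟩ := x
  obtain ⟨Q, c⟩ := y
  obtain ⟨R, d⟩ := z
  have h1 := mat_jacobi k P Q R hx hy hz
  have h2 := pair_jacobi k P Q R hx hy hz
  have h3 := (BB_facts k b c d P Q).2.2.1
  refine Prod.ext ?_ ?_
  · rw [Prod.fst_add, Prod.fst_add, ab20_fst, ab20_fst, ab20_fst, Prod.fst_zero, ← h1]
    abel
  · rw [Prod.snd_add, Prod.snd_add, ab20_snd, ab20_snd, ab20_snd, Prod.snd_zero]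
    rw [← add_zero (0 : B k A)]
    nth_rewrite 1 [← h2]
    rw [← h3]
    abel

end Pool.ABG
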