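import Pool.Agent.ABG.Count

set_option autoImplicit false

open scoped TensorProduct

namespace Pool.ABG

theorem ab22_mo_mul (m i j m' i' j' : ℕ) :
    mo m i j * mo m' i' j' = mo (m + m') (i + i') (j + j') := by
  simp only [mo, Polynomial.monomial_mul_monomial, mul_one]

theorem ab22_mo_one : mo 0 0 0 = 1 := by
  simp [mo]

theorem ab22_mo_coeff (m i j n x y : ℕ) :
    (((mo m i j).coeff n).coeff y).coeff x =
      if m = n ∧ j = y ∧ i = x then (1 : ℤ) else 0 := by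
  unfold mo
  rw [Polynomial.coeff_monomial]
  by_cases h1 : m = n
  · rw [if_pos h1, Polynomial.coeff_monomial]
    by_cases h2 : j = y
    · rw [if_pos h2, Polynomial.coeff_monomial]
      by_cases h3 : i = x
      · rw [if_pos h3, if_pos ⟨h1, h2, h3⟩]
      · rw [if_neg h3, if_neg (fun h => h3 h.2.2)]
    · rw [if_neg h2, Polynomial.coeff_zero, if_neg (fun h => h2 h.2.1)]
  · rw [if_neg h1, Polynomial.coeff_zero, Polynomial.coeff_zero, if_neg (fun h => h1 h.1)]

theorem ab22_deg_pos {a b : ℕ → ℕ} (ha : a 0 = 0) (hb : b 0 = 0) (j : JJ a b) :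
    1 ≤ degJ j := by
  rcases j with ⟨s, m, i⟩ | ⟨m, i⟩
  · change 1 ≤ m
    rcases Nat.eq_zero_or_pos m with h | h
    · subst h
      have hi := i.2
      omega
    · exact h
  · change 1 ≤ m
    rcases Nat.eq_zero_or_pos m with h | h
    · subst h
      have hi := i.2
      omega
    · exact h

theorem ab22_rt (s : Fin 8) : -1 ≤ rt s 0 ∧ rt s 2 ≤ 1 ∧ rt s 0 + rt s 1 + rt s 2 = 0 := by
  fin_cases s <;> simp [rt]

theorem ab22_wt {a b : ℕ → ℕ} (j : JJ a b) :
    -1 ≤ wtJ j 0 ∧ wtJ j 2 ≤ 1 ∧ wtJ j 0 + wtJ j 1 + wtJ j 2 = 0 := by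
  rcases j with x | i
  · exact ab22_rt x.1
  · change -1 ≤ (0 : ℤ) ∧ (0 : ℤ) ≤ 1 ∧ (0 : ℤ) + 0 + 0 = 0
    omega

/-- exponent of X -/
noncomputable def ab22_X {a b : ℕ → ℕ} (j : JJ a b) : ℕ := ((degJ j : ℤ) + wtJ j 0).toNat

/-- exponent of Y -/
noncomputable def ab22_Y {a b : ℕ → ℕ} (j : JJ a b) : ℕ := ((degJ j : ℤ) - wtJ j 2).toNat

/-- the monomial of a basis element -/
noncomputable def ab22_M {a b : ℕ → ℕ} (j : JJ a b) : P3 := mo (degJ j) (ab22_X j) (ab22_Y j)

theorem ab22_X_cast {a b : ℕ → ℕ} (ha : a 0 = 0) (hb : b 0 = 0) (j : JJ a b) :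
    ((ab22_X j : ℕ) : ℤ) = (degJ j : ℤ) + wtJ j 0 := by
  have h1 := ab22_deg_pos ha hb j
  have h2 := ab22_wt j
  unfold ab22_X
  rw [Int.toNat_of_nonneg]
  omega

theorem ab22_Y_cast {a b : ℕ → ℕ} (ha : a 0 = 0) (hb : b 0 = 0) (j : JJ a b) :
    ((ab22_Y j : ℕ) : ℤ) = (degJ j : ℤ) - wtJ j 2 := by
  have h1 := ab22_deg_pos ha hb j
  have h2 := ab22_wt j
  unfold ab22_Y
  rw [Int.toNat_of_nonneg]
  omega

theorem ab22_prod_M {a b : ℕ → ℕ} (T : Finset (JJ a b)) :
    ∏ j ∈ T, ab22_M j = mo (∑ j ∈ T, degJ j) (∑ j ∈ T, ab22_X j) (∑ j ∈ T, ab22_Y j) := by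
  classical
  induction T using Finset.induction_on with
  | empty => simp [ab22_mo_one]
  | insert j T hj ih =>
    rw [Finset.prod_insert hj, Finset.sum_insert hj, Finset.sum_insert hj, Finset.sum_insert hj,
      ih, ab22_M, ab22_mo_mul]

/-- the finite set of basis elements of degree at most n -/
def ab22_S (a b : ℕ → ℕ) (n : ℕ) : Finset (JJ a b) :=
  ((Finset.univ : Finset (Fin 8)) ×ˢ ((Finset.range (n + 1)).sigma fun m =>
    (Finset.univ : Finset (Fin (a m))))).disjSum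
    ((Finset.range (n + 1)).sigma fun m => (Finset.univ : Finset (Fin (b m))))

theorem ab22_mem_S {a b : ℕ → ℕ} (n : ℕ) (j : JJ a b) : j ∈ ab22_S a b n ↔ degJ j ≤ n := by
  unfold ab22_S
  rcases j with ⟨s, m, i⟩ | ⟨m, i⟩
  · rw [Finset.inl_mem_disjSum, Finset.mem_product, Finset.mem_sigma]
    change (_ ∧ m ∈ _ ∧ _) ↔ m ≤ n
    simp
  · rw [Finset.inr_mem_disjSum, Finset.mem_sigma]
    change (m ∈ _ ∧ _) ↔ m ≤ n
    simp

theorem ab22_prod_S (a b : ℕ → ℕ) (ha : a 0 = 0) (hb : b 0 = 0) (n : ℕ) :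
    ∏ j ∈ ab22_S a b n, (1 - ab22_M j) = prodP a b n := by
  classical
  unfold ab22_S
  rw [Finset.prod_disjSum, Finset.prod_product, Finset.prod_sigma]
  have h1 : ∀ s : Fin 8, (∏ y ∈ (Finset.range (n + 1)).sigma fun m =>
      (Finset.univ : Finset (Fin (a m))), (1 - ab22_M (a := a) (b := b) (Sum.inl (s, y)))) =
      ∏ m ∈ Finset.range (n + 1),
        (1 - mo m ((m : ℤ) + rt s 0).toNat ((m : ℤ) - rt s 2).toNat) ^ (a m) := by
    intro s
    rw [Finset.prod_sigma]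
    apply Finset.prod_congr rfl
    intro m _
    have : ∀ i : Fin (a m), (1 - ab22_M (a := a) (b := b) (Sum.inl (s, ⟨m, i⟩))) =
        (1 - mo m ((m : ℤ) + rt s 0).toNat ((m : ℤ) - rt s 2).toNat) := fun i => rfl
    rw [Finset.prod_congr rfl (fun i _ => this i), Finset.prod_const, Finset.card_univ,
      Fintype.card_fin]
  have h2 : ∀ m : ℕ, (∏ i : Fin (b m), (1 - ab22_M (a := a) (b := b) (Sum.inr ⟨m, i⟩))) =
      (1 - mo m m m) ^ (b m) := by
    intro m
    have : ∀ i : Fin (b m), (1 - ab22_M (a := a) (b := b) (Sum.inr ⟨m, i⟩)) =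
        (1 - mo m m m) := by
      intro i
      change 1 - mo m ((m : ℤ) + 0).toNat ((m : ℤ) - 0).toNat = 1 - mo m m m
      simp
    rw [Finset.prod_congr rfl (fun i _ => this i), Finset.prod_const, Finset.card_univ,
      Fintype.card_fin]
  rw [Finset.prod_congr rfl (fun s _ => h1 s), Finset.prod_comm]
  rw [Finset.prod_congr (g := fun m => (1 - mo m m m) ^ (b m)) rfl (fun m _ => h2 m)]
  rw [← Finset.prod_mul_distrib]
  unfold prodP
  symm
  have hsub : Finset.Icc 1 n ⊆ Finset.range (n + 1) := by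
    intro m hm
    rw [Finset.mem_Icc] at hm
    rw [Finset.mem_range]
    omega
  rw [← Finset.prod_subset hsub]
  · apply Finset.prod_congr rfl
    intro m hm
    rw [Finset.mem_Icc] at hm
    unfold fac
    rw [Fin.prod_univ_eight]
    have e0 : rt 0 0 = 1 ∧ rt 0 2 = 0 := by simp [rt]
    have e1 : rt 1 0 = 0 ∧ rt 1 2 = -1 := by simp [rt]
    have e2 : rt 2 0 = 1 ∧ rt 2 2 = -1 := by simp [rt]
    have e3 : rt 3 0 = -1 ∧ rt 3 2 = 0 := by simp [rt]
    have e4 : rt 4 0 = 0 ∧ rt 4 2 = 1 := by simp [rt]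
    have e5 : rt 5 0 = -1 ∧ rt 5 2 = 1 := by simp [rt]
    have e6 : rt 6 0 = 0 ∧ rt 6 2 = 0 := by simp [rt]
    have e7 : rt 7 0 = 0 ∧ rt 7 2 = 0 := by simp [rt]
    rw [e0.1, e0.2, e1.1, e1.2, e2.1, e2.2, e3.1, e3.2, e4.1, e4.2, e5.1, e5.2, e6.1, e6.2,
      e7.1, e7.2]
    have t0 : ((m : ℤ) + 0).toNat = m := by omega
    have t0' : ((m : ℤ) - 0).toNat = m := by omega
    have t1 : ((m : ℤ) + 1).toNat = m + 1 := by omega
    have t1' : ((m : ℤ) - -1).toNat = m + 1 := by omega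
    have t2 : ((m : ℤ) + -1).toNat = m - 1 := by omega
    have t2' : ((m : ℤ) - 1).toNat = m - 1 := by omega
    rw [t0, t0', t1, t1', t2, t2']
    generalize (1 - mo m m m) = u0
    generalize (1 - mo m (m + 1) m) = u1
    generalize (1 - mo m m (m + 1)) = u2
    generalize (1 - mo m (m + 1) (m + 1)) = u3
    generalize (1 - mo m (m - 1) m) = u4
    generalize (1 - mo m m (m - 1)) = u5
    generalize (1 - mo m (m - 1) (m - 1)) = u6
    ring
  · intro m hm1 hm2
    rw [Finset.mem_range] at hm1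
    rw [Finset.mem_Icc] at hm2
    have : m = 0 := by omega
    subst this
    rw [ha, hb]
    simp

theorem ab22_expand {R ι : Type} [CommRing R] (S : Finset ι) (M : ι → R) :
    ∏ j ∈ S, (1 - M j) = ∑ T ∈ S.powerset, (-1 : R) ^ T.card * ∏ j ∈ T, M j := by
  classical
  have h1 : ∀ j : ι, (1 - M j) = 1 + (-M j) := fun j => by ring
  rw [Finset.prod_congr rfl (fun j _ => h1 j), Finset.prod_one_add]
  apply Finset.sum_congr rfl
  intro T _
  rw [Finset.prod_neg]

theorem ab22_coeff_neg (k : ℕ) (p : P3) (n y x : ℕ) :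
    ((((-1 : P3) ^ k * p).coeff n).coeff y).coeff x = (-1 : ℤ) ^ k * ((p.coeff n).coeff y).coeff x := by
  induction k generalizing p with
  | zero =>
    have h1 : (-1 : P3) ^ 0 * p = p := by ring
    rw [h1]
    ring
  | succ k ih =>
    have h1 : (-1 : P3) ^ (k + 1) * p = (-1 : P3) ^ k * (-p) := by ring
    rw [h1, ih, Polynomial.coeff_neg, Polynomial.coeff_neg, Polynomial.coeff_neg]
    ring

/-- the alternating sum of the numbers of sets is a coefficient of the product -/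
theorem count_cf (a b : ℕ → ℕ) (ha : a 0 = 0) (hb : b 0 = 0) (n : ℕ) (mu : Fin 3 → ℤ)
    (hmu : mu 0 + mu 1 + mu 2 = 0) (h0 : 0 ≤ (n : ℤ) + mu 0) (h2 : 0 ≤ (n : ℤ) - mu 2) :
    ∑ r ∈ Finset.range (n + 1), (-1 : ℤ) ^ r *
      (cnt (degJ (a := a) (b := b)) wtJ n r mu : ℤ) = cf a b n mu := by
  classical
  set P : Finset (JJ a b) → Prop := fun T => ∑ j ∈ T, degJ j = n ∧ ∑ j ∈ T, wtJ j = mu with hP
  -- sets with sum of degrees n
  have hcard : ∀ T : Finset (JJ a b), ∑ j ∈ T, degJ j = n → T.card ≤ n := by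
    intro T hT
    rw [← hT, Finset.card_eq_sum_ones]
    exact Finset.sum_le_sum (fun j _ => ab22_deg_pos ha hb j)
  have hsubS : ∀ T : Finset (JJ a b), ∑ j ∈ T, degJ j = n → T ⊆ ab22_S a b n := by
    intro T hT j hj
    rw [ab22_mem_S, ← hT]
    exact Finset.single_le_sum (f := fun j => degJ j) (fun _ _ => Nat.zero_le _) hj
  have hcnt : ∀ r : ℕ, cnt (degJ (a := a) (b := b)) wtJ n r mu =
      ((ab22_S a b n).powerset.filter (fun T => T.card = r ∧ P T)).card := by
    intro r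
    unfold cnt
    apply Nat.subtype_card
    intro T
    rw [Finset.mem_filter, Finset.mem_powerset]
    constructor
    · rintro ⟨_, h1, h2, h3⟩
      exact ⟨h1, h2, h3⟩
    · rintro ⟨h1, h2, h3⟩
      exact ⟨hsubS T h2, h1, h2, h3⟩
  -- the left side
  have hL : ∑ r ∈ Finset.range (n + 1), (-1 : ℤ) ^ r *
      (cnt (degJ (a := a) (b := b)) wtJ n r mu : ℤ) =
      ∑ T ∈ (ab22_S a b n).powerset, (-1 : ℤ) ^ T.card * (if P T then (1 : ℤ) else 0) := by
    have h3 : ∀ r ∈ Finset.range (n + 1), (-1 : ℤ) ^ r *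
      (cnt (degJ (a := a) (b := b)) wtJ n r mu : ℤ) =
      ∑ T ∈ (ab22_S a b n).powerset, (-1 : ℤ) ^ r * (if T.card = r ∧ P T then (1 : ℤ) else 0) := by
      intro r _
      rw [hcnt, Finset.card_filter, ← Finset.mul_sum]
      push_cast
      rfl
    rw [Finset.sum_congr rfl h3, Finset.sum_comm]
    apply Finset.sum_congr rfl
    intro T _
    by_cases hT : P T
    · rw [if_pos hT]
      rw [Finset.sum_eq_single T.card]
      · rw [if_pos ⟨rfl, hT⟩]
      · intro r _ hr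
        rw [if_neg (fun h => hr h.1.symm), mul_zero]
      · intro h
        exfalso
        apply h
        rw [Finset.mem_range]
        have := hcard T hT.1
        omega
    · rw [if_neg hT, mul_zero]
      apply Finset.sum_eq_zero
      intro r _
      rw [if_neg (fun h => hT h.2), mul_zero]
  -- the right side
  have hR : cf a b n mu =
      ∑ T ∈ (ab22_S a b n).powerset, (-1 : ℤ) ^ T.card * (if P T then (1 : ℤ) else 0) := by
    unfold cf
    have hexp : prodP a b n = ∑ T ∈ (ab22_S a b n).powerset,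
        (-1 : P3) ^ T.card * ∏ j ∈ T, ab22_M j :=
      (ab22_prod_S a b ha hb n).symm.trans (ab22_expand _ _)
    rw [hexp]
    rw [Polynomial.finsetSum_coeff, Polynomial.finsetSum_coeff, Polynomial.finsetSum_coeff]
    apply Finset.sum_congr rfl
    intro T _
    rw [ab22_coeff_neg, ab22_prod_M, ab22_mo_coeff]
    congr 1
    have hXs : ((∑ j ∈ T, ab22_X j : ℕ) : ℤ) = ((∑ j ∈ T, degJ j : ℕ) : ℤ) + (∑ j ∈ T, wtJ j) 0 := by
      rw [Finset.sum_apply, Nat.cast_sum, Nat.cast_sum, ← Finset.sum_add_distrib]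
      exact Finset.sum_congr rfl (fun j _ => ab22_X_cast ha hb j)
    have hYs : ((∑ j ∈ T, ab22_Y j : ℕ) : ℤ) = ((∑ j ∈ T, degJ j : ℕ) : ℤ) - (∑ j ∈ T, wtJ j) 2 := by
      rw [Finset.sum_apply, Nat.cast_sum, Nat.cast_sum, ← Finset.sum_sub_distrib]
      exact Finset.sum_congr rfl (fun j _ => ab22_Y_cast ha hb j)
    have hW : (∑ j ∈ T, wtJ j) 0 + (∑ j ∈ T, wtJ j) 1 + (∑ j ∈ T, wtJ j) 2 = 0 := by
      rw [Finset.sum_apply, Finset.sum_apply, Finset.sum_apply, ← Finset.sum_add_distrib,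
        ← Finset.sum_add_distrib]
      exact Finset.sum_eq_zero (fun j _ => (ab22_wt j).2.2)
    have hiff : (∑ j ∈ T, degJ j = n ∧ ∑ j ∈ T, ab22_Y j = ((n : ℤ) - mu 2).toNat ∧
        ∑ j ∈ T, ab22_X j = ((n : ℤ) + mu 0).toNat) ↔ P T := by
      constructor
      · rintro ⟨h3, h4, h5⟩
        refine ⟨h3, ?_⟩
        rw [h3] at hXs hYs
        rw [h5, Int.toNat_of_nonneg h0] at hXs
        rw [h4, Int.toNat_of_nonneg h2] at hYs
        funext i
        fin_cases i
        · change (∑ j ∈ T, wtJ j) 0 = mu 0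
          omega
        · change (∑ j ∈ T, wtJ j) 1 = mu 1
          omega
        · change (∑ j ∈ T, wtJ j) 2 = mu 2
          omega
      · rintro ⟨h3, h4⟩
        rw [h3, h4] at hXs hYs
        refine ⟨h3, ?_, ?_⟩
        · omega
        · omega
    by_cases hT : P T
    · rw [if_pos hT, if_pos (hiff.mpr hT)]
    · rw [if_neg hT, if_neg (fun h => hT (hiff.mp h))]
  rw [hL, hR]

end Pool.ABG
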