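import Pool.Agent.ABG.Ext

set_option autoImplicit false

/-!
# Diagonal operators on the exterior algebra, basis of the homogeneous parts (AB-23)
-/

open Module ExteriorAlgebra

namespace Pool.ABG


theorem ab23_list {k : Type} [Field k] {L : Type} [AddCommGroup L] [Module k L] {J : Type}
    (b : J → L) (f : L →ₗ[k] L) (c : J → k) (h : ∀ j, f (b j) = c j • b j) (l : List J) :
    rho f ((l.map fun j => ι k (b j)).prod) = (l.map c).sum • (l.map fun j => ι k (b j)).prod := by
  induction l with
  | nil => simp only [List.map_nil, List.prod_nil, List.sum_nil, zero_smul, rho_one]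
  | cons j l ih =>
    rw [List.map_cons, List.prod_cons, rho_ι_mul, ih, h, map_smul, List.map_cons, List.sum_cons,
      add_smul, smul_mul_assoc, mul_smul_comm]

theorem ab23_apply {k : Type} [Field k] {L : Type} [AddCommGroup L] [Module k L] {J : Type}
    [LinearOrder J] (b : Basis J k L) (T : Finset J) :
    b.ExteriorAlgebra T =
      ((List.ofFn fun i => T.orderEmbOfFin rfl i).map fun j => ι k (b j)).prod := by
  rw [ExteriorAlgebra.basis_apply, List.map_ofFn]
  rfl

theorem ab23_sum {J : Type} [LinearOrder J] {A : Type} [AddCommMonoid A] (c : J → A)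
    (T : Finset J) : ((List.ofFn fun i => T.orderEmbOfFin rfl i).map c).sum = ∑ j ∈ T, c j := by
  rw [List.map_ofFn, List.sum_ofFn]
  have h1 := Finset.map_orderEmbOfFin_univ T rfl
  have h2 : ∑ j ∈ T, c j =
      ∑ j ∈ Finset.map (T.orderEmbOfFin rfl).toEmbedding Finset.univ, c j := by rw [h1]
  rw [h2, Finset.sum_map]
  rfl

/-- the derivation which extends a diagonal operator is diagonal -/
theorem rho_diag {k : Type} [Field k] {L : Type} [AddCommGroup L] [Module k L] {J : Type}
    [LinearOrder J] (b : Basis J k L) (f : L →ₗ[k] L) (c : J → k) (h : ∀ j, f (b j) = c j • b j)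
    (T : Finset J) : rho f (b.ExteriorAlgebra T) = (∑ j ∈ T, c j) • b.ExteriorAlgebra T := by
  rw [ab23_apply, ab23_list b f c h, ab23_sum]

theorem ab23_mem {k : Type} [Field k] {L : Type} [AddCommGroup L] [Module k L] {J : Type}
    [LinearOrder J] (b : Basis J k L) (r : ℕ) :
    (⋀[k]^r L) = Submodule.span k (b.ExteriorAlgebra '' {T | T.card = r}) := by
  rw [← exteriorPower.ιMulti_family_span_fixedDegree_of_span k b.span_eq]
  congr 1
  ext x
  constructor
  · rintro ⟨s, rfl⟩
    exact ⟨s.1, s.2, (ExteriorAlgebra.basis_apply_powersetCard b s)⟩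
  · rintro ⟨T, hT, rfl⟩
    exact ⟨Set.powersetCard.ofCard hT, (ExteriorAlgebra.basis_apply_ofCard b hT).symm⟩

theorem ab23_repr {k : Type} [Field k] {L : Type} [AddCommGroup L] [Module k L] {J : Type}
    [LinearOrder J] (b : Basis J k L) (f : L →ₗ[k] L) (c : J → k) (h : ∀ j, f (b j) = c j • b j)
    (T : Finset J) (x : ExteriorAlgebra k L) :
    b.ExteriorAlgebra.repr (rho f x) T = (∑ j ∈ T, c j) * b.ExteriorAlgebra.repr x T := by
  have key : (b.ExteriorAlgebra.coord T) ∘ₗ (rho f) = (∑ j ∈ T, c j) • b.ExteriorAlgebra.coord T := by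
    refine b.ExteriorAlgebra.ext fun T' => ?_
    rw [LinearMap.comp_apply, rho_diag b f c h, map_smul, LinearMap.smul_apply,
      Basis.coord_apply, Basis.repr_self]
    by_cases hT : T' = T
    · subst hT; rfl
    · rw [Finsupp.single_eq_of_ne (Ne.symm hT), smul_zero, smul_zero]
  have := LinearMap.congr_fun key x
  exact this


/-- the basis of a homogeneous part -/
theorem Upart_basis {k : Type} [Field k] [CharZero k] {L : Type} [AddCommGroup L] [Module k L]
    {J : Type} [LinearOrder J] (b : Basis J k L) (deg : J → ℕ) (f : L →ₗ[k] L)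
    (hf : ∀ j, f (b j) = (deg j : k) • b j) (n r : ℕ) :
    ∃ e : Basis {T : Finset J // T.card = r ∧ ∑ j ∈ T, deg j = n} k (Upart f n r),
      ∀ T, (e T : ExteriorAlgebra k L) = b.ExteriorAlgebra T.1 := by
  have hmem : ∀ T : Finset J, T.card = r → ∑ j ∈ T, deg j = n →
      b.ExteriorAlgebra T ∈ Upart f n r := by
    intro T h1 h2
    rw [mem_Upart]
    constructor
    · rw [ab23_mem b r]
      exact Submodule.subset_span ⟨T, h1, rfl⟩
    · rw [rho_diag b f (fun j => (deg j : k)) hf, ← Nat.cast_sum, h2]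
  set v : {T : Finset J // T.card = r ∧ ∑ j ∈ T, deg j = n} → Upart f n r :=
    fun T => ⟨b.ExteriorAlgebra T.1, hmem T.1 T.2.1 T.2.2⟩ with hv
  have hli : LinearIndependent k v := by
    refine LinearIndependent.of_comp (Upart f n r).subtype ?_
    exact b.ExteriorAlgebra.linearIndependent.comp Subtype.val Subtype.val_injective
  have hsp : ⊤ ≤ Submodule.span k (Set.range v) := by
    rintro ⟨x, hx⟩ -
    have hx' := (mem_Upart f n r x).1 hx
    have h1 : x ∈ Submodule.span k (b.ExteriorAlgebra '' {T | T.card = r}) := by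
      rw [← ab23_mem b r]
      exact hx'.1
    have h2 : x ∈ Submodule.span k
        (b.ExteriorAlgebra '' {T | T.card = r ∧ ∑ j ∈ T, deg j = n}) := by
      rw [Basis.mem_span_image] at h1 ⊢
      intro T hT
      refine ⟨h1 hT, ?_⟩
      have h3 := ab23_repr b f (fun j => (deg j : k)) hf T x
      rw [hx'.2, map_smul, Finsupp.smul_apply, smul_eq_mul] at h3
      have h4 : b.ExteriorAlgebra.repr x T ≠ 0 := Finsupp.mem_support_iff.1 hT
      have h5 := mul_right_cancel₀ h4 h3
      rw [← Nat.cast_sum] at h5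
      exact (Nat.cast_injective h5).symm
    have h3 : x ∈ Submodule.map (Upart f n r).subtype (Submodule.span k (Set.range v)) := by
      rw [Submodule.map_span]
      refine Submodule.span_mono ?_ h2
      rintro _ ⟨T, hT, rfl⟩
      exact ⟨v ⟨T, hT⟩, ⟨⟨T, hT⟩, rfl⟩, rfl⟩
    obtain ⟨y, hy, hyx⟩ := h3
    have : y = ⟨x, hx⟩ := Subtype.ext hyx
    rw [← this]
    exact hy
  refine ⟨Basis.mk hli hsp, fun T => ?_⟩
  rw [Basis.mk_apply]

end Pool.ABG
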