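import Pool.Agent.ABG.Count

set_option autoImplicit false

/-!
# Finitely many finsets with given total degree (AB-24)
-/

open Module ExteriorAlgebra

namespace Pool.ABG

/-- finiteness -/
theorem finsets_finite {J : Type} (deg : J → ℕ) (h1 : ∀ j, 1 ≤ deg j)
    (hfin : ∀ m, Finite {j // deg j = m}) (n : ℕ) :
    Finite {T : Finset J // ∑ j ∈ T, deg j = n} ∧
      ∀ T : Finset J, ∑ j ∈ T, deg j = n → T.card ≤ n := by
  constructor
  · have hf : ∀ m, Set.Finite {j : J | deg j = m} := fun m =>
      Set.finite_coe_iff.1 (hfin m)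
    have hS : Set.Finite {j : J | deg j ≤ n} := by
      refine ((Set.finite_le_nat n).biUnion fun m _ => hf m).subset fun j hj => ?_
      exact Set.mem_biUnion (show deg j ∈ {i | i ≤ n} from hj) rfl
    have hT : Set.Finite {T : Finset J | ∑ j ∈ T, deg j = n} := by
      refine (Finset.finite_toSet hS.toFinset.powerset).subset fun T hT => ?_
      rw [Finset.mem_coe, Finset.mem_powerset]
      intro j hj
      rw [Set.Finite.mem_toFinset]
      have h2 : deg j ≤ ∑ j ∈ T, deg j :=
        Finset.single_le_sum (f := deg) (fun i _ => Nat.zero_le _) hj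
      exact h2.trans (le_of_eq hT)
    exact hT.to_subtype
  · intro T hT
    rw [← hT, Finset.card_eq_sum_ones]
    exact Finset.sum_le_sum fun j _ => h1 j

end Pool.ABG
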