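import Pool.Agent.ABG.Ext
import Pool.Agent.ABG.A23

set_option autoImplicit false


open Module ExteriorAlgebra

namespace Pool.ABG


theorem ab25_repr_rho {k : Type} [Field k] {L : Type} [AddCommGroup L] [Module k L]
    {J : Type} [LinearOrder J] (b : Basis J k L) (deg : J → ℕ) (f : L →ₗ[k] L)
    (hf : ∀ j, f (b j) = (deg j : k) • b j) (v : ExteriorAlgebra k L) (T : Finset J) :
    b.ExteriorAlgebra.repr (rho f v) T = ((∑ j ∈ T, deg j : ℕ) : k) * b.ExteriorAlgebra.repr v T := by
  have h : b.ExteriorAlgebra.coord T ∘ₗ rho f =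
      ((∑ j ∈ T, deg j : ℕ) : k) • b.ExteriorAlgebra.coord T := by
    apply b.ExteriorAlgebra.ext
    intro S
    rw [LinearMap.comp_apply, rho_diag b f (fun j => (deg j : k)) hf S, map_smul,
      LinearMap.smul_apply, Basis.coord_apply, Basis.repr_self]
    by_cases hST : S = T
    · subst hST
      rw [Nat.cast_sum]
    · rw [Finsupp.single_eq_of_ne (Ne.symm hST), smul_zero, smul_zero]
  exact LinearMap.congr_fun h v

/-- the projection given by the basis -/
noncomputable def ab25_P {k : Type} [Field k] {L : Type} [AddCommGroup L] [Module k L]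
    {J : Type} [LinearOrder J] (b : Basis J k L) (deg : J → ℕ) (n : ℕ) :
    ExteriorAlgebra k L →ₗ[k] ExteriorAlgebra k L :=
  b.ExteriorAlgebra.constr k
    (fun T => if (∑ j ∈ T, deg j) = n then b.ExteriorAlgebra T else 0)

theorem ab25_P_basis {k : Type} [Field k] {L : Type} [AddCommGroup L] [Module k L]
    {J : Type} [LinearOrder J] (b : Basis J k L) (deg : J → ℕ) (n : ℕ) (T : Finset J) :
    ab25_P b deg n (b.ExteriorAlgebra T) =
      if (∑ j ∈ T, deg j) = n then b.ExteriorAlgebra T else 0 :=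
  b.ExteriorAlgebra.constr_basis k _ T

theorem ab25_repr_P {k : Type} [Field k] {L : Type} [AddCommGroup L] [Module k L]
    {J : Type} [LinearOrder J] (b : Basis J k L) (deg : J → ℕ) (n : ℕ)
    (v : ExteriorAlgebra k L) (T : Finset J) :
    b.ExteriorAlgebra.repr (ab25_P b deg n v) T =
      (if (∑ j ∈ T, deg j) = n then (1 : k) else 0) * b.ExteriorAlgebra.repr v T := by
  have h : b.ExteriorAlgebra.coord T ∘ₗ ab25_P b deg n =
      (if (∑ j ∈ T, deg j) = n then (1 : k) else 0) • b.ExteriorAlgebra.coord T := by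
    apply b.ExteriorAlgebra.ext
    intro S
    rw [LinearMap.comp_apply, ab25_P_basis, LinearMap.smul_apply, Basis.coord_apply,
      Basis.coord_apply, Basis.repr_self]
    by_cases hST : S = T
    · subst hST
      by_cases hn : (∑ j ∈ S, deg j) = n
      · rw [if_pos hn, if_pos hn, Basis.repr_self, one_smul]
      · rw [if_neg hn, if_neg hn, map_zero, zero_smul]
        rfl
    · rw [Finsupp.single_eq_of_ne (Ne.symm hST), smul_zero]
      by_cases hn : (∑ j ∈ S, deg j) = n
      · rw [if_pos hn, Basis.repr_self, Finsupp.single_eq_of_ne (Ne.symm hST)]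
      · rw [if_neg hn, map_zero]
        rfl
  exact LinearMap.congr_fun h v

theorem ab25_eig {k : Type} [Field k] [CharZero k] {L : Type} [AddCommGroup L] [Module k L]
    {J : Type} [LinearOrder J] (b : Basis J k L) (deg : J → ℕ) (f : L →ₗ[k] L)
    (hf : ∀ j, f (b j) = (deg j : k) • b j) (m : ℕ) (v : ExteriorAlgebra k L)
    (hv : rho f v = (m : k) • v) (T : Finset J) (hT : (∑ j ∈ T, deg j) ≠ m) :
    b.ExteriorAlgebra.repr v T = 0 := by
  have h := ab25_repr_rho b deg f hf v T
  rw [hv, map_smul, Finsupp.smul_apply, smul_eq_mul] at h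
  have h2 : (((∑ j ∈ T, deg j : ℕ) : k) - (m : k)) * b.ExteriorAlgebra.repr v T = 0 := by
    rw [sub_mul, ← h, sub_self]
  rcases mul_eq_zero.1 h2 with h3 | h3
  · exact absurd (Nat.cast_injective (sub_eq_zero.1 h3)) hT
  · exact h3

theorem ab25_P_eig {k : Type} [Field k] [CharZero k] {L : Type} [AddCommGroup L] [Module k L]
    {J : Type} [LinearOrder J] (b : Basis J k L) (deg : J → ℕ) (f : L →ₗ[k] L)
    (hf : ∀ j, f (b j) = (deg j : k) • b j) (n m : ℕ) (v : ExteriorAlgebra k L)
    (hv : rho f v = (m : k) • v) : ab25_P b deg n v = if m = n then v else 0 := by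
  apply b.ExteriorAlgebra.ext_elem
  intro T
  rw [ab25_repr_P]
  by_cases hmn : m = n
  · rw [if_pos hmn]
    by_cases hT : (∑ j ∈ T, deg j) = n
    · rw [if_pos hT, one_mul]
    · rw [if_neg hT, zero_mul]
      exact (ab25_eig b deg f hf m v hv T (fun h => hT (h.trans hmn))).symm
  · rw [if_neg hmn, map_zero, Finsupp.zero_apply]
    by_cases hT : (∑ j ∈ T, deg j) = n
    · rw [if_pos hT, one_mul]
      exact ab25_eig b deg f hf m v hv T (fun h => hmn (h.symm.trans hT))
    · rw [if_neg hT, zero_mul]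

theorem ab25_mem {k : Type} [Field k] {L : Type} [AddCommGroup L] [Module k L]
    {J : Type} [LinearOrder J] (b : Basis J k L) (deg : J → ℕ) (n r : ℕ)
    (v : ExteriorAlgebra k L) (hv : v ∈ ⋀[k]^r L) : ab25_P b deg n v ∈ ⋀[k]^r L := by
  have h : (⋀[k]^r L).mkQ ∘ₗ ab25_P b deg n ∘ₗ (⋀[k]^r L).subtype = 0 := by
    apply (b.exteriorPower r).ext
    intro s
    rw [LinearMap.comp_apply, LinearMap.comp_apply, Submodule.subtype_apply,
      ← ExteriorAlgebra.basis_eq_coe_basis b s, ab25_P_basis, LinearMap.zero_apply,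
      Submodule.mkQ_apply, Submodule.Quotient.mk_eq_zero]
    split_ifs
    · rw [ExteriorAlgebra.basis_eq_coe_basis b s]
      exact (b.exteriorPower r s).2
    · exact Submodule.zero_mem _
  have h2 := LinearMap.congr_fun h ⟨v, hv⟩
  rw [LinearMap.comp_apply, LinearMap.comp_apply, Submodule.subtype_apply, LinearMap.zero_apply,
    Submodule.mkQ_apply, Submodule.Quotient.mk_eq_zero] at h2
  exact h2

theorem ab25_rho_P {k : Type} [Field k] {L : Type} [AddCommGroup L] [Module k L]
    {J : Type} [LinearOrder J] (b : Basis J k L) (deg : J → ℕ) (f : L →ₗ[k] L)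
    (hf : ∀ j, f (b j) = (deg j : k) • b j) (n : ℕ) (v : ExteriorAlgebra k L) :
    rho f (ab25_P b deg n v) = (n : k) • ab25_P b deg n v := by
  apply b.ExteriorAlgebra.ext_elem
  intro T
  rw [ab25_repr_rho b deg f hf, map_smul, Finsupp.smul_apply, smul_eq_mul, ab25_repr_P]
  by_cases hT : (∑ j ∈ T, deg j) = n
  · rw [hT]
  · rw [if_neg hT, zero_mul, mul_zero, mul_zero]


/-- projection to the homogeneous part -/
theorem Upart_proj {k : Type} [Field k] [CharZero k] {L : Type} [LieRing L] [LieAlgebra k L]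
    {J : Type} [LinearOrder J] (b : Basis J k L) (deg : J → ℕ) (f : L →ₗ[k] L)
    (hf : ∀ j, f (b j) = (deg j : k) • b j)
    (hfd : ∀ x y : L, f ⁅x, y⁆ = ⁅f x, y⁆ + ⁅x, f y⁆) (n : ℕ) :
    ∃ P : ExteriorAlgebra k L →ₗ[k] ExteriorAlgebra k L,
      (∀ v, rho f v = (n : k) • v → P v = v) ∧
      (∀ r, ∀ v ∈ ⋀[k]^r L, P v ∈ Upart f n r) ∧
      (∀ v, dd k L (P v) = P (dd k L v)) := by
  refine ⟨ab25_P b deg n, ?_, ?_, ?_⟩
  · intro v hv
    rw [ab25_P_eig b deg f hf n n v hv, if_pos rfl]
  · intro r v hv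
    rw [mem_Upart]
    exact ⟨ab25_mem b deg n r v hv, ab25_rho_P b deg f hf n v⟩
  · have h : dd k L ∘ₗ ab25_P b deg n = ab25_P b deg n ∘ₗ dd k L := by
      apply b.ExteriorAlgebra.ext
      intro S
      rw [LinearMap.comp_apply, LinearMap.comp_apply, ab25_P_basis]
      have h1 : rho f (b.ExteriorAlgebra S) =
          ((∑ j ∈ S, deg j : ℕ) : k) • b.ExteriorAlgebra S := by
        rw [rho_diag b f (fun j => (deg j : k)) hf S, Nat.cast_sum]
      have h2 : rho f (dd k L (b.ExteriorAlgebra S)) =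
          ((∑ j ∈ S, deg j : ℕ) : k) • dd k L (b.ExteriorAlgebra S) := by
        rw [← dd_rho f hfd, h1, map_smul]
      rw [ab25_P_eig b deg f hf n _ _ h2]
      by_cases hS : (∑ j ∈ S, deg j) = n
      · rw [if_pos hS, if_pos hS]
      · rw [if_neg hS, if_neg hS, map_zero]
    exact fun v => LinearMap.congr_fun h v

end Pool.ABG

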