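import Pool.Agent.ABG.Ext
import Pool.Agent.ABG.A16
import Pool.Agent.ABG.A17
import Pool.Agent.ABG.A23
import Pool.Agent.ABG.A24
import Pool.Agent.ABG.A25

set_option autoImplicit false


open Module ExteriorAlgebra

namespace Pool.ABG


theorem ab26_gl {k : Type} [Field k] {L : Type} [AddCommGroup L] [Module k L]
    (F : Fin 3 → Fin 3 → L →ₗ[k] L)
    (hFg : ∀ a b c d x, F a b (F c d x) - F c d (F a b x) =
      (if b = c then F a d x else 0) - (if d = a then F c b x else 0)) (a b c d : Fin 3) :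
    F a b ∘ₗ F c d - F c d ∘ₗ F a b = (if b = c then F a d else 0) - (if d = a then F c b else 0) := by
  ext x
  rw [LinearMap.sub_apply, LinearMap.comp_apply, LinearMap.comp_apply, hFg, LinearMap.sub_apply]
  by_cases h1 : b = c
  · by_cases h2 : d = a
    · rw [if_pos h1, if_pos h2, if_pos h1, if_pos h2]
    · rw [if_pos h1, if_neg h2, if_pos h1, if_neg h2, LinearMap.zero_apply]
  · by_cases h2 : d = a
    · rw [if_neg h1, if_pos h2, if_neg h1, if_pos h2, LinearMap.zero_apply]
    · rw [if_neg h1, if_neg h2, if_neg h1, if_neg h2, LinearMap.zero_apply]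

theorem ab26_rho_sub {k : Type} [Field k] {L : Type} [AddCommGroup L] [Module k L]
    (f g : L →ₗ[k] L) (w : ExteriorAlgebra k L) :
    rho (f - g) w = rho f w - rho g w := by
  have h : f - g = f + (-1 : k) • g := by rw [neg_one_smul, sub_eq_add_neg]
  rw [h, rho_add, rho_smul, neg_one_smul, sub_eq_add_neg]

/-- homogeneous vectors of degree at least two are boundaries -/
theorem ab26_one {k : Type} [Field k] [CharZero k] {L : Type} [LieRing L] [LieAlgebra k L]
    {J : Type} (b : Basis J k L) (deg : J → ℕ)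
    (f : L →ₗ[k] L) (hf : ∀ j, f (b j) = (deg j : k) • b j)
    (hgen : ∀ j, 2 ≤ deg j → b j ∈ Submodule.span k {z | ∃ x y : L, z = ⁅x, y⁆})
    (n : ℕ) (hn : 2 ≤ n) (v : ExteriorAlgebra k L) (hv : v ∈ Upart f n 1) :
    v ∈ Bd k L 1 := by
  rw [mem_Upart] at hv
  obtain ⟨hv1, hv2⟩ := hv
  rw [exteriorPower, pow_one] at hv1
  obtain ⟨x, rfl⟩ := hv1
  rw [rho_ι, ← map_smul] at hv2
  have hfx : f x = (n : k) • x := (ExteriorAlgebra.ι_inj k _ _).1 hv2
  -- coordinates
  have hco : ∀ y : L, ∀ j, b.repr (f y) j = (deg j : k) * b.repr y j := by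
    intro y j
    have h : (b.coord j) ∘ₗ f = (deg j : k) • b.coord j := by
      apply b.ext
      intro i
      rw [LinearMap.comp_apply, hf, map_smul, LinearMap.smul_apply, Basis.coord_apply,
        Basis.repr_self, smul_eq_mul, smul_eq_mul]
      by_cases hij : i = j
      · rw [hij]
      · rw [Finsupp.single_eq_of_ne (Ne.symm hij), mul_zero, mul_zero]
    exact congrArg (fun g => g y) h
  have hsupp : ∀ j ∈ (b.repr x).support, deg j = n := by
    intro j hj
    rw [Finsupp.mem_support_iff] at hj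
    have h := hco x j
    rw [hfx, map_smul, Finsupp.smul_apply, smul_eq_mul] at h
    have h2 := mul_right_cancel₀ hj h
    exact_mod_cast h2.symm
  have hx : x ∈ Submodule.span k {z | ∃ x y : L, z = ⁅x, y⁆} := by
    rw [← b.linearCombination_repr x, Finsupp.linearCombination_apply, Finsupp.sum]
    refine Submodule.sum_mem _ (fun j hj => Submodule.smul_mem _ _ (hgen j ?_))
    rw [hsupp j hj]
    exact hn
  have hle : Submodule.span k {z | ∃ x y : L, z = ⁅x, y⁆} ≤ (Bd k L 1).comap (ι k) := by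
    rw [Submodule.span_le]
    rintro _ ⟨y, z, rfl⟩
    refine ⟨ι k y * ι k z, ?_, dd_ι_ι y z⟩
    change _ ∈ ⋀[k]^(1 + 1) L
    rw [exteriorPower, pow_succ', pow_one]
    exact Submodule.mul_mem_mul ⟨y, rfl⟩ ⟨z, rfl⟩
  exact hle hx


/-- the Euler characteristic of the homogeneous parts of the Chevalley-Eilenberg complex of a graded
Lie algebra with an action of `gl_3` by derivations, when the homology has no trivial and no
adjoint component from the second degree on -/
theorem main_ec {k : Type} [Field k] [CharZero k] {L : Type} [LieRing L] [LieAlgebra k L]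
    {J : Type} (b : Basis J k L) (deg : J → ℕ) (wt : J → Fin 3 → ℤ)
    (h1 : ∀ j, 1 ≤ deg j) (hfin : ∀ m, Finite {j // deg j = m})
    (f : L →ₗ[k] L) (hf : ∀ j, f (b j) = (deg j : k) • b j)
    (hfd : ∀ x y : L, f ⁅x, y⁆ = ⁅f x, y⁆ + ⁅x, f y⁆)
    (F : Fin 3 → Fin 3 → L →ₗ[k] L)
    (hFd : ∀ a c, ∀ x y : L, F a c ⁅x, y⁆ = ⁅F a c x, y⁆ + ⁅x, F a c y⁆)
    (hFf : ∀ a c x, F a c (f x) = f (F a c x))
    (hFw : ∀ a j, F a a (b j) = ((wt j a : ℤ) : k) • b j)
    (hFg : ∀ a b c d x, F a b (F c d x) - F c d (F a b x) =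
      (if b = c then F a d x else 0) - (if d = a then F c b x else 0))
    (hF0 : ∀ x, F 0 0 x + F 1 1 x + F 2 2 x = 0)
    (hgen : ∀ j, 2 ≤ deg j → b j ∈ Submodule.span k {z | ∃ x y : L, z = ⁅x, y⁆})
    (n : ℕ) (hn : 2 ≤ n)
    (hT : ∀ r, 2 ≤ r → r ≤ n → ∀ v ∈ ⋀[k]^r L, dd k L v = 0 →
      (∀ a c, rho (F a c) v ∈ Bd k L r) → v ∈ Bd k L r)
    (hA : ∀ r, 2 ≤ r → r ≤ n → ∀ phi : Matrix (Fin 3) (Fin 3) k →ₗ[k] ExteriorAlgebra k L,
      (∀ Y, phi Y ∈ ⋀[k]^r L) → (∀ Y, dd k L (phi Y) = 0) →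
      (∀ a c Y, rho (F a c) (phi Y) -
        phi (Matrix.single a c 1 * Y - Y * Matrix.single a c 1) ∈ Bd k L r) →
      phi (Matrix.single 0 2 1) ∈ Bd k L r)
    (lam : Fin 3 → ℤ) (hlam : lam = 0 ∨ lam = theta) :
    ∑ r ∈ Finset.range (n + 1), (-1 : ℤ) ^ r * wal (fun mu => (cnt deg wt n r mu : ℤ)) lam = 0 := by
  classical
  let _ : LinearOrder J := IsWellOrder.linearOrder (WellOrderingRel : J → J → Prop)
  obtain ⟨hfs, hcard⟩ : Finite {T : Finset J // ∑ j ∈ T, deg j = n} ∧
      ∀ T : Finset J, ∑ j ∈ T, deg j = n → T.card ≤ n := finsets_finite deg h1 hfin n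
  obtain ⟨P, hP1, hP2, hP3⟩ := Upart_proj b deg f hf hfd n
  choose e he using Upart_basis b deg f hf n
  have hfinI : ∀ r, Finite {T : Finset J // T.card = r ∧ ∑ j ∈ T, deg j = n} := fun r =>
    Finite.of_injective (β := {T : Finset J // ∑ j ∈ T, deg j = n}) (fun T => ⟨T.1, T.2.2⟩)
      (fun T T' h => Subtype.ext (congrArg (fun x => x.1) h))
  have hfd' : ∀ r, FiniteDimensional k (Upart f n r) := fun r => Module.Finite.of_basis (e r)
  -- subsingletons
  have hsub : ∀ r, (∀ T : Finset J, T.card = r → ∑ j ∈ T, deg j = n → False) →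
      ∀ v : Upart f n r, v = 0 := by
    intro r hr v
    have _ : IsEmpty {T : Finset J // T.card = r ∧ ∑ j ∈ T, deg j = n} :=
      ⟨fun T => hr T.1 T.2.1 T.2.2⟩
    apply (e r).repr.injective
    exact Subsingleton.elim _ _
  -- the maps
  have hcom : ∀ a c (v : ExteriorAlgebra k L), rho (F a c) (rho f v) = rho f (rho (F a c) v) :=
    fun a c v => by
      have h := rho_comm (F a c) f v
      have h0 : F a c ∘ₗ f - f ∘ₗ F a c = 0 := by
        ext x
        rw [LinearMap.sub_apply, LinearMap.comp_apply, LinearMap.comp_apply, hFf, sub_self,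
          LinearMap.zero_apply]
      rw [h0, rho_zero] at h
      exact sub_eq_zero.1 h
  have hdm : ∀ r, ∀ v ∈ Upart f n (r + 1), dd k L v ∈ Upart f n r := by
    intro r v hv
    rw [mem_Upart] at hv ⊢
    exact ⟨dd_mem r v hv.1, by rw [← dd_rho f hfd, hv.2, map_smul]⟩
  have hEm : ∀ r a c, ∀ v ∈ Upart f n r, rho (F a c) v ∈ Upart f n r := by
    intro r a c v hv
    rw [mem_Upart] at hv ⊢
    exact ⟨rho_mem (F a c) r v hv.1, by rw [← hcom, hv.2, map_smul]⟩
  let d : ∀ r, Upart f n (r + 1) →ₗ[k] Upart f n r := fun r => (dd k L).restrict (hdm r)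
  let E : ∀ r, Fin 3 → Fin 3 → Module.End k (Upart f n r) := fun r a c =>
    (rho (F a c)).restrict (hEm r a c)
  have hdc : ∀ r (v : Upart f n (r + 1)), ((d r v : Upart f n r) : ExteriorAlgebra k L) =
      dd k L v := fun r v => rfl
  have hEc : ∀ r a c (v : Upart f n r), ((E r a c v : Upart f n r) : ExteriorAlgebra k L) =
      rho (F a c) v := fun r a c v => rfl
  have hE : ∀ r, IsGl (E r) := by
    intro r a b' c d'
    have hc := ab26_gl F hFg a b' c d'
    ext v
    rw [LinearMap.sub_apply, Module.End.mul_apply, Module.End.mul_apply, Submodule.coe_sub, hEc,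
      hEc, hEc, hEc, rho_comm, hc, LinearMap.sub_apply, Submodule.coe_sub, ab26_rho_sub]
    congr 1
    · split_ifs
      · rw [hEc]
      · rw [rho_zero, LinearMap.zero_apply, Submodule.coe_zero]
    · split_ifs
      · rw [hEc]
      · rw [rho_zero, LinearMap.zero_apply, Submodule.coe_zero]
  have h0 : ∀ r, E r 0 0 + E r 1 1 + E r 2 2 = 0 := by
    intro r
    ext v
    rw [LinearMap.add_apply, LinearMap.add_apply, Submodule.coe_add, Submodule.coe_add, hEc, hEc,
      hEc, ← rho_add, ← rho_add, LinearMap.zero_apply, Submodule.coe_zero]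
    have : F 0 0 + F 1 1 + F 2 2 = 0 := by
      ext x
      rw [LinearMap.add_apply, LinearMap.add_apply, hF0, LinearMap.zero_apply]
    rw [this, rho_zero]
  have hw : ∀ r, (⨆ mu, wsp (E r) mu = ⊤) ∧ ∀ mu, finrank k (wsp (E r) mu) =
      cnt deg wt n r mu := by
    intro r
    have _ : Fintype {T : Finset J // T.card = r ∧ ∑ j ∈ T, deg j = n} := Fintype.ofFinite _
    obtain ⟨hw1, hw2⟩ := wsp_basis (e r) (E r) (fun T => ∑ j ∈ T.1, wt j) (by
      intro T a
      apply Subtype.ext
      rw [hEc, Submodule.coe_smul, he, rho_diag b (F a a) (fun j => ((wt j a : ℤ) : k))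
        (hFw a)]
      congr 1
      rw [Finset.sum_apply, Int.cast_sum])
    refine ⟨hw1, fun mu => ?_⟩
    rw [hw2, cnt]
    exact Nat.card_congr
      { toFun := fun T => ⟨T.1.1, T.1.2.1, T.1.2.2, T.2⟩
        invFun := fun T => ⟨⟨T.1, T.2.1, T.2.2.1⟩, T.2.2.2⟩
        left_inv := fun T => rfl
        right_inv := fun T => rfl }
  -- boundaries
  have hB : ∀ r, ∀ z : Upart f n r, (z : ExteriorAlgebra k L) ∈ Bd k L r → ∃ u, d r u = z := by
    intro r z hz
    obtain ⟨w, hw, hwz⟩ := hz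
    refine ⟨⟨P w, hP2 _ w hw⟩, ?_⟩
    apply Subtype.ext
    rw [hdc]
    change dd k L (P w) = _
    rw [hP3, hwz, hP1 _ ((mem_Upart f n r _).1 z.2).2]
  have key := euler_zero n (fun r => Upart f n r) d E hE h0 (fun r => (hw r).1)
    (fun r v => Subtype.ext (by rw [hdc, hdc, dd_dd, Submodule.coe_zero]))
    (fun r a c v => Subtype.ext (by rw [hdc, hEc, hEc, hdc, dd_rho (F a c) (hFd a c)]))
    (fun r hr => hsub r (fun T hT1 hT2 => by
      have := hcard T hT2
      omega))
    (fun v => ⟨0, by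
      rw [map_zero, hsub 0 (fun T hT1 hT2 => ?_) v]
      rw [Finset.card_eq_zero] at hT1
      rw [hT1, Finset.sum_empty] at hT2
      omega⟩)
    (fun v _ => hB 1 v (ab26_one b deg f hf hgen n hn v.1 v.2))
    (fun r z hz hz2 => by
      by_cases hr : r + 2 ≤ n
      · refine hB _ z (hT (r + 2) (by omega) hr z.1 ((mem_Upart f n _ _).1 z.2).1 ?_ ?_)
        · have := congrArg Subtype.val hz
          rwa [hdc] at this
        · intro a c
          obtain ⟨u, hu⟩ := hz2 a c
          exact ⟨u.1, ((mem_Upart f n _ _).1 u.2).1, by rw [← hEc, ← hu, hdc]⟩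
      · refine ⟨0, ?_⟩
        rw [map_zero, hsub (r + 2) (fun T hT1 hT2 => ?_) z]
        have := hcard T hT2
        omega)
    (fun r phi hp1 hp2 => by
      by_cases hr : r + 2 ≤ n
      · refine hB _ _ (hA (r + 2) (by omega) hr ((Upart f n (r + 2)).subtype ∘ₗ phi) ?_ ?_ ?_)
        · intro Y
          exact ((mem_Upart f n _ _).1 (phi Y).2).1
        · intro Y
          have := congrArg Subtype.val (hp1 Y)
          rwa [hdc] at this
        · intro a c Y
          obtain ⟨u, hu⟩ := hp2 a c Y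
          refine ⟨u.1, ((mem_Upart f n _ _).1 u.2).1, ?_⟩
          rw [← hdc, hu, Submodule.coe_sub, hEc]
          rfl
      · refine ⟨0, ?_⟩
        rw [map_zero, hsub (r + 2) (fun T hT1 hT2 => ?_) (phi _)]
        have := hcard T hT2
        omega)
    lam hlam
  rw [← key]
  refine Finset.sum_congr rfl (fun r _ => ?_)
  congr 2
  ext mu
  rw [(hw r).2 mu]

end Pool.ABG
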