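import Mathlib

set_option autoImplicit false


open Module

open scoped TensorProduct

namespace Pool.ABG


/-- a homogeneous basis from a scaling operator -/
theorem graded_basis {k : Type} [Field k] [CharZero k] {V : Type} [AddCommGroup V] [Module k V]
    (s : V →ₗ[k] V) (G : ℕ → Submodule k V) (hs : ∀ n, ∀ v ∈ G n, s v = (2 : k) ^ n • v)
    (htop : ∀ v, v ∈ ⨆ n, G n) (hfd : ∀ n, FiniteDimensional k (G n)) :
    ∃ b : Basis (Σ n, Fin (finrank k (G n))) k V, ∀ i, b i ∈ G i.1 := by
  have hinj : Function.Injective (fun n : ℕ => (2 : k) ^ n) := by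
    intro a b hab
    have h1 : ((2 ^ a : ℕ) : k) = ((2 ^ b : ℕ) : k) := by
      push_cast
      exact hab
    exact Nat.pow_right_injective (le_refl 2) (Nat.cast_injective h1)
  have hle : ∀ n, G n ≤ Module.End.eigenspace s ((2 : k) ^ n) := fun n v hv =>
    Module.End.mem_eigenspace_iff.mpr (hs n v hv)
  have hind : iSupIndep G :=
    ((Module.End.eigenspaces_iSupIndep s).comp hinj).mono hle
  have htop' : ⨆ n, G n = ⊤ := eq_top_iff.mpr fun v _ => htop v
  have hI : DirectSum.IsInternal G :=
    DirectSum.isInternal_submodule_of_iSupIndep_of_iSup_eq_top hind htop'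
  refine ⟨hI.collectedBasis fun n => Module.finBasis k (G n), fun i => ?_⟩
  exact hI.collectedBasis_mem _ i

end Pool.ABG
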