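import Pool.Agent.ABG.Grade

set_option autoImplicit false

open Module

open scoped TensorProduct

namespace Pool.ABG

theorem ab28_single (k : Type) [Field k] (X : Type) (u : FreeMagma X) :
    FreeAlt.mk k X (MonoidAlgebra.single u 1) = FreeAlt.mon k u := by
  induction u using FreeMagma.recOnMul with
  | ih1 x => rfl
  | ih2 x y hx hy =>
    rw [FreeAlt.mon_mul, ← hx, ← hy, ← map_mul, MonoidAlgebra.single_mul_single, one_mul]

theorem ab28_mon_mem (k : Type) [Field k] (X : Type) (u : FreeMagma X) :
    FreeAlt.mon k u ∈ gr k X u.length :=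
  Submodule.subset_span ⟨u, rfl, rfl⟩

theorem ab28_a (k : Type) [Field k] (X : Type) (v : FreeAlt k X) : v ∈ ⨆ n, gr k X n := by
  obtain ⟨a, rfl⟩ := FreeAlt.mk_surjective k X v
  induction a using MonoidAlgebra.induction_linear with
  | zero => rw [map_zero]; exact Submodule.zero_mem _
  | add a b ha hb => rw [map_add]; exact Submodule.add_mem _ ha hb
  | single u r =>
    have h : (MonoidAlgebra.single u r : FreeNonUnitalNonAssocAlgebra k X)
        = r • MonoidAlgebra.single u 1 := by
      rw [MonoidAlgebra.smul_single, smul_eq_mul, mul_one]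
    rw [h, map_smul, ab28_single]
    exact Submodule.smul_mem _ _ (Submodule.mem_iSup_of_mem u.length (ab28_mon_mem k X u))

theorem ab28_b (k : Type) [Field k] (X : Type) : gr k X 0 = ⊥ := by
  unfold gr
  rw [Submodule.span_eq_bot]
  rintro x ⟨u, hu, -⟩
  have := u.length_pos
  omega

theorem ab28_fin (X : Type) [Finite X] (n : ℕ) : {u : FreeMagma X | u.length = n}.Finite := by
  induction n using Nat.strong_induction_on with
  | _ n ih =>
    have h1 : (Set.range (FreeMagma.of : X → FreeMagma X)).Finite := Set.finite_range _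
    have h2 : (⋃ i ∈ Finset.range n, ⋃ j ∈ Finset.range n,
        Set.image2 (fun u v : FreeMagma X => u * v) {u : FreeMagma X | u.length = i}
          {u : FreeMagma X | u.length = j}).Finite := by
      refine Set.Finite.biUnion (Finset.finite_toSet _) fun i hi => ?_
      refine Set.Finite.biUnion (Finset.finite_toSet _) fun j hj => ?_
      exact Set.Finite.image2 _ (ih i (Finset.mem_range.1 hi)) (ih j (Finset.mem_range.1 hj))
    refine (h1.union h2).subset ?_
    intro u hu
    rcases u with x | ⟨u, v⟩
    · exact Or.inl ⟨x, rfl⟩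
    · refine Or.inr ?_
      have hl : u.length + v.length = n := hu
      have hu1 := u.length_pos
      have hv1 := v.length_pos
      simp only [Set.mem_iUnion]
      exact ⟨u.length, Finset.mem_range.2 (by omega), v.length, Finset.mem_range.2 (by omega),
        u, rfl, v, rfl, rfl⟩

theorem ab28_c (k : Type) [Field k] (X : Type) [Finite X] (n : ℕ) :
    FiniteDimensional k (gr k X n) := by
  unfold gr
  refine FiniteDimensional.span_of_finite k ?_
  refine ((ab28_fin X n).image (fun u => FreeAlt.mon k u)).subset ?_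
  rintro x ⟨u, hu, rfl⟩
  exact ⟨u, hu, rfl⟩

theorem ab28_d (k : Type) [Field k] (X : Type) (m n : ℕ) (p : FreeAlt k X) (hp : p ∈ gr k X m)
    (q : FreeAlt k X) (hq : q ∈ gr k X n) : p * q ∈ gr k X (m + n) := by
  unfold gr at hp hq
  induction hp using Submodule.span_induction with
  | mem x hx =>
    obtain ⟨u, hu, rfl⟩ := hx
    induction hq using Submodule.span_induction with
    | mem y hy =>
      obtain ⟨v, hv, rfl⟩ := hy
      refine Submodule.subset_span ⟨u * v, ?_, (FreeAlt.mon_mul k u v).symm⟩
      change u.length + v.length = m + n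
      rw [hu, hv]
    | zero => rw [mul_zero]; exact Submodule.zero_mem _
    | add y z _ _ hy hz => rw [mul_add]; exact Submodule.add_mem _ hy hz
    | smul t y _ hy => rw [mul_smul_comm]; exact Submodule.smul_mem _ _ hy
  | zero => rw [zero_mul]; exact Submodule.zero_mem _
  | add y z _ _ hy hz => rw [add_mul]; exact Submodule.add_mem _ hy hz
  | smul t y _ hy => rw [smul_mul_assoc]; exact Submodule.smul_mem _ _ hy

theorem ab28_e (k : Type) [Field k] (X : Type) (n : ℕ) (hn : 2 ≤ n) :
    gr k X n ≤ Submodule.span k {x | ∃ p q : FreeAlt k X, x = p * q} := by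
  unfold gr
  refine Submodule.span_le.2 ?_
  rintro x ⟨u, hu, rfl⟩
  rcases u with x | ⟨u, v⟩
  · exfalso
    have : (1 : ℕ) = n := hu
    omega
  · exact Submodule.subset_span ⟨FreeAlt.mon k u, FreeAlt.mon k v, rfl⟩

/-- the grading of the free alternative algebra -/
theorem gr_facts (k : Type) [Field k] (X : Type) [Finite X] :
    (∀ v, v ∈ ⨆ n, gr k X n) ∧ gr k X 0 = ⊥ ∧ (∀ n, FiniteDimensional k (gr k X n)) ∧
      (∀ m n, ∀ p ∈ gr k X m, ∀ q ∈ gr k X n, p * q ∈ gr k X (m + n)) ∧
      (∀ n, 2 ≤ n → gr k X n ≤ Submodule.span k {x | ∃ p q : FreeAlt k X, x = p * q}) :=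
  ⟨ab28_a k X, ab28_b k X, ab28_c k X, ab28_d k X, ab28_e k X⟩

end Pool.ABG
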