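import Pool.Agent.ABG.Grade
import Pool.Agent.ABG.A27
import Pool.Agent.ABG.A28

set_option autoImplicit false


open Module

open scoped TensorProduct

namespace Pool.ABG


/-- the algebra endomorphism which doubles the generators, as a linear map -/
noncomputable def ab29_s (k : Type) [Field k] (X : Type) : FreeAlt k X →ₗ[k] FreeAlt k X :=
  { toFun := (FreeAlt.lift (fun x => (2 : k) • FreeAlt.of k x) : FreeAlt k X →ₙₐ[k] FreeAlt k X)
    map_add' := map_add (FreeAlt.lift (fun x => (2 : k) • FreeAlt.of k x))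
    map_smul' := map_smul (FreeAlt.lift (fun x => (2 : k) • FreeAlt.of k x)) }

theorem ab29_s_of (k : Type) [Field k] (X : Type) (x : X) :
    ab29_s k X (FreeAlt.of k x) = (2 : k) • FreeAlt.of k x :=
  FreeAlt.lift_of (fun x => (2 : k) • FreeAlt.of k x) x

theorem ab29_s_mul (k : Type) [Field k] (X : Type) (p q : FreeAlt k X) :
    ab29_s k X (p * q) = ab29_s k X p * ab29_s k X q :=
  map_mul (FreeAlt.lift (fun x => (2 : k) • FreeAlt.of k x) : FreeAlt k X →ₙₐ[k] FreeAlt k X) p q

theorem ab29_s_mon (k : Type) [Field k] (X : Type) (u : FreeMagma X) :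
    ab29_s k X (FreeAlt.mon k u) = (2 : k) ^ u.length • FreeAlt.mon k u := by
  induction u using FreeMagma.recOnMul with
  | ih1 x =>
    rw [FreeAlt.mon_of, ab29_s_of]
    change _ = (2 : k) ^ 1 • _
    rw [pow_one]
  | ih2 u v hu hv =>
    rw [FreeAlt.mon_mul, ab29_s_mul, hu, hv, smul_mul_assoc, mul_smul_comm, smul_smul]
    change _ = (2 : k) ^ (u.length + v.length) • _
    rw [pow_add]

theorem ab29_s_gr (k : Type) [Field k] (X : Type) (n : ℕ) (v : FreeAlt k X) (hv : v ∈ gr k X n) :
    ab29_s k X v = (2 : k) ^ n • v := by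
  unfold gr at hv
  induction hv using Submodule.span_induction with
  | mem x hx =>
    obtain ⟨u, hu, rfl⟩ := hx
    rw [ab29_s_mon, hu]
  | zero => rw [map_zero, smul_zero]
  | add x y _ _ hx hy => rw [map_add, hx, hy, smul_add]
  | smul a x _ hx => rw [map_smul, hx, smul_comm]

theorem ab29_coord {k : Type} [Field k] {V ι : Type} [AddCommGroup V] [Module k V]
    (b : Basis ι k V) (f : V →ₗ[k] V) (c : ι → k) (hf : ∀ i, f (b i) = c i • b i) (p : V) (i : ι) :
    b.repr (f p) i = c i * b.repr p i := by
  have h : (b.coord i).comp f = c i • b.coord i := by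
    refine b.ext fun j => ?_
    rw [LinearMap.comp_apply, hf, map_smul, LinearMap.smul_apply, Basis.coord_apply,
      Basis.repr_self]
    by_cases hij : j = i
    · rw [hij]
    · rw [Finsupp.single_eq_of_ne (Ne.symm hij), smul_zero, smul_zero]
  exact LinearMap.congr_fun h p


/-- a homogeneous basis of the free alternative algebra -/
theorem gr_basis (k : Type) [Field k] [CharZero k] (X : Type) [Finite X] :
    ∃ b : Basis (Σ n, Fin (finrank k (gr k X n))) k (FreeAlt k X), ∀ i, b i ∈ gr k X i.1 := by
  exact graded_basis (ab29_s k X) (gr k X) (ab29_s_gr k X) (gr_facts k X).1 (gr_facts k X).2.2.1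


/-- the operator which multiplies the words of length `n` by `n` is a derivation -/
theorem gr_der (k : Type) [Field k] [CharZero k] (X : Type) [Finite X] :
    ∃ f : FreeAlt k X →ₗ[k] FreeAlt k X, (∀ p q, f (p * q) = f p * q + p * f q) ∧
      ∀ n, ∀ p ∈ gr k X n, f p = (n : k) • p := by
  obtain ⟨b, hb⟩ := gr_basis k X
  have hfb : ∀ i, b.constr k (fun i => (i.1 : k) • b i) (b i) = (i.1 : k) • b i := fun i =>
    b.constr_basis k _ i
  have hgr : ∀ n, ∀ p ∈ gr k X n,
      b.constr k (fun i => (i.1 : k) • b i) p = (n : k) • p := by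
    intro n p hp
    refine b.ext_elem fun i => ?_
    rw [ab29_coord b _ (fun i => (i.1 : k)) hfb p i, map_smul, Finsupp.smul_apply, smul_eq_mul]
    have h1 := ab29_coord b (ab29_s k X) (fun i => (2 : k) ^ i.1)
      (fun i => ab29_s_gr k X i.1 (b i) (hb i)) p i
    rw [ab29_s_gr k X n p hp, map_smul, Finsupp.smul_apply, smul_eq_mul] at h1
    by_cases h0 : b.repr p i = 0
    · rw [h0, mul_zero, mul_zero]
    · have h2 : (2 : k) ^ n = 2 ^ i.1 := mul_right_cancel₀ h0 h1
      have h3 : n = i.1 := by
        have h4 : ((2 ^ n : ℕ) : k) = ((2 ^ i.1 : ℕ) : k) := by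
          push_cast
          exact h2
        exact Nat.pow_right_injective (le_refl 2) (Nat.cast_injective h4)
      rw [h3]
  refine ⟨b.constr k (fun i => (i.1 : k) • b i), ?_, hgr⟩
  generalize hF : b.constr k (fun i => (i.1 : k) • b i) = f at hfb hgr
  intro p q
  have hp : p ∈ Submodule.span k (Set.range b) := b.mem_span p
  have hq : q ∈ Submodule.span k (Set.range b) := b.mem_span q
  induction hp using Submodule.span_induction with
  | mem x hx =>
    obtain ⟨i, rfl⟩ := hx
    induction hq using Submodule.span_induction with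
    | mem y hy =>
      obtain ⟨j, rfl⟩ := hy
      rw [hgr (i.1 + j.1) _ ((gr_facts k X).2.2.2.1 _ _ _ (hb i) _ (hb j)), hfb, hfb,
        smul_mul_assoc, mul_smul_comm, ← add_smul, Nat.cast_add]
    | zero => simp
    | add y z _ _ hy hz =>
      rw [mul_add, map_add, hy, hz, mul_add, map_add, mul_add]
      abel
    | smul a y _ hy =>
      rw [mul_smul_comm, map_smul, hy, mul_smul_comm, map_smul, mul_smul_comm, smul_add]
  | zero => simp
  | add x y _ _ hx hy =>
    rw [add_mul, map_add, hx, hy, map_add, add_mul, add_mul]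
    abel
  | smul a x _ hx =>
    rw [smul_mul_assoc, map_smul, hx, map_smul, smul_mul_assoc, smul_mul_assoc, smul_add]

end Pool.ABG
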