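import Pool.Agent.ABG.Grade
import Pool.Agent.ABG.A28

set_option autoImplicit false


open Module

open scoped TensorProduct

namespace Pool.ABG


/-- a right-normed word -/
def ab30_wd {X : Type} : List X → X → FreeMagma X
  | [], x => FreeMagma.of x
  | y :: l, x => FreeMagma.of y * ab30_wd l x

theorem ab30_length {X : Type} (l : List X) (x : X) :
    (ab30_wd l x).length = l.length + 1 := by
  induction l with
  | nil => rfl
  | cons y l ih =>
    show (FreeMagma.of y).length + (ab30_wd l x).length = (l.length + 1) + 1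
    rw [ih]
    show 1 + (l.length + 1) = l.length + 1 + 1
    omega

theorem ab30_alt (k : Type) [Field k] (X : Type) : IsAlt (MonoidAlgebra k (FreeMonoid X)) :=
  ⟨fun p q => mul_assoc p p q, fun p q => mul_assoc q p p⟩

theorem ab30_img (k : Type) [Field k] (X : Type) :
    ∃ φ : FreeAlt k X →ₗ[k] MonoidAlgebra k (FreeMonoid X), ∀ (l : List X) (x : X),
      φ (FreeAlt.mon k (ab30_wd l x)) =
        MonoidAlgebra.of k (FreeMonoid X) (FreeMonoid.ofList (l ++ [x])) := by
  have := ab30_alt k X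
  let ψ : FreeAlt k X →ₙₐ[k] MonoidAlgebra k (FreeMonoid X) :=
    FreeAlt.lift (fun x => MonoidAlgebra.of k (FreeMonoid X) (FreeMonoid.of x))
  refine ⟨{ toFun := ψ, map_add' := map_add ψ, map_smul' := map_smul ψ }, fun l x => ?_⟩
  show ψ (FreeAlt.mon k (ab30_wd l x)) = _
  induction l with
  | nil => exact FreeAlt.lift_of _ x
  | cons y l ih =>
    have h1 : FreeAlt.mon k (ab30_wd (y :: l) x) = FreeAlt.of k y * FreeAlt.mon k (ab30_wd l x) :=
      rfl
    rw [h1, map_mul, ih]
    have h2 : ψ (FreeAlt.of k y) = MonoidAlgebra.of k (FreeMonoid X) (FreeMonoid.of y) :=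
      FreeAlt.lift_of _ y
    rw [h2, ← map_mul]
    rfl

theorem ab30_indep (k : Type) [Field k] (X : Type) (n : ℕ) :
    LinearIndependent k (fun p : List.Vector X n × X =>
      (⟨FreeAlt.mon k (ab30_wd p.1.1 p.2), Submodule.subset_span
        ⟨ab30_wd p.1.1 p.2, by rw [ab30_length, p.1.2], rfl⟩⟩ : gr k X (n + 1))) := by
  obtain ⟨φ, hφ⟩ := ab30_img k X
  refine LinearIndependent.of_comp
    ((MonoidAlgebra.coeffLinearEquiv k).toLinearMap ∘ₗ φ ∘ₗ (gr k X (n + 1)).subtype) ?_
  have h1 : (((MonoidAlgebra.coeffLinearEquiv k).toLinearMap ∘ₗ φ ∘ₗ (gr k X (n + 1)).subtype) ∘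
      fun p : List.Vector X n × X =>
      (⟨FreeAlt.mon k (ab30_wd p.1.1 p.2), Submodule.subset_span
        ⟨ab30_wd p.1.1 p.2, by rw [ab30_length, p.1.2], rfl⟩⟩ : gr k X (n + 1))) =
      (fun w : FreeMonoid X => Finsupp.single w (1 : k)) ∘
        fun p : List.Vector X n × X => FreeMonoid.ofList (p.1.1 ++ [p.2]) := by
    funext p
    show MonoidAlgebra.coeffLinearEquiv k (φ (FreeAlt.mon k (ab30_wd p.1.1 p.2))) = _
    rw [hφ]
    rfl
  rw [h1]
  refine (Finsupp.linearIndependent_single_one k (FreeMonoid X)).comp _ ?_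
  rintro ⟨⟨l, hl⟩, x⟩ ⟨⟨l', hl'⟩, x'⟩ h
  have h2 : l ++ [x] = l' ++ [x'] := FreeMonoid.ofList.injective h
  obtain ⟨h3, h4⟩ := List.append_inj' h2 rfl
  simp only [List.cons.injEq, and_true] at h4
  subst h3
  subst h4
  rfl

theorem ab30_deg_one (k : Type) [Field k] (X : Type) :
    gr k X 1 = Submodule.span k (Set.range (FreeAlt.of k : X → FreeAlt k X)) := by
  unfold gr
  congr 1
  ext x
  constructor
  · rintro ⟨u, hu, rfl⟩
    cases u with
    | of y => exact ⟨y, rfl⟩
    | mul a b =>
      exfalso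
      have h1 : a.length + b.length = 1 := hu
      have h2 := a.length_pos
      have h3 := b.length_pos
      omega
  · rintro ⟨y, rfl⟩
    exact ⟨FreeMagma.of y, rfl, rfl⟩


/-- dimensions of the components of the free alternative algebra -/
theorem gr_dim (k : Type) [Field k] [CharZero k] (X : Type) [Fintype X] :
    finrank k (gr k X 1) = Fintype.card X ∧
      ∀ n, 1 ≤ n → Fintype.card X ^ n ≤ finrank k (gr k X n) := by
  have hfd := (gr_facts k X).2.2.1
  have hlow : ∀ n, 1 ≤ n → Fintype.card X ^ n ≤ finrank k (gr k X n) := by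
    intro n hn
    obtain ⟨m, rfl⟩ : ∃ m, n = m + 1 := ⟨n - 1, by omega⟩
    have := hfd (m + 1)
    have h1 := (ab30_indep k X m).fintype_card_le_finrank
    rw [Fintype.card_prod, card_vector, ← pow_succ] at h1
    exact h1
  refine ⟨le_antisymm ?_ ?_, hlow⟩
  · rw [ab30_deg_one]
    exact finrank_range_le_card (FreeAlt.of k)
  · have h1 := hlow 1 le_rfl
    rwa [pow_one] at h1

end Pool.ABG
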