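import Pool.Agent.ABG.Grade
import Pool.Agent.ABG.A27
import Pool.Agent.ABG.A28

set_option autoImplicit false


open Module

open scoped TensorProduct

namespace Pool.ABG


/-- the scaling homomorphism -/
noncomputable def ab31_s (k : Type) [Field k] (X : Type) : FreeAlt k X →ₙₐ[k] FreeAlt k X :=
  FreeAlt.lift (fun x => (2 : k) • FreeAlt.of k x)

theorem ab31_mon (k : Type) [Field k] (X : Type) (u : FreeMagma X) :
    ab31_s k X (FreeAlt.mon k u) = (2 : k) ^ u.length • FreeAlt.mon k u := by
  induction u using FreeMagma.recOnMul with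
  | ih1 x =>
    have h : FreeMagma.length (FreeMagma.of x) = 1 := rfl
    rw [FreeAlt.mon_of, h, pow_one]
    exact FreeAlt.lift_of _ x
  | ih2 u v hu hv =>
    have h : FreeMagma.length (u * v) = u.length + v.length := rfl
    rw [FreeAlt.mon_mul, map_mul, hu, hv, h, smul_mul_assoc, mul_smul_comm, smul_smul, pow_add]

theorem ab31_gr (k : Type) [Field k] (X : Type) (n : ℕ) (p : FreeAlt k X) (hp : p ∈ gr k X n) :
    ab31_s k X p = (2 : k) ^ n • p := by
  unfold gr at hp
  induction hp using Submodule.span_induction with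
  | mem x hx =>
    obtain ⟨u, rfl, rfl⟩ := hx
    exact ab31_mon k X u
  | zero => rw [map_zero, smul_zero]
  | add x y _ _ hx hy => rw [map_add, hx, hy, smul_add]
  | smul t x _ hx => rw [map_smul, hx, smul_comm]

/-- the scaling map as a linear map -/
noncomputable def ab31_L (k : Type) [Field k] (X : Type) : FreeAlt k X →ₗ[k] FreeAlt k X where
  toFun := ab31_s k X
  map_add' := map_add (ab31_s k X)
  map_smul' := map_smul (ab31_s k X)

theorem ab31_rel (k : Type) [Field k] (X : Type) :
    relB k (FreeAlt k X) ≤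
      (relB k (FreeAlt k X)).comap (TensorProduct.map (ab31_L k X) (ab31_L k X)) := by
  refine Submodule.span_le.2 ?_
  rintro x (⟨p, rfl⟩ | ⟨p, q, r, rfl⟩)
  · rw [SetLike.mem_coe, Submodule.mem_comap, TensorProduct.map_tmul]
    exact Submodule.subset_span (Or.inl ⟨ab31_L k X p, rfl⟩)
  · rw [SetLike.mem_coe, Submodule.mem_comap, map_add, map_add, TensorProduct.map_tmul,
      TensorProduct.map_tmul, TensorProduct.map_tmul]
    have h : ∀ a b : FreeAlt k X, ab31_L k X (a * b) = ab31_L k X a * ab31_L k X b :=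
      fun a b => map_mul (ab31_s k X) a b
    rw [h, h, h]
    exact Submodule.subset_span (Or.inr ⟨ab31_L k X p, ab31_L k X q, ab31_L k X r, rfl⟩)

/-- the scaling map of the space `B` -/
noncomputable def ab31_B (k : Type) [Field k] (X : Type) :
    B k (FreeAlt k X) →ₗ[k] B k (FreeAlt k X) :=
  (relB k (FreeAlt k X)).mapQ (relB k (FreeAlt k X))
    (TensorProduct.map (ab31_L k X) (ab31_L k X)) (ab31_rel k X)

theorem ab31_B_w (k : Type) [Field k] (X : Type) (p q : FreeAlt k X) :
    ab31_B k X (w k p q) = w k (ab31_s k X p) (ab31_s k X q) := rfl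

theorem ab31_Bgr (k : Type) [Field k] (X : Type) (n : ℕ) (v : B k (FreeAlt k X))
    (hv : v ∈ Bgr k X n) : ab31_B k X v = (2 : k) ^ n • v := by
  unfold Bgr at hv
  induction hv using Submodule.span_induction with
  | mem x hx =>
    obtain ⟨i, j, hij, p, hp, q, hq, rfl⟩ := hx
    rw [ab31_B_w, ab31_gr k X i p hp, ab31_gr k X j q hq,
      (w_facts k p p ((2 : k) ^ j • q) q ((2 : k) ^ i)).2.2.1,
      (w_facts k p p q q ((2 : k) ^ j)).2.2.2.1, smul_smul, ← pow_add, hij]
  | zero => rw [map_zero, smul_zero]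
  | add x y _ _ hx hy => rw [map_add, hx, hy, smul_add]
  | smul t x _ hx => rw [map_smul, hx, smul_comm]

theorem ab31_w_zero_left (k : Type) [Field k] (X : Type) (q : FreeAlt k X) :
    w k (0 : FreeAlt k X) q = 0 := by
  unfold w
  rw [TensorProduct.zero_tmul, Submodule.Quotient.mk_zero]

theorem ab31_w_zero_right (k : Type) [Field k] (X : Type) (q : FreeAlt k X) :
    w k q (0 : FreeAlt k X) = 0 := by
  unfold w
  rw [TensorProduct.tmul_zero, Submodule.Quotient.mk_zero]

/-- `w` as a bilinear map -/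
noncomputable def ab31_W (k : Type) [Field k] (X : Type) :
    FreeAlt k X →ₗ[k] FreeAlt k X →ₗ[k] B k (FreeAlt k X) :=
  (TensorProduct.mk k (FreeAlt k X) (FreeAlt k X)).compr₂ (relB k (FreeAlt k X)).mkQ

theorem ab31_W_apply (k : Type) [Field k] (X : Type) (p q : FreeAlt k X) :
    ab31_W k X p q = w k p q := rfl

theorem ab31_low (k : Type) [Field k] (X : Type) (h0 : gr k X 0 = ⊥) (n : ℕ) (hn : n ≤ 1) :
    Bgr k X n = ⊥ := by
  rw [eq_bot_iff]
  refine Submodule.span_le.2 ?_
  rintro x ⟨i, j, hij, p, hp, q, hq, rfl⟩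
  have h : i = 0 ∨ j = 0 := by omega
  rcases h with rfl | rfl
  · rw [h0, Submodule.mem_bot] at hp
    rw [hp, ab31_w_zero_left]
    exact Submodule.zero_mem _
  · rw [h0, Submodule.mem_bot] at hq
    rw [hq, ab31_w_zero_right]
    exact Submodule.zero_mem _

theorem ab31_top (k : Type) [Field k] (X : Type) (h1 : ∀ v, v ∈ ⨆ n, gr k X n)
    (v : B k (FreeAlt k X)) : v ∈ ⨆ n, Bgr k X n := by
  induction v using B_ind with
  | hw p q =>
    refine Submodule.iSup_induction (gr k X) (motive := fun p => w k p q ∈ ⨆ n, Bgr k X n) (h1 p)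
      ?_ ?_ ?_
    · intro i p hp
      refine Submodule.iSup_induction (gr k X) (motive := fun q => w k p q ∈ ⨆ n, Bgr k X n) (h1 q)
        ?_ ?_ ?_
      · intro j q hq
        exact Submodule.mem_iSup_of_mem (i + j)
          (Submodule.subset_span ⟨i, j, rfl, p, hp, q, hq, rfl⟩)
      · rw [ab31_w_zero_right]
        exact Submodule.zero_mem _
      · intro x y hx hy
        rw [(w_facts k x y p p (0 : k)).2.1]
        exact Submodule.add_mem _ hx hy
    · rw [ab31_w_zero_left]
      exact Submodule.zero_mem _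
    · intro x y hx hy
      rw [(w_facts k x y q q (0 : k)).1]
      exact Submodule.add_mem _ hx hy
  | hadd b c hb hc => exact Submodule.add_mem _ hb hc

theorem ab31_fd (k : Type) [Field k] (X : Type) (h : ∀ n, FiniteDimensional k (gr k X n)) (n : ℕ) :
    FiniteDimensional k (Bgr k X n) := by
  have hfg : ∀ i, (gr k X i).FG := fun i =>
    (Submodule.fg_iff_finiteDimensional (gr k X i)).2 (h i)
  have hS : (⨆ i ∈ Finset.range (n + 1),
      Submodule.map₂ (ab31_W k X) (gr k X i) (gr k X (n - i))).FG :=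
    Submodule.fg_biSup _ _ (fun i _ => Submodule.FG.map₂ _ (hfg i) (hfg (n - i)))
  have hS' : FiniteDimensional k (⨆ i ∈ Finset.range (n + 1),
      Submodule.map₂ (ab31_W k X) (gr k X i) (gr k X (n - i)) :
        Submodule k (B k (FreeAlt k X))) :=
    (Submodule.fg_iff_finiteDimensional _).1 hS
  have hle : Bgr k X n ≤ ⨆ i ∈ Finset.range (n + 1),
      Submodule.map₂ (ab31_W k X) (gr k X i) (gr k X (n - i)) := by
    refine Submodule.span_le.2 ?_
    rintro x ⟨i, j, hij, p, hp, q, hq, rfl⟩
    have hm : i ∈ Finset.range (n + 1) := Finset.mem_range.2 (by omega)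
    have hj : j = n - i := by omega
    have h1 : w k p q ∈ Submodule.map₂ (ab31_W k X) (gr k X i) (gr k X (n - i)) := by
      rw [← ab31_W_apply, ← hj]
      exact Submodule.apply_mem_map₂ _ hp hq
    exact (le_iSup₂ (f := fun (i : ℕ) (_ : i ∈ Finset.range (n + 1)) =>
      Submodule.map₂ (ab31_W k X) (gr k X i) (gr k X (n - i))) i hm) h1
  exact Submodule.finiteDimensional_of_le hle


/-- the grading of the space `B` of the free alternative algebra -/
theorem Bgr_facts (k : Type) [Field k] [CharZero k] (X : Type) [Finite X] :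
    Bgr k X 0 = ⊥ ∧ Bgr k X 1 = ⊥ ∧
      ∃ b : Basis (Σ n, Fin (finrank k (Bgr k X n))) k (B k (FreeAlt k X)),
        ∀ i, b i ∈ Bgr k X i.1 := by
  obtain ⟨g1, g2, g3, _, _⟩ := gr_facts k X
  exact ⟨ab31_low k X g2 0 (by omega), ab31_low k X g2 1 le_rfl,
    graded_basis (ab31_B k X) (Bgr k X) (fun n v hv => ab31_Bgr k X n v hv)
      (ab31_top k X g1) (ab31_fd k X g3)⟩

end Pool.ABG

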