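import Pool.Agent.ABG.Grade

set_option autoImplicit false


open Module

open scoped TensorProduct

namespace Pool.ABG


section ab32

variable {k : Type} [Field k] {A : Type} [NonUnitalNonAssocRing A] [Module k A]
  [IsScalarTower k A A] [SMulCommClass k A A]

/-- the action of a derivation on `B A` -/
noncomputable def ab32_derB (f : A →ₗ[k] A) (hf : ∀ p q : A, f (p * q) = f p * q + p * f q) :
    B k A →ₗ[k] B k A :=
  (relB k A).liftQ (derT k f) (derT_rel k f hf)

theorem ab32_derB_w (f : A →ₗ[k] A) (hf : ∀ p q : A, f (p * q) = f p * q + p * f q) (p q : A) :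
    ab32_derB f hf (w k p q) = w k (f p) q + w k p (f q) := derT_tmul k f p q

/-- the derivation of the Lie algebra -/
noncomputable def ab32_g (f : A →ₗ[k] A) (hf : ∀ p q : A, f (p * q) = f p * q + p * f q) :
    ABG k A →ₗ[k] ABG k A where
  toFun x := ABG.mk (x.mat.map f) (by
    have h : x.mat.trace = 0 := x.2
    rw [ab07_trace_map, h, map_zero]) (ab32_derB f hf x.bb)
  map_add' x y := ABG.ext (by
    ext i j
    exact map_add f (x.mat i j) (y.mat i j)) (map_add (ab32_derB f hf) x.bb y.bb)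
  map_smul' c x := ABG.ext (by
    ext i j
    exact map_smul f c (x.mat i j)) (map_smul (ab32_derB f hf) c x.bb)

theorem ab32_g_mat (f : A →ₗ[k] A) (hf : ∀ p q : A, f (p * q) = f p * q + p * f q)
    (x : ABG k A) : (ab32_g f hf x).mat = x.mat.map f := rfl

theorem ab32_g_bb (f : A →ₗ[k] A) (hf : ∀ p q : A, f (p * q) = f p * q + p * f q)
    (x : ABG k A) : (ab32_g f hf x).bb = ab32_derB f hf x.bb := rfl

omit [IsScalarTower k A A] [SMulCommClass k A A] in
theorem ab32_mat_add (x y : ABG k A) : (x + y).mat = x.mat + y.mat := rfl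

omit [IsScalarTower k A A] [SMulCommClass k A A] in
theorem ab32_bb_add (x y : ABG k A) : (x + y).bb = x.bb + y.bb := rfl

theorem ab32_pair (f : A →ₗ[k] A) (hf : ∀ p q : A, f (p * q) = f p * q + p * f q)
    (P Q : Matrix (Fin 3) (Fin 3) A) :
    ab32_derB f hf (pair k P Q) = pair k (P.map f) Q + pair k P (Q.map f) := by
  unfold pair
  have h : ab32_derB f hf (∑ i, ∑ j, w k (P i j) (Q j i)) =
      ∑ i, ∑ j, w k (P.map f i j) (Q j i) + ∑ i, ∑ j, w k (P i j) (Q.map f j i) := by
    rw [map_sum, ← Finset.sum_add_distrib]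
    refine Finset.sum_congr rfl fun i _ => ?_
    rw [map_sum, ← Finset.sum_add_distrib]
    refine Finset.sum_congr rfl fun j _ => ?_
    exact ab32_derB_w f hf (P i j) (Q j i)
  rw [map_smul, h, smul_add]

omit [IsScalarTower k A A] [SMulCommClass k A A] in
theorem ab32_map_add (f : A →ₗ[k] A) (P Q : Matrix (Fin 3) (Fin 3) A) :
    (P + Q).map f = P.map f + Q.map f := by
  ext i j
  exact map_add f (P i j) (Q i j)

omit [IsScalarTower k A A] [SMulCommClass k A A] in
theorem ab32_map_sub (f : A →ₗ[k] A) (P Q : Matrix (Fin 3) (Fin 3) A) :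
    (P - Q).map f = P.map f - Q.map f := by
  ext i j
  exact map_sub f (P i j) (Q i j)

variable [IsAlt A] [CharZero k]

theorem ab32_DB (f : A →ₗ[k] A) (hf : ∀ p q : A, f (p * q) = f p * q + p * f q)
    (b : B k A) (r : A) : f (DB k b r) = DB k (ab32_derB f hf b) r + DB k b (f r) := by
  induction b using B_ind with
  | hw p q =>
    rw [ab32_derB_w, map_add, LinearMap.add_apply, DB_w, DB_w, DB_w, D_apply, D_apply, D_apply,
      D_apply]
    simp only [map_sub, map_add, hf, mul_add, add_mul]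
    abel
  | hadd b c hb hc =>
    rw [map_add, map_add, map_add, LinearMap.add_apply, LinearMap.add_apply,
      LinearMap.add_apply, map_add, hb, hc]
    abel

theorem ab32_mapDB (f : A →ₗ[k] A) (hf : ∀ p q : A, f (p * q) = f p * q + p * f q)
    (b : B k A) (P : Matrix (Fin 3) (Fin 3) A) :
    (P.map (DB k b)).map f = P.map (DB k (ab32_derB f hf b)) + (P.map f).map (DB k b) := by
  ext i j
  exact ab32_DB f hf b (P i j)

theorem ab32_BB (f : A →ₗ[k] A) (hf : ∀ p q : A, f (p * q) = f p * q + p * f q)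
    (b c : B k A) :
    ab32_derB f hf (BB k b c) = BB k (ab32_derB f hf b) c + BB k b (ab32_derB f hf c) := by
  induction c using B_ind with
  | hw p q =>
    have a1 : ∀ p p' q : A, w k (p + p') q = w k p q + w k p' q := fun p p' q =>
      (w_facts k p p' q 0 0).1
    have a2 : ∀ p p' q : A, w k q (p + p') = w k q p + w k q p' := fun p p' q =>
      (w_facts k p p' q 0 0).2.1
    rw [BB_w, map_add, ab32_derB_w, ab32_derB_w, ab32_derB_w, BB_w, map_add, BB_w, BB_w,
      ab32_DB f hf b p, ab32_DB f hf b q, a1, a2]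
    abel
  | hadd c d hc hd =>
    rw [map_add, map_add, map_add, hc, hd, map_add, map_add]
    abel

end ab32

/-- a derivation of `A` gives a derivation of the Lie algebra -/
theorem abg_der {k : Type} [Field k] {A : Type} [NonUnitalNonAssocRing A] [Module k A]
    [IsScalarTower k A A] [SMulCommClass k A A] [IsAlt A] [CharZero k] (f : A →ₗ[k] A)
    (hf : ∀ p q : A, f (p * q) = f p * q + p * f q) :
    ∃ g : ABG k A →ₗ[k] ABG k A, (∀ x y : ABG k A, g ⁅x, y⁆ = ⁅g x, y⁆ + ⁅x, g y⁆) ∧
      (∀ (Y : Matrix (Fin 3) (Fin 3) k) (x : ABG k A), act k A Y (g x) = g (act k A Y x)) ∧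
      (∀ (Y : Matrix (Fin 3) (Fin 3) k) (hY : Y.trace = 0) (p : A),
        g (tens Y hY p) = tens Y hY (f p)) ∧
      (∀ p q : A, g (inB (w k p q)) = inB (w k (f p) q) + inB (w k p (f q))) := by
  refine ⟨ab32_g f hf, ?_, ?_, ?_, ?_⟩
  · intro x y
    refine ABG.ext ?_ ?_
    · rw [ab32_g_mat, lie_mat, ab32_mat_add, lie_mat, lie_mat, ab32_g_mat, ab32_g_mat, ab32_g_bb,
        ab32_g_bb, ab32_map_sub, ab32_map_add, comm0_der k f hf, ab32_mapDB f hf x.bb,
        ab32_mapDB f hf y.bb]
      abel
    · rw [ab32_g_bb, lie_bb, ab32_bb_add, lie_bb, lie_bb, ab32_g_mat, ab32_g_mat, ab32_g_bb,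
        ab32_g_bb, map_add, ab32_pair f hf, ab32_BB f hf]
      abel
  · intro Y x
    refine ABG.ext ?_ ?_
    · rw [act_mat, ab32_g_mat, ab32_g_mat, act_mat]
      ext i j
      simp only [sact, Matrix.map_apply, map_sum, map_sub, map_smul]
    · rw [act_bb, ab32_g_bb, act_bb, map_zero]
  · intro Y hY p
    refine ABG.ext ?_ ?_
    · ext i j
      exact map_smul f (Y i j) p
    · exact map_zero (ab32_derB f hf)
  · intro p q
    refine ABG.ext ?_ ?_
    · ext i j
      exact (map_zero f).trans (add_zero 0).symm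
    · exact ab32_derB_w f hf p q

end Pool.ABG
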