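import Pool.Agent.ABG.Rep

/-!
# Counting finite sets of basis elements by degree and weight
-/

set_option autoImplicit false

namespace Pool.ABG

noncomputable section

/-- polynomials over the integers in `Q` (the outermost variable), `Y` and `X` (the innermost) -/
abbrev P3 : Type := Polynomial (Polynomial (Polynomial ℤ))

/-- the monomial `Q^m X^i Y^j` -/
def mo (m i j : ℕ) : P3 := Polynomial.monomial m (Polynomial.monomial j (Polynomial.monomial i 1))

/-- the factor of index `m` -/
def fac (a b : ℕ → ℕ) (m : ℕ) : P3 :=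
  (1 - mo m m m) ^ (2 * a m + b m) *
    ((1 - mo m (m + 1) m) * (1 - mo m m (m + 1)) * (1 - mo m (m + 1) (m + 1)) *
      (1 - mo m (m - 1) m) * (1 - mo m m (m - 1)) * (1 - mo m (m - 1) (m - 1))) ^ (a m)

/-- the product of the factors of index `1, ..., n` -/
def prodP (a b : ℕ → ℕ) (n : ℕ) : P3 := ∏ m ∈ Finset.Icc 1 n, fac a b m

/-- the coefficient of degree `n` and weight `mu` -/
def cf (a b : ℕ → ℕ) (n : ℕ) (mu : Fin 3 → ℤ) : ℤ :=
  (((prodP a b n).coeff n).coeff ((n : ℤ) - mu 2).toNat).coeff ((n : ℤ) + mu 0).toNat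

/-- the number of sets of `r` elements with total degree `n` and total weight `mu` -/
def cnt {J : Type} (deg : J → ℕ) (wt : J → Fin 3 → ℤ) (n r : ℕ) (mu : Fin 3 → ℤ) : ℕ :=
  Nat.card {T : Finset J // T.card = r ∧ ∑ j ∈ T, deg j = n ∧ ∑ j ∈ T, wt j = mu}

/-- index set of a homogeneous basis of the Allison-Benkart-Gao Lie algebra when the components of
the two graded spaces have dimensions `a n` and `b n` -/
abbrev JJ (a b : ℕ → ℕ) : Type := (Fin 8 × (Σ n, Fin (a n))) ⊕ (Σ n, Fin (b n))

/-- degrees -/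
def degJ {a b : ℕ → ℕ} : JJ a b → ℕ
  | .inl x => x.2.1
  | .inr i => i.1

/-- the weights of eight matrices of trace zero: the six roots and twice the weight zero -/
def rt : Fin 8 → Fin 3 → ℤ :=
  ![![1, -1, 0], ![0, 1, -1], ![1, 0, -1], ![-1, 1, 0], ![0, -1, 1], ![-1, 0, 1], 0, 0]

/-- weights -/
def wtJ {a b : ℕ → ℕ} : JJ a b → Fin 3 → ℤ
  | .inl x => rt x.1
  | .inr _ => 0

end

end Pool.ABG
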