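import Pool.Agent.ABG.Grade
import Pool.Agent.ABG.Count

set_option autoImplicit false

/-!
The action of scalar matrices on the Allison-Benkart-Gao Lie algebra.
-/

open Module

open scoped TensorProduct

namespace Pool.ABG

theorem ab33_sact_map {k : Type} [Field k] {A : Type} [AddCommGroup A] [Module k A]
    (X : Matrix (Fin 3) (Fin 3) k) (P : Matrix (Fin 3) (Fin 3) A) (f : A →ₗ[k] A) :
    sact X (P.map f) = (sact X P).map f := by
  ext i j
  simp only [sact, Matrix.map_apply, map_sum, map_sub, map_smul]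

theorem ab33_sact_add {k : Type} [Field k] {A : Type} [AddCommGroup A] [Module k A]
    (X : Matrix (Fin 3) (Fin 3) k) (P Q : Matrix (Fin 3) (Fin 3) A) :
    sact X (P + Q) = sact X P + sact X Q := by
  ext i j
  simp only [sact, Matrix.add_apply, Fin.sum_univ_three]
  module

theorem ab33_sact_zero {k : Type} [Field k] {A : Type} [AddCommGroup A] [Module k A]
    (X : Matrix (Fin 3) (Fin 3) k) :
    sact X (0 : Matrix (Fin 3) (Fin 3) A) = 0 := by
  ext i j
  simp only [sact, Matrix.zero_apply, Fin.sum_univ_three]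
  module

theorem ab33_map_zero {k : Type} [Field k] {A : Type} [AddCommGroup A] [Module k A]
    (P : Matrix (Fin 3) (Fin 3) A) : P.map (0 : A →ₗ[k] A) = 0 := by
  ext i j
  rfl

theorem ab33_sact_tens {k : Type} [Field k] {A : Type} [AddCommGroup A] [Module k A]
    (Y Z : Matrix (Fin 3) (Fin 3) k) (p : A) :
    sact Y (Z.map (fun c => c • p)) = (Y * Z - Z * Y).map (fun c => c • p) := by
  ext i j
  simp only [sact, Matrix.map_apply, Matrix.sub_apply, Matrix.mul_apply, Fin.sum_univ_three]
  module

/-- the scalar matrices act by derivations -/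
theorem act_facts {k : Type} [Field k] {A : Type} [NonUnitalNonAssocRing A] [Module k A]
    [IsScalarTower k A A] [SMulCommClass k A A] [IsAlt A] [CharZero k]
    (Y Z : Matrix (Fin 3) (Fin 3) k) (x y : ABG k A) :
    act k A Y ⁅x, y⁆ = ⁅act k A Y x, y⁆ + ⁅x, act k A Y y⁆ ∧
      act k A Y (act k A Z x) - act k A Z (act k A Y x) = act k A (Y * Z - Z * Y) x ∧
      act k A 1 x = 0 ∧ act k A (Y + Z) x = act k A Y x + act k A Z x ∧
      (∀ c : k, act k A (c • Y) x = c • act k A Y x) ∧
      (∀ (hZ : Z.trace = 0) (h : (Y * Z - Z * Y).trace = 0) (p : A),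
        act k A Y (tens Z hZ p) = tens (Y * Z - Z * Y) h p) ∧
      (∀ b : B k A, act k A Y (inB b) = 0) := by
  refine ⟨?_, ?_, ?_, ?_, ?_, ?_, ?_⟩
  · refine ABG.ext ?_ ?_
    · change sact Y (⁅x, y⁆ : ABG k A).mat =
        (⁅act k A Y x, y⁆ : ABG k A).mat + (⁅x, act k A Y y⁆ : ABG k A).mat
      rw [lie_mat, lie_mat, lie_mat, act_mat, act_mat, act_bb, act_bb, map_zero, ab33_map_zero,
        ab33_map_zero, ab07_sact_sub, ab33_sact_add, sact_comm0, ab33_sact_map, ab33_sact_map]
      abel
    · change (0 : B k A) = (⁅act k A Y x, y⁆ : ABG k A).bb + (⁅x, act k A Y y⁆ : ABG k A).bb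
      rw [lie_bb, lie_bb, act_bb, act_bb, act_mat, act_mat, map_zero, map_zero,
        LinearMap.zero_apply, add_zero, add_zero, sact_pair]
  · refine ABG.ext ?_ ?_
    · exact (sact_lie Y Z x.mat).1
    · exact sub_zero (0 : B k A)
  · refine ABG.ext ?_ rfl
    exact (sact_lie Y Z x.mat).2.2
  · refine ABG.ext ?_ ?_
    · change sact (Y + Z) x.mat = sact Y x.mat + sact Z x.mat
      ext i j
      simp only [sact, Matrix.add_apply, Fin.sum_univ_three]
      module
    · exact (add_zero (0 : B k A)).symm
  · intro c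
    refine ABG.ext ?_ ?_
    · change sact (c • Y) x.mat = c • sact Y x.mat
      ext i j
      simp only [sact, Matrix.smul_apply, Fin.sum_univ_three, smul_eq_mul]
      module
    · exact (smul_zero c).symm
  · intro hZ h p
    refine ABG.ext ?_ rfl
    exact ab33_sact_tens Y Z p
  · intro b
    refine ABG.ext ?_ rfl
    exact ab33_sact_zero Y

theorem ab33_comm (k : Type) [Field k] (a : Fin 3) (s : Fin 8) :
    Matrix.single a a (1 : k) * Mt k s - Mt k s * Matrix.single a a 1 =
      ((rt s a : ℤ) : k) • Mt k s := by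
  fin_cases s <;> fin_cases a <;> ext i j <;> fin_cases i <;> fin_cases j <;>
    simp [Mt, rt, Matrix.mul_apply, Matrix.single]

/-- the diagonal matrices act diagonally on the basis -/
theorem act_Mt {k : Type} [Field k] {A : Type} [NonUnitalNonAssocRing A] [Module k A]
    [IsScalarTower k A A] [SMulCommClass k A A] (a : Fin 3) (s : Fin 8) (p : A) :
    act k A (Matrix.single a a 1) (tens (Mt k s) (Mt_trace k s) p) =
      ((rt s a : ℤ) : k) • tens (Mt k s) (Mt_trace k s) p := by
  refine ABG.ext ?_ ?_
  · change sact (Matrix.single a a 1) ((Mt k s).map (fun c => c • p)) =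
      ((rt s a : ℤ) : k) • (Mt k s).map (fun c => c • p)
    rw [ab33_sact_tens, ab33_comm]
    ext i j
    simp only [Matrix.map_apply, Matrix.smul_apply, smul_eq_mul, mul_smul]
  · exact (smul_zero _).symm

end Pool.ABG
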