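import Pool.Agent.ABG.Grade

set_option autoImplicit false

open Module

open scoped TensorProduct

namespace Pool.ABG

/-- reading off the entries: the linear equivalence of the Lie algebra with `A^8 × B A` -/
noncomputable def ab34_equiv (k : Type) [Field k] (A : Type) [NonUnitalNonAssocRing A] [Module k A]
    [IsScalarTower k A A] [SMulCommClass k A A] :
    ABG k A ≃ₗ[k] ((Fin 8 → A) × B k A) where
  toFun x := (![x.mat 0 1, x.mat 1 2, x.mat 0 2, x.mat 1 0, x.mat 2 1, x.mat 2 0, x.mat 0 0,
    x.mat 0 0 + x.mat 1 1], x.bb)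
  map_add' x y := by
    have h : ∀ i j, (x + y).mat i j = x.mat i j + y.mat i j := fun i j => rfl
    have h2 : (x + y).bb = x.bb + y.bb := rfl
    refine Prod.ext ?_ h2
    funext s
    simp only [h, Prod.fst_add, Pi.add_apply]
    fin_cases s
    · rfl
    · rfl
    · rfl
    · rfl
    · rfl
    · rfl
    · rfl
    · change x.mat 0 0 + y.mat 0 0 + (x.mat 1 1 + y.mat 1 1) =
        (x.mat 0 0 + x.mat 1 1) + (y.mat 0 0 + y.mat 1 1)
      abel
  map_smul' c x := by
    have h : ∀ i j, (c • x).mat i j = c • x.mat i j := fun i j => rfl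
    have h2 : (c • x).bb = c • x.bb := rfl
    refine Prod.ext ?_ h2
    funext s
    simp only [h, RingHom.id_apply, Prod.smul_fst, Pi.smul_apply]
    fin_cases s
    · rfl
    · rfl
    · rfl
    · rfl
    · rfl
    · rfl
    · rfl
    · change c • x.mat 0 0 + c • x.mat 1 1 = c • (x.mat 0 0 + x.mat 1 1)
      rw [smul_add]
  invFun y := ABG.mk !![y.1 6, y.1 0, y.1 2; y.1 3, y.1 7 - y.1 6, y.1 1; y.1 5, y.1 4, -y.1 7]
    (by
      rw [Matrix.trace_fin_three]
      change y.1 6 + (y.1 7 - y.1 6) + -y.1 7 = 0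
      abel) y.2
  left_inv x := by
    have ht : x.mat 0 0 + x.mat 1 1 + x.mat 2 2 = 0 := by
      have h := x.2
      have h' : x.mat.trace = 0 := h
      rwa [Matrix.trace_fin_three] at h'
    refine ABG.ext ?_ rfl
    ext i j
    fin_cases i <;> fin_cases j
    · rfl
    · rfl
    · rfl
    · rfl
    · change x.mat 0 0 + x.mat 1 1 - x.mat 0 0 = x.mat 1 1
      abel
    · rfl
    · rfl
    · rfl
    · change -(x.mat 0 0 + x.mat 1 1) = x.mat 2 2
      exact neg_eq_of_add_eq_zero_right ht
  right_inv y := by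
    refine Prod.ext ?_ rfl
    funext s
    fin_cases s
    · rfl
    · rfl
    · rfl
    · rfl
    · rfl
    · rfl
    · rfl
    · change y.1 6 + (y.1 7 - y.1 6) = y.1 7
      abel

theorem ab34_tens {k : Type} [Field k] {A : Type} [NonUnitalNonAssocRing A] [Module k A]
    [IsScalarTower k A A] [SMulCommClass k A A] (s : Fin 8) (p : A) :
    ab34_equiv k A (tens (Mt k s) (Mt_trace k s) p) = (Pi.single s p, 0) := by
  refine Prod.ext ?_ rfl
  funext t
  have h : ∀ i j, (tens (Mt k s) (Mt_trace k s) p : ABG k A).mat i j = (Mt k s i j) • p :=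
    fun i j => rfl
  change (![_, _, _, _, _, _, _, _] : Fin 8 → A) t = _
  simp only [h]
  fin_cases s <;> fin_cases t <;> simp [Mt, Matrix.single]

theorem ab34_inB {k : Type} [Field k] {A : Type} [NonUnitalNonAssocRing A] [Module k A]
    [IsScalarTower k A A] [SMulCommClass k A A] (b : B k A) :
    ab34_equiv k A (inB b) = (0, b) := by
  refine Prod.ext ?_ rfl
  funext t
  have h : ∀ i j, (inB b : ABG k A).mat i j = 0 := fun i j => rfl
  change (![_, _, _, _, _, _, _, _] : Fin 8 → A) t = _
  simp only [h]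
  fin_cases t <;> simp

/-- the basis of the Lie algebra which is given by bases of `A` and `B A` -/
theorem abg_basis {k : Type} [Field k] {A : Type} [NonUnitalNonAssocRing A] [Module k A]
    [IsScalarTower k A A] [SMulCommClass k A A] [IsAlt A] [CharZero k] {I K : Type}
    (bA : Basis I k A) (bB : Basis K k (B k A)) :
    ∃ b : Basis ((Fin 8 × I) ⊕ K) k (ABG k A),
      (∀ s i, b (Sum.inl (s, i)) = tens (Mt k s) (Mt_trace k s) (bA i)) ∧
      (∀ j, b (Sum.inr j) = inB (bB j)) := by
  classical
  refine ⟨((((Pi.basis (fun _ : Fin 8 => bA)).reindex (Equiv.sigmaEquivProd (Fin 8) I)).prod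
    bB).map (ab34_equiv k A).symm), ?_, ?_⟩
  · intro s i
    rw [Basis.map_apply, LinearEquiv.symm_apply_eq, ab34_tens, Basis.prod_apply]
    simp only [Sum.elim_inl, Function.comp_apply, Basis.reindex_apply, LinearMap.coe_inl]
    have h : (Equiv.sigmaEquivProd (Fin 8) I).symm (s, i) = ⟨s, i⟩ := rfl
    rw [h, Pi.basis_apply]
  · intro j
    rw [Basis.map_apply, LinearEquiv.symm_apply_eq, ab34_inB, Basis.prod_apply]
    simp only [Sum.elim_inr, Function.comp_apply, LinearMap.coe_inr]

end Pool.ABG
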