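import Pool.Agent.ABG.Grade

set_option autoImplicit false


open Module

open scoped TensorProduct

namespace Pool.ABG


section ab35

variable {k : Type} [Field k] {A : Type} [NonUnitalNonAssocRing A] [Module k A]
  [IsScalarTower k A A] [SMulCommClass k A A]

theorem ab35_w_zero_left (q : A) : w k (0 : A) q = 0 := by
  unfold w
  rw [TensorProduct.zero_tmul]
  rfl

theorem ab35_w_zero_right (q : A) : w k q (0 : A) = 0 := by
  unfold w
  rw [TensorProduct.tmul_zero]
  rfl

/-- a linear family of elements -/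
noncomputable def ab35_L (f : A →ₗ[k] Matrix (Fin 3) (Fin 3) A) (hf : ∀ p, (f p).trace = 0) :
    A →ₗ[k] ABG k A where
  toFun p := ABG.mk (f p) (hf p) 0
  map_add' p q := ABG.ext (map_add f p q) (add_zero (0 : B k A)).symm
  map_smul' c p := ABG.ext (map_smul f c p) (smul_zero c).symm

theorem ab35_trE (i j : Fin 3) (h : i ≠ j) (p : A) : (Matrix.single i j p).trace = 0 :=
  Matrix.trace_single_eq_of_ne i j p h

theorem ab35_trH (i j : Fin 3) (p : A) : (Matrix.single i i p - Matrix.single j j p).trace = 0 := by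
  rw [Matrix.trace_sub, Matrix.trace_single_eq_same, Matrix.trace_single_eq_same, sub_self]

/-- off-diagonal elements -/
noncomputable def ab35_E (i j : Fin 3) (h : i ≠ j) : A →ₗ[k] ABG k A :=
  ab35_L (Matrix.singleLinearMap k i j) (fun p => ab35_trE i j h p)

/-- diagonal elements -/
noncomputable def ab35_H (i j : Fin 3) : A →ₗ[k] ABG k A :=
  ab35_L (Matrix.singleLinearMap k i i - Matrix.singleLinearMap k j j) (fun p => ab35_trH i j p)

theorem ab35_E_apply (i j : Fin 3) (h : i ≠ j) (p : A) :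
    ab35_E (k := k) i j h p = ABG.mk (Matrix.single i j p) (ab35_trE i j h p) 0 := rfl

theorem ab35_H_apply (i j : Fin 3) (p : A) :
    ab35_H (k := k) i j p =
      ABG.mk (Matrix.single i i p - Matrix.single j j p) (ab35_trH i j p) 0 := rfl

theorem ab35_comm_off {a c d : Fin 3} (hac : a ≠ c) (p q : A) :
    comm0 k (Matrix.single a d p) (Matrix.single d c q) = Matrix.single a c (p * q) := by
  unfold comm0
  rw [Matrix.single_mul_single_same, Matrix.single_mul_single_of_ne _ _ _ _ hac.symm, sub_zero,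
    Matrix.trace_single_eq_of_ne _ _ _ hac, smul_zero]
  have : Matrix.diagonal (fun _ : Fin 3 => (0 : A)) = 0 := Matrix.diagonal_zero
  rw [this, sub_zero]

theorem ab35_comm_diag {a c : Fin 3} (p q : A) :
    comm0 k (Matrix.single a c p) (Matrix.single c a q) =
      Matrix.single a a (p * q) - Matrix.single c c (q * p) -
        Matrix.diagonal (fun _ => (3⁻¹ : k) • (p * q - q * p)) := by
  unfold comm0
  rw [Matrix.single_mul_single_same, Matrix.single_mul_single_same, Matrix.trace_sub,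
    Matrix.trace_single_eq_same, Matrix.trace_single_eq_same]

theorem ab35_pair_off {a c d : Fin 3} (hac : a ≠ c) (p q : A) :
    pair k (Matrix.single a d p) (Matrix.single d c q) = 0 := by
  unfold pair
  rw [Finset.sum_eq_zero, smul_zero]
  intro i _
  refine Finset.sum_eq_zero fun j _ => ?_
  by_cases h : a = i
  · have h2 : (Matrix.single d c q : Matrix (Fin 3) (Fin 3) A) j i = 0 := by
      rw [Matrix.single_apply, if_neg]
      rintro ⟨_, h3⟩
      exact hac (h.trans h3.symm)
    rw [h2, ab35_w_zero_right]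
  · have h2 : (Matrix.single a d p : Matrix (Fin 3) (Fin 3) A) i j = 0 := by
      rw [Matrix.single_apply, if_neg]
      rintro ⟨h3, _⟩
      exact h h3
    rw [h2, ab35_w_zero_left]

theorem ab35_pair_diag {a c : Fin 3} (p q : A) :
    pair k (Matrix.single a c p) (Matrix.single c a q) = (3⁻¹ : k) • w k p q := by
  unfold pair
  congr 1
  rw [Finset.sum_eq_single a, Finset.sum_eq_single c]
  · rw [Matrix.single_apply_same, Matrix.single_apply_same]
  · intro j _ hj
    have h2 : (Matrix.single a c p : Matrix (Fin 3) (Fin 3) A) a j = 0 := by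
      rw [Matrix.single_apply, if_neg]
      rintro ⟨_, h3⟩
      exact hj h3.symm
    rw [h2, ab35_w_zero_left]
  · intro h
    exact (h (Finset.mem_univ _)).elim
  · intro i _ hi
    refine Finset.sum_eq_zero fun j _ => ?_
    have h2 : (Matrix.single a c p : Matrix (Fin 3) (Fin 3) A) i j = 0 := by
      rw [Matrix.single_apply, if_neg]
      rintro ⟨h3, _⟩
      exact hi h3.symm
    rw [h2, ab35_w_zero_left]
  · intro h
    exact (h (Finset.mem_univ _)).elim

variable [IsAlt A] [CharZero k]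

theorem ab35_lie (P Q : Matrix (Fin 3) (Fin 3) A) (hP : P.trace = 0) (hQ : Q.trace = 0)
    (M : Matrix (Fin 3) (Fin 3) A) (hM : M.trace = 0) (b : B k A) (h1 : comm0 k P Q = M)
    (h2 : pair k P Q = b) :
    (⁅ABG.mk P hP (0 : B k A), ABG.mk Q hQ (0 : B k A)⁆ : ABG k A) = ABG.mk M hM b := by
  refine ABG.ext ?_ ?_
  · rw [lie_mat]
    change comm0 k P Q + Q.map (DB k 0) - P.map (DB k 0) = M
    have h3 : ∀ N : Matrix (Fin 3) (Fin 3) A, N.map (DB k (0 : B k A)) = 0 := by
      intro N
      ext i j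
      rw [Matrix.map_apply, map_zero]
      rfl
    rw [h3, h3, h1, add_zero, sub_zero]
  · rw [lie_bb]
    change pair k P Q + BB k 0 0 = b
    rw [h2, map_zero, add_zero]

variable (k A) in
/-- the span of the brackets -/
def ab35_S : Submodule k (ABG k A) := Submodule.span k {z | ∃ y z' : ABG k A, z = ⁅y, z'⁆}

theorem ab35_lie_mem (x y : ABG k A) : ⁅x, y⁆ ∈ ab35_S k A := Submodule.subset_span ⟨x, y, rfl⟩

theorem ab35_E_mem (i j : Fin 3) (h : i ≠ j) (p q : A) :
    ab35_E (k := k) i j h (p * q) ∈ ab35_S k A := by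
  obtain ⟨d, hd1, hd2⟩ : ∃ d : Fin 3, i ≠ d ∧ d ≠ j := by
    revert h
    revert i j
    decide
  rw [ab35_E_apply, ← ab35_lie (k := k) (Matrix.single i d p) (Matrix.single d j q)
    (ab35_trE i d hd1 p) (ab35_trE d j hd2 q) _ _ 0 (ab35_comm_off h p q) (ab35_pair_off h p q)]
  exact ab35_lie_mem _ _

theorem ab35_trD (a c : Fin 3) (p q : A) :
    (Matrix.single a a (p * q) - Matrix.single c c (q * p) -
        Matrix.diagonal (fun _ => (3⁻¹ : k) • (p * q - q * p)) :
          Matrix (Fin 3) (Fin 3) A).trace = 0 := by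
  rw [Matrix.trace_sub, Matrix.trace_sub, Matrix.trace_single_eq_same, Matrix.trace_single_eq_same,
    Matrix.trace_diagonal, Finset.sum_const, Finset.card_univ, Fintype.card_fin,
    ← Nat.cast_smul_eq_nsmul k, smul_smul]
  have h3 : ((3 : ℕ) : k) * 3⁻¹ = 1 := by
    rw [Nat.cast_ofNat]
    exact mul_inv_cancel₀ (by norm_num)
  rw [h3, one_smul, sub_self]

theorem ab35_lie_diag {a c : Fin 3} (h : a ≠ c) (p q : A) :
    (⁅ab35_E (k := k) a c h p, ab35_E (k := k) c a h.symm q⁆ : ABG k A) =
      ABG.mk _ (ab35_trD (k := k) a c p q) ((3⁻¹ : k) • w k p q) :=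
  ab35_lie _ _ _ _ _ _ _ (ab35_comm_diag p q) (ab35_pair_diag p q)

theorem ab35_H_mem (i j : Fin 3) (h : i ≠ j) (p q : A) :
    ab35_H (k := k) i j (p * q) ∈ ab35_S k A := by
  obtain ⟨a, ha1, ha2⟩ : ∃ a : Fin 3, a ≠ i ∧ a ≠ j := by
    revert h
    revert i j
    decide
  have h1 : ab35_H (k := k) i j (p * q) =
      ⁅ab35_E (k := k) a j ha2 q, ab35_E (k := k) j a ha2.symm p⁆ -
        ⁅ab35_E (k := k) a i ha1 q, ab35_E (k := k) i a ha1.symm p⁆ := by
    rw [ab35_lie_diag, ab35_lie_diag]
    refine ABG.ext ?_ ?_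
    · change Matrix.single i i (p * q) - Matrix.single j j (p * q) =
        (Matrix.single a a (q * p) - Matrix.single j j (p * q) -
          Matrix.diagonal (fun _ => (3⁻¹ : k) • (q * p - p * q))) -
        (Matrix.single a a (q * p) - Matrix.single i i (p * q) -
          Matrix.diagonal (fun _ => (3⁻¹ : k) • (q * p - p * q)))
      abel
    · exact (sub_self ((3⁻¹ : k) • w k q p)).symm
  rw [h1]
  exact Submodule.sub_mem _ (ab35_lie_mem _ _) (ab35_lie_mem _ _)

theorem ab35_lin (L : A →ₗ[k] ABG k A) (hL : ∀ p q : A, L (p * q) ∈ ab35_S k A) (r : A)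
    (hr : r ∈ Submodule.span k {z | ∃ p q : A, z = p * q}) : L r ∈ ab35_S k A := by
  have h1 : Submodule.span k {z | ∃ p q : A, z = p * q} ≤ (ab35_S k A).comap L := by
    refine Submodule.span_le.2 ?_
    rintro z ⟨p, q, rfl⟩
    exact hL p q
  exact h1 hr

theorem ab35_mat (P : Matrix (Fin 3) (Fin 3) A) (hP : P.trace = 0)
    (hx : ∀ i j, P i j ∈ Submodule.span k {z | ∃ p q : A, z = p * q}) :
    ABG.mk P hP (0 : B k A) ∈ ab35_S k A := by
  have hE : ∀ (i j : Fin 3) (h : i ≠ j), ab35_E (k := k) i j h (P i j) ∈ ab35_S k A :=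
    fun i j h => ab35_lin _ (fun p q => ab35_E_mem i j h p q) _ (hx i j)
  have hH1 : ab35_H (k := k) 0 1 (P 0 0) ∈ ab35_S k A :=
    ab35_lin _ (fun p q => ab35_H_mem 0 1 (by decide) p q) _ (hx 0 0)
  have hH2 : ab35_H (k := k) 1 2 (P 0 0 + P 1 1) ∈ ab35_S k A :=
    ab35_lin _ (fun p q => ab35_H_mem 1 2 (by decide) p q) _ (Submodule.add_mem _ (hx 0 0) (hx 1 1))
  have hdec : ABG.mk P hP (0 : B k A) =
      ab35_E 0 1 (by decide) (P 0 1) + ab35_E 0 2 (by decide) (P 0 2) +
      ab35_E 1 0 (by decide) (P 1 0) + ab35_E 1 2 (by decide) (P 1 2) +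
      ab35_E 2 0 (by decide) (P 2 0) + ab35_E 2 1 (by decide) (P 2 1) +
      ab35_H 0 1 (P 0 0) + ab35_H 1 2 (P 0 0 + P 1 1) := by
    refine ABG.ext ?_ ?_
    · change P = Matrix.single 0 1 (P 0 1) + Matrix.single 0 2 (P 0 2) +
        Matrix.single 1 0 (P 1 0) + Matrix.single 1 2 (P 1 2) +
        Matrix.single 2 0 (P 2 0) + Matrix.single 2 1 (P 2 1) +
        (Matrix.single 0 0 (P 0 0) - Matrix.single 1 1 (P 0 0)) +
        (Matrix.single 1 1 (P 0 0 + P 1 1) - Matrix.single 2 2 (P 0 0 + P 1 1))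
      rw [Matrix.trace_fin_three] at hP
      have h22 : P 2 2 = -(P 0 0 + P 1 1) := (neg_eq_of_add_eq_zero_right hP).symm
      ext i j
      fin_cases i <;> fin_cases j <;> simp [h22]
    · change (0 : B k A) = 0 + 0 + 0 + 0 + 0 + 0 + 0 + 0
      simp only [add_zero]
  rw [hdec]
  exact Submodule.add_mem _ (Submodule.add_mem _ (Submodule.add_mem _ (Submodule.add_mem _
    (Submodule.add_mem _ (Submodule.add_mem _ (Submodule.add_mem _ (hE 0 1 _) (hE 0 2 _))
    (hE 1 0 _)) (hE 1 2 _)) (hE 2 0 _)) (hE 2 1 _)) hH1) hH2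

theorem ab35_B (b : B k A) : (inB b : ABG k A) ∈ ab35_S k A := by
  induction b using B_ind with
  | hw p q =>
    have h1 := ab35_lie_mem (ab35_E (k := k) 0 1 (by decide) p)
      (ab35_E (k := k) 1 0 (by decide) q)
    have h2 : (⁅ab35_E (k := k) 0 1 (by decide) p, ab35_E (k := k) 1 0 (by decide) q⁆ : ABG k A) =
        ABG.mk _ (ab35_trD (k := k) 0 1 p q) ((3⁻¹ : k) • w k p q) :=
      ab35_lie_diag (by decide) p q
    have hpq : ∀ p q : A, p * q ∈ Submodule.span k {z | ∃ p q : A, z = p * q} :=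
      fun p q => Submodule.subset_span ⟨p, q, rfl⟩
    have h3 : ABG.mk _ (ab35_trD (k := k) 0 1 p q) (0 : B k A) ∈ ab35_S k A := by
      refine ab35_mat _ _ fun i j => ?_
      rw [Matrix.sub_apply, Matrix.sub_apply, Matrix.single_apply, Matrix.single_apply,
        Matrix.diagonal_apply]
      refine Submodule.sub_mem _ (Submodule.sub_mem _ ?_ ?_) ?_
      · split_ifs
        · exact hpq p q
        · exact Submodule.zero_mem _
      · split_ifs
        · exact hpq q p
        · exact Submodule.zero_mem _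
      · split_ifs
        · exact Submodule.smul_mem _ _ (Submodule.sub_mem _ (hpq p q) (hpq q p))
        · exact Submodule.zero_mem _
    rw [h2] at h1
    have h4 := Submodule.smul_mem _ (3 : k) (Submodule.sub_mem _ h1 h3)
    have h5 : ∀ (M : Matrix (Fin 3) (Fin 3) A) (hM : M.trace = 0),
        (inB (w k p q) : ABG k A) = (3 : k) •
        (ABG.mk M hM ((3⁻¹ : k) • w k p q) - ABG.mk M hM (0 : B k A)) := by
      intro M hM
      refine ABG.ext ?_ ?_
      · change (0 : Matrix (Fin 3) (Fin 3) A) = (3 : k) • (M - M)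
        rw [sub_self, smul_zero]
      · change w k p q = (3 : k) • ((3⁻¹ : k) • w k p q - 0)
        rw [sub_zero, smul_smul, mul_inv_cancel₀ (by norm_num), one_smul]
    rw [h5 _ (ab35_trD (k := k) 0 1 p q)]
    exact h4
  | hadd b c hb hc =>
    have h1 : (inB (b + c) : ABG k A) = inB b + inB c :=
      ABG.ext (add_zero (0 : Matrix (Fin 3) (Fin 3) A)).symm rfl
    rw [h1]
    exact Submodule.add_mem _ hb hc

end ab35


/-- elements of the Lie algebra which are sums of brackets -/
theorem abg_gen {k : Type} [Field k] {A : Type} [NonUnitalNonAssocRing A] [Module k A]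
    [IsScalarTower k A A] [SMulCommClass k A A] [IsAlt A] [CharZero k] (x : ABG k A)
    (hx : ∀ i j, x.mat i j ∈ Submodule.span k {z | ∃ p q : A, z = p * q}) :
    x ∈ Submodule.span k {z | ∃ y z' : ABG k A, z = ⁅y, z'⁆} := by
  have h1 : x = ABG.mk x.mat x.2 0 + inB x.bb := by
    refine ABG.ext ?_ ?_
    · change x.mat = x.mat + 0
      rw [add_zero]
    · change x.bb = 0 + x.bb
      rw [zero_add]
  have h2 := Submodule.add_mem _ (ab35_mat x.mat x.2 hx) (ab35_B x.bb)
  rw [← h1] at h2
  exact h2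

end Pool.ABG
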