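import Pool.Agent.ABG.Count

set_option autoImplicit false

open scoped TensorProduct

namespace Pool.ABG

/-- table of the numbers `a n` -/
def ab36_A : List Nat := [0, 3, 9, 28, 87, 267, 804, 2373, 6891, 19818, 56961]

/-- table of the numbers `b n` -/
def ab36_B : List Nat := [0, 0, 3, 16, 60, 210, 670, 2094, 6276, 18474, 53586]

/-- table of the coefficients of the product -/
def ab36_L : List (List (List Int)) := [[[1]],
  [[-3, -3],
   [-3, -6, -3],
   [0, -3, -3]],
  [[3, 9, 3],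
   [9, 18, 18, 9],
   [3, 18, 21, 18, 3],
   [0, 9, 18, 18, 9],
   [0, 0, 3, 9, 3]],
  [[-1, -9, -9, -1],
   [-9, -18, -18, -18, -9],
   [-9, -18, -19, -19, -18, -9],
   [-1, -18, -19, -20, -19, -18, -1],
   [0, -9, -18, -19, -19, -18, -9],
   [0, 0, -9, -18, -18, -18, -9],
   [0, 0, 0, -1, -9, -9, -1]],
  [[0, 3, 9, 3],
   [3, 6, -24, -24, 6, 3],
   [9, -24, -75, -102, -75, -24, 9],
   [3, -24, -102, -150, -150, -102, -24, 3],
   [0, 6, -75, -150, -171, -150, -75, 6],
   [0, 3, -24, -102, -150, -150, -102, -24, 3],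
   [0, 0, 9, -24, -75, -102, -75, -24, 9],
   [0, 0, 0, 3, 6, -24, -24, 6, 3],
   [0, 0, 0, 0, 0, 3, 9, 3]],
  [[0, 0, -3, -3],
   [0, 0, 45, 90, 45],
   [-3, 45, 174, 210, 210, 174, 45, -3],
   [-3, 90, 210, 282, 282, 282, 210, 90, -3],
   [0, 45, 210, 282, 318, 318, 282, 210, 45],
   [0, 0, 174, 282, 318, 354, 318, 282, 174],
   [0, 0, 45, 210, 282, 318, 318, 282, 210, 45],
   [0, 0, -3, 90, 210, 282, 282, 282, 210, 90, -3],
   [0, 0, 0, -3, 45, 174, 210, 210, 174, 45, -3],
   [0, 0, 0, 0, 0, 0, 45, 90, 45],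
   [0, 0, 0, 0, 0, 0, 0, -3, -3]],
  [[0, 0, 0, 1],
   [0, 0, -18, -81, -81, -18],
   [0, -18, -134, -98, 36, -98, -134, -18],
   [1, -81, -98, 144, 325, 325, 144, -98, -81, 1],
   [0, -81, 36, 325, 631, 676, 631, 325, 36, -81],
   [0, -18, -98, 325, 676, 846, 846, 676, 325, -98, -18],
   [0, 0, -134, 144, 631, 846, 971, 846, 631, 144, -134],
   [0, 0, -18, -98, 325, 676, 846, 846, 676, 325, -98, -18],
   [0, 0, 0, -81, 36, 325, 631, 676, 631, 325, 36, -81],
   [0, 0, 0, 1, -81, -98, 144, 325, 325, 144, -98, -81, 1],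
   [0, 0, 0, 0, 0, -18, -134, -98, 36, -98, -134, -18],
   [0, 0, 0, 0, 0, 0, 0, -18, -81, -81, -18],
   [0, 0, 0, 0, 0, 0, 0, 0, 0, 1]],
  [[],
   [0, 0, 0, 24, 48, 24],
   [0, 0, 36, -39, -411, -411, -39, 36],
   [0, 24, -39, -702, -1116, -1002, -1116, -702, -39, 24],
   [0, 48, -411, -1116, -1281, -1119, -1119, -1281, -1116, -411, 48],
   [0, 24, -411, -1002, -1119, -762, -762, -762, -1119, -1002, -411, 24],
   [0, 0, -39, -1116, -1119, -762, -567, -567, -762, -1119, -1116, -39],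
   [0, 0, 36, -702, -1281, -762, -567, -372, -567, -762, -1281, -702, 36],
   [0, 0, 0, -39, -1116, -1119, -762, -567, -567, -762, -1119, -1116, -39],
   [0, 0, 0, 24, -411, -1002, -1119, -762, -762, -762, -1119, -1002, -411, 24],
   [0, 0, 0, 0, 48, -411, -1116, -1281, -1119, -1119, -1281, -1116, -411, 48],
   [0, 0, 0, 0, 0, 24, -39, -702, -1116, -1002, -1116, -702, -39, 24],
   [0, 0, 0, 0, 0, 0, 0, 36, -39, -411, -411, -39, 36],
   [0, 0, 0, 0, 0, 0, 0, 0, 0, 24, 48, 24]],
  [[],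
   [0, 0, 0, 0, -9, -9],
   [0, 0, 0, 30, 336, 630, 336, 30],
   [0, 0, 30, 588, 975, 0, 0, 975, 588, 30],
   [0, -9, 336, 975, -558, -2310, -2490, -2310, -558, 975, 336, -9],
   [0, -9, 630, 0, -2310, -4440, -4881, -4881, -4440, -2310, 0, 630, -9],
   [0, 0, 336, 0, -2490, -4881, -5439, -5904, -5439, -4881, -2490, 0, 336],
   [0, 0, 30, 975, -2310, -4881, -5904, -6486, -6486, -5904, -4881, -2310, 975, 30],
   [0, 0, 0, 588, -558, -4440, -5439, -6486, -6603, -6486, -5439, -4440, -558, 588],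
   [0, 0, 0, 30, 975, -2310, -4881, -5904, -6486, -6486, -5904, -4881, -2310, 975, 30],
   [0, 0, 0, 0, 336, 0, -2490, -4881, -5439, -5904, -5439, -4881, -2490, 0, 336],
   [0, 0, 0, 0, -9, 630, 0, -2310, -4440, -4881, -4881, -4440, -2310, 0, 630, -9],
   [0, 0, 0, 0, 0, -9, 336, 975, -558, -2310, -2490, -2310, -558, 975, 336, -9],
   [0, 0, 0, 0, 0, 0, 0, 30, 588, 975, 0, 0, 975, 588, 30],
   [0, 0, 0, 0, 0, 0, 0, 0, 0, 30, 336, 630, 336, 30],
   [0, 0, 0, 0, 0, 0, 0, 0, 0, 0, 0, -9, -9]],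
  [[],
   [],
   [0, 0, 0, 0, -81, -298, -298, -81],
   [0, 0, 0, -160, -351, 1178, 2722, 1178, -351, -160],
   [0, 0, -81, -351, 2295, 6038, 4796, 4796, 6038, 2295, -351, -81],
   [0, 0, -298, 1178, 6038, 5996, 2360, 1222, 2360, 5996, 6038, 1178, -298],
   [0, 0, -298, 2722, 4796, 2360, -3741, -5821, -5821, -3741, 2360, 4796, 2722, -298],
   [0, 0, -81, 1178, 4796, 1222, -5821, -8798, -10366, -8798, -5821, 1222, 4796, 1178, -81],
   [0, 0, 0, -351, 6038, 2360, -5821, -10366, -12831, -12831, -10366, -5821, 2360, 6038, -351],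
   [0, 0, 0, -160, 2295, 5996, -3741, -8798, -12831, -13728, -12831, -8798, -3741, 5996, 2295, -160],
   [0, 0, 0, 0, -351, 6038, 2360, -5821, -10366, -12831, -12831, -10366, -5821, 2360, 6038, -351],
   [0, 0, 0, 0, -81, 1178, 4796, 1222, -5821, -8798, -10366, -8798, -5821, 1222, 4796, 1178, -81],
   [0, 0, 0, 0, 0, -298, 2722, 4796, 2360, -3741, -5821, -5821, -3741, 2360, 4796, 2722, -298],
   [0, 0, 0, 0, 0, 0, -298, 1178, 6038, 5996, 2360, 1222, 2360, 5996, 6038, 1178, -298],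
   [0, 0, 0, 0, 0, 0, 0, -81, -351, 2295, 6038, 4796, 4796, 6038, 2295, -351, -81],
   [0, 0, 0, 0, 0, 0, 0, 0, 0, -160, -351, 1178, 2722, 1178, -351, -160],
   [0, 0, 0, 0, 0, 0, 0, 0, 0, 0, 0, -81, -298, -298, -81]]]

/-- addition of rows -/
def ab36_add1 : List Int → List Int → List Int
  | [], l => l
  | a :: l, [] => a :: l
  | a :: l, b :: l' => (a + b) :: ab36_add1 l l'

/-- addition of planes -/
def ab36_add2 : List (List Int) → List (List Int) → List (List Int)
  | [], l => l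
  | a :: l, [] => a :: l
  | a :: l, b :: l' => ab36_add1 a b :: ab36_add2 l l'

/-- prepend zeros -/
def ab36_sh1 : Nat → List Int → List Int
  | 0, l => l
  | n + 1, l => 0 :: ab36_sh1 n l

/-- prepend zero rows -/
def ab36_sh2 : Nat → List (List Int) → List (List Int)
  | 0, l => l
  | n + 1, l => [] :: ab36_sh2 n l

/-- product with a number -/
def ab36_sm1 (c : Int) : List Int → List Int
  | [] => []
  | a :: l => (c * a) :: ab36_sm1 c l

/-- product with a number and with a power of `X` -/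
def ab36_sm2 (c : Int) (i : Nat) : List (List Int) → List (List Int)
  | [] => []
  | a :: l => ab36_sh1 i (ab36_sm1 c a) :: ab36_sm2 c i l

/-- product with `c X^i Y^j` -/
def ab36_tm (c : Int) (i j : Nat) (l : List (List Int)) : List (List Int) :=
  ab36_sh2 j (ab36_sm2 c i l)

/-- the seven terms belonging to `k` and its divisor `m`, times `l`, plus `r` -/
def ab36_seven (c0 c1 : Int) (k t : Nat) (l r : List (List Int)) : List (List Int) :=
  ab36_add2 (ab36_tm c0 k k l) (ab36_add2 (ab36_tm c1 (k + t) k l)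
    (ab36_add2 (ab36_tm c1 k (k + t) l) (ab36_add2 (ab36_tm c1 (k + t) (k + t) l)
      (ab36_add2 (ab36_tm c1 (k - t) k l) (ab36_add2 (ab36_tm c1 k (k - t) l)
        (ab36_add2 (ab36_tm c1 (k - t) (k - t) l) r))))))

/-- sum over the divisors `m < b` of `k` -/
def ab36_divs (k : Nat) (l : List (List Int)) : Nat → List (List Int)
  | 0 => []
  | m + 1 => bif Nat.beq (k % (m + 1)) 0 then
      ab36_seven ((m + 1 : Nat) * (2 * (ab36_A.getD (m + 1) 0 : Nat) + (ab36_B.getD (m + 1) 0 : Nat)))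
        ((m + 1 : Nat) * (ab36_A.getD (m + 1) 0 : Nat)) k (k / (m + 1)) l (ab36_divs k l m)
      else ab36_divs k l m

/-- sum over `k` -/
def ab36_sumk (n : Nat) : Nat → List (List Int)
  | 0 => []
  | k + 1 => ab36_add2 (ab36_divs (k + 1) (ab36_L.getD (n - (k + 1)) []) (k + 1)) (ab36_sumk n k)

/-- the known terms of the recursion in degree `n` -/
def ab36_R (n : Nat) : List (List Int) :=
  ab36_add2 (ab36_divs n (ab36_L.getD 0 []) (n - 1)) (ab36_sumk n (n - 1))

/-- entries -/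
def ab36_at (l : List (List Int)) (i j : Nat) : Int := (l.getD j []).getD i 0

/-- all entries zero -/
def ab36_z1 : List Int → Bool
  | [] => true
  | a :: l => match a with
    | .ofNat 0 => ab36_z1 l
    | _ => false

/-- all entries zero -/
def ab36_z2 : List (List Int) → Bool
  | [] => true
  | a :: l => ab36_z1 a && ab36_z2 l

/-- check of the values of the table -/
def ab36_chk (n : Nat) : Bool :=
  ab36_z2 (ab36_add2 (ab36_tm n 0 0 (ab36_L.getD n [])) (ab36_add2 (ab36_divs n (ab36_L.getD 0 []) n)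
    (ab36_sumk n (n - 1))))

/-- alternating sum at `0` -/
def ab36_w0 (n : Nat) (l : List (List Int)) : Int :=
  ab36_at l n n - ab36_at l (n + 1) n - ab36_at l n (n + 1) + ab36_at l (n + 2) (n + 1) +
    ab36_at l (n + 1) (n + 2) - ab36_at l (n + 2) (n + 2)

/-- alternating sum at `theta` -/
def ab36_wt (n : Nat) (l : List (List Int)) : Int :=
  ab36_at l (n + 1) (n + 1) - ab36_at l (n + 2) (n + 1) - ab36_at l (n + 1) (n + 2) +
    ab36_at l (n + 3) (n + 2) + ab36_at l (n + 2) (n + 3) - ab36_at l (n + 3) (n + 3)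

/-- check of the alternating sums -/
def ab36_cw (n : Nat) : Bool :=
  decide (ab36_w0 n (ab36_R n) + n * (ab36_B.getD n 0 : Nat) = 0) &&
    decide (ab36_wt n (ab36_R n) + n * (ab36_A.getD n 0 : Nat) = 0)


theorem ab36_checks : (∀ n ∈ List.range 10, ab36_chk n = true ∨ n = 0) := by decide +kernel

theorem ab36_checkw : (∀ n ∈ List.range 11, ab36_cw n = true ∨ n < 2) := by decide +kernel

section sem

open Polynomial

/-- rows as polynomials in `X` -/
noncomputable def ab36_e1 : List Int → Polynomial ℤ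
  | [] => 0
  | a :: l => C a + X * ab36_e1 l

/-- planes as polynomials in `Y` and `X` -/
noncomputable def ab36_e2 : List (List Int) → Polynomial (Polynomial ℤ)
  | [] => 0
  | a :: l => C (ab36_e1 a) + X * ab36_e2 l

/-- monomials -/
noncomputable def ab36_mu (i j : ℕ) : Polynomial (Polynomial ℤ) := monomial j (monomial i 1)

theorem ab36_e1_add (l l' : List Int) : ab36_e1 (ab36_add1 l l') = ab36_e1 l + ab36_e1 l' := by
  induction l generalizing l' with
  | nil => simp [ab36_add1, ab36_e1]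
  | cons a l ih =>
    cases l' with
    | nil => simp [ab36_add1, ab36_e1]
    | cons b l' => simp only [ab36_add1, ab36_e1, ih, map_add]; ring

theorem ab36_e2_add (l l' : List (List Int)) :
    ab36_e2 (ab36_add2 l l') = ab36_e2 l + ab36_e2 l' := by
  induction l generalizing l' with
  | nil => simp [ab36_add2, ab36_e2]
  | cons a l ih =>
    cases l' with
    | nil => simp [ab36_add2, ab36_e2]
    | cons b l' => simp only [ab36_add2, ab36_e2, ih, ab36_e1_add, map_add]; ring

theorem ab36_e1_sh (n : ℕ) (l : List Int) : ab36_e1 (ab36_sh1 n l) = X ^ n * ab36_e1 l := by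
  induction n with
  | zero => simp [ab36_sh1]
  | succ n ih => simp only [ab36_sh1, ab36_e1, ih, map_zero]; ring

theorem ab36_e2_sh (n : ℕ) (l : List (List Int)) :
    ab36_e2 (ab36_sh2 n l) = X ^ n * ab36_e2 l := by
  induction n with
  | zero => simp [ab36_sh2]
  | succ n ih => simp only [ab36_sh2, ab36_e2, ab36_e1, ih, map_zero]; ring

theorem ab36_e1_sm (c : ℤ) (l : List Int) : ab36_e1 (ab36_sm1 c l) = C c * ab36_e1 l := by
  induction l with
  | nil => simp [ab36_sm1, ab36_e1]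
  | cons a l ih => simp only [ab36_sm1, ab36_e1, ih, map_mul]; ring

theorem ab36_e2_sm (c : ℤ) (i : ℕ) (l : List (List Int)) :
    ab36_e2 (ab36_sm2 c i l) = C (X ^ i * C c) * ab36_e2 l := by
  induction l with
  | nil => simp [ab36_sm2, ab36_e2]
  | cons a l ih =>
    simp only [ab36_sm2, ab36_e2, ih, ab36_e1_sh, ab36_e1_sm, map_mul]; ring

theorem ab36_e2_tm (c : ℤ) (i j : ℕ) (l : List (List Int)) :
    ab36_e2 (ab36_tm c i j l) = (c : Polynomial (Polynomial ℤ)) * ab36_mu i j * ab36_e2 l := by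
  have h1 : (c : Polynomial (Polynomial ℤ)) = C (C c) := by
    rw [← Int.cast_id (n := c), map_intCast, map_intCast, Int.cast_id]
  have h2 : ab36_mu i j = C (X ^ i) * X ^ j := by
    unfold ab36_mu
    rw [← C_mul_X_pow_eq_monomial, ← C_mul_X_pow_eq_monomial, map_one, one_mul]
  rw [ab36_tm, ab36_e2_sh, ab36_e2_sm, h1, h2, map_mul]
  ring

theorem ab36_e1_coeff (l : List Int) (i : ℕ) : (ab36_e1 l).coeff i = l.getD i 0 := by
  induction l generalizing i with
  | nil => simp [ab36_e1]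
  | cons a l ih =>
    cases i with
    | zero => simp [ab36_e1]
    | succ i => rw [ab36_e1, coeff_add, coeff_C_succ, zero_add, coeff_X_mul, ih]; rfl

theorem ab36_e2_coeff (l : List (List Int)) (i j : ℕ) :
    ((ab36_e2 l).coeff j).coeff i = ab36_at l i j := by
  unfold ab36_at
  induction l generalizing j with
  | nil => simp [ab36_e2]
  | cons a l ih =>
    cases j with
    | zero => simp [ab36_e2, ab36_e1_coeff]
    | succ j => simp [ab36_e2, coeff_X_mul, coeff_C_succ, ih]

theorem ab36_z1_e (l : List Int) (h : ab36_z1 l = true) : ab36_e1 l = 0 := by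
  induction l with
  | nil => rfl
  | cons a l ih =>
    rcases a with n | n
    · cases n with
      | zero =>
        have h' : ab36_z1 l = true := h
        rw [ab36_e1, ih h']
        simp
      | succ n => exact absurd (show false = true from h) (by decide)
    · exact absurd (show false = true from h) (by decide)

theorem ab36_z2_e (l : List (List Int)) (h : ab36_z2 l = true) : ab36_e2 l = 0 := by
  induction l with
  | nil => rfl
  | cons a l ih =>
    rw [ab36_z2, Bool.and_eq_true] at h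
    rw [ab36_e2, ab36_z1_e _ h.1, ih h.2]
    simp

theorem ab36_mu_pow (i j t : ℕ) : ab36_mu i j ^ t = ab36_mu (i * t) (j * t) := by
  unfold ab36_mu
  rw [monomial_pow, monomial_pow, one_pow]

end sem

section logder

open PowerSeries

variable {R : Type} [CommRing R]

/-- the logarithmic derivative of `F` is `-S` -/
def ab36_LG (F S : R⟦X⟧) : Prop := X * d⁄dX R F = -(S * F)

theorem ab36_LG_one : ab36_LG (1 : R⟦X⟧) 0 := by
  unfold ab36_LG
  rw [Derivation.map_one_eq_zero, mul_zero, zero_mul, neg_zero]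

theorem ab36_LG_mul {F G S T : R⟦X⟧} (h : ab36_LG F S) (h' : ab36_LG G T) :
    ab36_LG (F * G) (S + T) := by
  unfold ab36_LG at *
  rw [Derivation.leibniz, smul_eq_mul, smul_eq_mul]
  linear_combination G * h + F * h'

theorem ab36_LG_pow {F S : R⟦X⟧} (h : ab36_LG F S) (e : ℕ) : ab36_LG (F ^ e) ((e : R⟦X⟧) * S) := by
  induction e with
  | zero => rw [pow_zero, Nat.cast_zero, zero_mul]; exact ab36_LG_one
  | succ e ih =>
    rw [pow_succ, Nat.cast_succ, add_mul, one_mul]
    exact ab36_LG_mul ih h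

/-- the logarithmic derivative of `1 - c X^m`, up to sign -/
noncomputable def ab36_geo (m : ℕ) (c : R) : R⟦X⟧ :=
  PowerSeries.mk fun k => if k % m = 0 ∧ k ≠ 0 then (m : R) * c ^ (k / m) else 0

theorem ab36_LG_geo (m : ℕ) (hm : 1 ≤ m) (c : R) :
    ab36_LG (1 - C c * X ^ m) (ab36_geo m c) := by
  unfold ab36_LG
  have h1 : X * d⁄dX R (1 - C c * X ^ m : R⟦X⟧) = -(C ((m : R) * c) * X ^ m) := by
    rw [map_sub, Derivation.map_one_eq_zero, zero_sub, Derivation.leibniz, Derivation.leibniz_pow,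
      PowerSeries.derivative_C, smul_zero, add_zero]
    obtain ⟨m, rfl⟩ : ∃ m', m = m' + 1 := ⟨m - 1, by omega⟩
    simp only [Nat.add_sub_cancel, smul_eq_mul, nsmul_eq_mul, PowerSeries.derivative_X, mul_one, map_mul,
      map_natCast]
    ring
  rw [h1]
  congr 1
  ext k
  rw [mul_sub, mul_one, map_sub, ← mul_assoc, mul_comm (ab36_geo m c) (C c), mul_assoc,
    coeff_C_mul, coeff_C_mul, coeff_mul_X_pow', coeff_X_pow]
  unfold ab36_geo
  rw [coeff_mk]
  by_cases hk : m ≤ k
  · rw [if_pos hk, coeff_mk]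
    by_cases hkm : k = m
    · subst hkm
      rw [if_pos rfl, if_pos ⟨Nat.mod_self _, by omega⟩, Nat.div_self (by omega), pow_one,
        if_neg (by omega)]
      ring
    · rw [if_neg hkm]
      by_cases hd : k % m = 0
      · rw [if_pos ⟨hd, by omega⟩, if_pos ⟨by rw [← hd]; exact (Nat.mod_eq_sub_mod hk).symm, by omega⟩]
        have : k / m = (k - m) / m + 1 := Nat.div_eq_sub_div (by omega) hk
        rw [this]
        ring
      · rw [if_neg (fun h => hd h.1), if_neg (fun h => hd ?_)]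
        · ring
        · rw [Nat.mod_eq_sub_mod hk]; exact h.1
  · rw [if_neg hk, if_neg (by omega), if_neg]
    · ring
    · rintro ⟨h1, h2⟩
      rw [Nat.mod_eq_of_lt (by omega)] at h1
      exact h2 h1

theorem ab36_LG_coeff {F S : R⟦X⟧} (h : ab36_LG F S) (n : ℕ) :
    (n : R) * coeff n F = -∑ k ∈ Finset.range (n + 1), coeff k S * coeff (n - k) F := by
  have h1 : coeff n (X * d⁄dX R F) = (n : R) * coeff n F := by
    cases n with
    | zero => simp
    | succ n =>
      rw [coeff_succ_X_mul, PowerSeries.coeff_derivative, Nat.cast_succ]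
      ring
  rw [← h1, h, map_neg, coeff_mul, Finset.Nat.sum_antidiagonal_eq_sum_range_succ_mk]

end logder

section rec

open Polynomial

/-- the ring of coefficients -/
abbrev ab36_R2 : Type := Polynomial (Polynomial ℤ)

/-- the six monomials -/
noncomputable def ab36_six (k t : ℕ) : ab36_R2 :=
  ab36_mu (k + t) k + ab36_mu k (k + t) + ab36_mu (k + t) (k + t) + ab36_mu (k - t) k +
    ab36_mu k (k - t) + ab36_mu (k - t) (k - t)

/-- the term of the pair `k`, `m` -/
noncomputable def ab36_term (a b : ℕ → ℕ) (k m : ℕ) : ab36_R2 :=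
  ((m * (2 * a m + b m) : ℤ) : ab36_R2) * ab36_mu k k + ((m * a m : ℤ) : ab36_R2) * ab36_six k (k / m)

/-- sums over the divisors up to a bound -/
noncomputable def ab36_s (a b : ℕ → ℕ) (k : ℕ) : ℕ → ab36_R2
  | 0 => 0
  | m + 1 => ab36_s a b k m + if k % (m + 1) = 0 then ab36_term a b k (m + 1) else 0

/-- the logarithmic derivative of a factor -/
noncomputable def ab36_fs (a b : ℕ → ℕ) (m : ℕ) : PowerSeries ab36_R2 :=
  ((2 * a m + b m : ℕ) : PowerSeries ab36_R2) * ab36_geo m (ab36_mu m m) +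
    ((a m : ℕ) : PowerSeries ab36_R2) *
      (ab36_geo m (ab36_mu (m + 1) m) + ab36_geo m (ab36_mu m (m + 1)) +
        ab36_geo m (ab36_mu (m + 1) (m + 1)) + ab36_geo m (ab36_mu (m - 1) m) +
        ab36_geo m (ab36_mu m (m - 1)) + ab36_geo m (ab36_mu (m - 1) (m - 1)))

theorem ab36_mo (m i j : ℕ) (hm : 1 ≤ m) :
    ab36_LG (((1 - mo m i j : P3)) : PowerSeries ab36_R2) (ab36_geo m (ab36_mu i j)) := by
  have h : (((1 - mo m i j : P3)) : PowerSeries ab36_R2) =
      1 - PowerSeries.C (ab36_mu i j) * PowerSeries.X ^ m := by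
    rw [Polynomial.coe_sub, Polynomial.coe_one]
    congr 1
    unfold mo
    rw [← C_mul_X_pow_eq_monomial, Polynomial.coe_mul, Polynomial.coe_C, Polynomial.coe_pow,
      Polynomial.coe_X]
    rfl
  rw [h]
  exact ab36_LG_geo m hm _

theorem ab36_fac (a b : ℕ → ℕ) (m : ℕ) (hm : 1 ≤ m) :
    ab36_LG ((fac a b m : P3) : PowerSeries ab36_R2) (ab36_fs a b m) := by
  unfold fac ab36_fs
  simp only [Polynomial.coe_mul, Polynomial.coe_pow]
  refine ab36_LG_mul (ab36_LG_pow (ab36_mo _ _ _ hm) _) (ab36_LG_pow ?_ _)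
  refine ab36_LG_mul (ab36_LG_mul (ab36_LG_mul (ab36_LG_mul (ab36_LG_mul ?_ ?_) ?_) ?_) ?_) ?_ <;>
    exact ab36_mo _ _ _ hm

/-- the logarithmic derivative of the product -/
noncomputable def ab36_ps (a b : ℕ → ℕ) : ℕ → PowerSeries ab36_R2
  | 0 => 0
  | n + 1 => ab36_ps a b n + ab36_fs a b (n + 1)

theorem ab36_prodP_succ (a b : ℕ → ℕ) (n : ℕ) :
    prodP a b (n + 1) = prodP a b n * fac a b (n + 1) := by
  unfold prodP
  rw [Finset.prod_Icc_succ_top (by omega)]

theorem ab36_prod (a b : ℕ → ℕ) (n : ℕ) :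
    ab36_LG ((prodP a b n : P3) : PowerSeries ab36_R2) (ab36_ps a b n) := by
  induction n with
  | zero =>
    have : prodP a b 0 = 1 := by unfold prodP; simp
    rw [this, Polynomial.coe_one]
    exact ab36_LG_one
  | succ n ih =>
    rw [ab36_prodP_succ, Polynomial.coe_mul]
    exact ab36_LG_mul ih (ab36_fac a b (n + 1) (by omega))

theorem ab36_fs_coeff (a b : ℕ → ℕ) (m k : ℕ) (hk : 1 ≤ k) :
    PowerSeries.coeff k (ab36_fs a b m) = if k % m = 0 then ab36_term a b k m else 0 := by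
  have hn : ∀ (e : ℕ) (f : PowerSeries ab36_R2), PowerSeries.coeff k ((e : PowerSeries ab36_R2) * f) =
      (e : ab36_R2) * PowerSeries.coeff k f := by
    intro e f
    rw [← map_natCast (PowerSeries.C (R := ab36_R2)), PowerSeries.coeff_C_mul]
  unfold ab36_fs
  rw [map_add, hn, hn]
  simp only [map_add, ab36_geo, PowerSeries.coeff_mk, ab36_mu_pow]
  by_cases h : k % m = 0
  · simp only [if_pos h, if_pos (show k % m = 0 ∧ k ≠ 0 from ⟨h, by omega⟩)]
    have e1 : m * (k / m) = k := Nat.mul_div_cancel' (Nat.dvd_of_mod_eq_zero h)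
    have e2 : (m + 1) * (k / m) = k + k / m := by rw [add_mul, one_mul, e1]
    have e3 : (m - 1) * (k / m) = k - k / m := by rw [Nat.sub_mul, one_mul, e1]
    rw [e1, e2, e3]
    unfold ab36_term ab36_six
    push_cast
    ring
  · simp only [if_neg h, if_neg (show ¬ (k % m = 0 ∧ k ≠ 0) from fun h' => h h'.1)]
    ring

theorem ab36_ps_coeff (a b : ℕ → ℕ) (n k : ℕ) (hk : 1 ≤ k) :
    PowerSeries.coeff k (ab36_ps a b n) = ab36_s a b k n := by
  induction n with
  | zero => rw [ab36_ps, map_zero]; rfl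
  | succ n ih => rw [ab36_ps, map_add, ih, ab36_fs_coeff a b (n + 1) k hk]; rfl

theorem ab36_ps_zero (a b : ℕ → ℕ) (n : ℕ) : PowerSeries.coeff 0 (ab36_ps a b n) = 0 := by
  have hg : ∀ (m : ℕ) (c : ab36_R2), PowerSeries.coeff 0 (ab36_geo m c) = 0 := by
    intro m c
    rw [ab36_geo, PowerSeries.coeff_mk, if_neg (by simp)]
  have hz : ∀ f g : PowerSeries ab36_R2, PowerSeries.coeff 0 (f * g) =
      PowerSeries.coeff 0 f * PowerSeries.coeff 0 g := by
    intro f g
    rw [PowerSeries.coeff_mul]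
    simp
  induction n with
  | zero => rw [ab36_ps, map_zero]
  | succ n ih =>
    rw [ab36_ps, map_add, ih, ab36_fs, map_add, hz, hz]
    simp only [map_add, hg]
    ring

theorem ab36_s_stable (a b : ℕ → ℕ) (k n : ℕ) (hk : 1 ≤ k) (hn : k ≤ n) :
    ab36_s a b k n = ab36_s a b k k := by
  induction n, hn using Nat.le_induction with
  | base => rfl
  | succ n hn ih =>
    rw [ab36_s, ih, if_neg, add_zero]
    rw [Nat.mod_eq_of_lt (by omega)]
    omega

/-- sum over `k` -/
noncomputable def ab36_U (a b : ℕ → ℕ) (f : ℕ → ab36_R2) (n : ℕ) : ℕ → ab36_R2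
  | 0 => 0
  | k + 1 => ab36_s a b (k + 1) (k + 1) * f (n - (k + 1)) + ab36_U a b f n k

theorem ab36_rec (a b : ℕ → ℕ) (N n : ℕ) (hn : n ≤ N) :
    (n : ab36_R2) * (prodP a b N).coeff n =
      -ab36_U a b (fun j => (prodP a b N).coeff j) n n := by
  have h := ab36_LG_coeff (ab36_prod a b N) n
  rw [Finset.sum_range_succ', ab36_ps_zero, zero_mul, add_zero] at h
  simp only [Polynomial.coeff_coe] at h
  rw [h]
  congr 1
  have : ∀ K, K ≤ N → ∑ k ∈ Finset.range K, PowerSeries.coeff (k + 1) (ab36_ps a b N) *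
      (prodP a b N).coeff (n - (k + 1)) = ab36_U a b (fun j => (prodP a b N).coeff j) n K := by
    intro K
    induction K with
    | zero => intro _; rfl
    | succ K ih =>
      intro hK
      rw [Finset.sum_range_succ, ih (by omega), ab36_ps_coeff a b N (K + 1) (by omega),
        ab36_s_stable a b (K + 1) N (by omega) hK, ab36_U, add_comm]
  exact this n hn

theorem ab36_dvd_mul {m : ℕ} {A B : P3} (h : X ^ m ∣ A - 1) (h' : X ^ m ∣ B - 1) :
    X ^ m ∣ A * B - 1 := by
  have : A * B - 1 = A * (B - 1) + (A - 1) := by ring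
  rw [this]
  exact dvd_add (Dvd.dvd.mul_left h' A) h

theorem ab36_dvd_pow {m : ℕ} {A : P3} (h : X ^ m ∣ A - 1) (e : ℕ) : X ^ m ∣ A ^ e - 1 := by
  induction e with
  | zero => exact ⟨0, by ring⟩
  | succ e ih => rw [pow_succ]; exact ab36_dvd_mul ih h

theorem ab36_dvd_mo (m i j : ℕ) : X ^ m ∣ (1 - mo m i j) - 1 := by
  unfold mo
  rw [← C_mul_X_pow_eq_monomial]
  refine ⟨-(C (monomial j (monomial i (1 : ℤ))) : P3), ?_⟩
  ring

theorem ab36_dvd_fac (a b : ℕ → ℕ) (m : ℕ) : X ^ m ∣ fac a b m - 1 := by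
  unfold fac
  refine ab36_dvd_mul (ab36_dvd_pow (ab36_dvd_mo _ _ _) _) (ab36_dvd_pow ?_ _)
  refine ab36_dvd_mul (ab36_dvd_mul (ab36_dvd_mul (ab36_dvd_mul (ab36_dvd_mul ?_ ?_) ?_) ?_) ?_) ?_ <;>
    exact ab36_dvd_mo _ _ _

theorem ab36_coeff_stable (a b : ℕ → ℕ) (n N : ℕ) (h : n ≤ N) :
    (prodP a b N).coeff n = (prodP a b n).coeff n := by
  induction N, h using Nat.le_induction with
  | base => rfl
  | succ N hN ih =>
    rw [← ih, ab36_prodP_succ]
    have h1 : prodP a b N * fac a b (N + 1) =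
        prodP a b N + prodP a b N * (fac a b (N + 1) - 1) := by ring
    have h2 : X ^ (N + 1) ∣ prodP a b N * (fac a b (N + 1) - 1) := by
      obtain ⟨q, hq⟩ := ab36_dvd_fac a b (N + 1)
      exact ⟨prodP a b N * q, by rw [hq]; ring⟩
    rw [h1, coeff_add, X_pow_dvd_iff.1 h2 n (by omega), add_zero]

theorem ab36_coeff_zero (a b : ℕ → ℕ) (N : ℕ) : (prodP a b N).coeff 0 = 1 := by
  rw [ab36_coeff_stable a b 0 N (by omega)]
  have : prodP a b 0 = 1 := by unfold prodP; simp
  rw [this, coeff_one_zero]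

end rec

section fin

open Polynomial

theorem ab36_e2_seven (c0 c1 : ℤ) (k t : ℕ) (l r : List (List Int)) :
    ab36_e2 (ab36_seven c0 c1 k t l r) =
      ((c0 : ab36_R2) * ab36_mu k k + (c1 : ab36_R2) * ab36_six k t) * ab36_e2 l + ab36_e2 r := by
  unfold ab36_seven ab36_six
  simp only [ab36_e2_add, ab36_e2_tm]
  ring

/-- the values of `a` and `b` agree with the tables -/
def ab36_good (a b : ℕ → ℕ) (n : ℕ) : Prop :=
  ∀ m, 1 ≤ m → m ≤ n → a m = ab36_A.getD m 0 ∧ b m = ab36_B.getD m 0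

theorem ab36_e2_divs (a b : ℕ → ℕ) (k : ℕ) (l : List (List Int)) (m : ℕ) (h : ab36_good a b m) :
    ab36_e2 (ab36_divs k l m) = ab36_s a b k m * ab36_e2 l := by
  induction m with
  | zero => rw [ab36_divs, ab36_s, ab36_e2, zero_mul]
  | succ m ih =>
    have ih' := ih (fun m' h1 h2 => h m' h1 (by omega))
    rw [ab36_divs, ab36_s]
    by_cases hk : k % (m + 1) = 0
    · rw [if_pos hk, hk]
      have : Nat.beq 0 0 = true := rfl
      rw [this, cond_true, ab36_e2_seven, ih', ab36_term, (h (m + 1) (by omega) (by omega)).1,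
        (h (m + 1) (by omega) (by omega)).2]
      push_cast
      ring
    · rw [if_neg hk, add_zero]
      have : Nat.beq (k % (m + 1)) 0 = false := by
        rw [← Bool.not_eq_true, Nat.beq_eq]
        exact hk
      rw [this, cond_false, ih']

theorem ab36_e2_sumk (a b : ℕ → ℕ) (f : ℕ → ab36_R2) (n K : ℕ) (h : ab36_good a b K)
    (hf : ∀ j, j < n → f j = ab36_e2 (ab36_L.getD j [])) (hK : K ≤ n) :
    ab36_e2 (ab36_sumk n K) = ab36_U a b f n K := by
  induction K with
  | zero => rfl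
  | succ K ih =>
    rw [ab36_sumk, ab36_U, ab36_e2_add, ab36_e2_divs a b _ _ _ h,
      ih (fun m' h1 h2 => h m' h1 (by omega)) (by omega), hf (n - (K + 1)) (by omega)]

theorem ab36_mu_coeff (i j i' j' : ℕ) :
    ((ab36_mu i j).coeff j').coeff i' = if j = j' ∧ i = i' then 1 else 0 := by
  unfold ab36_mu
  rw [coeff_monomial]
  by_cases hj : j = j'
  · rw [if_pos hj, coeff_monomial]
    simp [hj]
  · rw [if_neg hj, if_neg (fun h => hj h.1), coeff_zero]

theorem ab36_cast_coeff (c : ℤ) (p : ab36_R2) (i j : ℕ) :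
    (((c : ab36_R2) * p).coeff j).coeff i = c * (p.coeff j).coeff i := by
  have h1 : (c : ab36_R2) = C (C c) := by
    rw [← Int.cast_id (n := c), map_intCast, map_intCast, Int.cast_id]
  rw [h1, coeff_C_mul, coeff_C_mul]

theorem ab36_term_coeff (a b : ℕ → ℕ) (n i j : ℕ) (hn : 1 ≤ n) :
    (((ab36_term a b n n).coeff j).coeff i) =
      n * (2 * a n + b n) * (if n = j ∧ n = i then 1 else 0) +
      n * a n * ((if n = j ∧ n + 1 = i then 1 else 0) + (if n + 1 = j ∧ n = i then 1 else 0) +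
        (if n + 1 = j ∧ n + 1 = i then 1 else 0) + (if n = j ∧ n - 1 = i then 1 else 0) +
        (if n - 1 = j ∧ n = i then 1 else 0) + (if n - 1 = j ∧ n - 1 = i then 1 else 0)) := by
  unfold ab36_term ab36_six
  rw [Nat.div_self (by omega), coeff_add, coeff_add, ab36_cast_coeff, ab36_cast_coeff]
  simp only [coeff_add, ab36_mu_coeff]

theorem ab36_key (a b : ℕ → ℕ) (n : ℕ) (f : ab36_R2)
    (hf : ∀ mu, cf a b n mu = (f.coeff ((n : ℤ) - mu 2).toNat).coeff ((n : ℤ) + mu 0).toNat)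
    (mu : Fin 3 → ℤ) (i j : ℕ) (h1 : (n : ℤ) + mu 0 = i) (h2 : (n : ℤ) - mu 2 = j) :
    cf a b n mu = (f.coeff j).coeff i := by
  rw [hf, h1, h2, Int.toNat_natCast, Int.toNat_natCast]

theorem ab36_t1 (a b : ℕ → ℕ) (n : ℕ) (hn : 1 ≤ n) :
    (((ab36_term a b n n).coeff n).coeff n) = n * (2 * a n + b n) := by
  rw [ab36_term_coeff a b n n n hn, if_pos ⟨rfl, rfl⟩, if_neg (by omega), if_neg (by omega),
    if_neg (by omega), if_neg (by omega), if_neg (by omega), if_neg (by omega)]
  ring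

theorem ab36_t2 (a b : ℕ → ℕ) (n : ℕ) (hn : 1 ≤ n) :
    (((ab36_term a b n n).coeff n).coeff (n + 1)) = n * a n := by
  rw [ab36_term_coeff a b n _ _ hn, if_neg (by omega), if_pos ⟨rfl, rfl⟩, if_neg (by omega),
    if_neg (by omega), if_neg (by omega), if_neg (by omega), if_neg (by omega)]
  ring

theorem ab36_t3 (a b : ℕ → ℕ) (n : ℕ) (hn : 1 ≤ n) :
    (((ab36_term a b n n).coeff (n + 1)).coeff n) = n * a n := by
  rw [ab36_term_coeff a b n _ _ hn, if_neg (by omega), if_neg (by omega), if_pos ⟨rfl, rfl⟩,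
    if_neg (by omega), if_neg (by omega), if_neg (by omega), if_neg (by omega)]
  ring

theorem ab36_t4 (a b : ℕ → ℕ) (n : ℕ) (hn : 1 ≤ n) :
    (((ab36_term a b n n).coeff (n + 1)).coeff (n + 1)) = n * a n := by
  rw [ab36_term_coeff a b n _ _ hn, if_neg (by omega), if_neg (by omega), if_neg (by omega),
    if_pos ⟨rfl, rfl⟩, if_neg (by omega), if_neg (by omega), if_neg (by omega)]
  ring

theorem ab36_t5 (a b : ℕ → ℕ) (n i j : ℕ) (hn : 1 ≤ n) (h : n + 2 ≤ i ∨ n + 2 ≤ j) :
    (((ab36_term a b n n).coeff j).coeff i) = 0 := by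
  rw [ab36_term_coeff a b n _ _ hn, if_neg (by omega), if_neg (by omega), if_neg (by omega),
    if_neg (by omega), if_neg (by omega), if_neg (by omega), if_neg (by omega)]
  ring

theorem ab36_wal0 (a b : ℕ → ℕ) (n : ℕ) (f : ab36_R2)
    (hf : ∀ mu, cf a b n mu = (f.coeff ((n : ℤ) - mu 2).toNat).coeff ((n : ℤ) + mu 0).toNat) :
    wal (cf a b n) 0 = (f.coeff n).coeff n - (f.coeff n).coeff (n + 1) - (f.coeff (n + 1)).coeff n +
      (f.coeff (n + 1)).coeff (n + 2) + (f.coeff (n + 2)).coeff (n + 1) -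
      (f.coeff (n + 2)).coeff (n + 2) := by
  have k := ab36_key a b n f hf
  have h0 : cf a b n 0 = (f.coeff n).coeff n := k _ _ _ (by simp) (by simp)
  have h1 : cf a b n (0 + ![1, -1, 0]) = (f.coeff n).coeff (n + 1) := k _ _ _ (by simp) (by simp)
  have h2 : cf a b n (0 + ![0, 1, -1]) = (f.coeff (n + 1)).coeff n := k _ _ _ (by simp) (by simp)
  have h3 : cf a b n (0 + ![2, -1, -1]) = (f.coeff (n + 1)).coeff (n + 2) :=
    k _ _ _ (by simp) (by simp)
  have h4 : cf a b n (0 + ![1, 1, -2]) = (f.coeff (n + 2)).coeff (n + 1) :=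
    k _ _ _ (by simp) (by simp)
  have h5 : cf a b n (0 + ![2, 0, -2]) = (f.coeff (n + 2)).coeff (n + 2) :=
    k _ _ _ (by simp) (by simp)
  unfold wal
  rw [h0, h1, h2, h3, h4, h5]

theorem ab36_walt (a b : ℕ → ℕ) (n : ℕ) (f : ab36_R2)
    (hf : ∀ mu, cf a b n mu = (f.coeff ((n : ℤ) - mu 2).toNat).coeff ((n : ℤ) + mu 0).toNat) :
    wal (cf a b n) theta = (f.coeff (n + 1)).coeff (n + 1) - (f.coeff (n + 1)).coeff (n + 2) -
      (f.coeff (n + 2)).coeff (n + 1) + (f.coeff (n + 2)).coeff (n + 3) +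
      (f.coeff (n + 3)).coeff (n + 2) - (f.coeff (n + 3)).coeff (n + 3) := by
  have k := ab36_key a b n f hf
  have t0 : theta 0 = 1 := rfl
  have t2 : theta 2 = -1 := rfl
  have h0 : cf a b n theta = (f.coeff (n + 1)).coeff (n + 1) :=
    k _ _ _ (by rw [t0]; push_cast; ring) (by rw [t2]; push_cast; ring)
  have h1 : cf a b n (theta + ![1, -1, 0]) = (f.coeff (n + 1)).coeff (n + 2) :=
    k _ _ _ (by rw [Pi.add_apply, t0]; simp; try ring) (by rw [Pi.add_apply, t2]; simp; try ring)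
  have h2 : cf a b n (theta + ![0, 1, -1]) = (f.coeff (n + 2)).coeff (n + 1) :=
    k _ _ _ (by rw [Pi.add_apply, t0]; simp; try ring) (by rw [Pi.add_apply, t2]; simp; try ring)
  have h3 : cf a b n (theta + ![2, -1, -1]) = (f.coeff (n + 2)).coeff (n + 3) :=
    k _ _ _ (by rw [Pi.add_apply, t0]; simp; try ring) (by rw [Pi.add_apply, t2]; simp; try ring)
  have h4 : cf a b n (theta + ![1, 1, -2]) = (f.coeff (n + 3)).coeff (n + 2) :=
    k _ _ _ (by rw [Pi.add_apply, t0]; simp; try ring) (by rw [Pi.add_apply, t2]; simp; try ring)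
  have h5 : cf a b n (theta + ![2, 0, -2]) = (f.coeff (n + 3)).coeff (n + 3) :=
    k _ _ _ (by rw [Pi.add_apply, t0]; simp; try ring) (by rw [Pi.add_apply, t2]; simp; try ring)
  unfold wal
  rw [h0, h1, h2, h3, h4, h5]

/-- the coefficients agree with the tables -/
def ab36_inv (a b : ℕ → ℕ) (n : ℕ) : Prop :=
  ab36_good a b n ∧ ∀ j, j ≤ n → (prodP a b 10).coeff j = ab36_e2 (ab36_L.getD j [])

theorem ab36_inv_zero (a b : ℕ → ℕ) : ab36_inv a b 0 := by
  refine ⟨fun m h1 h2 => by omega, fun j hj => ?_⟩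
  obtain rfl : j = 0 := by omega
  rw [ab36_coeff_zero]
  change 1 = ab36_e2 [[1]]
  simp [ab36_e2, ab36_e1]

theorem ab36_L0 : ab36_e2 (ab36_L.getD 0 []) = 1 := by
  change ab36_e2 [[1]] = 1
  simp [ab36_e2, ab36_e1]

/-- the coefficients in degree `n`, when the numbers are known up to `n` -/
theorem ab36_table (a b : ℕ → ℕ) (n : ℕ) (h1 : 1 ≤ n) (h9 : n < 10) (hg : ab36_good a b n)
    (h : ab36_inv a b (n - 1)) : ab36_inv a b n := by
  refine ⟨hg, fun j hj => ?_⟩
  by_cases hjn : j ≤ n - 1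
  · exact h.2 j hjn
  · obtain rfl : j = n := by omega
    have hr := ab36_rec a b 10 j (by omega)
    have hU : ab36_U a b (fun j => (prodP a b 10).coeff j) j j =
        ab36_e2 (ab36_divs j (ab36_L.getD 0 []) j) + ab36_e2 (ab36_sumk j (j - 1)) := by
      rw [ab36_e2_divs a b j _ j hg, ab36_e2_sumk a b (fun j => (prodP a b 10).coeff j) j (j - 1)
        h.1 (fun i hi => h.2 i (by omega)) (by omega), ab36_L0]
      obtain ⟨j, rfl⟩ : ∃ j', j = j' + 1 := ⟨j - 1, by omega⟩
      rw [Nat.add_sub_cancel]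
      conv_lhs => rw [ab36_U]
      rw [Nat.sub_self, ab36_coeff_zero]
    have hc : ab36_chk j = true :=
      (ab36_checks j (List.mem_range.2 h9)).resolve_right (by omega)
    have hz := ab36_z2_e _ hc
    rw [ab36_e2_add, ab36_e2_add, ab36_e2_tm, ← hU] at hz
    have hm : ab36_mu 0 0 = 1 := by
      unfold ab36_mu
      rw [monomial_zero_one, monomial_zero_one]
    rw [hm, mul_one] at hz
    have hj0 : (j : ab36_R2) ≠ 0 := Nat.cast_ne_zero.2 (by omega)
    apply mul_left_cancel₀ hj0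
    rw [hr]
    push_cast at hz
    linear_combination -hz

/-- the recursion in degree `n` in terms of the table -/
theorem ab36_step (a b : ℕ → ℕ) (n : ℕ) (h1 : 1 ≤ n) (h9 : n ≤ 10) (h : ab36_inv a b (n - 1)) :
    (n : ab36_R2) * (prodP a b 10).coeff n = -(ab36_term a b n n + ab36_e2 (ab36_R n)) := by
  rw [ab36_rec a b 10 n h9]
  congr 1
  rw [ab36_R, ab36_e2_add, ab36_e2_divs a b n _ (n - 1) h.1,
    ab36_e2_sumk a b (fun j => (prodP a b 10).coeff j) n (n - 1) h.1
      (fun i hi => h.2 i (by omega)) (by omega), ab36_L0]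
  obtain ⟨n, rfl⟩ : ∃ n', n = n' + 1 := ⟨n - 1, by omega⟩
  rw [Nat.add_sub_cancel]
  conv_lhs => rw [ab36_U]
  rw [Nat.sub_self, ab36_coeff_zero, ab36_s, if_pos (Nat.mod_self _)]
  ring

theorem ab36_step_coeff (a b : ℕ → ℕ) (n i j : ℕ) (h1 : 1 ≤ n) (h9 : n ≤ 10)
    (h : ab36_inv a b (n - 1)) :
    (n : ℤ) * (((prodP a b 10).coeff n).coeff j).coeff i =
      -(((ab36_term a b n n).coeff j).coeff i + ab36_at (ab36_R n) i j) := by
  have h2 := congrArg (fun p : ab36_R2 => (p.coeff j).coeff i) (ab36_step a b n h1 h9 h)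
  simp only [coeff_neg, coeff_add, ab36_e2_coeff] at h2
  rw [← h2]
  have h3 := ab36_cast_coeff (n : ℤ) ((prodP a b 10).coeff n) i j
  rw [← h3, Int.cast_natCast]

theorem ab36_next (a b : ℕ → ℕ) (n : ℕ) (h1 : 2 ≤ n) (h9 : n ≤ 10) (h : ab36_inv a b (n - 1))
    (hw : wal (cf a b n) 0 = 0 ∧ wal (cf a b n) theta = 0) : ab36_good a b n := by
  have hf : ∀ mu, cf a b n mu =
      (((prodP a b 10).coeff n).coeff ((n : ℤ) - mu 2).toNat).coeff ((n : ℤ) + mu 0).toNat := by
    intro mu
    rw [cf, ← ab36_coeff_stable a b n 10 h9]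
  have c := fun i j => ab36_step_coeff a b n i j (by omega) h9 h
  have hchk : ab36_cw n = true :=
    (ab36_checkw n (List.mem_range.2 (by omega))).resolve_right (by omega)
  rw [ab36_cw, Bool.and_eq_true, decide_eq_true_eq, decide_eq_true_eq] at hchk
  obtain ⟨k1, k2⟩ := hchk
  have w1 := hw.1
  have w2 := hw.2
  rw [ab36_wal0 a b n _ hf] at w1
  rw [ab36_walt a b n _ hf] at w2
  have n0 : (n : ℤ) ≠ 0 := by omega
  have hn : 1 ≤ n := by omega
  have hb : (b n : ℤ) = (ab36_B.getD n 0 : ℕ) := by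
    apply mul_left_cancel₀ n0
    have c1 := c n n
    have c2 := c (n + 1) n
    have c3 := c n (n + 1)
    have c4 := c (n + 2) (n + 1)
    have c5 := c (n + 1) (n + 2)
    have c6 := c (n + 2) (n + 2)
    rw [ab36_t1 a b n hn] at c1
    rw [ab36_t2 a b n hn] at c2
    rw [ab36_t3 a b n hn] at c3
    rw [ab36_t5 a b n _ _ hn (by omega)] at c4 c5 c6
    unfold ab36_w0 at k1
    linear_combination -k1 + c1 - c2 - c3 + c4 + c5 - c6 - (n : ℤ) * w1
  have ha : (a n : ℤ) = (ab36_A.getD n 0 : ℕ) := by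
    apply mul_left_cancel₀ n0
    have c1 := c (n + 1) (n + 1)
    have c2 := c (n + 2) (n + 1)
    have c3 := c (n + 1) (n + 2)
    have c4 := c (n + 3) (n + 2)
    have c5 := c (n + 2) (n + 3)
    have c6 := c (n + 3) (n + 3)
    rw [ab36_t4 a b n hn] at c1
    rw [ab36_t5 a b n _ _ hn (by omega)] at c2 c3 c4 c5 c6
    unfold ab36_wt at k2
    linear_combination -k2 + c1 - c2 - c3 + c4 + c5 - c6 - (n : ℤ) * w2
  intro m hm1 hm2
  by_cases hmn : m = n
  · subst hmn
    exact ⟨by exact_mod_cast ha, by exact_mod_cast hb⟩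
  · exact h.1 m hm1 (by omega)

/-- the recursion determines the numbers `a n` and `b n` -/
theorem numeric3 (a b : ℕ → ℕ) (ha : a 1 = 3) (hb : b 1 = 0)
    (h : ∀ n, 2 ≤ n → n ≤ 10 → wal (cf a b n) 0 = 0 ∧ wal (cf a b n) theta = 0) :
    a 10 = 56961 := by
  have h1 : ab36_good a b 1 := by
    intro m h1 h2
    obtain rfl : m = 1 := by omega
    exact ⟨ha, hb⟩
  have hi : ∀ n, n < 10 → ab36_inv a b n := by
    intro n
    induction n with
    | zero => intro _; exact ab36_inv_zero a b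
    | succ n ih =>
      intro hn
      have ih' := ih (by omega)
      refine ab36_table a b (n + 1) (by omega) hn ?_ ih'
      by_cases h0 : n = 0
      · subst h0; exact h1
      · exact ab36_next a b (n + 1) (by omega) (by omega) ih' (h (n + 1) (by omega) (by omega))
  exact (ab36_next a b 10 (by omega) (by omega) (hi 9 (by omega)) (h 10 (by omega) (by omega)) 10
    (by omega) (by omega)).1

end fin

end Pool.ABG
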