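import Pool.Agent.ABG.Homol

set_option autoImplicit false

open scoped TensorProduct

namespace Pool.ABG


theorem ab37_rel {k : Type} [Field k] {A : Type} [NonUnitalNonAssocRing A]
    [Module k A] [IsScalarTower k A A] [SMulCommClass k A A]
    {A' : Type} [NonUnitalNonAssocRing A']
    [Module k A'] [IsScalarTower k A' A'] [SMulCommClass k A' A']
    (φ : A →ₗ[k] A') (hφ : ∀ p q, φ (p * q) = φ p * φ q) :
    relB k A ≤ (relB k A').comap (TensorProduct.map φ φ) := by
  refine Submodule.span_le.2 ?_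
  rintro x (⟨p, rfl⟩ | ⟨p, q, r, rfl⟩)
  · rw [SetLike.mem_coe, Submodule.mem_comap, TensorProduct.map_tmul]
    exact Submodule.subset_span (Or.inl ⟨φ p, rfl⟩)
  · rw [SetLike.mem_coe, Submodule.mem_comap, map_add, map_add, TensorProduct.map_tmul,
      TensorProduct.map_tmul, TensorProduct.map_tmul, hφ, hφ, hφ]
    exact Submodule.subset_span (Or.inr ⟨φ p, φ q, φ r, rfl⟩)

/-- the induced map on `B A` -/
def ab37_B {k : Type} [Field k] {A : Type} [NonUnitalNonAssocRing A]
    [Module k A] [IsScalarTower k A A] [SMulCommClass k A A]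
    {A' : Type} [NonUnitalNonAssocRing A']
    [Module k A'] [IsScalarTower k A' A'] [SMulCommClass k A' A']
    (φ : A →ₗ[k] A') (hφ : ∀ p q, φ (p * q) = φ p * φ q) : B k A →ₗ[k] B k A' :=
  (relB k A).mapQ (relB k A') (TensorProduct.map φ φ) (ab37_rel φ hφ)

theorem ab37_B_w {k : Type} [Field k] {A : Type} [NonUnitalNonAssocRing A]
    [Module k A] [IsScalarTower k A A] [SMulCommClass k A A]
    {A' : Type} [NonUnitalNonAssocRing A']
    [Module k A'] [IsScalarTower k A' A'] [SMulCommClass k A' A']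
    (φ : A →ₗ[k] A') (hφ : ∀ p q, φ (p * q) = φ p * φ q) (p q : A) :
    ab37_B φ hφ (w k p q) = w k (φ p) (φ q) := rfl

theorem ab37_DB {k : Type} [Field k] [CharZero k] {A : Type} [NonUnitalNonAssocRing A]
    [Module k A] [IsScalarTower k A A] [SMulCommClass k A A] [IsAlt A]
    {A' : Type} [NonUnitalNonAssocRing A']
    [Module k A'] [IsScalarTower k A' A'] [SMulCommClass k A' A'] [IsAlt A']
    (φ : A →ₗ[k] A') (hφ : ∀ p q, φ (p * q) = φ p * φ q) (b : B k A) (r : A) :
    φ (DB k b r) = DB k (ab37_B φ hφ b) (φ r) := by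
  induction b using B_ind with
  | hw p q =>
    rw [ab37_B_w, DB_w, DB_w, D_apply, D_apply]
    simp only [map_add, map_sub, hφ]
  | hadd b c hb hc =>
    simp only [map_add, LinearMap.add_apply, hb, hc]

theorem ab37_BB {k : Type} [Field k] [CharZero k] {A : Type} [NonUnitalNonAssocRing A]
    [Module k A] [IsScalarTower k A A] [SMulCommClass k A A] [IsAlt A]
    {A' : Type} [NonUnitalNonAssocRing A']
    [Module k A'] [IsScalarTower k A' A'] [SMulCommClass k A' A'] [IsAlt A']
    (φ : A →ₗ[k] A') (hφ : ∀ p q, φ (p * q) = φ p * φ q) (b c : B k A) :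
    ab37_B φ hφ (BB k b c) = BB k (ab37_B φ hφ b) (ab37_B φ hφ c) := by
  induction c using B_ind with
  | hw p q =>
    rw [BB_w, map_add, ab37_B_w, ab37_B_w, ab37_B_w, BB_w, ab37_DB φ hφ, ab37_DB φ hφ]
  | hadd c d hc hd =>
    rw [map_add, map_add, hc, hd, map_add, map_add]

theorem ab37_comm {k : Type} [Field k] {A : Type} [NonUnitalNonAssocRing A]
    [Module k A] [IsScalarTower k A A] [SMulCommClass k A A]
    {A' : Type} [NonUnitalNonAssocRing A']
    [Module k A'] [IsScalarTower k A' A'] [SMulCommClass k A' A']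
    (φ : A →ₗ[k] A') (hφ : ∀ p q, φ (p * q) = φ p * φ q) (P Q : Matrix (Fin 3) (Fin 3) A) :
    (comm0 k P Q).map φ = comm0 k (P.map φ) (Q.map φ) := by
  have hm : ∀ (X Y : Matrix (Fin 3) (Fin 3) A) (i j : Fin 3),
      φ ((X * Y) i j) = (X.map φ * Y.map φ) i j := by
    intro X Y i j
    rw [Matrix.mul_apply, Matrix.mul_apply, map_sum]
    exact Finset.sum_congr rfl fun l _ => hφ _ _
  have ht : φ (P * Q - Q * P).trace = (P.map φ * Q.map φ - Q.map φ * P.map φ).trace := by
    rw [Matrix.trace, Matrix.trace, map_sum]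
    refine Finset.sum_congr rfl fun l _ => ?_
    rw [Matrix.diag_apply, Matrix.diag_apply, Matrix.sub_apply, Matrix.sub_apply, map_sub, hm, hm]
  ext i j
  rw [Matrix.map_apply]
  unfold comm0
  rw [Matrix.sub_apply, Matrix.sub_apply, Matrix.sub_apply, Matrix.sub_apply, map_sub, map_sub,
    hm, hm, ← ht]
  rcases eq_or_ne i j with h | h
  · rw [h, Matrix.diagonal_apply_eq, Matrix.diagonal_apply_eq, map_smul]
  · rw [Matrix.diagonal_apply_ne _ h, Matrix.diagonal_apply_ne _ h, map_zero]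

theorem ab37_pair {k : Type} [Field k] {A : Type} [NonUnitalNonAssocRing A]
    [Module k A] [IsScalarTower k A A] [SMulCommClass k A A]
    {A' : Type} [NonUnitalNonAssocRing A']
    [Module k A'] [IsScalarTower k A' A'] [SMulCommClass k A' A']
    (φ : A →ₗ[k] A') (hφ : ∀ p q, φ (p * q) = φ p * φ q) (P Q : Matrix (Fin 3) (Fin 3) A) :
    ab37_B φ hφ (pair k P Q) = pair k (P.map φ) (Q.map φ) := by
  unfold pair
  rw [map_smul, map_sum]
  refine congrArg _ (Finset.sum_congr rfl fun i _ => ?_)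
  rw [map_sum]
  rfl

/-- the induced map on the Lie algebras -/
def ab37_f {k : Type} [Field k] {A : Type} [NonUnitalNonAssocRing A]
    [Module k A] [IsScalarTower k A A] [SMulCommClass k A A]
    {A' : Type} [NonUnitalNonAssocRing A']
    [Module k A'] [IsScalarTower k A' A'] [SMulCommClass k A' A']
    (φ : A →ₗ[k] A') (hφ : ∀ p q, φ (p * q) = φ p * φ q) : ABG k A →ₗ[k] ABG k A' where
  toFun x := ⟨(x.mat.map φ, ab37_B φ hφ x.bb), by
    change (x.mat.map φ).trace = 0
    have h : x.mat.trace = 0 := x.2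
    rw [Matrix.trace] at h ⊢
    have h2 := congrArg φ h
    rw [map_sum, map_zero] at h2
    exact h2⟩
  map_add' x y := ABG.ext (by
    ext i j
    exact map_add φ (x.mat i j) (y.mat i j)) (map_add (ab37_B φ hφ) x.bb y.bb)
  map_smul' c x := ABG.ext (by
    ext i j
    exact map_smul φ c (x.mat i j)) (map_smul (ab37_B φ hφ) c x.bb)

theorem ab37_f_mat {k : Type} [Field k] {A : Type} [NonUnitalNonAssocRing A]
    [Module k A] [IsScalarTower k A A] [SMulCommClass k A A]
    {A' : Type} [NonUnitalNonAssocRing A']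
    [Module k A'] [IsScalarTower k A' A'] [SMulCommClass k A' A']
    (φ : A →ₗ[k] A') (hφ : ∀ p q, φ (p * q) = φ p * φ q) (x : ABG k A) :
    (ab37_f φ hφ x).mat = x.mat.map φ := rfl

theorem ab37_f_bb {k : Type} [Field k] {A : Type} [NonUnitalNonAssocRing A]
    [Module k A] [IsScalarTower k A A] [SMulCommClass k A A]
    {A' : Type} [NonUnitalNonAssocRing A']
    [Module k A'] [IsScalarTower k A' A'] [SMulCommClass k A' A']
    (φ : A →ₗ[k] A') (hφ : ∀ p q, φ (p * q) = φ p * φ q) (x : ABG k A) :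
    (ab37_f φ hφ x).bb = ab37_B φ hφ x.bb := rfl

theorem ab37_f_lie {k : Type} [Field k] [CharZero k] {A : Type} [NonUnitalNonAssocRing A]
    [Module k A] [IsScalarTower k A A] [SMulCommClass k A A] [IsAlt A]
    {A' : Type} [NonUnitalNonAssocRing A']
    [Module k A'] [IsScalarTower k A' A'] [SMulCommClass k A' A'] [IsAlt A']
    (φ : A →ₗ[k] A') (hφ : ∀ p q, φ (p * q) = φ p * φ q) (x y : ABG k A) :
    ab37_f φ hφ ⁅x, y⁆ = ⁅ab37_f φ hφ x, ab37_f φ hφ y⁆ := by
  apply ABG.ext
  · rw [ab37_f_mat, lie_mat, lie_mat, ab37_f_mat, ab37_f_mat, ab37_f_bb, ab37_f_bb,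
      ← ab37_comm φ hφ]
    ext i j
    rw [Matrix.map_apply, Matrix.sub_apply, Matrix.add_apply, Matrix.sub_apply, Matrix.add_apply,
      map_sub, map_add, Matrix.map_apply, Matrix.map_apply, Matrix.map_apply, Matrix.map_apply,
      Matrix.map_apply, Matrix.map_apply, Matrix.map_apply, ab37_DB φ hφ, ab37_DB φ hφ]
  · rw [ab37_f_bb, lie_bb, lie_bb, ab37_f_mat, ab37_f_mat, ab37_f_bb, ab37_f_bb, map_add,
      ab37_pair, ab37_BB]

theorem ab37_f_act {k : Type} [Field k] {A : Type} [NonUnitalNonAssocRing A]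
    [Module k A] [IsScalarTower k A A] [SMulCommClass k A A]
    {A' : Type} [NonUnitalNonAssocRing A']
    [Module k A'] [IsScalarTower k A' A'] [SMulCommClass k A' A']
    (φ : A →ₗ[k] A') (hφ : ∀ p q, φ (p * q) = φ p * φ q)
    (Y : Matrix (Fin 3) (Fin 3) k) (x : ABG k A) :
    ab37_f φ hφ (act k A Y x) = act k A' Y (ab37_f φ hφ x) := by
  apply ABG.ext
  · rw [ab37_f_mat, act_mat, act_mat, ab37_f_mat]
    ext i j
    rw [Matrix.map_apply]
    unfold sact
    rw [map_sum]
    refine Finset.sum_congr rfl fun l _ => ?_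
    rw [map_sub, map_smul, map_smul]
    rfl
  · rw [ab37_f_bb, act_bb, act_bb, map_zero]


/-- homomorphisms of alternative algebras and the Lie algebras -/
theorem abg_retract {k : Type} [Field k] [CharZero k] {A : Type} [NonUnitalNonAssocRing A]
    [Module k A] [IsScalarTower k A A] [SMulCommClass k A A] [IsAlt A]
    {A' : Type} [NonUnitalNonAssocRing A']
    [Module k A'] [IsScalarTower k A' A'] [SMulCommClass k A' A'] [IsAlt A']
    (φ : A →ₗ[k] A') (hφ : ∀ p q, φ (p * q) = φ p * φ q)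
    (ψ : A' →ₗ[k] A) (hψ : ∀ p q, ψ (p * q) = ψ p * ψ q) (hr : ∀ p, ψ (φ p) = p) :
    ∃ (f : ABG k A →ₗ[k] ABG k A') (g : ABG k A' →ₗ[k] ABG k A),
      (∀ x y : ABG k A, f ⁅x, y⁆ = ⁅f x, f y⁆) ∧ (∀ x y : ABG k A', g ⁅x, y⁆ = ⁅g x, g y⁆) ∧
      (∀ (Y : Matrix (Fin 3) (Fin 3) k) (x : ABG k A), f (act k A Y x) = act k A' Y (f x)) ∧
      (∀ x, g (f x) = x) := by
  refine ⟨ab37_f φ hφ, ab37_f ψ hψ, ab37_f_lie φ hφ, ab37_f_lie ψ hψ, ab37_f_act φ hφ, ?_⟩
  intro x
  apply ABG.ext
  · rw [ab37_f_mat, ab37_f_mat]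
    ext i j
    rw [Matrix.map_apply, Matrix.map_apply, hr]
  · rw [ab37_f_bb, ab37_f_bb]
    generalize x.bb = b
    induction b using B_ind with
    | hw p q => rw [ab37_B_w, ab37_B_w, hr, hr]
    | hadd b c hb hc => rw [map_add, map_add, hb, hc]

end Pool.ABG
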