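import Pool.Agent.ABG.Homol

set_option autoImplicit false

open Module ExteriorAlgebra

namespace Pool.ABG

section

variable {k : Type} [Field k]

theorem map_rho2 {L L' : Type} [AddCommGroup L] [Module k L] [AddCommGroup L'] [Module k L']
    (f : L →ₗ[k] L') (u : L →ₗ[k] L) (u' : L' →ₗ[k] L') (h : ∀ x, f (u x) = u' (f x))
    (w : ExteriorAlgebra k L) :
    ExteriorAlgebra.map f (rho u w) = rho u' (ExteriorAlgebra.map f w) := by
  induction w using ext_induction with
  | h0 r => rw [rho_algebraMap, map_zero, AlgHom.commutes, rho_algebraMap]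
  | hadd a b ha hb => rw [map_add, map_add, map_add, map_add, ha, hb]
  | hmul x a ha =>
    rw [rho_ι_mul, map_add, map_mul, map_mul, map_mul, map_apply_ι, map_apply_ι, ha, h, rho_ι_mul]

theorem map_dd2 {L L' : Type} [LieRing L] [LieAlgebra k L] [LieRing L'] [LieAlgebra k L']
    (f : L →ₗ[k] L') (h : ∀ x y : L, f ⁅x, y⁆ = ⁅f x, f y⁆) (w : ExteriorAlgebra k L) :
    ExteriorAlgebra.map f (dd k L w) = dd k L' (ExteriorAlgebra.map f w) := by
  induction w using ext_induction with
  | h0 r => rw [dd_algebraMap, map_zero, AlgHom.commutes, dd_algebraMap]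
  | hadd a b ha hb => rw [map_add, map_add, map_add, map_add, ha, hb]
  | hmul x a ha =>
    rw [dd_ι_mul, map_sub, map_mul, map_mul, map_apply_ι, ha, dd_ι_mul,
      map_rho2 f (adm x) (adm (f x)) (fun y => by rw [adm_apply, adm_apply, h])]

theorem map_mem2 {L L' : Type} [AddCommGroup L] [Module k L] [AddCommGroup L'] [Module k L']
    (f : L →ₗ[k] L') (n : ℕ) (w : ExteriorAlgebra k L) (hw : w ∈ ⋀[k]^n L) :
    ExteriorAlgebra.map f w ∈ ⋀[k]^n L' := by
  induction n generalizing w with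
  | zero =>
    rw [exteriorPower, pow_zero] at hw ⊢
    obtain ⟨r, rfl⟩ := Submodule.mem_one.1 hw
    rw [AlgHom.commutes]
    exact Submodule.mem_one.2 ⟨r, rfl⟩
  | succ n ih =>
    rw [exteriorPower, pow_succ'] at hw
    induction hw using Submodule.mul_induction_on' with
    | mem_mul_mem x hx y hy =>
      obtain ⟨x, rfl⟩ := hx
      rw [map_mul, map_apply_ι, exteriorPower, pow_succ']
      exact Submodule.mul_mem_mul ⟨f x, rfl⟩ (ih y hy)
    | add x _ y _ hx hy =>
      rw [map_add]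
      exact Submodule.add_mem _ hx hy

theorem map_map2 {L L' : Type} [AddCommGroup L] [Module k L] [AddCommGroup L'] [Module k L']
    (f : L →ₗ[k] L') (g : L' →ₗ[k] L) (h : ∀ x, g (f x) = x) (w : ExteriorAlgebra k L) :
    ExteriorAlgebra.map g (ExteriorAlgebra.map f w) = w := by
  induction w using ext_induction with
  | h0 r => rw [AlgHom.commutes, AlgHom.commutes]
  | hadd a b ha hb => rw [map_add, map_add, ha, hb]
  | hmul x a ha => rw [map_mul, map_mul, map_apply_ι, map_apply_ι, ha, h]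

end

/-- a retraction of Lie algebras and the homology -/
theorem homology_retract {k : Type} [Field k] [CharZero k] {A : Type} [NonUnitalNonAssocRing A]
    [Module k A] [IsScalarTower k A A] [SMulCommClass k A A] [IsAlt A]
    {A' : Type} [NonUnitalNonAssocRing A']
    [Module k A'] [IsScalarTower k A' A'] [SMulCommClass k A' A'] [IsAlt A']
    (f : ABG k A →ₗ[k] ABG k A') (g : ABG k A' →ₗ[k] ABG k A)
    (hf : ∀ x y : ABG k A, f ⁅x, y⁆ = ⁅f x, f y⁆) (hg : ∀ x y : ABG k A', g ⁅x, y⁆ = ⁅g x, g y⁆)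
    (hfa : ∀ (Y : Matrix (Fin 3) (Fin 3) k) (x : ABG k A), f (act k A Y x) = act k A' Y (f x))
    (hgf : ∀ x, g (f x) = x) (r : ℕ) :
    ∃ θ : Hl k (ABG k A) r →ₗ[k] Hl k (ABG k A') r, Function.Injective θ ∧
      ∀ (Y : Matrix (Fin 3) (Fin 3) k) (h : Hl k (ABG k A) r),
        θ (actHom k A Y r h) = actHom k A' Y r (θ h) := by
  have hZ : ∀ v ∈ Zc k (ABG k A) r, (ExteriorAlgebra.map f).toLinearMap v ∈ Zc k (ABG k A') r := by
    intro v hv
    rw [Zc, Submodule.mem_inf, LinearMap.mem_ker] at hv ⊢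
    refine ⟨map_mem2 f r v hv.1, ?_⟩
    rw [AlgHom.toLinearMap_apply, ← map_dd2 f hf, hv.2, map_zero]
  let F : Zc k (ABG k A) r →ₗ[k] Zc k (ABG k A') r := (ExteriorAlgebra.map f).toLinearMap.restrict hZ
  have hB : (Bd k (ABG k A) r).submoduleOf (Zc k (ABG k A) r) ≤
      ((Bd k (ABG k A') r).submoduleOf (Zc k (ABG k A') r)).comap F := by
    intro v hv
    obtain ⟨u, hu, he⟩ := hv
    exact ⟨ExteriorAlgebra.map f u, map_mem2 f _ u hu, by rw [← map_dd2 f hf, he]; rfl⟩
  refine ⟨Submodule.mapQ _ _ F hB, ?_, ?_⟩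
  · rw [injective_iff_map_eq_zero]
    intro a ha
    obtain ⟨v, rfl⟩ := Submodule.Quotient.mk_surjective _ a
    rw [Submodule.mapQ_apply, Submodule.Quotient.mk_eq_zero] at ha
    rw [Submodule.Quotient.mk_eq_zero]
    obtain ⟨u, hu, he⟩ := ha
    refine ⟨ExteriorAlgebra.map g u, map_mem2 g _ u hu, ?_⟩
    rw [← map_dd2 g hg, he]
    exact map_map2 f g hgf v.1
  · intro Y h
    obtain ⟨v, rfl⟩ := Submodule.Quotient.mk_surjective _ h
    rw [actHom, actHom, actH_mk, Submodule.mapQ_apply, Submodule.mapQ_apply, actH_mk]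
    congr 1
    apply Subtype.ext
    rw [actZ_coe]
    exact map_rho2 f (act k A Y) (act k A' Y) (hfa Y) v.1

end Pool.ABG
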