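import Mathlib

set_option autoImplicit false

open scoped TensorProduct

namespace Pool.ABG

/-- the matrices of the elements of `I` -/
def ab39_J {k : Type} [Field k] (I : Submodule k (LieAlgebra.SpecialLinear.sl (Fin 3) k)) :
    Submodule k (Matrix (Fin 3) (Fin 3) k) :=
  I.map ({ toFun := fun Y => Y.1, map_add' := fun _ _ => rfl, map_smul' := fun _ _ => rfl } :
    (LieAlgebra.SpecialLinear.sl (Fin 3) k) →ₗ[k] Matrix (Fin 3) (Fin 3) k)

lemma ab39_mem {k : Type} [Field k] {I : Submodule k (LieAlgebra.SpecialLinear.sl (Fin 3) k)}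
    {M : Matrix (Fin 3) (Fin 3) k} : M ∈ ab39_J I ↔ ∃ Y ∈ I, Y.1 = M := Iff.rfl

section

variable {k : Type} [Field k] {I : Submodule k (LieAlgebra.SpecialLinear.sl (Fin 3) k)}
  (hI : ∀ Y Z : LieAlgebra.SpecialLinear.sl (Fin 3) k, Z ∈ I → ⁅Y, Z⁆ ∈ I)

include hI

lemma ab39_brk {a b : Fin 3} (h : a ≠ b) {M : Matrix (Fin 3) (Fin 3) k} (hM : M ∈ ab39_J I) :
    Matrix.single a b 1 * M - M * Matrix.single a b 1 ∈ ab39_J I := by
  obtain ⟨Y, hY, rfl⟩ := ab39_mem.1 hM
  refine ab39_mem.2 ⟨⁅LieAlgebra.SpecialLinear.single a b h (1 : k), Y⁆, hI _ _ hY, ?_⟩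
  rw [LieAlgebra.SpecialLinear.sl_bracket, LieAlgebra.SpecialLinear.val_single]

lemma ab39_row {a b c : Fin 3} (hcb : c ≠ b)
    (h : Matrix.single a b (1 : k) ∈ ab39_J I) : Matrix.single c b (1 : k) ∈ ab39_J I := by
  by_cases hca : c = a
  · rw [hca]; exact h
  have h1 := ab39_brk hI hca h
  rw [Matrix.single_mul_single_same, Matrix.single_mul_single_of_ne _ _ _ _ hcb.symm] at h1
  simpa using h1

lemma ab39_col {a b c : Fin 3} (hca : a ≠ c)
    (h : Matrix.single a b (1 : k) ∈ ab39_J I) : Matrix.single a c (1 : k) ∈ ab39_J I := by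
  by_cases hcb : b = c
  · rw [← hcb]; exact h
  have h1 := ab39_brk hI hcb h
  rw [Matrix.single_mul_single_same, Matrix.single_mul_single_of_ne _ _ _ _ hca.symm] at h1
  have h2 := (ab39_J I).neg_mem h1
  simpa using h2

omit hI in
lemma ab39_third (a b : Fin 3) : ∃ c : Fin 3, c ≠ a ∧ c ≠ b := by
  revert a b
  decide

lemma ab39_all {a b : Fin 3}
    (h : Matrix.single a b (1 : k) ∈ ab39_J I) (i j : Fin 3) (hij : i ≠ j) :
    Matrix.single i j (1 : k) ∈ ab39_J I := by
  by_cases hj : j = a
  · subst hj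
    obtain ⟨c, hca, hcb⟩ := ab39_third j b
    have h1 := ab39_row hI hcb h
    have h2 := ab39_col hI hca h1
    exact ab39_row hI hij h2
  · have h1 := ab39_col hI (Ne.symm hj) h
    exact ab39_row hI hij h1

lemma ab39_diag {a b : Fin 3} (hab : a ≠ b)
    (h : Matrix.single b a (1 : k) ∈ ab39_J I) :
    Matrix.single a a (1 : k) - Matrix.single b b (1 : k) ∈ ab39_J I := by
  have h1 := ab39_brk hI hab h
  rw [Matrix.single_mul_single_same, Matrix.single_mul_single_same] at h1
  simpa using h1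

end

lemma ab39_start {k : Type} [Field k] [CharZero k]
    (I : Submodule k (LieAlgebra.SpecialLinear.sl (Fin 3) k))
    (hI : ∀ Y Z : LieAlgebra.SpecialLinear.sl (Fin 3) k, Z ∈ I → ⁅Y, Z⁆ ∈ I)
    (h0 : I ≠ ⊥) : ∃ a b : Fin 3, a ≠ b ∧ Matrix.single a b (1 : k) ∈ ab39_J I := by
  obtain ⟨Z, hZ, hZ0⟩ := Submodule.exists_mem_ne_zero_of_ne_bot h0
  have hZJ : Z.1 ∈ ab39_J I := ab39_mem.2 ⟨Z, hZ, rfl⟩
  by_cases hoff : ∃ a b : Fin 3, a ≠ b ∧ Z.1 b a ≠ 0
  · obtain ⟨a, b, hab, hz⟩ := hoff
    refine ⟨a, b, hab, ?_⟩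
    have h1 := ab39_brk hI hab (ab39_brk hI hab hZJ)
    have e : Matrix.single a b (1 : k) * (Matrix.single a b (1 : k) * Z.1 -
        Z.1 * Matrix.single a b (1 : k)) - (Matrix.single a b (1 : k) * Z.1 -
        Z.1 * Matrix.single a b (1 : k)) * Matrix.single a b (1 : k) =
        (-2 * Z.1 b a) • Matrix.single a b (1 : k) := by
      have e1 : Matrix.single a b (1 : k) * Matrix.single a b (1 : k) = 0 :=
        Matrix.single_mul_single_of_ne _ _ _ _ hab.symm _
      have e2 : Matrix.single a b (1 : k) * Z.1 * Matrix.single a b (1 : k) =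
          Z.1 b a • Matrix.single a b (1 : k) := by
        rw [Matrix.single_mul_mul_single]
        simp
      have e3 : Matrix.single a b (1 : k) * (Matrix.single a b (1 : k) * Z.1 -
        Z.1 * Matrix.single a b (1 : k)) - (Matrix.single a b (1 : k) * Z.1 -
        Z.1 * Matrix.single a b (1 : k)) * Matrix.single a b (1 : k) =
        Matrix.single a b (1 : k) * Matrix.single a b (1 : k) * Z.1 -
        (2 : k) • (Matrix.single a b (1 : k) * Z.1 * Matrix.single a b (1 : k)) +
        Z.1 * (Matrix.single a b (1 : k) * Matrix.single a b (1 : k)) := by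
        rw [two_smul]
        noncomm_ring
      rw [e3, e1, e2, zero_mul, mul_zero, smul_smul]
      simp
    rw [e] at h1
    have h2 := (ab39_J I).smul_mem ((-2 * Z.1 b a)⁻¹) h1
    rwa [smul_smul, inv_mul_cancel₀ (by simpa using hz), one_smul] at h2
  · push Not at hoff
    have htr : Matrix.trace Z.1 = 0 := Z.2
    obtain ⟨a, b, hab, hne⟩ : ∃ a b : Fin 3, a ≠ b ∧ Z.1 b b - Z.1 a a ≠ 0 := by
      by_contra hcon
      push Not at hcon
      apply hZ0
      have h10 := hcon 1 0 (by decide)
      have h20 := hcon 2 0 (by decide)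
      rw [Matrix.trace, Fin.sum_univ_three] at htr
      simp only [Matrix.diag_apply] at htr
      have h3 : Z.1 0 0 = 0 := by
        have : (3 : k) * Z.1 0 0 = 0 := by linear_combination htr + h10 + h20
        rcases mul_eq_zero.1 this with h | h
        · norm_num at h
        · exact h
      apply Subtype.ext
      ext i j
      by_cases hij : j = i
      · subst hij
        fin_cases j
        · exact h3
        · show Z.1 1 1 = 0
          linear_combination h3 - h10
        · show Z.1 2 2 = 0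
          linear_combination h3 - h20
      · exact hoff j i hij
    refine ⟨a, b, hab, ?_⟩
    have h1 := ab39_brk hI hab hZJ
    have e : Matrix.single a b (1 : k) * Z.1 - Z.1 * Matrix.single a b (1 : k) =
        (Z.1 b b - Z.1 a a) • Matrix.single a b (1 : k) := by
      have hd : Z.1 = Matrix.diagonal (fun i => Z.1 i i) := by
        ext i j
        by_cases hij : i = j
        · subst hij; simp
        · rw [Matrix.diagonal_apply_ne _ hij]
          exact hoff j i (Ne.symm hij)
      rw [hd]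
      ext i j
      simp only [Matrix.sub_apply, Matrix.mul_diagonal, Matrix.diagonal_mul, Matrix.smul_apply,
        Matrix.diagonal_apply_eq, Matrix.single_apply, smul_eq_mul]
      split_ifs with h
      · rw [← h.1, ← h.2]; ring
      · simp
    rw [e] at h1
    have h2 := (ab39_J I).smul_mem ((Z.1 b b - Z.1 a a)⁻¹) h1
    rwa [smul_smul, inv_mul_cancel₀ hne, one_smul] at h2

/-- a nonzero ideal of `sl_3` is everything -/
theorem sl3_ideal (k : Type) [Field k] [CharZero k]
    (I : Submodule k (LieAlgebra.SpecialLinear.sl (Fin 3) k))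
    (hI : ∀ Y Z : LieAlgebra.SpecialLinear.sl (Fin 3) k, Z ∈ I → ⁅Y, Z⁆ ∈ I)
    (h0 : I ≠ ⊥) : I = ⊤ := by
  obtain ⟨a, b, hab, h⟩ := ab39_start I hI h0
  have hall := ab39_all hI h
  rw [eq_top_iff]
  rintro X -
  have htr : Matrix.trace X.1 = 0 := X.2
  rw [Matrix.trace, Fin.sum_univ_three] at htr
  simp only [Matrix.diag_apply] at htr
  have hX : X.1 ∈ ab39_J I := by
    have e : X.1 = X.1 0 1 • Matrix.single 0 1 (1 : k) + X.1 0 2 • Matrix.single 0 2 (1 : k) +
        X.1 1 0 • Matrix.single 1 0 (1 : k) + X.1 1 2 • Matrix.single 1 2 (1 : k) +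
        X.1 2 0 • Matrix.single 2 0 (1 : k) + X.1 2 1 • Matrix.single 2 1 (1 : k) +
        X.1 0 0 • (Matrix.single 0 0 (1 : k) - Matrix.single 2 2 (1 : k)) +
        X.1 1 1 • (Matrix.single 1 1 (1 : k) - Matrix.single 2 2 (1 : k)) := by
      have h22 : X.1 2 2 = -X.1 0 0 - X.1 1 1 := by linear_combination htr
      ext i j
      fin_cases i <;> fin_cases j <;> simp
      rw [h22]; ring
    rw [e]
    have hd0 := ab39_diag hI (a := 0) (b := 2) (by decide) (hall 2 0 (by decide))
    have hd1 := ab39_diag hI (a := 1) (b := 2) (by decide) (hall 2 1 (by decide))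
    refine Submodule.add_mem _ (Submodule.add_mem _ (Submodule.add_mem _ (Submodule.add_mem _
      (Submodule.add_mem _ (Submodule.add_mem _ (Submodule.add_mem _ ?_ ?_) ?_) ?_) ?_) ?_) ?_) ?_
    all_goals apply Submodule.smul_mem
    · exact hall 0 1 (by decide)
    · exact hall 0 2 (by decide)
    · exact hall 1 0 (by decide)
    · exact hall 1 2 (by decide)
    · exact hall 2 0 (by decide)
    · exact hall 2 1 (by decide)
    · exact hd0
    · exact hd1
  obtain ⟨Y, hY, hYX⟩ := ab39_mem.1 hX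
  have : Y = X := Subtype.ext hYX
  exact this ▸ hY

end Pool.ABG
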