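import Mathlib

/-!
# The Chevalley-Eilenberg complex of a Lie algebra

Exterior algebra, derivations of it, and the differential of Lie algebra homology with trivial
coefficients.
-/

set_option autoImplicit false

open ExteriorAlgebra

namespace Pool.ABG

section rho

variable {k : Type} [Field k] {L : Type} [AddCommGroup L] [Module k L]

/-- the bilinear map used in the definition of `rho` -/
noncomputable def rhoAux (f : L →ₗ[k] L) :
    L →ₗ[k] (ExteriorAlgebra k L × ExteriorAlgebra k L) →ₗ[k] ExteriorAlgebra k L :=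
  LinearMap.mk₂ k (fun x w => ι k (f x) * w.1 + ι k x * w.2)
    (fun x y w => by simp only [map_add, add_mul]; abel)
    (fun c x w => by simp only [map_smul, smul_mul_assoc, smul_add])
    (fun x w v => by simp only [Prod.fst_add, Prod.snd_add, mul_add]; abel)
    (fun c x w => by simp only [Prod.smul_fst, Prod.smul_snd, mul_smul_comm, smul_add])

theorem rhoAux_apply (f : L →ₗ[k] L) (x : L) (w : ExteriorAlgebra k L × ExteriorAlgebra k L) :
    rhoAux f x w = ι k (f x) * w.1 + ι k x * w.2 := rfl

theorem rhoAux_sq (f : L →ₗ[k] L) (x : L) (w : ExteriorAlgebra k L) (v : ExteriorAlgebra k L) :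
    rhoAux f x (ι k x * w, rhoAux f x (w, v)) = (0 : QuadraticForm k L) x • v := by
  simp only [rhoAux_apply, QuadraticMap.zero_apply, zero_smul, mul_add, ← mul_assoc,
    ι_sq_zero, zero_mul, add_zero]
  rw [← add_mul, ι_add_mul_swap, zero_mul]

/-- the derivation of the exterior algebra which extends the linear map `f` -/
noncomputable def rho (f : L →ₗ[k] L) : ExteriorAlgebra k L →ₗ[k] ExteriorAlgebra k L :=
  CliffordAlgebra.foldr' (0 : QuadraticForm k L) (rhoAux f) (rhoAux_sq f) 0

theorem rho_algebraMap (f : L →ₗ[k] L) (r : k) : rho f (algebraMap k _ r) = 0 := by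
  unfold rho
  rw [CliffordAlgebra.foldr'_algebraMap, smul_zero]

theorem rho_one (f : L →ₗ[k] L) : rho f 1 = 0 := by
  rw [← map_one (algebraMap k (ExteriorAlgebra k L)), rho_algebraMap]

theorem rho_ι_mul (f : L →ₗ[k] L) (x : L) (w : ExteriorAlgebra k L) :
    rho f (ι k x * w) = ι k (f x) * w + ι k x * rho f w := by
  unfold rho
  exact CliffordAlgebra.foldr'_ι_mul _ _ _ _ _ _

theorem rho_ι (f : L →ₗ[k] L) (x : L) : rho f (ι k x) = ι k (f x) := by
  have h := rho_ι_mul f x 1
  rwa [mul_one, mul_one, rho_one, mul_zero, add_zero] at h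

/-- induction for the exterior algebra: multiplication by vectors from the left -/
theorem ext_induction {C : ExteriorAlgebra k L → Prop}
    (h0 : ∀ r : k, C (algebraMap k _ r)) (hadd : ∀ a b, C a → C b → C (a + b))
    (hmul : ∀ (x : L) (a : ExteriorAlgebra k L), C a → C (ι k x * a)) (a : ExteriorAlgebra k L) :
    C a :=
  CliffordAlgebra.left_induction (0 : QuadraticForm k L) h0 hadd (fun a x h => hmul x a h) a

theorem rho_mul (f : L →ₗ[k] L) (a b : ExteriorAlgebra k L) :
    rho f (a * b) = rho f a * b + a * rho f b := by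
  induction a using ext_induction with
  | h0 r =>
    rw [rho_algebraMap, zero_mul, zero_add, ← Algebra.smul_def, ← Algebra.smul_def, map_smul]
  | hadd a a' ha ha' => rw [add_mul, map_add, ha, ha', map_add]; noncomm_ring
  | hmul x a ha => rw [mul_assoc, rho_ι_mul, rho_ι_mul, ha]; noncomm_ring

theorem rho_add (f g : L →ₗ[k] L) (w : ExteriorAlgebra k L) :
    rho (f + g) w = rho f w + rho g w := by
  induction w using ext_induction with
  | h0 r => simp only [rho_algebraMap, add_zero]
  | hadd a b ha hb => rw [map_add, map_add, map_add, ha, hb]; abel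
  | hmul x a ha =>
    rw [rho_ι_mul, rho_ι_mul, rho_ι_mul, ha, LinearMap.add_apply, map_add]; noncomm_ring

theorem rho_smul (c : k) (f : L →ₗ[k] L) (w : ExteriorAlgebra k L) :
    rho (c • f) w = c • rho f w := by
  induction w using ext_induction with
  | h0 r => simp only [rho_algebraMap, smul_zero]
  | hadd a b ha hb => rw [map_add, map_add, ha, hb, smul_add]
  | hmul x a ha =>
    rw [rho_ι_mul, rho_ι_mul, ha, LinearMap.smul_apply, map_smul, smul_mul_assoc, mul_smul_comm,
      smul_add]

theorem rho_zero (w : ExteriorAlgebra k L) : rho (0 : L →ₗ[k] L) w = 0 := by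
  have h := rho_smul (0 : k) (0 : L →ₗ[k] L) w
  rwa [zero_smul, zero_smul] at h

theorem rho_comm (f g : L →ₗ[k] L) (w : ExteriorAlgebra k L) :
    rho f (rho g w) - rho g (rho f w) = rho (f ∘ₗ g - g ∘ₗ f) w := by
  induction w using ext_induction with
  | h0 r => simp only [rho_algebraMap, map_zero, sub_zero]
  | hadd a b ha hb =>
    rw [map_add, map_add, map_add, map_add, map_add, ← ha, ← hb]; abel
  | hmul x a ha =>
    rw [rho_ι_mul, rho_ι_mul, rho_ι_mul, map_add, map_add, rho_ι_mul, rho_ι_mul, rho_ι_mul,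
      rho_ι_mul, ← ha, LinearMap.sub_apply, LinearMap.comp_apply, LinearMap.comp_apply, map_sub]
    noncomm_ring

theorem rho_mem (f : L →ₗ[k] L) (n : ℕ) (w : ExteriorAlgebra k L) (hw : w ∈ ⋀[k]^n L) :
    rho f w ∈ ⋀[k]^n L := by
  induction n generalizing w with
  | zero =>
    rw [exteriorPower, pow_zero] at hw
    obtain ⟨r, rfl⟩ := Submodule.mem_one.1 hw
    rw [rho_algebraMap]
    exact Submodule.zero_mem _
  | succ n ih =>
    rw [exteriorPower, pow_succ'] at hw
    induction hw using Submodule.mul_induction_on' with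
    | mem_mul_mem x hx y hy =>
      obtain ⟨x, rfl⟩ := hx
      rw [exteriorPower, pow_succ', rho_ι_mul]
      exact Submodule.add_mem _ (Submodule.mul_mem_mul ⟨_, rfl⟩ hy)
        (Submodule.mul_mem_mul ⟨_, rfl⟩ (ih y hy))
    | add x _ y _ hx hy => rw [map_add]; exact Submodule.add_mem _ hx hy

theorem map_rho (f : L →ₗ[k] L) (φ : L →ₗ[k] L) (h : ∀ x, φ (f x) = f (φ x))
    (w : ExteriorAlgebra k L) :
    ExteriorAlgebra.map φ (rho f w) = rho f (ExteriorAlgebra.map φ w) := by
  induction w using ext_induction with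
  | h0 r => rw [rho_algebraMap, map_zero, AlgHom.commutes, rho_algebraMap]
  | hadd a b ha hb => rw [map_add, map_add, map_add, map_add, ha, hb]
  | hmul x a ha =>
    rw [rho_ι_mul, map_add, map_mul, map_mul, map_mul, map_apply_ι, map_apply_ι, ha, h, rho_ι_mul]

end rho

section dd

variable {k : Type} [Field k] {L : Type} [LieRing L] [LieAlgebra k L]

/-- the adjoint map -/
def adm (x : L) : L →ₗ[k] L := (LieAlgebra.ad k L x : L →ₗ[k] L)

theorem adm_apply (x y : L) : adm (k := k) x y = ⁅x, y⁆ := rfl

/-- the bilinear map used in the definition of `dd` -/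
noncomputable def ddAux :
    L →ₗ[k] (ExteriorAlgebra k L × ExteriorAlgebra k L) →ₗ[k] ExteriorAlgebra k L :=
  LinearMap.mk₂ k (fun x w => rho (adm (k := k) x) w.1 - ι k x * w.2)
    (fun x y w => by
      have h : adm (k := k) (x + y) = adm x + adm y := map_add _ _ _
      rw [h, rho_add, map_add, add_mul]; abel)
    (fun c x w => by
      have h : adm (k := k) (c • x) = c • adm x := map_smul _ _ _
      rw [h, rho_smul, map_smul, smul_mul_assoc, smul_sub])
    (fun x w v => by simp only [Prod.fst_add, Prod.snd_add, mul_add, map_add]; abel)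
    (fun c x w => by simp only [Prod.smul_fst, Prod.smul_snd, mul_smul_comm, smul_sub, map_smul])

theorem ddAux_apply (x : L) (w : ExteriorAlgebra k L × ExteriorAlgebra k L) :
    ddAux (k := k) x w = rho (adm (k := k) x) w.1 - ι k x * w.2 := rfl

theorem ddAux_sq (x : L) (w v : ExteriorAlgebra k L) :
    ddAux (k := k) x (ι k x * w, ddAux x (w, v)) = (0 : QuadraticForm k L) x • v := by
  simp only [ddAux_apply, QuadraticMap.zero_apply, zero_smul]
  rw [rho_ι_mul, adm_apply, lie_self, map_zero, zero_mul, zero_add, mul_sub, ← mul_assoc,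
    ι_sq_zero, zero_mul, sub_zero, sub_self]

variable (k L) in
/-- the differential of the Chevalley-Eilenberg complex -/
noncomputable def dd : ExteriorAlgebra k L →ₗ[k] ExteriorAlgebra k L :=
  CliffordAlgebra.foldr' (0 : QuadraticForm k L) ddAux ddAux_sq 0

theorem dd_algebraMap (r : k) : dd k L (algebraMap k _ r) = 0 := by
  unfold dd
  rw [CliffordAlgebra.foldr'_algebraMap, smul_zero]

theorem dd_one : dd k L 1 = 0 := by
  rw [← map_one (algebraMap k (ExteriorAlgebra k L)), dd_algebraMap]

theorem dd_ι_mul (x : L) (w : ExteriorAlgebra k L) :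
    dd k L (ι k x * w) = rho (adm x) w - ι k x * dd k L w := by
  unfold dd
  exact CliffordAlgebra.foldr'_ι_mul _ _ _ _ _ _

theorem dd_ι (x : L) : dd k L (ι k x) = 0 := by
  have h := dd_ι_mul (k := k) x 1
  rwa [mul_one, rho_one, dd_one, mul_zero, sub_zero] at h

theorem dd_ι_ι (x y : L) : dd k L (ι k x * ι k y) = ι k ⁅x, y⁆ := by
  rw [dd_ι_mul, rho_ι, dd_ι, mul_zero, sub_zero, adm_apply]

/-- the differential commutes with derivations of the Lie algebra -/
theorem dd_rho (f : L →ₗ[k] L) (hf : ∀ x y : L, f ⁅x, y⁆ = ⁅f x, y⁆ + ⁅x, f y⁆)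
    (w : ExteriorAlgebra k L) : dd k L (rho f w) = rho f (dd k L w) := by
  induction w using ext_induction with
  | h0 r => simp only [rho_algebraMap, dd_algebraMap, map_zero]
  | hadd a b ha hb => rw [map_add, map_add, map_add, map_add, ha, hb]
  | hmul x a ha =>
    rw [rho_ι_mul, map_add, dd_ι_mul, dd_ι_mul, dd_ι_mul, map_sub, rho_ι_mul, ha]
    have h1 := rho_comm f (adm (k := k) x) a
    have h2 : f ∘ₗ adm (k := k) x - adm x ∘ₗ f = adm (f x) := by
      ext y
      simp only [LinearMap.sub_apply, LinearMap.comp_apply, adm_apply, hf]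
      abel
    rw [h2] at h1
    rw [← h1]
    noncomm_ring

theorem dd_rho_ad (x : L) (w : ExteriorAlgebra k L) :
    dd k L (rho (adm x) w) = rho (adm x) (dd k L w) :=
  dd_rho _ (fun y z => by simp only [adm_apply]; exact leibniz_lie x y z) w

theorem dd_dd (w : ExteriorAlgebra k L) : dd k L (dd k L w) = 0 := by
  induction w using ext_induction with
  | h0 r => simp only [dd_algebraMap, map_zero]
  | hadd a b ha hb => rw [map_add, map_add, ha, hb, add_zero]
  | hmul x a ha =>
    rw [dd_ι_mul, map_sub, dd_ι_mul, dd_rho_ad, ha, mul_zero, sub_zero, sub_self]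

theorem dd_mem (n : ℕ) (w : ExteriorAlgebra k L) (hw : w ∈ ⋀[k]^(n + 1) L) :
    dd k L w ∈ ⋀[k]^n L := by
  induction n generalizing w with
  | zero =>
    rw [exteriorPower, zero_add, pow_one] at hw
    obtain ⟨x, rfl⟩ := hw
    rw [dd_ι]
    exact Submodule.zero_mem _
  | succ n ih =>
    rw [exteriorPower, pow_succ'] at hw
    induction hw using Submodule.mul_induction_on' with
    | mem_mul_mem x hx y hy =>
      obtain ⟨x, rfl⟩ := hx
      rw [dd_ι_mul]
      refine Submodule.sub_mem _ (rho_mem _ _ _ hy) ?_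
      rw [exteriorPower, pow_succ']
      exact Submodule.mul_mem_mul ⟨_, rfl⟩ (ih y hy)
    | add x _ y _ hx hy => rw [map_add]; exact Submodule.add_mem _ hx hy

theorem dd_zero_mem (w : ExteriorAlgebra k L) (hw : w ∈ ⋀[k]^0 L) : dd k L w = 0 := by
  rw [exteriorPower, pow_zero] at hw
  obtain ⟨r, rfl⟩ := Submodule.mem_one.1 hw
  exact dd_algebraMap r

theorem map_dd (φ : L →ₗ[k] L) (h : ∀ x y : L, φ ⁅x, y⁆ = ⁅φ x, φ y⁆)
    (w : ExteriorAlgebra k L) :
    ExteriorAlgebra.map φ (dd k L w) = dd k L (ExteriorAlgebra.map φ w) := by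
  have key : ∀ (x : L) (a : ExteriorAlgebra k L), ExteriorAlgebra.map φ (rho (adm x) a) =
      rho (adm (φ x)) (ExteriorAlgebra.map φ a) := by
    intro x a
    induction a using ext_induction with
    | h0 r => rw [rho_algebraMap, map_zero, AlgHom.commutes, rho_algebraMap]
    | hadd a b ha hb => rw [map_add, map_add, map_add, map_add, ha, hb]
    | hmul y a ha =>
      rw [rho_ι_mul, map_add, map_mul, map_mul, map_mul, map_apply_ι, map_apply_ι, ha,
        rho_ι_mul, adm_apply, adm_apply, h]
  induction w using ext_induction with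
  | h0 r => rw [dd_algebraMap, map_zero, AlgHom.commutes, dd_algebraMap]
  | hadd a b ha hb => rw [map_add, map_add, map_add, map_add, ha, hb]
  | hmul x a ha =>
    rw [dd_ι_mul, map_sub, map_mul, map_mul, map_apply_ι, dd_ι_mul, key, ha]

end dd

end Pool.ABG
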