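import Pool.Agent.ABG.Homol

/-!
# The bracket of the Allison-Benkart-Gao Lie algebra on the elements `X ⊗ p` and `p ∧ q`
-/

set_option autoImplicit false

open Module ExteriorAlgebra

namespace Pool.ABG

noncomputable section

variable {k : Type} [Field k] {A : Type} [NonUnitalNonAssocRing A] [Module k A]
  [IsScalarTower k A A] [SMulCommClass k A A] [IsAlt A] [CharZero k]

omit [IsAlt A] [CharZero k] in
theorem map_mul_map (Y Z : Matrix (Fin 3) (Fin 3) k) (p q : A) :
    (Y.map (fun c => c • p)) * (Z.map (fun c => c • q)) = (Y * Z).map (fun c => c • (p * q)) := by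
  ext i j
  simp only [Matrix.mul_apply, Matrix.map_apply, smul_mul_assoc, mul_smul_comm, smul_smul,
    Finset.sum_smul]
  refine Finset.sum_congr rfl fun l _ => ?_
  rw [mul_comm]

omit [IsScalarTower k A A] [SMulCommClass k A A] [IsAlt A] [CharZero k] in
theorem trace_map_smul (Y : Matrix (Fin 3) (Fin 3) k) (p : A) :
    (Y.map (fun c => c • p)).trace = Y.trace • p := by
  simp only [Matrix.trace, Matrix.diag_apply, Matrix.map_apply, Finset.sum_smul]

/-- the product of two matrices made traceless and symmetrised -/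
def sym (Y Z : Matrix (Fin 3) (Fin 3) k) : Matrix (Fin 3) (Fin 3) k :=
  (2⁻¹ : k) • (Y * Z + Z * Y) - ((3⁻¹ : k) * (Y * Z).trace) • (1 : Matrix (Fin 3) (Fin 3) k)

omit [IsAlt A] in
theorem sym_trace (Y Z : Matrix (Fin 3) (Fin 3) k) : (sym Y Z).trace = 0 := by
  have h3 : (3 : k) ≠ 0 := by norm_num
  have h2 : (2 : k) ≠ 0 := by norm_num
  rw [sym, Matrix.trace_sub, Matrix.trace_smul, Matrix.trace_smul, Matrix.trace_add,
    Matrix.trace_mul_comm Z Y, Matrix.trace_one, Fintype.card_fin]
  simp only [smul_eq_mul, Nat.cast_ofNat]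
  field_simp
  ring

theorem comm_trace (Y Z : Matrix (Fin 3) (Fin 3) k) : (Y * Z - Z * Y).trace = 0 := by
  rw [Matrix.trace_sub, Matrix.trace_mul_comm Y Z, sub_self]

/-- the bracket of the Allison-Benkart-Gao Lie algebra:
`[X ⊗ p, Y ⊗ q] = [X, Y] ⊗ (pq + qp)/2 + {X, Y} ⊗ (pq - qp) + (1/3) tr(XY) p ∧ q`,
`[p ∧ q, X ⊗ r] = X ⊗ D_{p,q} r` and `[p ∧ q, r ∧ s] = D_{p,q} r ∧ s + r ∧ D_{p,q} s` -/
theorem bracket_check (Y Z : Matrix (Fin 3) (Fin 3) k) (hY : Y.trace = 0) (hZ : Z.trace = 0)
    (p q r s : A) :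
    (⁅tens Y hY p, tens Z hZ q⁆ : ABG k A) =
        tens (Y * Z - Z * Y) (comm_trace Y Z) ((2⁻¹ : k) • (p * q + q * p)) +
          tens (sym Y Z) (sym_trace Y Z) (p * q - q * p) +
          inB (((3⁻¹ : k) * (Y * Z).trace) • w k p q) ∧
      (⁅inB (w k p q), tens Z hZ r⁆ : ABG k A) = tens Z hZ (D k p q r) ∧
      (⁅inB (w k p q), inB (w k r s)⁆ : ABG k A) =
        inB (w k (D k p q r) s + w k r (D k p q s)) := by
  have h2 : (2 : k) ≠ 0 := by norm_num
  have h3 : (3 : k) ≠ 0 := by norm_num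
  have hw0 : ∀ a : A, w k 0 a = 0 := fun a => by
    rw [w, TensorProduct.zero_tmul]; rfl
  have hw1 : ∀ a : A, w k a 0 = 0 := fun a => by
    rw [w, TensorProduct.tmul_zero]; rfl
  refine ⟨ABG.ext ?_ ?_, ABG.ext ?_ ?_, ABG.ext ?_ ?_⟩
  · rw [lie_mat]
    change comm0 k (Y.map (fun c => c • p)) (Z.map (fun c => c • q)) +
      (Z.map (fun c => c • q)).map (DB k (0 : B k A)) -
      (Y.map (fun c => c • p)).map (DB k (0 : B k A)) =
      (Y * Z - Z * Y).map (fun c => c • ((2⁻¹ : k) • (p * q + q * p))) +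
        (sym Y Z).map (fun c => c • (p * q - q * p)) + 0
    rw [comm0, map_mul_map, map_mul_map, Matrix.trace_sub, trace_map_smul, trace_map_smul,
      Matrix.trace_mul_comm Z Y, map_zero]
    ext i j
    simp only [Matrix.add_apply, Matrix.sub_apply, Matrix.map_apply, LinearMap.zero_apply, sym,
      Matrix.smul_apply, Matrix.one_apply, Matrix.diagonal_apply, Matrix.zero_apply, smul_eq_mul]
    by_cases hij : i = j
    · rw [if_pos hij, if_pos hij]
      match_scalars <;> field_simp <;> ring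
    · rw [if_neg hij, if_neg hij]
      match_scalars <;> field_simp <;> ring
  · rw [lie_bb]
    change pair k (Y.map (fun c => c • p)) (Z.map (fun c => c • q)) + BB k (0 : B k A) 0 =
      0 + 0 + ((3⁻¹ : k) * (Y * Z).trace) • w k p q
    rw [map_zero, add_zero, zero_add, zero_add, pair, mul_smul]
    congr 1
    simp only [Matrix.map_apply, Matrix.trace, Matrix.diag_apply, Matrix.mul_apply,
      Finset.sum_smul]
    refine Finset.sum_congr rfl fun i _ => Finset.sum_congr rfl fun j _ => ?_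
    rw [(w_facts k p p (Z j i • q) q (Y i j)).2.2.1, (w_facts k p p q q (Z j i)).2.2.2.1,
      smul_smul]
  · rw [lie_mat]
    change comm0 k (0 : Matrix (Fin 3) (Fin 3) A) (Z.map (fun c => c • r)) +
      (Z.map (fun c => c • r)).map (DB k (w k p q)) -
      (0 : Matrix (Fin 3) (Fin 3) A).map (DB k (0 : B k A)) = Z.map (fun c => c • D k p q r)
    rw [comm0, Matrix.zero_mul, Matrix.mul_zero, sub_zero, Matrix.trace_zero, smul_zero]
    ext i j
    simp only [Matrix.add_apply, Matrix.sub_apply, Matrix.map_apply, Matrix.zero_apply, map_smul,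
      map_zero, DB_w, Matrix.diagonal_apply, ite_self, sub_zero, zero_add]
  · rw [lie_bb]
    change pair k (0 : Matrix (Fin 3) (Fin 3) A) (Z.map (fun c => c • r)) +
      BB k (w k p q) 0 = 0
    rw [map_zero, add_zero, pair]
    simp only [Matrix.zero_apply, hw0, Finset.sum_const_zero, smul_zero]
  · rw [lie_mat]
    change comm0 k (0 : Matrix (Fin 3) (Fin 3) A) 0 +
      (0 : Matrix (Fin 3) (Fin 3) A).map (DB k (w k p q)) -
      (0 : Matrix (Fin 3) (Fin 3) A).map (DB k (w k r s)) = 0
    rw [comm0, Matrix.zero_mul, sub_zero, Matrix.trace_zero, smul_zero]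
    ext i j
    simp only [Matrix.add_apply, Matrix.sub_apply, Matrix.map_apply, Matrix.zero_apply,
      map_zero, Matrix.diagonal_apply, ite_self, sub_zero, add_zero]
  · rw [lie_bb]
    change pair k (0 : Matrix (Fin 3) (Fin 3) A) 0 + BB k (w k p q) (w k r s) =
      w k (D k p q r) s + w k r (D k p q s)
    rw [BB_w, DB_w, pair]
    simp only [Matrix.zero_apply, hw0, Finset.sum_const_zero, smul_zero, zero_add]

end

end Pool.ABG
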