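import Pool.Agent.ABG.CE

/-!
# Alternative algebras and the Allison-Benkart-Gao Lie algebra: first definitions
-/

set_option autoImplicit false

open scoped TensorProduct

namespace Pool.ABG

/-- alternative rings: `(pp)q = p(pq)` and `(qp)p = q(pp)` -/
class IsAlt (A : Type) [NonUnitalNonAssocRing A] : Prop where
  left : ∀ p q : A, (p * p) * q = p * (p * q)
  right : ∀ p q : A, (q * p) * p = q * (p * p)

/-- the associator -/
def as {A : Type} [NonUnitalNonAssocRing A] (p q r : A) : A := (p * q) * r - p * (q * r)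

section

variable (k : Type) [Field k] (A : Type) [NonUnitalNonAssocRing A] [Module k A]
  [IsScalarTower k A A] [SMulCommClass k A A]

variable {A} in
/-- left multiplication -/
def Lm (p : A) : A →ₗ[k] A where
  toFun r := p * r
  map_add' := mul_add p
  map_smul' c r := mul_smul_comm c p r

variable {A} in
/-- right multiplication -/
def Rm (p : A) : A →ₗ[k] A where
  toFun r := r * p
  map_add' r s := add_mul r s p
  map_smul' c r := smul_mul_assoc c r p

variable {A} in
/-- the operator `D_{p,q} = [L_p, L_q] + [R_p, R_q] + [L_p, R_q]` -/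
def D (p q : A) : A →ₗ[k] A :=
  (Lm k p ∘ₗ Lm k q - Lm k q ∘ₗ Lm k p) + (Rm k p ∘ₗ Rm k q - Rm k q ∘ₗ Rm k p) +
    (Lm k p ∘ₗ Rm k q - Rm k q ∘ₗ Lm k p)

variable {A} in
theorem D_apply (p q r : A) : D k p q r =
    (p * (q * r) - q * (p * r)) + ((r * q) * p - (r * p) * q) + (p * (r * q) - (p * r) * q) := rfl

/-- the relations of `B A`: `p ∧ p = 0` and `pq ∧ r + qr ∧ p + rp ∧ q = 0` -/
def relB : Submodule k (A ⊗[k] A) :=
  Submodule.span k ({x | ∃ p : A, x = p ⊗ₜ[k] p} ∪
    {x | ∃ p q r : A, x = (p * q) ⊗ₜ[k] r + (q * r) ⊗ₜ[k] p + (r * p) ⊗ₜ[k] q})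

/-- the space `B A`, the quotient of the exterior square of `A` by the elements
`pq ∧ r + qr ∧ p + rp ∧ q` -/
abbrev B : Type := (A ⊗[k] A) ⧸ relB k A

variable {A} in
/-- the element `p ∧ q` of `B A` -/
def w (p q : A) : B k A := Submodule.Quotient.mk (p ⊗ₜ[k] q)

variable {A} in
/-- the commutator of two matrices over `A`, made traceless -/
def comm0 (P Q : Matrix (Fin 3) (Fin 3) A) : Matrix (Fin 3) (Fin 3) A :=
  P * Q - Q * P - Matrix.diagonal (fun _ => (3⁻¹ : k) • (P * Q - Q * P).trace)

variable {A} in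
/-- the component in `B A` of the bracket of two matrices -/
noncomputable def pair (P Q : Matrix (Fin 3) (Fin 3) A) : B k A :=
  (3⁻¹ : k) • ∑ i, ∑ j, w k (P i j) (Q j i)

end

/-- the action of scalar matrices on matrices over `A`: `X P - P X` -/
def sact {k : Type} [Field k] {A : Type} [AddCommGroup A] [Module k A]
    (X : Matrix (Fin 3) (Fin 3) k) (P : Matrix (Fin 3) (Fin 3) A) : Matrix (Fin 3) (Fin 3) A :=
  fun i j => ∑ l, (X i l • P l j - X l j • P i l)

end Pool.ABG
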