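import Pool.Agent.ABG.CE
import Pool.Agent.ABG.Count

/-!
# Cycles, boundaries and homology; homogeneous parts of the exterior algebra
-/

set_option autoImplicit false

open ExteriorAlgebra

namespace Pool.ABG

noncomputable section

section

variable {k : Type} [Field k] {L : Type} [AddCommGroup L] [Module k L]

/-- the part of the `r`-th exterior power on which the derivation extending `f` is multiplication
by `n` -/
def Upart (f : L →ₗ[k] L) (n r : ℕ) : Submodule k (ExteriorAlgebra k L) :=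
  ⋀[k]^r L ⊓ LinearMap.ker (rho f - (n : k) • LinearMap.id)

theorem mem_Upart (f : L →ₗ[k] L) (n r : ℕ) (v : ExteriorAlgebra k L) :
    v ∈ Upart f n r ↔ v ∈ ⋀[k]^r L ∧ rho f v = (n : k) • v := by
  rw [Upart, Submodule.mem_inf, LinearMap.mem_ker, LinearMap.sub_apply, LinearMap.smul_apply,
    LinearMap.id_apply, sub_eq_zero]

end

section

variable (k : Type) [Field k] (L : Type) [LieRing L] [LieAlgebra k L]

/-- cycles of degree `r` of the Chevalley-Eilenberg complex with trivial coefficients -/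
def Zc (r : ℕ) : Submodule k (ExteriorAlgebra k L) := ⋀[k]^r L ⊓ LinearMap.ker (dd k L)

/-- boundaries of degree `r` of the Chevalley-Eilenberg complex with trivial coefficients -/
def Bd (r : ℕ) : Submodule k (ExteriorAlgebra k L) := (⋀[k]^(r + 1) L).map (dd k L)

/-- the homology of the Lie algebra `L` with trivial coefficients: cycles modulo boundaries -/
abbrev Hl (r : ℕ) : Type := Zc k L r ⧸ (Bd k L r).submoduleOf (Zc k L r)

variable {k L}

/-- the action on cycles of a derivation of `L` -/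
def actZ (f : L →ₗ[k] L) (hf : ∀ x y : L, f ⁅x, y⁆ = ⁅f x, y⁆ + ⁅x, f y⁆) (r : ℕ) :
    Zc k L r →ₗ[k] Zc k L r :=
  (rho f).restrict (fun v hv => by
    rw [Zc, Submodule.mem_inf, LinearMap.mem_ker] at hv ⊢
    exact ⟨rho_mem f r v hv.1, by rw [dd_rho f hf, hv.2, map_zero]⟩)

theorem actZ_coe (f : L →ₗ[k] L) (hf : ∀ x y : L, f ⁅x, y⁆ = ⁅f x, y⁆ + ⁅x, f y⁆) (r : ℕ)
    (v : Zc k L r) : (actZ f hf r v : ExteriorAlgebra k L) = rho f v := rfl

/-- the action on homology of a derivation of `L` -/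
def actH (f : L →ₗ[k] L) (hf : ∀ x y : L, f ⁅x, y⁆ = ⁅f x, y⁆ + ⁅x, f y⁆) (r : ℕ) :
    Hl k L r →ₗ[k] Hl k L r :=
  Submodule.mapQ _ _ (actZ f hf r) (fun v hv => by
    obtain ⟨u, hu, he⟩ := hv
    exact ⟨rho f u, rho_mem f _ u hu, by rw [dd_rho f hf, he]; rfl⟩)

theorem actH_mk (f : L →ₗ[k] L) (hf : ∀ x y : L, f ⁅x, y⁆ = ⁅f x, y⁆ + ⁅x, f y⁆) (r : ℕ)
    (v : Zc k L r) : actH f hf r (Submodule.Quotient.mk v) =
      Submodule.Quotient.mk (actZ f hf r v) := rfl

end

end

end Pool.ABG
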