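import Pool.Agent.ABG.Three
import Pool.Agent.ABG.A37
import Pool.Agent.ABG.A38

/-!
# Reduction to three generators
-/

set_option autoImplicit false

open Module ExteriorAlgebra

namespace Pool.ABG

noncomputable section

variable {k X : Type} [Field k]

/-- homomorphisms of the free alternative algebra which agree on the generators are equal -/
theorem FreeAlt.hom_ext {A : Type} [NonUnitalNonAssocRing A] [Module k A]
    [IsScalarTower k A A] [SMulCommClass k A A] (f g : FreeAlt k X →ₙₐ[k] A) (h : ∀ x, f (FreeAlt.of k x) = g (FreeAlt.of k x))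
    (p : FreeAlt k X) : f p = g p := by
  obtain ⟨a, rfl⟩ := FreeAlt.mk_surjective k X p
  have e : f.comp (FreeAlt.mk k X) = g.comp (FreeAlt.mk k X) :=
    FreeNonUnitalNonAssocAlgebra.hom_ext k (fun x => h x)
  exact DFunLike.congr_fun e a

/-- the homology for a larger set of generators contains the homology for a smaller set -/
theorem comp_retract [CharZero k] {X' : Type} (i : X → X') (hi : Function.Injective i) (r : ℕ) :
    (HasTriv k (FreeAlt k X) r → HasTriv k (FreeAlt k X') r) ∧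
      (HasAdj k (FreeAlt k X) r → HasAdj k (FreeAlt k X') r) := by
  classical
  let φ : FreeAlt k X →ₙₐ[k] FreeAlt k X' := FreeAlt.lift (fun x => FreeAlt.of k (i x))
  let ψ : FreeAlt k X' →ₙₐ[k] FreeAlt k X :=
    FreeAlt.lift (fun y => if h : ∃ x, i x = y then FreeAlt.of k h.choose else 0)
  have hr : ∀ p, ψ (φ p) = p := by
    intro p
    have h := FreeAlt.hom_ext (ψ.comp φ) (NonUnitalAlgHom.id k (FreeAlt k X)) (fun x => ?_) p
    · exact h
    · change ψ (φ (FreeAlt.of k x)) = FreeAlt.of k x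
      have h1 : φ (FreeAlt.of k x) = FreeAlt.of k (i x) := FreeAlt.lift_of _ x
      have h2 : ψ (FreeAlt.of k (i x)) =
        (if h : ∃ x', i x' = i x then FreeAlt.of k h.choose else 0) := FreeAlt.lift_of _ (i x)
      have h3 : ∃ x', i x' = i x := ⟨x, rfl⟩
      rw [h1, h2, dif_pos h3, hi h3.choose_spec]
  obtain ⟨f, g, hf, hg, hfa, hgf⟩ := abg_retract
    ({ toFun := φ, map_add' := map_add φ, map_smul' := map_smul φ } :
      FreeAlt k X →ₗ[k] FreeAlt k X') (map_mul φ)
    ({ toFun := ψ, map_add' := map_add ψ, map_smul' := map_smul ψ } :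
      FreeAlt k X' →ₗ[k] FreeAlt k X) (map_mul ψ) hr
  obtain ⟨θ, hθ, hθa⟩ := homology_retract f g hf hg hfa hgf r
  constructor
  · rintro ⟨h, h0, hY⟩
    refine ⟨θ h, fun h1 => h0 (hθ (by rw [h1, map_zero])), fun Y => ?_⟩
    rw [← hθa, hY, map_zero]
  · rintro ⟨u, h0, hY⟩
    refine ⟨θ ∘ₗ u, fun h1 => h0 ?_, fun Y Z => ?_⟩
    · apply LinearMap.ext
      intro Z
      apply hθ
      have h2 := LinearMap.congr_fun h1 Z
      rw [LinearMap.zero_apply, map_zero]
      exact h2
    · rw [LinearMap.comp_apply, LinearMap.comp_apply, hY, hθa]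

/-- at least three generators -/
theorem final (k : Type) [Field k] [CharZero k] (X : Type) [Fintype X]
    (hX : 3 ≤ Fintype.card X) : ∃ r : ℕ, 2 ≤ r ∧ r ≤ 10 ∧
      ((∃ h : Hl k (ABG k (FreeAlt k X)) r, h ≠ 0 ∧
          ∀ Y : LieAlgebra.SpecialLinear.sl (Fin 3) k, actHom k (FreeAlt k X) Y.1 r h = 0) ∨
        (∃ φ : LieAlgebra.SpecialLinear.sl (Fin 3) k →ₗ[k] Hl k (ABG k (FreeAlt k X)) r,
          Function.Injective φ ∧ ∀ Y Z : LieAlgebra.SpecialLinear.sl (Fin 3) k,
            φ ⁅Y, Z⁆ = actHom k (FreeAlt k X) Y.1 r (φ Z))) := by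
  obtain ⟨r, h2, h10, h⟩ := three k
  obtain ⟨i⟩ : Nonempty (Fin 3 ↪ X) := Function.Embedding.nonempty_of_card_le (by
    rw [Fintype.card_fin]; exact hX)
  refine ⟨r, h2, h10, ?_⟩
  rcases h with h | h
  · exact Or.inl ((comp_retract i i.injective r).1 h)
  · exact Or.inr (hasAdj_inj r ((comp_retract i i.injective r).2 h))

end

end Pool.ABG
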