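import Pool.Agent.ABG.Defs

/-!
# The free non-unital alternative algebra
-/

set_option autoImplicit false

namespace Pool.ABG

noncomputable section

variable (k X : Type) [Field k]

/-- membership in the ideal of the free non-unital nonassociative algebra which is generated by the
elements `(aa)b - a(ab)` and `(ba)a - b(aa)` -/
inductive AltMem : FreeNonUnitalNonAssocAlgebra k X → Prop
  | zero : AltMem 0
  | left (a b : FreeNonUnitalNonAssocAlgebra k X) : AltMem (a * a * b - a * (a * b))
  | right (a b : FreeNonUnitalNonAssocAlgebra k X) : AltMem (b * a * a - b * (a * a))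
  | add {a b : FreeNonUnitalNonAssocAlgebra k X} : AltMem a → AltMem b → AltMem (a + b)
  | smul (t : k) {a : FreeNonUnitalNonAssocAlgebra k X} : AltMem a → AltMem (t • a)
  | mul_left (a : FreeNonUnitalNonAssocAlgebra k X) {b : FreeNonUnitalNonAssocAlgebra k X} :
      AltMem b → AltMem (a * b)
  | mul_right {a : FreeNonUnitalNonAssocAlgebra k X} (b : FreeNonUnitalNonAssocAlgebra k X) :
      AltMem a → AltMem (a * b)

/-- the ideal generated by the alternative laws -/
def altIdeal : Submodule k (FreeNonUnitalNonAssocAlgebra k X) where
  carrier := {a | AltMem k X a}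
  add_mem' := AltMem.add
  zero_mem' := AltMem.zero
  smul_mem' t _ h := AltMem.smul t h

/-- the free non-unital alternative algebra on the vector space with basis `X` -/
abbrev FreeAlt : Type := FreeNonUnitalNonAssocAlgebra k X ⧸ altIdeal k X

namespace FreeAlt

/-- left multiplication by an element of the free nonassociative algebra -/
def mulL (a : FreeNonUnitalNonAssocAlgebra k X) : FreeAlt k X →ₗ[k] FreeAlt k X :=
  (altIdeal k X).mapQ (altIdeal k X) (Lm k a) (fun _ h => AltMem.mul_left a h)

theorem mulL_mk (a b : FreeNonUnitalNonAssocAlgebra k X) :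
    mulL k X a (Submodule.Quotient.mk b) = Submodule.Quotient.mk (a * b) := rfl

/-- the multiplication as a bilinear map -/
def mulQ : FreeAlt k X →ₗ[k] FreeAlt k X →ₗ[k] FreeAlt k X :=
  (altIdeal k X).liftQ
    { toFun := mulL k X
      map_add' := fun a b => Submodule.linearMap_qext _ (LinearMap.ext fun c => by
        change (altIdeal k X).mkQ ((a + b) * c) =
          (altIdeal k X).mkQ (a * c) + (altIdeal k X).mkQ (b * c)
        rw [add_mul, map_add])
      map_smul' := fun t a => Submodule.linearMap_qext _ (LinearMap.ext fun c => by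
        change (altIdeal k X).mkQ ((t • a) * c) = t • (altIdeal k X).mkQ (a * c)
        rw [smul_mul_assoc, map_smul]) }
    (fun a h => by
      rw [LinearMap.mem_ker]
      refine Submodule.linearMap_qext _ (LinearMap.ext fun c => ?_)
      exact (Submodule.Quotient.mk_eq_zero _).2 (AltMem.mul_right c h))

theorem mulQ_mk (a b : FreeNonUnitalNonAssocAlgebra k X) :
    mulQ k X (Submodule.Quotient.mk a) (Submodule.Quotient.mk b) =
      Submodule.Quotient.mk (a * b) := rfl

instance : NonUnitalNonAssocRing (FreeAlt k X) :=
  { (inferInstance : AddCommGroup (FreeAlt k X)) with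
    mul := fun a b => mulQ k X a b
    left_distrib := fun a b c => map_add (mulQ k X a) b c
    right_distrib := fun a b c => by
      change mulQ k X (a + b) c = mulQ k X a c + mulQ k X b c
      rw [map_add, LinearMap.add_apply]
    zero_mul := fun a => by
      change mulQ k X 0 a = 0
      rw [map_zero, LinearMap.zero_apply]
    mul_zero := fun a => map_zero (mulQ k X a) }

theorem mul_def (a b : FreeAlt k X) : a * b = mulQ k X a b := rfl

instance : IsScalarTower k (FreeAlt k X) (FreeAlt k X) where
  smul_assoc t a b := by
    change mulQ k X (t • a) b = t • mulQ k X a b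
    rw [map_smul, LinearMap.smul_apply]

instance : SMulCommClass k (FreeAlt k X) (FreeAlt k X) where
  smul_comm t a b := by
    change t • mulQ k X a b = mulQ k X a (t • b)
    rw [map_smul]

/-- the quotient map -/
def mk : FreeNonUnitalNonAssocAlgebra k X →ₙₐ[k] FreeAlt k X where
  toFun := Submodule.Quotient.mk
  map_smul' _ _ := rfl
  map_zero' := rfl
  map_add' _ _ := rfl
  map_mul' _ _ := rfl

theorem mk_surjective : Function.Surjective (mk k X) := Submodule.Quotient.mk_surjective _

theorem mk_eq_zero (a : FreeNonUnitalNonAssocAlgebra k X) (h : AltMem k X a) : mk k X a = 0 :=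
  (Submodule.Quotient.mk_eq_zero _).2 h

instance : IsAlt (FreeAlt k X) where
  left := by
    intro a b
    obtain ⟨a, rfl⟩ := mk_surjective k X a
    obtain ⟨b, rfl⟩ := mk_surjective k X b
    rw [← sub_eq_zero]
    simp only [← map_mul, ← map_sub]
    exact mk_eq_zero _ _ _ (AltMem.left a b)
  right := by
    intro a b
    obtain ⟨a, rfl⟩ := mk_surjective k X a
    obtain ⟨b, rfl⟩ := mk_surjective k X b
    rw [← sub_eq_zero]
    simp only [← map_mul, ← map_sub]
    exact mk_eq_zero _ _ _ (AltMem.right a b)

variable {X}

/-- the generators -/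
def of (x : X) : FreeAlt k X := mk k X (FreeNonUnitalNonAssocAlgebra.of k x)

/-- a nonassociative word in the generators -/
def mon : FreeMagma X → FreeAlt k X
  | .of x => of k x
  | .mul u v => mon u * mon v

theorem mon_of (x : X) : mon k (FreeMagma.of x) = of k x := rfl

theorem mon_mul (u v : FreeMagma X) : mon k (u * v) = mon k u * mon k v := rfl

variable {k}

section lift

variable {A : Type} [NonUnitalNonAssocRing A] [Module k A] [IsScalarTower k A A]
  [SMulCommClass k A A] [IsAlt A]

/-- auxiliary map -/
def liftAux (f : X → A) : FreeNonUnitalNonAssocAlgebra k X →ₙₐ[k] A :=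
  FreeNonUnitalNonAssocAlgebra.lift k f

theorem liftAux_spec (f : X → A) (a : FreeNonUnitalNonAssocAlgebra k X) (h : AltMem k X a) :
    liftAux f a = 0 := by
  induction h with
  | zero => exact map_zero _
  | left a b => rw [map_sub, map_mul, map_mul, map_mul, map_mul, IsAlt.left, sub_self]
  | right a b => rw [map_sub, map_mul, map_mul, map_mul, map_mul, IsAlt.right, sub_self]
  | add _ _ h1 h2 => rw [map_add, h1, h2, add_zero]
  | smul t _ ih => rw [map_smul, ih, smul_zero]
  | mul_left a _ ih => rw [map_mul, ih, mul_zero]
  | mul_right c _ ih => rw [map_mul, ih, zero_mul]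

/-- auxiliary map -/
def liftLin (f : X → A) : FreeAlt k X →ₗ[k] A :=
  (altIdeal k X).liftQ
    { toFun := liftAux f, map_add' := map_add (liftAux f), map_smul' := map_smul (liftAux f) }
    (fun a h => liftAux_spec f a h)

theorem liftLin_mk (f : X → A) (a : FreeNonUnitalNonAssocAlgebra k X) :
    liftLin f (mk k X a) = liftAux f a := rfl

/-- homomorphisms to alternative algebras -/
def lift (f : X → A) : FreeAlt k X →ₙₐ[k] A where
  toFun := liftLin f
  map_smul' := map_smul (liftLin f)
  map_zero' := map_zero (liftLin f)
  map_add' := map_add (liftLin f)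
  map_mul' := by
    intro a b
    obtain ⟨a, rfl⟩ := mk_surjective k X a
    obtain ⟨b, rfl⟩ := mk_surjective k X b
    rw [← map_mul, liftLin_mk, liftLin_mk, liftLin_mk, map_mul]

theorem lift_of (f : X → A) (x : X) : lift f (of k x) = f x :=
  FreeNonUnitalNonAssocAlgebra.lift_of_apply k f x

end lift

end FreeAlt

end

end Pool.ABG
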