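import Pool.Agent.ABG.A07
import Pool.Agent.ABG.A18
import Pool.Agent.ABG.A20

/-!
# The Allison-Benkart-Gao Lie algebra and the action of scalar matrices
-/

set_option autoImplicit false

open scoped TensorProduct

namespace Pool.ABG

noncomputable section

section

variable (k : Type) [Field k] (A : Type) [NonUnitalNonAssocRing A] [Module k A]
  [IsScalarTower k A A] [SMulCommClass k A A]

/-- the Allison-Benkart-Gao Lie algebra of `A`: pairs of a matrix of trace zero over `A` (that is, an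
element of `sl_3 ⊗ A`) and an element of `B A` -/
def ABG : Type := abgSub k A

instance : AddCommGroup (ABG k A) := Submodule.addCommGroup (abgSub k A)

instance : Module k (ABG k A) := Submodule.module (abgSub k A)

variable {k A}

/-- the matrix component -/
def ABG.mat (x : ABG k A) : Matrix (Fin 3) (Fin 3) A := x.1.1

/-- the component in `B A` -/
def ABG.bb (x : ABG k A) : B k A := x.1.2

/-- constructor -/
def ABG.mk (P : Matrix (Fin 3) (Fin 3) A) (hP : P.trace = 0) (b : B k A) : ABG k A := ⟨(P, b), hP⟩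

theorem ABG.ext {x y : ABG k A} (h1 : x.mat = y.mat) (h2 : x.bb = y.bb) : x = y :=
  Subtype.ext (Prod.ext h1 h2)

variable (k A) in
/-- the action of a scalar matrix -/
def act (X : Matrix (Fin 3) (Fin 3) k) : ABG k A →ₗ[k] ABG k A where
  toFun x := ⟨(sact X x.1.1, 0), (sact_lie X X x.1.1).2.1⟩
  map_add' x y := Subtype.ext (Prod.ext (by
    ext i j
    change ∑ l, (X i l • (x.1.1 l j + y.1.1 l j) - X l j • (x.1.1 i l + y.1.1 i l)) =
      ∑ l, (X i l • x.1.1 l j - X l j • x.1.1 i l) + ∑ l, (X i l • y.1.1 l j - X l j • y.1.1 i l)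
    rw [← Finset.sum_add_distrib]
    refine Finset.sum_congr rfl fun l _ => ?_
    rw [smul_add, smul_add]; abel) (add_zero (0 : B k A)).symm)
  map_smul' c x := Subtype.ext (Prod.ext (by
    ext i j
    change ∑ l, (X i l • (c • x.1.1 l j) - X l j • (c • x.1.1 i l)) =
      c • ∑ l, (X i l • x.1.1 l j - X l j • x.1.1 i l)
    rw [Finset.smul_sum]
    refine Finset.sum_congr rfl fun l _ => ?_
    rw [smul_sub, smul_comm c, smul_comm c]) (smul_zero c).symm)

theorem act_mat (X : Matrix (Fin 3) (Fin 3) k) (x : ABG k A) : (act k A X x).mat = sact X x.mat :=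
  rfl

theorem act_bb (X : Matrix (Fin 3) (Fin 3) k) (x : ABG k A) : (act k A X x).bb = 0 := rfl

/-- the matrix with entries `X i j • p` as an element of the Lie algebra (the element `X ⊗ p`) -/
def tens (X : Matrix (Fin 3) (Fin 3) k) (hX : X.trace = 0) (p : A) : ABG k A :=
  ⟨(X.map (fun c => c • p), 0), by
    change (X.map (fun c => c • p)).trace = 0
    simp only [Matrix.trace, Matrix.diag_apply, Matrix.map_apply, ← Finset.sum_smul] at hX ⊢
    rw [hX, zero_smul]⟩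

/-- an element of `B A` as an element of the Lie algebra -/
def inB (b : B k A) : ABG k A := ⟨(0, b), Matrix.trace_zero _ _⟩

end

section

variable {k : Type} [Field k] {A : Type} [NonUnitalNonAssocRing A] [Module k A]
  [IsScalarTower k A A] [SMulCommClass k A A] [IsAlt A] [CharZero k]

instance : Bracket (ABG k A) (ABG k A) :=
  ⟨fun x y => ⟨br k x.1 y.1, (br_self_mem k x.1 y.1).2 x.2 y.2⟩⟩

theorem lie_val (x y : ABG k A) : (⁅x, y⁆ : ABG k A).1 = br k x.1 y.1 := rfl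

theorem lie_mat (x y : ABG k A) : (⁅x, y⁆ : ABG k A).mat =
    comm0 k x.mat y.mat + y.mat.map (DB k x.bb) - x.mat.map (DB k y.bb) := rfl

theorem lie_bb (x y : ABG k A) : (⁅x, y⁆ : ABG k A).bb = pair k x.mat y.mat + BB k x.bb y.bb := rfl

theorem abg_skew (x y : ABG k A) : ⁅x, y⁆ = -⁅y, x⁆ := by
  have h1 : ⁅x + y, x + y⁆ = (0 : ABG k A) := Subtype.ext (br_self_mem k (x + y).1 y.1).1
  have h2 : ⁅x, x⁆ = (0 : ABG k A) := Subtype.ext (br_self_mem k x.1 y.1).1
  have h3 : ⁅y, y⁆ = (0 : ABG k A) := Subtype.ext (br_self_mem k y.1 y.1).1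
  have h4 : ⁅x + y, x + y⁆ = ⁅x, x + y⁆ + ⁅y, x + y⁆ := Subtype.ext (br_bil k x.1 y.1 (x + y).1 0).1
  have h5 : ⁅x, x + y⁆ = ⁅x, x⁆ + ⁅x, y⁆ := Subtype.ext (br_bil k x.1 y.1 x.1 0).2.1
  have h6 : ⁅y, x + y⁆ = ⁅y, x⁆ + ⁅y, y⁆ := Subtype.ext (br_bil k x.1 y.1 y.1 0).2.1
  rw [h4, h5, h6, h2, h3, zero_add, add_zero] at h1
  exact eq_neg_of_add_eq_zero_left h1

instance : LieRing (ABG k A) where
  add_lie x y z := Subtype.ext (br_bil k x.1 y.1 z.1 0).1
  lie_add x y z := Subtype.ext (br_bil k y.1 z.1 x.1 0).2.1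
  lie_self x := Subtype.ext (br_self_mem k x.1 x.1).1
  leibniz_lie x y z := by
    have h : ⁅⁅x, y⁆, z⁆ + ⁅⁅y, z⁆, x⁆ + ⁅⁅z, x⁆, y⁆ = (0 : ABG k A) :=
      Subtype.ext (br_jacobi k x.1 y.1 z.1 x.2 y.2 z.2)
    have h7 : ⁅x, ⁅y, z⁆⁆ = -⁅⁅y, z⁆, x⁆ := abg_skew _ _
    have h8 : ⁅y, ⁅x, z⁆⁆ = ⁅⁅z, x⁆, y⁆ := by
      rw [abg_skew y, abg_skew x z]
      have h9 : ⁅-⁅z, x⁆, y⁆ + ⁅⁅z, x⁆, y⁆ = (0 : ABG k A) := by
        have h10 : ⁅-⁅z, x⁆ + ⁅z, x⁆, y⁆ = ⁅-⁅z, x⁆, y⁆ + ⁅⁅z, x⁆, y⁆ :=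
          Subtype.ext (br_bil k (-⁅z, x⁆ : ABG k A).1 (⁅z, x⁆ : ABG k A).1 y.1 0).1
        rw [← h10, neg_add_cancel]
        have h11 : ⁅(0 : ABG k A) + 0, y⁆ = ⁅(0 : ABG k A), y⁆ + ⁅(0 : ABG k A), y⁆ :=
          Subtype.ext (br_bil k (0 : ABG k A).1 (0 : ABG k A).1 y.1 0).1
        rw [add_zero] at h11
        exact left_eq_add.1 h11
      exact neg_eq_of_add_eq_zero_right h9
    rw [h7, h8, ← sub_eq_zero, ← neg_eq_zero, ← h]
    abel

instance : LieAlgebra k (ABG k A) where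
  lie_smul c x y := Subtype.ext (br_bil k y.1 y.1 x.1 c).2.2.2

end

end

end Pool.ABG
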