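import Pool.Agent.ABG.FreeAlt
import Pool.Agent.ABG.Lie

/-!
# The gradings of the free alternative algebra and of the space `B`
-/

set_option autoImplicit false

open scoped TensorProduct

namespace Pool.ABG

noncomputable section

variable (k : Type) [Field k] (X : Type)

/-- the component of degree `n` of the free alternative algebra: the span of the nonassociative
words of length `n` -/
def gr (n : ℕ) : Submodule k (FreeAlt k X) :=
  Submodule.span k {x | ∃ u : FreeMagma X, u.length = n ∧ x = FreeAlt.mon k u}

/-- the component of degree `n` of the space `B` of the free alternative algebra -/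
def Bgr (n : ℕ) : Submodule k (B k (FreeAlt k X)) :=
  Submodule.span k {x | ∃ i j : ℕ, i + j = n ∧ ∃ p ∈ gr k X i, ∃ q ∈ gr k X j, x = w k p q}

/-- a basis of the space of matrices of trace zero -/
def Mt : Fin 8 → Matrix (Fin 3) (Fin 3) k :=
  ![Matrix.single 0 1 1, Matrix.single 1 2 1, Matrix.single 0 2 1, Matrix.single 1 0 1,
    Matrix.single 2 1 1, Matrix.single 2 0 1, Matrix.single 0 0 1 - Matrix.single 1 1 1,
    Matrix.single 1 1 1 - Matrix.single 2 2 1]

theorem Mt_trace (s : Fin 8) : (Mt k s).trace = 0 := by
  fin_cases s
  · exact Matrix.trace_single_eq_of_ne _ _ _ (by decide)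
  · exact Matrix.trace_single_eq_of_ne _ _ _ (by decide)
  · exact Matrix.trace_single_eq_of_ne _ _ _ (by decide)
  · exact Matrix.trace_single_eq_of_ne _ _ _ (by decide)
  · exact Matrix.trace_single_eq_of_ne _ _ _ (by decide)
  · exact Matrix.trace_single_eq_of_ne _ _ _ (by decide)
  · exact (Matrix.trace_sub _ _).trans (by
      rw [Matrix.trace_single_eq_same, Matrix.trace_single_eq_same, sub_self])
  · exact (Matrix.trace_sub _ _).trans (by
      rw [Matrix.trace_single_eq_same, Matrix.trace_single_eq_same, sub_self])

end

end Pool.ABG
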