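import Pool.Agent.ABG.Ext
import Pool.Agent.ABG.Grade
import Pool.Agent.ABG.A33

/-!
# Trivial and adjoint components of the homology
-/

set_option autoImplicit false

open Module ExteriorAlgebra

namespace Pool.ABG

noncomputable section

variable {k : Type} [Field k] {A : Type} [NonUnitalNonAssocRing A] [Module k A]
  [IsScalarTower k A A] [SMulCommClass k A A] [IsAlt A] [CharZero k]

/-- the scalar matrices act by derivations -/
theorem act_der (Y : Matrix (Fin 3) (Fin 3) k) (x y : ABG k A) :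
    act k A Y ⁅x, y⁆ = ⁅act k A Y x, y⁆ + ⁅x, act k A Y y⁆ := (act_facts Y Y x y).1

variable (k A) in
/-- the action of a scalar matrix on the homology of the Allison-Benkart-Gao Lie algebra -/
def actHom (Y : Matrix (Fin 3) (Fin 3) k) (r : ℕ) :
    Hl k (ABG k A) r →ₗ[k] Hl k (ABG k A) r := actH (act k A Y) (act_der Y) r

variable (k A) in
/-- the homology of degree `r` contains a nonzero vector which is annihilated by `sl_3` -/
def HasTriv (r : ℕ) : Prop :=
  ∃ h : Hl k (ABG k A) r, h ≠ 0 ∧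
    ∀ Y : LieAlgebra.SpecialLinear.sl (Fin 3) k, actHom k A Y.1 r h = 0

variable (k A) in
/-- there is a nonzero homomorphism of `sl_3`-modules from the adjoint module to the homology of
degree `r` -/
def HasAdj (r : ℕ) : Prop :=
  ∃ φ : LieAlgebra.SpecialLinear.sl (Fin 3) k →ₗ[k] Hl k (ABG k A) r, φ ≠ 0 ∧
    ∀ Y Z : LieAlgebra.SpecialLinear.sl (Fin 3) k, φ ⁅Y, Z⁆ = actHom k A Y.1 r (φ Z)

theorem act_add' (Y Z : Matrix (Fin 3) (Fin 3) k) :
    act k A (Y + Z) = act k A Y + act k A Z :=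
  LinearMap.ext fun x => (act_facts Y Z x x).2.2.2.1

theorem act_smul' (c : k) (Y : Matrix (Fin 3) (Fin 3) k) : act k A (c • Y) = c • act k A Y :=
  LinearMap.ext fun x => (act_facts Y Y x x).2.2.2.2.1 c

theorem act_zero' : act k A (0 : Matrix (Fin 3) (Fin 3) k) = 0 := by
  have h := act_smul' (A := A) (0 : k) (0 : Matrix (Fin 3) (Fin 3) k)
  rwa [zero_smul, zero_smul] at h

/-- a linear condition on matrices which holds for the elementary matrices -/
theorem rho_act_mem (v : ExteriorAlgebra k (ABG k A)) (S : Submodule k (ExteriorAlgebra k (ABG k A)))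
    (ψ : Matrix (Fin 3) (Fin 3) k →ₗ[k] ExteriorAlgebra k (ABG k A))
    (h : ∀ a c, rho (act k A (Matrix.single a c 1)) v - ψ (Matrix.single a c 1) ∈ S)
    (Y : Matrix (Fin 3) (Fin 3) k) : rho (act k A Y) v - ψ Y ∈ S := by
  induction Y using Matrix.induction_on' with
  | h_zero =>
    rw [act_zero', rho_zero, map_zero, sub_zero]
    exact S.zero_mem
  | h_add p q hp hq =>
    have e : rho (act k A (p + q)) v - ψ (p + q) =
        (rho (act k A p) v - ψ p) + (rho (act k A q) v - ψ q) := by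
      rw [act_add', rho_add, map_add]; abel
    rw [e]
    exact S.add_mem hp hq
  | h_std_basis i j x =>
    have e : (Matrix.single i j x : Matrix (Fin 3) (Fin 3) k) = x • Matrix.single i j 1 := by
      rw [Matrix.smul_single, smul_eq_mul, mul_one]
    rw [e, act_smul', rho_smul, map_smul, ← smul_sub]
    exact S.smul_mem _ (h i j)

/-- no trivial component: the invariants modulo boundaries are boundaries -/
theorem of_not_hasTriv (r : ℕ) (h : ¬ HasTriv k A r) (v : ExteriorAlgebra k (ABG k A))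
    (hv : v ∈ ⋀[k]^r (ABG k A)) (hd : dd k (ABG k A) v = 0)
    (hF : ∀ a c, rho (act k A (Matrix.single a c 1)) v ∈ Bd k (ABG k A) r) :
    v ∈ Bd k (ABG k A) r := by
  by_contra hn
  apply h
  have hz : v ∈ Zc k (ABG k A) r := ⟨hv, hd⟩
  refine ⟨Submodule.Quotient.mk ⟨v, hz⟩, ?_, ?_⟩
  · intro h0
    rw [Submodule.Quotient.mk_eq_zero] at h0
    exact hn h0
  · intro Y
    change Submodule.Quotient.mk (actZ (act k A Y.1) (act_der Y.1) r ⟨v, hz⟩) = _
    rw [Submodule.Quotient.mk_eq_zero]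
    change rho (act k A Y.1) v ∈ Bd k (ABG k A) r
    have h2 := rho_act_mem v (Bd k (ABG k A) r) 0 (fun a c => by
      rw [LinearMap.zero_apply, sub_zero]; exact hF a c) Y.1
    rwa [LinearMap.zero_apply, sub_zero] at h2

/-- no adjoint component: homomorphisms modulo boundaries have values in the boundaries -/
theorem of_not_hasAdj (r : ℕ) (h : ¬ HasAdj k A r)
    (phi : Matrix (Fin 3) (Fin 3) k →ₗ[k] ExteriorAlgebra k (ABG k A))
    (hv : ∀ Y, phi Y ∈ ⋀[k]^r (ABG k A)) (hd : ∀ Y, dd k (ABG k A) (phi Y) = 0)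
    (hF : ∀ a c Y, rho (act k A (Matrix.single a c 1)) (phi Y) -
        phi (Matrix.single a c 1 * Y - Y * Matrix.single a c 1) ∈ Bd k (ABG k A) r) :
    phi (Matrix.single 0 2 1) ∈ Bd k (ABG k A) r := by
  by_contra hn
  apply h
  have hz : ∀ Y, phi Y ∈ Zc k (ABG k A) r := fun Y => ⟨hv Y, hd Y⟩
  let phi' : Matrix (Fin 3) (Fin 3) k →ₗ[k] Zc k (ABG k A) r := phi.codRestrict _ hz
  let φ : LieAlgebra.SpecialLinear.sl (Fin 3) k →ₗ[k] Hl k (ABG k A) r :=
    { toFun := fun Y => Submodule.Quotient.mk (phi' Y.1)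
      map_add' := fun Y Z => by
        rw [← Submodule.Quotient.mk_add, ← map_add]; rfl
      map_smul' := fun c Y => by
        rw [RingHom.id_apply, ← Submodule.Quotient.mk_smul, ← map_smul]; rfl }
  refine ⟨φ, ?_, ?_⟩
  · intro h0
    have h1 : φ (LieAlgebra.SpecialLinear.single (R := k) (i := (0 : Fin 3)) (j := 2)
        (by decide) 1) = 0 := by rw [h0, LinearMap.zero_apply]
    have h2 : (Submodule.Quotient.mk (phi' (Matrix.single 0 2 1)) : Hl k (ABG k A) r) = 0 := h1
    rw [Submodule.Quotient.mk_eq_zero] at h2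
    exact hn h2
  · intro Y Z
    have h3 : rho (act k A Y.1) (phi Z.1) - phi (Y.1 * Z.1 - Z.1 * Y.1) ∈ Bd k (ABG k A) r := by
      have h4 := rho_act_mem (phi Z.1) (Bd k (ABG k A) r)
        (phi ∘ₗ (LinearMap.mulRight k Z.1 - LinearMap.mulLeft k Z.1)) (fun a c => hF a c Z.1) Y.1
      exact h4
    change (Submodule.Quotient.mk (phi' (Y.1 * Z.1 - Z.1 * Y.1)) : Hl k (ABG k A) r) =
      Submodule.Quotient.mk (actZ (act k A Y.1) (act_der Y.1) r (phi' Z.1))
    rw [eq_comm, Submodule.Quotient.eq]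
    exact h3

end

end Pool.ABG
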