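import Pool.Agent.ABG.Defs
import Pool.Agent.ABG.A01
import Pool.Agent.ABG.A02
import Pool.Agent.ABG.A03
import Pool.Agent.ABG.A04

/-!
# The Allison-Benkart-Gao Lie algebra: definition of the bracket
-/

set_option autoImplicit false

open scoped TensorProduct

namespace Pool.ABG

noncomputable section

variable (k : Type) [Field k] {A : Type} [NonUnitalNonAssocRing A] [Module k A]
  [IsScalarTower k A A] [SMulCommClass k A A]

/-- elements of `B A` are sums of elements `w p q` -/
theorem B_ind {C : B k A → Prop} (hw : ∀ p q : A, C (w k p q))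
    (hadd : ∀ b c, C b → C c → C (b + c)) (b : B k A) : C b := by
  obtain ⟨t, rfl⟩ := Submodule.Quotient.mk_surjective _ b
  induction t using TensorProduct.induction_on with
  | zero =>
    have h := hw 0 0
    rw [w, TensorProduct.zero_tmul] at h
    exact h
  | tmul p q => exact hw p q
  | add x y hx hy => exact hadd _ _ hx hy

/-- `p ⊗ q ↦ D_{p,q}` -/
def DT : A ⊗[k] A →ₗ[k] A →ₗ[k] A :=
  TensorProduct.lift (LinearMap.mk₂ k (D k)
    (fun p p' q => LinearMap.ext fun r => by
      simp only [LinearMap.add_apply, D_apply, add_mul, mul_add]; abel)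
    (fun c p q => LinearMap.ext fun r => by
      simp only [LinearMap.smul_apply, D_apply, smul_mul_assoc, mul_smul_comm, smul_add, smul_sub])
    (fun p q q' => LinearMap.ext fun r => by
      simp only [LinearMap.add_apply, D_apply, add_mul, mul_add]; abel)
    (fun c p q => LinearMap.ext fun r => by
      simp only [LinearMap.smul_apply, D_apply, smul_mul_assoc, mul_smul_comm, smul_add,
        smul_sub]))

theorem DT_tmul (p q : A) : DT k (p ⊗ₜ[k] q) = D k p q := rfl

/-- the map `p ⊗ q ↦ f p ∧ q + p ∧ f q` -/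
def derT : (A →ₗ[k] A) →ₗ[k] (A ⊗[k] A →ₗ[k] B k A) where
  toFun f := (relB k A).mkQ ∘ₗ (TensorProduct.map f LinearMap.id + TensorProduct.map LinearMap.id f)
  map_add' f g := TensorProduct.ext' fun p q => by
    simp only [LinearMap.comp_apply, LinearMap.add_apply, TensorProduct.map_tmul,
      LinearMap.id_apply, TensorProduct.add_tmul, TensorProduct.tmul_add, map_add]
    abel
  map_smul' c f := TensorProduct.ext' fun p q => by
    simp only [LinearMap.comp_apply, LinearMap.add_apply, LinearMap.smul_apply,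
      TensorProduct.map_tmul, LinearMap.id_apply, ← TensorProduct.smul_tmul',
      TensorProduct.tmul_smul, map_add, map_smul, RingHom.id_apply, smul_add]

theorem derT_tmul (f : A →ₗ[k] A) (p q : A) :
    derT k f (p ⊗ₜ[k] q) = w k (f p) q + w k p (f q) := by
  change (relB k A).mkQ (TensorProduct.map f LinearMap.id (p ⊗ₜ[k] q) +
    TensorProduct.map LinearMap.id f (p ⊗ₜ[k] q)) = _
  rw [TensorProduct.map_tmul, TensorProduct.map_tmul, map_add]
  rfl

theorem derT_rel (f : A →ₗ[k] A) (hf : ∀ p q : A, f (p * q) = f p * q + p * f q) :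
    relB k A ≤ LinearMap.ker (derT k f) := by
  refine Submodule.span_le.2 ?_
  rintro x (⟨p, rfl⟩ | ⟨p, q, r, rfl⟩)
  · rw [SetLike.mem_coe, LinearMap.mem_ker, derT_tmul, (w_facts k p p (f p) p 0).2.2.2.2.2.1,
      neg_add_cancel]
  · rw [SetLike.mem_coe, LinearMap.mem_ker, map_add, map_add, derT_tmul, derT_tmul, derT_tmul,
      hf, hf, hf]
    have h1 := (w_facts k (f p) p q r 0).2.2.2.2.2.2
    have h2 := (w_facts k p p (f q) r 0).2.2.2.2.2.2
    have h3 := (w_facts k p p q (f r) 0).2.2.2.2.2.2
    rw [(w_facts k (f p * q) (p * f q) r r 0).1, (w_facts k (f q * r) (q * f r) p r 0).1,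
      (w_facts k (f r * p) (r * f p) q r 0).1]
    rw [← add_zero (0 : B k A), ← add_zero (0 : B k A)]
    nth_rewrite 1 [← h1]
    nth_rewrite 1 [← h2]
    nth_rewrite 1 [← h3]
    abel

variable [IsAlt A] [CharZero k]

theorem D_self (p : A) : D k p p = 0 := by
  apply LinearMap.ext
  intro r
  rw [D_apply, sub_self, sub_self, add_zero, zero_add, ← neg_sub, LinearMap.zero_apply,
    neg_eq_zero]
  exact (as_facts p r r).2.2.1

theorem DT_rel : relB k A ≤ LinearMap.ker (DT k (A := A)) := by
  refine Submodule.span_le.2 ?_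
  rintro x (⟨p, rfl⟩ | ⟨p, q, r, rfl⟩)
  · rw [SetLike.mem_coe, LinearMap.mem_ker, DT_tmul, D_self]
  · rw [SetLike.mem_coe, LinearMap.mem_ker, map_add, map_add, DT_tmul, DT_tmul, DT_tmul]
    exact LinearMap.ext fun s => D_cyc k p q r s

/-- the derivation of `A` given by an element of `B A` -/
def DB : B k A →ₗ[k] A →ₗ[k] A := (relB k A).liftQ (DT k) (DT_rel k)

theorem DB_w (p q : A) : DB k (w k p q) = D k p q := rfl

theorem DB_der (b : B k A) (p q : A) : DB k b (p * q) = DB k b p * q + p * DB k b q := by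
  induction b using B_ind with
  | hw r s => rw [DB_w, D_der]
  | hadd b c hb hc => simp only [map_add, LinearMap.add_apply, hb, hc, add_mul, mul_add]; abel

/-- the bracket of `B A` -/
def BB : B k A →ₗ[k] B k A →ₗ[k] B k A where
  toFun b := (relB k A).liftQ (derT k (DB k b)) (derT_rel k _ (DB_der k b))
  map_add' b c := Submodule.linearMap_qext _ (by
    rw [Submodule.liftQ_mkQ, map_add, map_add, LinearMap.add_comp, Submodule.liftQ_mkQ,
      Submodule.liftQ_mkQ])
  map_smul' t b := Submodule.linearMap_qext _ (by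
    rw [Submodule.liftQ_mkQ, map_smul, map_smul, LinearMap.smul_comp, Submodule.liftQ_mkQ]; rfl)

theorem BB_w (b : B k A) (p q : A) :
    BB k b (w k p q) = w k (DB k b p) q + w k p (DB k b q) := derT_tmul k _ p q

variable (A) in
/-- pairs of a matrix of trace zero over `A` and an element of `B A` -/
def abgSub : Submodule k (Matrix (Fin 3) (Fin 3) A × B k A) where
  carrier := {x | x.1.trace = 0}
  add_mem' := fun {x y} (hx : x.1.trace = 0) (hy : y.1.trace = 0) => by
    change (x.1 + y.1).trace = 0
    rw [Matrix.trace_add, hx, hy, add_zero]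
  zero_mem' := Matrix.trace_zero _ _
  smul_mem' := fun c x (hx : x.1.trace = 0) => by
    change (c • x.1).trace = 0
    rw [Matrix.trace_smul, hx, smul_zero]

/-- the bracket on pairs -/
def br (x y : Matrix (Fin 3) (Fin 3) A × B k A) : Matrix (Fin 3) (Fin 3) A × B k A :=
  (comm0 k x.1 y.1 + y.1.map (DB k x.2) - x.1.map (DB k y.2), pair k x.1 y.1 + BB k x.2 y.2)

end

end Pool.ABG
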