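import Pool.Agent.ABG.Homol
import Pool.Agent.ABG.A22
import Pool.Agent.ABG.A26
import Pool.Agent.ABG.A28
import Pool.Agent.ABG.A29
import Pool.Agent.ABG.A31
import Pool.Agent.ABG.A32
import Pool.Agent.ABG.A33
import Pool.Agent.ABG.A34
import Pool.Agent.ABG.A35

/-!
# The consequences of the absence of trivial and adjoint components for the dimensions
-/

set_option autoImplicit false

open Module ExteriorAlgebra

namespace Pool.ABG

noncomputable section

/-- the dimension of the component of degree `n` of the free alternative algebra -/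
def da (k X : Type) [Field k] (n : ℕ) : ℕ := finrank k (gr k X n)

/-- the dimension of the component of degree `n` of the space `B` of the free alternative
algebra -/
def db (k X : Type) [Field k] (n : ℕ) : ℕ := finrank k (Bgr k X n)

theorem da_zero (k X : Type) [Field k] [Finite X] : da k X 0 = 0 := by
  rw [da, (gr_facts k X).2.1, finrank_bot]

theorem db_zero (k X : Type) [Field k] [CharZero k] [Finite X] : db k X 0 = 0 := by
  rw [db, (Bgr_facts k X).1, finrank_bot]

theorem db_one (k X : Type) [Field k] [CharZero k] [Finite X] : db k X 1 = 0 := by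
  rw [db, (Bgr_facts k X).2.1, finrank_bot]

theorem degJ_pos (a b : ℕ → ℕ) (ha : a 0 = 0) (hb : b 0 = 0) (j : JJ a b) : 1 ≤ degJ j := by
  rcases j with ⟨s, ⟨n, i⟩⟩ | ⟨n, i⟩
  · rcases Nat.eq_zero_or_pos n with h | h
    · subst h
      exact (Nat.not_lt_zero _ (lt_of_lt_of_eq i.2 ha)).elim
    · exact h
  · rcases Nat.eq_zero_or_pos n with h | h
    · subst h
      exact (Nat.not_lt_zero _ (lt_of_lt_of_eq i.2 hb)).elim
    · exact h

theorem degJ_finite (a b : ℕ → ℕ) (m : ℕ) : Finite {j : JJ a b // degJ j = m} := by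
  refine Finite.of_surjective (α := (Fin 8 × Fin (a m)) ⊕ Fin (b m))
    (fun x => match x with
      | .inl y => ⟨.inl (y.1, ⟨m, y.2⟩), rfl⟩
      | .inr y => ⟨.inr ⟨m, y⟩, rfl⟩) ?_
  rintro ⟨⟨s, ⟨n, i⟩⟩ | ⟨n, i⟩, h⟩
  · change n = m at h
    subst h
    exact ⟨.inl (s, i), rfl⟩
  · change n = m at h
    subst h
    exact ⟨.inr i, rfl⟩

section

variable {k : Type} [Field k] {A : Type} [NonUnitalNonAssocRing A] [Module k A]
  [IsScalarTower k A A] [SMulCommClass k A A]

theorem tens_smul (Y : Matrix (Fin 3) (Fin 3) k) (hY : Y.trace = 0) (c : k) (p : A) :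
    tens Y hY (c • p) = c • tens Y hY p := by
  refine ABG.ext ?_ (smul_zero c).symm
  ext i j
  exact smul_comm (Y i j) c p

theorem inB_add (b c : B k A) : inB (b + c) = inB b + inB c :=
  ABG.ext (add_zero (0 : Matrix (Fin 3) (Fin 3) A)).symm rfl

theorem inB_smul (t : k) (b : B k A) : inB (t • b) = t • inB b :=
  ABG.ext (smul_zero t).symm rfl

end

section

variable (k X : Type) [Field k] [CharZero k] [Finite X]

/-- the alternating sums of numbers of sets vanish when the homology has no trivial and no adjoint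
component -/
theorem ec_free (n : ℕ) (hn : 2 ≤ n)
    (hT : ∀ r, 2 ≤ r → r ≤ n → ¬ HasTriv k (FreeAlt k X) r)
    (hA : ∀ r, 2 ≤ r → r ≤ n → ¬ HasAdj k (FreeAlt k X) r)
    (lam : Fin 3 → ℤ) (hlam : lam = 0 ∨ lam = theta) :
    ∑ r ∈ Finset.range (n + 1), (-1 : ℤ) ^ r *
      wal (fun mu => (cnt (degJ (a := da k X) (b := db k X)) wtJ n r mu : ℤ)) lam = 0 := by
  obtain ⟨bA, hbA⟩ : ∃ b : Basis (Σ n, Fin (da k X n)) k (FreeAlt k X),
    ∀ i : (Σ n, Fin (da k X n)), b i ∈ gr k X i.1 := gr_basis k X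
  obtain ⟨bB, hbB⟩ : ∃ b : Basis (Σ n, Fin (db k X n)) k (B k (FreeAlt k X)),
    ∀ i : (Σ n, Fin (db k X n)), b i ∈ Bgr k X i.1 := (Bgr_facts k X).2.2
  obtain ⟨b, hb1, hb2⟩ : ∃ b : Basis (JJ (da k X) (db k X)) k (ABG k (FreeAlt k X)),
    (∀ s i, b (Sum.inl (s, i)) = tens (Mt k s) (Mt_trace k s) (bA i)) ∧
      (∀ j, b (Sum.inr j) = inB (bB j)) := abg_basis bA bB
  obtain ⟨δ, hδ, hδn⟩ := gr_der k X
  obtain ⟨g, hgd, hgact, hgt, hgw⟩ := abg_der δ hδ
  have hgB : ∀ n, ∀ v ∈ Bgr k X n, g (inB v) = (n : k) • inB v := by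
    intro n v hv
    induction hv using Submodule.span_induction with
    | mem x hx =>
      obtain ⟨i, j, hij, p, hp, q, hq, rfl⟩ := hx
      rw [hgw, hδn i p hp, hδn j q hq, ← inB_add, (w_facts k p p q q _).2.2.1,
        (w_facts k p p q q _).2.2.2.1, ← add_smul, ← Nat.cast_add, hij, inB_smul]
    | zero =>
      have h0 : (inB (0 : B k (FreeAlt k X)) : ABG k (FreeAlt k X)) = 0 := rfl
      rw [h0, map_zero, smul_zero]
    | add x y _ _ hx hy => rw [inB_add, map_add, hx, hy, smul_add]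
    | smul t x _ hx => rw [inB_smul, map_smul, hx, smul_comm]
  refine main_ec (L := ABG k (FreeAlt k X)) (J := JJ (da k X) (db k X)) b degJ wtJ
    (degJ_pos _ _ (da_zero k X) (db_zero k X)) (degJ_finite _ _) g ?_ hgd
    (fun a c => act k (FreeAlt k X) (Matrix.single a c 1)) (fun a c x y => act_der _ x y)
    (fun a c x => hgact _ x) ?_ ?_ ?_ ?_ n hn ?_ ?_ lam hlam
  · rintro (⟨s, i⟩ | j)
    · rw [hb1, hgt, hδn i.1 _ (hbA i), tens_smul]
      rfl
    · rw [hb2, hgB j.1 _ (hbB j)]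
      rfl
  · rintro a (⟨s, i⟩ | j)
    · rw [hb1]
      exact act_Mt a s (bA i)
    · rw [hb2, (act_facts _ 0 0 0).2.2.2.2.2.2]
      change (0 : ABG k (FreeAlt k X)) = (((0 : Fin 3 → ℤ) a : ℤ) : k) • _
      rw [Pi.zero_apply, Int.cast_zero, zero_smul]
  · intro a b' c d x
    have h := (act_facts (Matrix.single a b' (1 : k)) (Matrix.single c d 1) x x).2.1
    rw [h]
    by_cases h1 : b' = c
    · subst h1
      by_cases h2 : d = a
      · subst h2
        rw [Matrix.single_mul_single_same, Matrix.single_mul_single_same, if_pos rfl, if_pos rfl,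
          mul_one, sub_eq_add_neg, act_add', ← neg_one_smul k (Matrix.single b' b' (1 : k)),
          act_smul', neg_one_smul, LinearMap.add_apply, LinearMap.neg_apply, sub_eq_add_neg]
      · rw [Matrix.single_mul_single_same, Matrix.single_mul_single_of_ne _ _ _ _ h2, if_pos rfl,
          if_neg h2, mul_one, sub_zero, sub_zero]
    · by_cases h2 : d = a
      · subst h2
        rw [Matrix.single_mul_single_of_ne _ _ _ _ h1, Matrix.single_mul_single_same, if_neg h1,
          if_pos rfl, mul_one, zero_sub, zero_sub, ← neg_one_smul k (Matrix.single c b' (1 : k)),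
          act_smul', neg_one_smul, LinearMap.neg_apply]
      · rw [Matrix.single_mul_single_of_ne _ _ _ _ h1, Matrix.single_mul_single_of_ne _ _ _ _ h2,
          if_neg h1, if_neg h2, sub_zero, sub_zero, act_zero', LinearMap.zero_apply]
  · intro x
    have h := (act_facts (0 : Matrix (Fin 3) (Fin 3) k) 0 x x).2.2.1
    have e : (1 : Matrix (Fin 3) (Fin 3) k) =
        Matrix.single 0 0 1 + Matrix.single 1 1 1 + Matrix.single 2 2 1 := by
      ext i j
      fin_cases i <;> fin_cases j <;> simp [Matrix.single]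
    rw [e, act_add', act_add'] at h
    exact h
  · rintro (⟨s, i⟩ | j) hj
    · rw [hb1]
      refine abg_gen _ (fun i' j' => ?_)
      change (Mt k s i' j') • bA i ∈ _
      exact Submodule.smul_mem _ _ ((gr_facts k X).2.2.2.2 i.1 hj (hbA i))
    · rw [hb2]
      refine abg_gen _ (fun i' j' => ?_)
      change (0 : FreeAlt k X) ∈ _
      exact Submodule.zero_mem _
  · intro r h2 hrn v hv hd hF
    exact of_not_hasTriv r (hT r h2 hrn) v hv hd hF
  · intro r h2 hrn phi hv hd hF
    exact of_not_hasAdj r (hA r h2 hrn) phi hv hd hF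

theorem wal_sum (s : Finset ℕ) (c : ℕ → ℤ) (m : ℕ → (Fin 3 → ℤ) → ℤ) (lam : Fin 3 → ℤ) :
    ∑ r ∈ s, c r * wal (m r) lam = wal (fun mu => ∑ r ∈ s, c r * m r mu) lam := by
  unfold wal
  simp only [← Finset.sum_sub_distrib, ← Finset.sum_add_distrib]
  refine Finset.sum_congr rfl fun r _ => ?_
  ring

theorem wal_congr (m m' : (Fin 3 → ℤ) → ℤ) (lam : Fin 3 → ℤ) (n : ℕ)
    (hlam : lam = 0 ∨ lam = theta)
    (h : ∀ mu : Fin 3 → ℤ, mu 0 + mu 1 + mu 2 = 0 → 0 ≤ (n : ℤ) + mu 0 → 0 ≤ (n : ℤ) - mu 2 →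
      m mu = m' mu) : wal m lam = wal m' lam := by
  have key : ∀ x y z : ℤ, x + y + z = 0 → 0 ≤ x → z ≤ 0 → m (lam + ![x, y, z]) =
      m' (lam + ![x, y, z]) := by
    intro x y z hs hx hz
    have h0 : (lam + ![x, y, z]) 0 = lam 0 + x := rfl
    have h1 : (lam + ![x, y, z]) 1 = lam 1 + y := rfl
    have h2 : (lam + ![x, y, z]) 2 = lam 2 + z := rfl
    have hl : lam 0 + lam 1 + lam 2 = 0 ∧ 0 ≤ lam 0 ∧ lam 2 ≤ 0 := by
      rcases hlam with rfl | rfl
      · exact ⟨rfl, le_refl _, le_refl _⟩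
      · exact ⟨rfl, by decide, by decide⟩
    have hn : (0 : ℤ) ≤ n := Int.natCast_nonneg n
    apply h
    · rw [h0, h1, h2]; linarith [hl.1]
    · rw [h0]; linarith [hl.2.1]
    · rw [h2]; linarith [hl.2.2]
  have k0 : m lam = m' lam := by
    have h3 := key 0 0 0 (by norm_num) (le_refl _) (le_refl _)
    have e : lam + ![0, 0, 0] = lam := by
      ext i; fin_cases i <;> exact add_zero _
    rwa [e] at h3
  unfold wal
  rw [k0, key 1 (-1) 0 (by norm_num) (by norm_num) (by norm_num),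
    key 0 1 (-1) (by norm_num) (by norm_num) (by norm_num),
    key 2 (-1) (-1) (by norm_num) (by norm_num) (by norm_num),
    key 1 1 (-2) (by norm_num) (by norm_num) (by norm_num),
    key 2 0 (-2) (by norm_num) (by norm_num) (by norm_num)]

/-- the equations for the dimensions -/
theorem ec_cf (n : ℕ) (hn : 2 ≤ n)
    (hT : ∀ r, 2 ≤ r → r ≤ n → ¬ HasTriv k (FreeAlt k X) r)
    (hA : ∀ r, 2 ≤ r → r ≤ n → ¬ HasAdj k (FreeAlt k X) r)
    (lam : Fin 3 → ℤ) (hlam : lam = 0 ∨ lam = theta) :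
    wal (cf (da k X) (db k X) n) lam = 0 := by
  have h := ec_free k X n hn hT hA lam hlam
  rw [wal_sum (Finset.range (n + 1)) (fun r => (-1 : ℤ) ^ r)
    (fun r mu => (cnt (degJ (a := da k X) (b := db k X)) wtJ n r mu : ℤ)) lam] at h
  rw [← h]
  refine (wal_congr _ _ lam n hlam fun mu h1 h2 h3 => ?_).symm
  exact count_cf (da k X) (db k X) (da_zero k X) (db_zero k X) n mu h1 h2 h3

end

end

end Pool.ABG
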