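import Pool.Agent.ABG.Defs
import Pool.Agent.ABG.CE

/-!
# The Allison-Benkart-Gao Lie algebra and its homology, described by their characteristic properties
-/

set_option autoImplicit false

open ExteriorAlgebra

namespace Pool.ABG

noncomputable section

section

variable (k : Type) [Field k]

/-- `A` with the family `i` of elements is the free non-unital alternative algebra on `X`, that is
the algebra `Alt(V)` for the vector space `V` with basis `X`: every map from `X` to an alternative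
algebra extends uniquely to a homomorphism of (non-unital) algebras -/
def IsFreeAlt {X A : Type} [NonUnitalNonAssocRing A] [Module k A] (i : X → A) : Prop :=
  ∀ (A' : Type) [NonUnitalNonAssocRing A'] [Module k A'] [IsScalarTower k A' A']
    [SMulCommClass k A' A'] [IsAlt A'] (f : X → A'),
    ∃! h : A →ₙₐ[k] A', ∀ x, h (i x) = f x

variable {k} {A : Type} [NonUnitalNonAssocRing A] [Module k A]

/-- the element `Y ⊗ p` of `gl_3 ⊗ A` as a matrix over `A` -/
def tm (Y : Matrix (Fin 3) (Fin 3) k) (p : A) : Matrix (Fin 3) (Fin 3) A :=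
  Matrix.of fun i j => Y i j • p

/-- the product `{Y, Z} = (YZ + ZY)/2 - tr(YZ)/3` -/
def jp (Y Z : Matrix (Fin 3) (Fin 3) k) : Matrix (Fin 3) (Fin 3) k :=
  (2⁻¹ : k) • (Y * Z + Z * Y) - ((3⁻¹ : k) * (Y * Z).trace) • (1 : Matrix (Fin 3) (Fin 3) k)

end

section

variable {k : Type} [Field k] {A : Type} [NonUnitalNonAssocRing A] [Module k A]
  [IsScalarTower k A A] [SMulCommClass k A A] {L : Type} [LieRing L] [LieAlgebra k L]

/-- `L` is the direct sum of `sl_3 ⊗ A`, the space of the matrices over `A` of trace zero, and of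
the space `B A`; the two projections are `m` and `b` -/
def IsSum (m : L →ₗ[k] Matrix (Fin 3) (Fin 3) A) (b : L →ₗ[k] B k A) : Prop :=
  (∀ x, (m x).trace = 0) ∧ ∀ P c, P.trace = 0 → ∃! x, m x = P ∧ b x = c

/-- `[Y ⊗ p, Z ⊗ q] = [Y, Z] ⊗ (pq + qp)/2 + {Y, Z} ⊗ (pq - qp) + (1/3) tr(YZ) p ∧ q` -/
def BrOne (m : L →ₗ[k] Matrix (Fin 3) (Fin 3) A) (b : L →ₗ[k] B k A) : Prop :=
  ∀ (Y Z : Matrix (Fin 3) (Fin 3) k) (p q : A) (x y : L), Y.trace = 0 → Z.trace = 0 →
    m x = tm Y p → b x = 0 → m y = tm Z q → b y = 0 →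
    m ⁅x, y⁆ = tm (Y * Z - Z * Y) ((2⁻¹ : k) • (p * q + q * p)) + tm (jp Y Z) (p * q - q * p) ∧
      b ⁅x, y⁆ = ((3⁻¹ : k) * (Y * Z).trace) • w k p q

/-- `[p ∧ q, Z ⊗ r] = Z ⊗ D_{p,q}(r)` -/
def BrTwo (m : L →ₗ[k] Matrix (Fin 3) (Fin 3) A) (b : L →ₗ[k] B k A) : Prop :=
  ∀ (Z : Matrix (Fin 3) (Fin 3) k) (p q r : A) (x y : L), Z.trace = 0 →
    m x = 0 → b x = w k p q → m y = tm Z r → b y = 0 →
    m ⁅x, y⁆ = tm Z (D k p q r) ∧ b ⁅x, y⁆ = 0

/-- `[p ∧ q, r ∧ s] = D_{p,q}(r) ∧ s + r ∧ D_{p,q}(s)` -/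
def BrThree (m : L →ₗ[k] Matrix (Fin 3) (Fin 3) A) (b : L →ₗ[k] B k A) : Prop :=
  ∀ (p q r s : A) (x y : L), m x = 0 → b x = w k p q → m y = 0 → b y = w k r s →
    m ⁅x, y⁆ = 0 ∧ b ⁅x, y⁆ = w k (D k p q r) s + w k r (D k p q s)

/-- `L` is the Allison-Benkart-Gao Lie algebra of `A` -/
def IsABG (m : L →ₗ[k] Matrix (Fin 3) (Fin 3) A) (b : L →ₗ[k] B k A) : Prop :=
  IsSum m b ∧ BrOne m b ∧ BrTwo m b ∧ BrThree m b

/-- the action of the scalar matrices on the Allison-Benkart-Gao Lie algebra: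
`Y · (Z ⊗ p) = [Y, Z] ⊗ p` (the matrix `P` over `A` is sent to `Y P - P Y`), and `B A` is sent
to zero -/
def IsAction (m : L →ₗ[k] Matrix (Fin 3) (Fin 3) A) (b : L →ₗ[k] B k A)
    (a : Matrix (Fin 3) (Fin 3) k → L →ₗ[k] L) : Prop :=
  ∀ Y x, m (a Y x) = sact Y (m x) ∧ b (a Y x) = 0

end

section

variable {k : Type} [Field k] {L : Type} [LieRing L] [LieAlgebra k L]

variable (k L) in
/-- cycles of degree `r` of the Chevalley-Eilenberg complex with trivial coefficients -/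
def Cyc (r : ℕ) : Submodule k (ExteriorAlgebra k L) := ⋀[k]^r L ⊓ LinearMap.ker (dd k L)

variable (k L) in
/-- boundaries of degree `r` of the Chevalley-Eilenberg complex with trivial coefficients -/
def Bou (r : ℕ) : Submodule k (ExteriorAlgebra k L) := (⋀[k]^(r + 1) L).map (dd k L)

/-- the homology of degree `r` (cycles modulo boundaries) contains a nonzero vector which is
annihilated by `sl_3` -/
def TrivComp (a : Matrix (Fin 3) (Fin 3) k → L →ₗ[k] L) (r : ℕ) : Prop :=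
  ∃ v ∈ Cyc k L r, v ∉ Bou k L r ∧
    ∀ Y : Matrix (Fin 3) (Fin 3) k, Y.trace = 0 → rho (a Y) v ∈ Bou k L r

/-- the homology of degree `r` (cycles modulo boundaries) contains the adjoint module `sl_3`: a
linear map `f` gives an injective homomorphism of `sl_3`-modules from `sl_3` to the homology -/
def AdjComp (a : Matrix (Fin 3) (Fin 3) k → L →ₗ[k] L) (r : ℕ) : Prop :=
  ∃ f : Matrix (Fin 3) (Fin 3) k →ₗ[k] ExteriorAlgebra k L,
    (∀ Z, Z.trace = 0 → f Z ∈ Cyc k L r) ∧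
    (∀ Y Z, Y.trace = 0 → Z.trace = 0 → rho (a Y) (f Z) - f (Y * Z - Z * Y) ∈ Bou k L r) ∧
    (∀ Z, Z.trace = 0 → f Z ∈ Bou k L r → Z = 0)

end

end

end Pool.ABG
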