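import Pool.Agent.ABG.Final
import Pool.Agent.ABG.Check
import Pool.Agent.ABG.Model

/-!
# The constructed Lie algebra has the characteristic properties
-/

set_option autoImplicit false

open Module ExteriorAlgebra

namespace Pool.ABG

noncomputable section

theorem freeAlt_isFree (k X : Type) [Field k] : IsFreeAlt k (FreeAlt.of k : X → FreeAlt k X) := by
  intro A' _ _ _ _ _ f
  refine ⟨FreeAlt.lift f, fun x => FreeAlt.lift_of f x, ?_⟩
  intro h hh
  apply NonUnitalAlgHom.ext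
  intro p
  exact FreeAlt.hom_ext h (FreeAlt.lift f) (fun x => by rw [hh x, FreeAlt.lift_of]) p

section

variable (k : Type) [Field k] (A : Type) [NonUnitalNonAssocRing A] [Module k A]
  [IsScalarTower k A A] [SMulCommClass k A A]

/-- the matrix component as a linear map -/
def matL : ABG k A →ₗ[k] Matrix (Fin 3) (Fin 3) A where
  toFun x := x.mat
  map_add' _ _ := rfl
  map_smul' _ _ := rfl

/-- the component in `B A` as a linear map -/
def bbL : ABG k A →ₗ[k] B k A where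
  toFun x := x.bb
  map_add' _ _ := rfl
  map_smul' _ _ := rfl

variable [IsAlt A] [CharZero k]

theorem isABG : IsABG (matL k A) (bbL k A) := by
  refine ⟨⟨fun x => x.2, ?_⟩, ?_, ?_, ?_⟩
  · intro P c hP
    refine ⟨ABG.mk P hP c, ⟨rfl, rfl⟩, ?_⟩
    rintro y ⟨h1, h2⟩
    exact ABG.ext h1 h2
  · intro Y Z p q x y hY hZ h1 h2 h3 h4
    have hx : x = tens Y hY p := ABG.ext h1 h2
    have hy : y = tens Z hZ q := ABG.ext h3 h4
    have h := (bracket_check Y Z hY hZ p q p p).1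
    rw [hx, hy, h]
    constructor
    · change (tens (Y * Z - Z * Y) (comm_trace Y Z) ((2⁻¹ : k) • (p * q + q * p))).mat +
        (tens (sym Y Z) (sym_trace Y Z) (p * q - q * p)).mat + 0 = _
      rw [add_zero]
      rfl
    · change (0 : B k A) + 0 + ((3⁻¹ : k) * (Y * Z).trace) • w k p q = _
      rw [add_zero, zero_add]
  · intro Z p q r x y hZ h1 h2 h3 h4
    have hx : x = inB (w k p q) := ABG.ext h1 h2
    have hy : y = tens Z hZ r := ABG.ext h3 h4
    have h := (bracket_check Z Z hZ hZ p q r r).2.1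
    rw [hx, hy, h]
    exact ⟨rfl, rfl⟩
  · intro p q r s x y h1 h2 h3 h4
    have hx : x = inB (w k p q) := ABG.ext h1 h2
    have hy : y = inB (w k r s) := ABG.ext h3 h4
    have h := (bracket_check (0 : Matrix (Fin 3) (Fin 3) k) 0 (Matrix.trace_zero _ _)
      (Matrix.trace_zero _ _) p q r s).2.2
    rw [hx, hy, h]
    exact ⟨rfl, rfl⟩

theorem isAction : IsAction (matL k A) (bbL k A) (act k A) := fun _ _ => ⟨rfl, rfl⟩

end

section

variable {k : Type} [Field k] {A : Type} [NonUnitalNonAssocRing A] [Module k A]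
  [IsScalarTower k A A] [SMulCommClass k A A] [IsAlt A] [CharZero k]

theorem mem_sl3 (Y : Matrix (Fin 3) (Fin 3) k) (hY : Y.trace = 0) :
    Y ∈ LieAlgebra.SpecialLinear.sl (Fin 3) k := by
  change Y ∈ LinearMap.ker (Matrix.traceLinearMap (Fin 3) k k)
  rw [LinearMap.mem_ker]
  exact hY

theorem trivComp (r : ℕ) (h : Hl k (ABG k A) r) (h0 : h ≠ 0)
    (hY : ∀ Y : LieAlgebra.SpecialLinear.sl (Fin 3) k, actHom k A Y.1 r h = 0) :
    TrivComp (act k A) r := by
  obtain ⟨v, rfl⟩ := Submodule.Quotient.mk_surjective _ h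
  refine ⟨v.1, v.2, ?_, ?_⟩
  · intro hb
    apply h0
    rw [Submodule.Quotient.mk_eq_zero]
    exact hb
  · intro Y hT
    have h1 := hY ⟨Y, mem_sl3 Y hT⟩
    have h2 : (Submodule.Quotient.mk (actZ (act k A Y) (act_der Y) r v) :
      Hl k (ABG k A) r) = 0 := h1
    rw [Submodule.Quotient.mk_eq_zero] at h2
    exact h2

/-- the projection of the matrices to the matrices of trace zero -/
def prsl : Matrix (Fin 3) (Fin 3) k →ₗ[k] LieAlgebra.SpecialLinear.sl (Fin 3) k where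
  toFun Y := ⟨Y - ((3⁻¹ : k) * Y.trace) • (1 : Matrix (Fin 3) (Fin 3) k), mem_sl3 _ (by
    have h3 : (3 : k) ≠ 0 := by norm_num
    rw [Matrix.trace_sub, Matrix.trace_smul, Matrix.trace_one, Fintype.card_fin, smul_eq_mul,
      Nat.cast_ofNat]
    field_simp
    ring)⟩
  map_add' Y Z := Subtype.ext (by
    change Y + Z - ((3⁻¹ : k) * (Y + Z).trace) • (1 : Matrix (Fin 3) (Fin 3) k) =
      (Y - ((3⁻¹ : k) * Y.trace) • (1 : Matrix (Fin 3) (Fin 3) k)) +
        (Z - ((3⁻¹ : k) * Z.trace) • (1 : Matrix (Fin 3) (Fin 3) k))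
    rw [Matrix.trace_add, mul_add, add_smul]
    abel)
  map_smul' c Y := Subtype.ext (by
    change c • Y - ((3⁻¹ : k) * (c • Y).trace) • (1 : Matrix (Fin 3) (Fin 3) k) =
      c • (Y - ((3⁻¹ : k) * Y.trace) • (1 : Matrix (Fin 3) (Fin 3) k))
    rw [Matrix.trace_smul, smul_sub, smul_smul, smul_eq_mul, mul_left_comm])

theorem prsl_val (Y : Matrix (Fin 3) (Fin 3) k) (hY : Y.trace = 0) :
    prsl Y = ⟨Y, mem_sl3 Y hY⟩ := by
  apply Subtype.ext
  change Y - ((3⁻¹ : k) * Y.trace) • (1 : Matrix (Fin 3) (Fin 3) k) = Y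
  rw [hY, mul_zero, zero_smul, sub_zero]

theorem adjComp (r : ℕ) (φ : LieAlgebra.SpecialLinear.sl (Fin 3) k →ₗ[k] Hl k (ABG k A) r)
    (h0 : Function.Injective φ)
    (hφ : ∀ Y Z : LieAlgebra.SpecialLinear.sl (Fin 3) k, φ ⁅Y, Z⁆ = actHom k A Y.1 r (φ Z)) :
    AdjComp (act k A) r := by
  obtain ⟨s, hs⟩ := LinearMap.exists_rightInverse_of_surjective
    (((Bd k (ABG k A) r).submoduleOf (Zc k (ABG k A) r)).mkQ) (Submodule.range_mkQ _)
  have hs' : ∀ h : Hl k (ABG k A) r, (Submodule.Quotient.mk (s h) : Hl k (ABG k A) r) = h :=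
    fun h => LinearMap.congr_fun hs h
  refine ⟨(Zc k (ABG k A) r).subtype ∘ₗ s ∘ₗ φ ∘ₗ prsl, ?_, ?_, ?_⟩
  · intro Z _
    exact (s (φ (prsl Z))).2
  · intro Y Z hY hZ
    have hYZ : (Y * Z - Z * Y).trace = 0 := comm_trace Y Z
    have h1 : (Submodule.Quotient.mk (actZ (act k A Y) (act_der Y) r (s (φ (prsl Z)))) :
        Hl k (ABG k A) r) = Submodule.Quotient.mk (s (φ (prsl (Y * Z - Z * Y)))) := by
      rw [hs', prsl_val _ hYZ]
      have h2 := hφ ⟨Y, mem_sl3 Y hY⟩ ⟨Z, mem_sl3 Z hZ⟩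
      have h3 : (⁅(⟨Y, mem_sl3 Y hY⟩ : LieAlgebra.SpecialLinear.sl (Fin 3) k),
        (⟨Z, mem_sl3 Z hZ⟩ : LieAlgebra.SpecialLinear.sl (Fin 3) k)⁆) =
          ⟨Y * Z - Z * Y, mem_sl3 _ hYZ⟩ := rfl
      rw [h3] at h2
      rw [h2, ← prsl_val Z hZ, ← actH_mk, hs']
      rfl
    rw [Submodule.Quotient.eq] at h1
    exact h1
  · intro Z hZ hb
    have h1 : (Submodule.Quotient.mk (s (φ (prsl Z))) : Hl k (ABG k A) r) = 0 := by
      rw [Submodule.Quotient.mk_eq_zero]
      exact hb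
    rw [hs'] at h1
    have h2 : prsl Z = 0 := h0 (by rw [h1, map_zero])
    rw [prsl_val Z hZ] at h2
    exact congrArg Subtype.val h2

end

/-- the final theorem -/
theorem model_final (k : Type) [Field k] [CharZero k] (X : Type) [Fintype X]
    (hX : 3 ≤ Fintype.card X) :
    ∃ (A : Type) (_ : NonUnitalNonAssocRing A) (_ : Module k A) (_ : IsScalarTower k A A)
      (_ : SMulCommClass k A A) (_ : IsAlt A) (i : X → A) (L : Type) (_ : LieRing L)
      (_ : LieAlgebra k L) (m : L →ₗ[k] Matrix (Fin 3) (Fin 3) A) (b : L →ₗ[k] B k A)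
      (a : Matrix (Fin 3) (Fin 3) k → L →ₗ[k] L),
      IsFreeAlt k i ∧ IsABG m b ∧ IsAction m b a ∧
        ∃ r : ℕ, 2 ≤ r ∧ r ≤ 10 ∧ (TrivComp a r ∨ AdjComp a r) := by
  refine ⟨FreeAlt k X, inferInstance, inferInstance, inferInstance, inferInstance, inferInstance,
    FreeAlt.of k, ABG k (FreeAlt k X), inferInstance, inferInstance, matL k _, bbL k _,
    act k (FreeAlt k X), freeAlt_isFree k X, isABG k _, isAction k _, ?_⟩
  obtain ⟨r, h2, h10, h⟩ := final k X hX
  refine ⟨r, h2, h10, ?_⟩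
  rcases h with ⟨h, h0, hY⟩ | ⟨φ, h0, hφ⟩
  · exact Or.inl (trivComp r h h0 hY)
  · exact Or.inr (adjComp r φ h0 hφ)

end

end Pool.ABG
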