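import Mathlib

/-!
# Modules of `gl_3`: weight spaces, the Casimir operator, alternating sums of weight multiplicities
-/

set_option autoImplicit false

namespace Pool.ABG

/-- the alternating sum of `m` over the six weights `lam + rho - w rho` -/
def wal {R : Type} [AddCommGroup R] (m : (Fin 3 → ℤ) → R) (lam : Fin 3 → ℤ) : R :=
  m lam - m (lam + ![1, -1, 0]) - m (lam + ![0, 1, -1]) + m (lam + ![2, -1, -1]) +
    m (lam + ![1, 1, -2]) - m (lam + ![2, 0, -2])

/-- the eigenvalue of the Casimir operator on a highest weight vector -/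
def qf (mu : Fin 3 → ℤ) : ℤ := mu 0 ^ 2 + mu 1 ^ 2 + mu 2 ^ 2 + 2 * (mu 0 - mu 2)

/-- the highest root -/
def theta : Fin 3 → ℤ := ![1, 0, -1]

/-- unit vectors -/
def ep (i : Fin 3) : Fin 3 → ℤ := Pi.single i 1

section

variable {k : Type} [Field k] {M : Type} [AddCommGroup M] [Module k M]

/-- the commutation relations of the nine elementary matrices -/
def IsGl (E : Fin 3 → Fin 3 → Module.End k M) : Prop :=
  ∀ a b c d, E a b * E c d - E c d * E a b =
    (if b = c then E a d else 0) - (if d = a then E c b else 0)

/-- weight spaces -/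
def wsp (E : Fin 3 → Fin 3 → Module.End k M) (mu : Fin 3 → ℤ) : Submodule k M where
  carrier := {v | ∀ i, E i i v = ((mu i : ℤ) : k) • v}
  add_mem' := fun {a b} ha hb i => by rw [map_add, ha i, hb i, smul_add]
  zero_mem' := fun i => by rw [map_zero, smul_zero]
  smul_mem' := fun c x hx i => by rw [map_smul, hx i, smul_comm]

/-- the Casimir operator -/
def cas (E : Fin 3 → Fin 3 → Module.End k M) : Module.End k M := ∑ a, ∑ b, E a b * E b a

end

end Pool.ABG
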