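import Pool.Agent.ABG.Main
import Pool.Agent.ABG.A30
import Pool.Agent.ABG.A36
import Pool.Agent.ABG.A39

/-!
# Three generators
-/

set_option autoImplicit false

open Module ExteriorAlgebra

namespace Pool.ABG

noncomputable section

variable {k : Type} [Field k]

/-- a nonzero homomorphism from the adjoint module is injective -/
theorem hasAdj_inj {A : Type} [NonUnitalNonAssocRing A] [Module k A]
    [IsScalarTower k A A] [SMulCommClass k A A] [IsAlt A] [CharZero k] (r : ℕ)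
    (h : HasAdj k A r) :
    ∃ φ : LieAlgebra.SpecialLinear.sl (Fin 3) k →ₗ[k] Hl k (ABG k A) r,
      Function.Injective φ ∧
      ∀ Y Z : LieAlgebra.SpecialLinear.sl (Fin 3) k, φ ⁅Y, Z⁆ = actHom k A Y.1 r (φ Z) := by
  obtain ⟨φ, h0, hY⟩ := h
  refine ⟨φ, ?_, hY⟩
  rw [← LinearMap.ker_eq_bot]
  by_contra hne
  have h1 := sl3_ideal k (LinearMap.ker φ) (fun Y Z hZ => by
    rw [LinearMap.mem_ker] at hZ ⊢
    rw [hY, hZ, map_zero]) hne
  exact h0 (LinearMap.ker_eq_top.1 h1)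

/-- three generators -/
theorem three (k : Type) [Field k] [CharZero k] : ∃ r : ℕ, 2 ≤ r ∧ r ≤ 10 ∧
    (HasTriv k (FreeAlt k (Fin 3)) r ∨ HasAdj k (FreeAlt k (Fin 3)) r) := by
  by_contra hc
  have hT : ∀ r, 2 ≤ r → r ≤ 10 → ¬ HasTriv k (FreeAlt k (Fin 3)) r :=
    fun r h2 h10 h => hc ⟨r, h2, h10, Or.inl h⟩
  have hA : ∀ r, 2 ≤ r → r ≤ 10 → ¬ HasAdj k (FreeAlt k (Fin 3)) r :=
    fun r h2 h10 h => hc ⟨r, h2, h10, Or.inr h⟩
  have hd := gr_dim k (Fin 3)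
  have h := numeric3 (da k (Fin 3)) (db k (Fin 3)) hd.1 (db_one k (Fin 3)) (fun n h2 h10 =>
    ⟨ec_cf k (Fin 3) n h2 (fun r h2 hr => hT r h2 (le_trans hr h10))
      (fun r h2 hr => hA r h2 (le_trans hr h10)) 0 (Or.inl rfl),
    ec_cf k (Fin 3) n h2 (fun r h2 hr => hT r h2 (le_trans hr h10))
      (fun r h2 hr => hA r h2 (le_trans hr h10)) theta (Or.inr rfl)⟩)
  have h3 : Fintype.card (Fin 3) ^ 10 ≤ da k (Fin 3) 10 := hd.2 10 (by norm_num)
  rw [h, Fintype.card_fin] at h3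
  norm_num at h3

end

end Pool.ABG
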